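import Pool.Agent.Lib.MP_684ec1_an.NB.Spec

/-!
# MP_684ec1: module PLD (polar coordinates in the disc)
-/

set_option autoImplicit false

namespace Pool.Agent.Lib.MP684ec1.NB

open Complex Polynomial MeasureTheory intervalIntegral
open Pool.Agent.Lib.MP684ec1.HP

namespace PLDM

lemma pt_eq (r φ : ℝ) : pt r φ = (r : ℂ) * ((Real.cos φ : ℝ) + (Real.sin φ : ℝ) * I) := by
  unfold pt
  rw [exp_mul_I, ofReal_cos, ofReal_sin]

lemma pt_norm {r : ℝ} (hr : 0 ≤ r) (φ : ℝ) : ‖pt r φ‖ = r := by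
  unfold pt
  rw [norm_mul, norm_exp_ofReal_mul_I, mul_one, norm_real, Real.norm_of_nonneg hr]

lemma pt_cont : Continuous fun p : ℝ × ℝ => pt p.1 p.2 := by
  unfold pt
  fun_prop

lemma pt_per (r φ : ℝ) : pt r (φ + 2 * Real.pi) = pt r φ := by
  rw [pt_eq, pt_eq, Real.cos_add_two_pi, Real.sin_add_two_pi]

end PLDM

open PLDM in
theorem specPLD (_hPOL : HP.SpecPOL) : SpecPLD := by
  intro f hf
  rw [← MeasureTheory.integral_indicator measurableSet_closedBall,
    ← Complex.integral_comp_polarCoord_symm]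
  have hS : MeasurableSet (Set.Ioc (0 : ℝ) 1 ×ˢ Set.Ioo (-Real.pi) Real.pi) :=
    measurableSet_Ioc.prod measurableSet_Ioo
  have hT : MeasurableSet polarCoord.target := polarCoord.open_target.measurableSet
  have e1 : ∫ p in polarCoord.target,
      p.1 • (Metric.closedBall (0 : ℂ) 1).indicator f (Complex.polarCoord.symm p) =
      ∫ p in polarCoord.target, (Set.Ioc (0 : ℝ) 1 ×ˢ Set.Ioo (-Real.pi) Real.pi).indicator
        (fun p : ℝ × ℝ => p.1 * f (pt p.1 p.2)) p := by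
    refine setIntegral_congr_fun hT ?_
    rintro ⟨r, φ⟩ hp
    rw [polarCoord_target, Set.mem_prod, Set.mem_Ioi, Set.mem_Ioo] at hp
    obtain ⟨h0, h1, h2⟩ := hp
    have h0' : 0 < r := h0
    have e2 : Complex.polarCoord.symm (r, φ) = pt r φ := by
      rw [Complex.polarCoord_symm_apply, pt_eq]
    change r • (Metric.closedBall (0 : ℂ) 1).indicator f (Complex.polarCoord.symm (r, φ)) = _
    rw [e2]
    by_cases h : pt r φ ∈ Metric.closedBall (0 : ℂ) 1
    · rw [Set.indicator_of_mem h]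
      have h3 : r ≤ 1 := by
        rw [mem_closedBall_zero_iff, pt_norm h0'.le] at h
        exact h
      rw [Set.indicator_of_mem (show (r, φ) ∈ Set.Ioc (0 : ℝ) 1 ×ˢ Set.Ioo (-Real.pi) Real.pi from
        ⟨⟨h0', h3⟩, ⟨h1, h2⟩⟩)]
      rfl
    · rw [Set.indicator_of_notMem h, smul_zero, Set.indicator_of_notMem]
      rintro ⟨⟨_, h4⟩, _⟩
      apply h
      rw [mem_closedBall_zero_iff, pt_norm h0'.le]
      exact h4
  rw [e1, setIntegral_indicator hS]
  have hsub : Set.Ioc (0 : ℝ) 1 ×ˢ Set.Ioo (-Real.pi) Real.pi ⊆ polarCoord.target := by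
    rw [polarCoord_target]
    rintro ⟨r, φ⟩ ⟨h1, h2⟩
    exact ⟨h1.1, h2⟩
  rw [Set.inter_eq_self_of_subset_right hsub]
  have hcont : Continuous fun p : ℝ × ℝ => p.1 * f (pt p.1 p.2) :=
    continuous_fst.mul (hf.comp pt_cont)
  have hint : IntegrableOn (fun p : ℝ × ℝ => p.1 * f (pt p.1 p.2))
      (Set.Icc (0 : ℝ) 1 ×ˢ Set.Icc (-Real.pi) Real.pi) (volume.prod volume) := by
    refine ContinuousOn.integrableOn_compact (isCompact_Icc.prod isCompact_Icc) hcont.continuousOn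
  have hint1 : IntegrableOn (fun p : ℝ × ℝ => p.1 * f (pt p.1 p.2))
      (Set.Ioc (0 : ℝ) 1 ×ˢ Set.Ioo (-Real.pi) Real.pi) (volume.prod volume) :=
    hint.mono_set (Set.prod_mono Set.Ioc_subset_Icc_self Set.Ioo_subset_Icc_self)
  have e3 : ∫ p in Set.Ioc (0 : ℝ) 1 ×ˢ Set.Ioo (-Real.pi) Real.pi, p.1 * f (pt p.1 p.2) =
      ∫ r in Set.Ioc (0 : ℝ) 1, ∫ φ in Set.Ioo (-Real.pi) Real.pi, r * f (pt r φ) :=
    setIntegral_prod (fun p : ℝ × ℝ => p.1 * f (pt p.1 p.2)) hint1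
  rw [e3]
  have hint2 : Integrable (Function.uncurry fun (r φ : ℝ) => r * f (pt r φ))
      ((volume.restrict (Set.Ioc (0 : ℝ) 1)).prod
        (volume.restrict (Set.Ioo (-Real.pi) Real.pi))) := by
    rw [Measure.prod_restrict]
    exact hint1
  have hper : Function.Periodic (fun φ : ℝ => ∫ r in (0 : ℝ)..1, r * f (pt r φ)) (2 * Real.pi) := by
    intro φ
    simp only [pt_per]
  have e4 : (∫ φ in (0 : ℝ)..(2 * Real.pi), ∫ r in (0 : ℝ)..1, r * f (pt r φ)) =
      ∫ φ in (-Real.pi)..Real.pi, ∫ r in (0 : ℝ)..1, r * f (pt r φ) := by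
    have h := hper.intervalIntegral_add_eq 0 (-Real.pi)
    rw [zero_add, show -Real.pi + 2 * Real.pi = Real.pi by ring] at h
    exact h
  rw [integral_integral_swap hint2, ← integral_Ioc_eq_integral_Ioo, e4,
    intervalIntegral.integral_of_le (by linarith [Real.pi_pos])]
  refine setIntegral_congr_fun measurableSet_Ioc ?_
  intro φ _
  change _ = ∫ r in (0 : ℝ)..1, r * f (pt r φ)
  rw [intervalIntegral.integral_of_le zero_le_one]

end Pool.Agent.Lib.MP684ec1.NB
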