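import Pool.Agent.Lib.MP_684ec1_an.MD.Spec

/-!
# MP_684ec1: Littlewood's integral, the size of the polynomial and the number of its monomials. Definitions and exact statements

THEOREM A (`Results/MP_684ec1_an/NormBound.lean`). Let `p` be a polynomial of degree `n ≥ 1` and `M` the mean of `log (1 + |p|²)` over the unit
circle (`M ≤ log (1 + ∑ |a_k|²)`). Then `P(p) ≤ 5 + π √(M (1 + log n))`. The order is right: for every `n ≥ 1` some `p` of degree `≤ n` with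
`∑ |a_k|² ≤ 1` has `P(p) ≥ √(log n) / 7`.
THEOREM B (`Results/MP_684ec1_an/Monomials.lean`). If `p` has `m` monomials (any degree) then `P(p) ≤ π³ m`; and for every `m ≥ 1` some `p` with `m`
monomials has `P(p) ≥ √m / 4`.

Module `XXX` is the file `NB/XXX.lean` with `theorem specXXX (hYYY : SpecYYY) .. : SpecXXX` (the modules named after USES, in this
order) in the namespace `Pool.Agent.Lib.MP684ec1.NB`, own lemmas in the namespace `XXXM`. Every module imports only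
`Pool.Agent.Lib.MP_684ec1_an.NB.Spec`. All proofs below are complete.

IDEA of A: in the coordinates `z = e^(x + iθ)` the function `U(x) = ∫ (1/2) log (1 + |p|²) dθ` has `U'' = 2 a(x)`, `a(x) = ∫ (e^x p^#)² dθ`, so
`∫ |x| a(x) dx ≤ U(0)/2`; Cauchy-Schwarz with the weight `|x|` on `|z| ≤ e^(-1/n)`, the area of the image on the rest. IDEA of B: Crofton's
formula for the images of the rays; `Re (c p(r e^(iθ)))` has at most `m` monotone pieces in `r` (Descartes).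
-/

set_option autoImplicit false

namespace Pool.Agent.Lib.MP684ec1.NB

open Complex Polynomial MeasureTheory intervalIntegral
open Pool.Agent.Lib.MP684ec1.HP

noncomputable section

/-! ## Definitions (`sph p z = |p'(z)| / (1 + |p(z)|²)` and `pt r φ = r e^(iφ)` are in `HP/Spec.lean`) -/

/-- the point `e^(x + iθ)` -/
def lp (x θ : ℝ) : ℂ := exp ((x : ℂ) + (θ : ℂ) * I)

/-- `a(x) = ∫ (e^x p^#)² dθ` -/
def aa (p : ℂ[X]) (x : ℝ) : ℝ := ∫ θ in (0 : ℝ)..(2 * Real.pi), (sph p (lp x θ) * Real.exp x) ^ 2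

/-- `U(x) = ∫ (1/2) log (1 + |p|²) dθ` -/
def UU (p : ℂ[X]) (x : ℝ) : ℝ := ∫ θ in (0 : ℝ)..(2 * Real.pi), Real.log (1 + ‖p.eval (lp x θ)‖ ^ 2) / 2

/-- `φ_x`, `φ = (1/2) log (1 + |p|²)` -/
def fx (p : ℂ[X]) (x θ : ℝ) : ℝ :=
  ((starRingEnd ℂ) (p.eval (lp x θ)) * (p.derivative.eval (lp x θ) * lp x θ)).re / (1 + ‖p.eval (lp x θ)‖ ^ 2)

/-- `φ_θ` -/
def ft (p : ℂ[X]) (x θ : ℝ) : ℝ :=
  -((starRingEnd ℂ) (p.eval (lp x θ)) * (p.derivative.eval (lp x θ) * lp x θ)).im / (1 + ‖p.eval (lp x θ)‖ ^ 2)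

/-- `W = U'` -/
def WW (p : ℂ[X]) (x : ℝ) : ℝ := ∫ θ in (0 : ℝ)..(2 * Real.pi), fx p x θ

/-- the example: `m` monomials `z^(4^(j+1)) / √m` -/
def cc (m : ℕ) : ℂ[X] := ∑ j ∈ Finset.range m, C ((1 / Real.sqrt m : ℝ) : ℂ) * X ^ (4 ^ (j + 1))

/-! ## Green's formula -/

/-- **PDE** (150 lines). The pointwise facts.
PROOF. `G(x, θ) = p(e^(x+iθ))`, `z = lp x θ`, `G' = z p'(z)`, `G'' = z (p'(z) + z p''(z))`: `∂_x G = G'`, `∂_θ G = i G'`, `∂_x G' = G''`, `∂_θ G' = i G''`.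
`N = 1 + |G|²`. `∂_x (log N / 2) = Re (conj G · G')/N = fx`. With `H = Re (conj G · G'')`:
`∂_x fx = (|G'|² + H)/N - 2 (Re (conj G · G'))²/N² = gxx`, `∂_θ ft = (|G'|² - H)/N - 2 (Im (conj G · G'))²/N² = gtt`, and
`gxx + gtt = 2 |G'|²/N - 2 |G|² |G'|²/N² = 2 |G'|²/N² = 2 (sph · e^x)²`. -/
def SpecPDE : Prop := ∀ p : ℂ[X], ∃ gxx gtt : ℝ × ℝ → ℝ, Continuous gxx ∧ Continuous gtt ∧
  (∀ x θ : ℝ, HasDerivAt (fun t => Real.log (1 + ‖p.eval (lp t θ)‖ ^ 2) / 2) (fx p x θ) x) ∧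
  (∀ x θ : ℝ, HasDerivAt (fun t => fx p t θ) (gxx (x, θ)) x) ∧
  (∀ x θ : ℝ, HasDerivAt (fun t => ft p x t) (gtt (x, θ)) θ) ∧
  ∀ x θ : ℝ, gxx (x, θ) + gtt (x, θ) = 2 * (sph p (lp x θ) * Real.exp x) ^ 2

/-- **GRN** (120 lines), USES PDE. Green's formula.
PROOF. First part: for every `θ` the difference is `∫ fx dx` (fundamental theorem), integrate over `θ` and exchange the integrals (everything is continuous on
`[x₀, x₁] × [0, 2π]`: `lp` is continuous in both variables). Second part: the same with `∂_x fx = gxx = 2 (sph e^x)² - gtt`, and `∫_0^2π gtt dθ = ft p x (2π) - ft p x 0 = 0` (`lp` is `2π`-periodic in `θ`). -/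
def SpecGRN : Prop := ∀ (p : ℂ[X]) (x₀ x₁ : ℝ), x₀ ≤ x₁ → UU p x₁ - UU p x₀ = (∫ x in x₀..x₁, WW p x) ∧
  WW p x₁ - WW p x₀ = 2 * ∫ x in x₀..x₁, aa p x

/-- **WLM** (80 lines), USES GRN.
PROOF. `aa ≥ 0`, so `WW p x ≥ WW p y` for `y ≤ x`; and for `y ≤ 0`, `|fx p y θ| ≤ |G||G'|/(1+|G|²) ≤ |G'| ≤ e^y max_(|z| ≤ 1) |p'|`, so `WW p y → 0` as `y → -∞`. -/
def SpecWLM : Prop := ∀ (p : ℂ[X]) (x : ℝ), 0 ≤ WW p x

/-- **WEI** (100 lines), USES GRN, WLM.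
PROOF. `U(x₁) ≥ U(x₁) - U(x₀) = ∫ W`, `W(x) ≥ W(x) - W(x₀) = 2 ∫_(x₀)^x a`, and `∫_(x₀)^(x₁) ∫_(x₀)^x a(t) dt dx = ∫_(x₀)^(x₁) (x₁ - t) a(t) dt` (integration by parts;
`aa p` and `WW p` are continuous: parametric integrals of continuous functions). `U ≥ 0`. -/
def SpecWEI : Prop := ∀ (p : ℂ[X]) (x₀ x₁ : ℝ), x₀ ≤ x₁ → ∫ x in x₀..x₁, (x₁ - x) * aa p x ≤ UU p x₁ / 2

/-! ## Theorem A, upper bound -/

/-- **PLR** (150 lines). Log-polar coordinates.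
PROOF. `Complex.integral_comp_polarCoord_symm` (Mathlib) for `f` times the indicator of the annulus; the angle `(-π, π)` can be replaced by `(0, 2π)` (periodicity); `r = e^x` (substitution:
`intervalIntegral.integral_comp_mul_deriv`, `dr = e^x dx`, `r dr = e^(2x) dx`). Continuous functions, so Fubini is clear. -/
def SpecPLR : Prop := ∀ f : ℂ → ℝ, Continuous f → ∀ x₀ x₁ : ℝ, x₀ ≤ x₁ →
  ∫ z in {z : ℂ | Real.exp x₀ < ‖z‖ ∧ ‖z‖ ≤ Real.exp x₁}, f z =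
    ∫ x in x₀..x₁, ∫ θ in (0 : ℝ)..(2 * Real.pi), f (lp x θ) * Real.exp (2 * x)

/-- **ANN** (150 lines), USES WEI, PLR. The annulus `e^(x₀) < |z| ≤ e^(-δ)`.
PROOF. `s = sph (lp x θ) e^x`, so that the integrand in PLR is `s e^x`. For `λ > 0` and `x < 0`: `s e^x ≤ (λ/2) |x| s² + (1/(2λ)) e^(2x)/|x|`. Integrate over `[x₀, -δ] × [0, 2π]`: the first part is
`(λ/2) ∫ (-x) a(x) dx ≤ (λ/2) ∫_(x₀)^0 (0 - x) a(x) dx ≤ λ U(0)/4` (WEI with `x₁ = 0`), the second one is `(π/λ) ∫_δ^(-x₀) e^(-2t)/t dt ≤ (π/λ) (log (1/δ) + 1)` (`∫_δ^1 dt/t`, and `∫_1^∞ e^(-2t) dt ≤ 1`).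
The minimum over `λ` of `λ U/4 + π K/λ` is `√(π U K)` (if `U = 0` let `λ → ∞`, or take `U + ε`). -/
def SpecANN : Prop := ∀ (p : ℂ[X]) (x₀ δ : ℝ), 0 < δ → δ ≤ 1 → x₀ ≤ -δ →
  ∫ z in {z : ℂ | Real.exp x₀ < ‖z‖ ∧ ‖z‖ ≤ Real.exp (-δ)}, sph p z ≤ Real.sqrt (Real.pi * UU p 0 * (1 + Real.log (1 / δ)))

/-- **OUT** (80 lines), USES `MD.SpecCSA` (hypothesis `(hCSA : MD.SpecCSA)`). The outer annulus.
PROOF. Its area is `π (1 - e^(-2/n)) ≤ 2π/n` (difference of two balls, `Complex.volume_closedBall`), so CSA with `v = 2π/n` gives `√(n π · 2π/n) = √2 π ≤ 5` (`π < 3.15`, `√2 < 1.415`). -/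
def SpecOUT : Prop := ∀ p : ℂ[X], 0 < p.natDegree →
  ∫ z in {z : ℂ | Real.exp (-(1 / (p.natDegree : ℝ))) < ‖z‖ ∧ ‖z‖ ≤ 1}, sph p z ≤ 5

/-- **FNB** (100 lines), USES ANN, OUT. The upper bound.
PROOF. The disc is the union of the outer annulus (OUT), of the annulus of ANN for `δ = 1/n` (`log (1/δ) = log n`) and of the ball of radius `e^(x₀)`, on which the integral is `≤ C π e^(2 x₀)` (`C` a bound
of the continuous function `sph p` on the disc); `x₀ → -∞`. -/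
def SpecFNB : Prop := ∀ p : ℂ[X], 0 < p.natDegree →
  ∫ z in Metric.closedBall (0 : ℂ) 1, sph p z ≤ 5 + Real.sqrt (Real.pi * UU p 0 * (1 + Real.log p.natDegree))

/-- **JEN** (100 lines).
PROOF. `log` is concave: `log (1 + t) ≤ log (1 + c) + (t - c)/(1 + c)` for `t, c ≥ 0` (`Real.log_le_sub_one_of_pos` for `(1+t)/(1+c)`); put `t = |p|²`, `c = ∑ |a_k|²` and integrate over the circle:
`∫_0^2π |p|² dθ = 2π c` (orthogonality; compare `Polynomial.mahlerMeasure_le_sqrt_sum_sq_norm_coeff` in Mathlib). -/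
def SpecJEN : Prop := ∀ p : ℂ[X], UU p 0 ≤ Real.pi * Real.log (1 + ∑ k ∈ p.support, ‖p.coeff k‖ ^ 2)

/-! ## The lower bounds -/

/-- **MOM** (150 lines). Moments of lacunary sums.
PROOF. Induction on `m`; `Q` the sum for `m`, `K = 4^(m+1)`, `c = c_m`, `S = ∑_(j<m) |c_j|²`, `E` the mean over the circle. `|Q + c e^(iKθ)|² = |Q|² + |c|² + 2 Re (conj Q c e^(iKθ))`. `Q` is a combination of `e^(ikθ)`, `0 ≤ k ≤ 4^m`, so
`conj Q e^(iKθ)` has frequencies in `[K - 4^m, K]` (positive), `(|Q|² + |c|²) conj Q e^(iKθ)` in `[K - 2·4^m, K + 4^m]` (positive), `(conj Q)² e^(2iKθ)` positive ones: their means are `0`. So `E |Q + c e|² = S + |c|²` and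
(`4 (Re w)² = 2 |w|² + 2 Re w²`) `E |Q + c e|⁴ = E (|Q|² + |c|²)² + 2 |c|² E |Q|² = E |Q|⁴ + 4 |c|² S + |c|⁴ ≤ 2 S² + 4 |c|² S + 2 |c|⁴ = 2 (S + |c|²)²`.
(Or expand `Q² = ∑ c_j² e^(2·4^(j+1) iθ) + 2 ∑_(i<j) ..` with different frequencies.) -/
def SpecMOM : Prop := ∀ (m : ℕ) (c : ℕ → ℂ),
  (∫ θ in (0 : ℝ)..(2 * Real.pi), ‖∑ j ∈ Finset.range m, c j * exp (((4 ^ (j + 1) : ℕ) : ℂ) * ((θ : ℂ) * I))‖ ^ 2) =
      2 * Real.pi * ∑ j ∈ Finset.range m, ‖c j‖ ^ 2 ∧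
  (∫ θ in (0 : ℝ)..(2 * Real.pi), ‖∑ j ∈ Finset.range m, c j * exp (((4 ^ (j + 1) : ℕ) : ℂ) * ((θ : ℂ) * I))‖ ^ 4) ≤
      4 * Real.pi * (∑ j ∈ Finset.range m, ‖c j‖ ^ 2) ^ 2

/-- **LOW** (120 lines). The lower bound on a circle.
PROOF. `s = 0`: trivial. `1/(1+t) ≥ (5 - t)/9` for `t ≥ 0` (`9 - (5 - t)(1 + t) = (t - 2)²`), so `|Q|/(1+|P|²) ≥ (5/9)|Q| - (1/9)|Q||P|²`. For `μ > 0`, `u ≥ 0`: `u ≥ u²/μ - (4/27) u⁴/μ³`
(`v = u/μ`: `27 v² - 27 v ≤ 4 v⁴`, i.e. `v (v + 3)(2 v - 3)² ≥ 0`). With `μ = (2√2/3) s`: `∫|Q| ≥ 2π (s²/μ - (8/27) s⁴/μ³) = 2π s/√2`. With `κ = s/√2`: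
`|Q||P|² ≤ |Q|²/(2κ) + κ|P|⁴/2`, so `∫ |Q||P|² ≤ 2π (s²/(2κ) + κ) = 2π √2 s`. Together `≥ 2π s (5/(9√2) - √2/9) = 2π s √2/6 ≥ 2π s/5`. -/
def SpecLOW : Prop := ∀ (P Q : ℝ → ℂ) (s : ℝ), Continuous P → Continuous Q → 0 ≤ s →
  (∫ θ in (0 : ℝ)..(2 * Real.pi), ‖P θ‖ ^ 4) ≤ 4 * Real.pi →
  (∫ θ in (0 : ℝ)..(2 * Real.pi), ‖Q θ‖ ^ 2) = 2 * Real.pi * s ^ 2 →
  (∫ θ in (0 : ℝ)..(2 * Real.pi), ‖Q θ‖ ^ 4) ≤ 4 * Real.pi * s ^ 4 →
  2 * Real.pi * s / 5 ≤ ∫ θ in (0 : ℝ)..(2 * Real.pi), ‖Q θ‖ / (1 + ‖P θ‖ ^ 2)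

/-- **CCF** (60 lines). The coefficients of the example. -/
def SpecCCF : Prop := ∀ m : ℕ, 0 < m → (cc m).natDegree = 4 ^ m ∧ (cc m).support.card = m ∧
  ∑ k ∈ (cc m).support, ‖(cc m).coeff k‖ ^ 2 = 1

/-- **EXM** (180 lines), USES PLR, MOM, LOW. The example.
PROOF. `p = cc m`, `x ≤ 0`, `z = lp x θ`: `P(θ) = p(z) = ∑ c_j e^(i 4^(j+1) θ)`, `c_j = e^(4^(j+1) x)/√m`, `∑ |c_j|² ≤ 1`; `Q(θ) = z p'(z) = ∑ 4^(j+1) c_j e^(..)`, `s(x)² = ∑ (4^(j+1) c_j)²`. By MOM and LOW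
`∫ |Q|/(1+|P|²) dθ ≥ 2π s(x)/5`, and `sph(z) e^(2x) = e^x |Q|/(1+|P|²)`. By PLR on `[-1/4, 0]` (`sph ≥ 0`) the integral over the disc is at least `∑_(j<m)` of the integral over
`x` in `[-4^(-(j+1)), -4^(-(j+2))]` (adjacent intervals in `[-1/4, 0]`) of `e^x 2π s(x)/5 ≥ e^(-1/4) (2π/5) 4^(j+1) e^(-1)/√m`; the length is `(3/4) 4^(-(j+1))`, so each term is
`≥ (3π/10) e^(-5/4)/√m ≥ 1/(4√m)` (`π > 3.14`, `e^(5/4) < 3.4904`: `0.942 / 3.4904 = 0.2698..`). -/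
def SpecEXM : Prop := ∀ m : ℕ, 0 < m → Real.sqrt m / 4 ≤ ∫ z in Metric.closedBall (0 : ℂ) 1, sph (cc m) z

/-- **FLB** (80 lines), USES CCF, EXM.
PROOF. `n ≥ 4`: `m = Nat.log 4 n ≥ 1`, `p = cc m`, `4^m ≤ n < 4^(m+1)`, `log n ≤ (m + 1) log 4 ≤ 2 m · 1.3863`, and `√(2.7726 m)/7 ≤ √m/4`. `1 ≤ n ≤ 3`: `p = X`, `sph = 1/(1+|z|²) ≥ 1/2`, the integral is
`≥ π/2 ≥ √(log 3)/7`. -/
def SpecFLB : Prop := ∀ n : ℕ, 0 < n → ∃ p : ℂ[X], p.natDegree ≤ n ∧ ∑ k ∈ p.support, ‖p.coeff k‖ ^ 2 ≤ 1 ∧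
  Real.sqrt (Real.log n) / 7 ≤ ∫ z in Metric.closedBall (0 : ℂ) 1, sph p z

/-! ## Theorem B, upper bound -/

/-- **PIE** (120 lines). Monotone pieces.
PROOF. Constant `g`: `0`. More generally for `a ≤ b` in `[0, 1]` and the number `N` of the roots of `g'` in `(a, b)`: `∫_a^b |g'|/(1+g²) ≤ π (N + 1)`. Induction on `N`: `N = 0`: `g'` has a constant sign on `(a, b)`
(intermediate value theorem), so the integral is `|arctan g(b) - arctan g(a)| ≤ π`. Otherwise split at a root `c` in `(a, b)`: the numbers for `(a, c)` and `(c, b)` have the sum `≤ N - 1`. -/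
def SpecPIE : Prop := ∀ g : ℝ[X], ∫ r in (0 : ℝ)..1, |g.derivative.eval r| / (1 + g.eval r ^ 2) ≤
  Real.pi * ((g.derivative.roots.toFinset.filter (fun r => 0 < r)).card + 1)

/-- **DSC** (80 lines). Descartes.
PROOF. `Polynomial.roots_countP_pos_le_signVariations` (Mathlib, `Algebra/Polynomial/RuleOfSigns.lean`), and `signVariations q + 1 ≤ q.support.card` by the definition (the sign list without zeros has `q.support.card` entries), or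
by induction with `signVariations_le_eraseLead_succ` and `Polynomial.eraseLead_support_card_lt`. (Or Rolle's theorem and induction.) -/
def SpecDSC : Prop := ∀ q : ℝ[X], q ≠ 0 → (q.roots.toFinset.filter (fun r => 0 < r)).card + 1 ≤ q.support.card

/-- **RAY** (150 lines), USES PIE, DSC. The spherical length of the image of a ray.
PROOF. `h(r) = p(r e^(iθ))`, `h'(r) = e^(iθ) p'(r e^(iθ))`. For every complex `v`: `∫_0^π |Re (e^(-iα) v)| dα = 2 |v|`, and `(Re (e^(-iα) h))² ≤ |h|²`, so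
`|h'|/(1+|h|²) ≤ (1/2) ∫_0^π |g_α'|/(1+g_α²) dα` with `g_α(r) = Re (e^(-iα) h(r))`. Integrate over `r` and exchange (continuous). `g_α` is the real polynomial with the coefficients `Re (e^(-iα) a_k e^(ikθ))`, so `g_α'` has at most
`m = p.support.card` monomials (`support ⊆ {k - 1 : k ∈ p.support}`), and PIE, DSC give `≤ π m` for every `α` (if `g_α' = 0` the integral is `0`). Total `≤ (1/2) π · π m`. -/
def SpecRAY : Prop := ∀ (p : ℂ[X]) (θ : ℝ), ∫ r in (0 : ℝ)..1, sph p (pt r θ) ≤ Real.pi ^ 2 / 2 * p.support.card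

/-- **PLD** (100 lines), USES `HP.SpecPOL` (hypothesis `(hPOL : HP.SpecPOL)`). Polar coordinates in the disc.
PROOF. The disc is the union of `Hd` and `-Hd` (the intersection is in the real line, measure `0`), `∫_(-Hd) f = ∫_(Hd) f(-z)`, `pt r (φ + π) = - pt r φ`. -/
def SpecPLD : Prop := ∀ f : ℂ → ℝ, Continuous f →
  ∫ z in Metric.closedBall (0 : ℂ) 1, f z = ∫ φ in (0 : ℝ)..(2 * Real.pi), ∫ r in (0 : ℝ)..1, r * f (pt r φ)

/-- **MON** (50 lines), USES RAY, PLD.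
PROOF. `r sph ≤ sph` for `0 ≤ r ≤ 1`; `2π · (π²/2) m`. -/
def SpecMON : Prop := ∀ p : ℂ[X], ∫ z in Metric.closedBall (0 : ℂ) 1, sph p z ≤ Real.pi ^ 3 * p.support.card

end

end Pool.Agent.Lib.MP684ec1.NB
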