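import Pool.Agent.Lib.MP_684ec1_an.NB.Spec

/-!
# MP_684ec1 : module ANN (the annulus, by Cauchy-Schwarz with the weight `|x|`)
-/

set_option autoImplicit false

namespace Pool.Agent.Lib.MP684ec1.NB

open Complex Polynomial MeasureTheory intervalIntegral
open Pool.Agent.Lib.MP684ec1.HP

noncomputable section

namespace ANNM

theorem sph_cont (p : ℂ[X]) : Continuous (sph p) := by
  unfold sph
  exact (p.derivative.continuous.norm).div (continuous_const.add (p.continuous.norm.pow 2))
    fun z => by positivity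

theorem sph_nonneg (p : ℂ[X]) (z : ℂ) : 0 ≤ sph p z := by
  unfold sph
  positivity

theorem lp_cont : Continuous fun q : ℝ × ℝ => lp q.1 q.2 := by
  unfold lp
  fun_prop

theorem aa_cont (p : ℂ[X]) : Continuous (aa p) := by
  unfold aa
  apply continuous_parametric_intervalIntegral_of_continuous'
    (f := fun x θ => (sph p (lp x θ) * Real.exp x) ^ 2)
  have h1 : Continuous fun q : ℝ × ℝ => sph p (lp q.1 q.2) := (sph_cont p).comp lp_cont
  exact (h1.mul (Real.continuous_exp.comp continuous_fst)).pow 2

theorem in_cont (p : ℂ[X]) (x : ℝ) : Continuous fun θ => sph p (lp x θ) :=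
  (sph_cont p).comp (lp_cont.comp (Continuous.prodMk_right x))

theorem aa_nonneg (p : ℂ[X]) (x : ℝ) : 0 ≤ aa p x := by
  unfold aa
  apply intervalIntegral.integral_nonneg (by positivity)
  intro θ _
  positivity

/-- the primitive -/
def H (x : ℝ) : ℝ := Real.log (1 - x) - Real.log (-x)

theorem H_deriv {x : ℝ} (hx : x < 0) : HasDerivAt H (1 / ((-x) * (1 - x))) x := by
  have h1 : HasDerivAt (fun x : ℝ => 1 - x) (-1) x := by
    simpa using (hasDerivAt_id x).const_sub 1
  have h2 : HasDerivAt (fun x : ℝ => -x) (-1) x := hasDerivAt_neg' x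
  have h3 := (h1.log (by linarith : (1 : ℝ) - x ≠ 0)).sub (h2.log (by linarith : -x ≠ 0))
  have h4 : -1 / (1 - x) - -1 / -x = 1 / ((-x) * (1 - x)) := by
    have h5 : (1 : ℝ) - x ≠ 0 := by linarith
    have h6 : x ≠ 0 := by linarith
    field_simp
    ring
  rw [h4] at h3
  exact h3

theorem H_bound {x₀ δ : ℝ} (hδ : 0 < δ) (hδ1 : δ ≤ 1) (hx : x₀ ≤ -δ) :
    H (-δ) - H x₀ ≤ 1 + Real.log (1 / δ) := by
  unfold H
  rw [neg_neg, sub_neg_eq_add, one_div, Real.log_inv]
  have h1 : Real.log (1 + δ) ≤ δ := by
    have := Real.log_le_sub_one_of_pos (by linarith : (0 : ℝ) < 1 + δ)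
    linarith
  have h2 : Real.log (-x₀) ≤ Real.log (1 - x₀) := Real.log_le_log (by linarith) (by linarith)
  linarith

theorem exp_bound {x : ℝ} (hx : x < 0) :
    Real.exp (2 * x) / (-x) ≤ 1 / ((-x) * (1 - x)) := by
  have h1 : Real.exp (2 * x) * (1 - x) ≤ 1 := by
    have h2 := Real.add_one_le_exp (-(2 * x))
    have h3 : 1 - x ≤ Real.exp (-(2 * x)) := by linarith
    calc Real.exp (2 * x) * (1 - x) ≤ Real.exp (2 * x) * Real.exp (-(2 * x)) :=
          mul_le_mul_of_nonneg_left h3 (Real.exp_pos _).le
      _ = 1 := by rw [← Real.exp_add, add_neg_cancel, Real.exp_zero]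
  have h4 : 0 < -x := by linarith
  have h5 : 0 < 1 - x := by linarith
  rw [div_le_div_iff₀ h4 (mul_pos h4 h5)]
  nlinarith [mul_le_mul_of_nonneg_left h1 h4.le]

theorem pt_bound {s x lam : ℝ} (hx : x < 0) (hl : 0 < lam) :
    s * Real.exp x ≤ lam / 2 * (-x) * s ^ 2 + 1 / (2 * lam) * (1 / ((-x) * (1 - x))) := by
  have h0 : 0 < -x := by linarith
  have h1 : s * Real.exp x ≤ lam / 2 * (-x) * s ^ 2 + 1 / (2 * lam) * (Real.exp (2 * x) / (-x)) := by
    have h2 : Real.exp (2 * x) = Real.exp x ^ 2 := by
      rw [← Real.exp_nat_mul]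
      norm_num
    have h3 : lam / 2 * (-x) * s ^ 2 + 1 / (2 * lam) * (Real.exp (2 * x) / (-x)) - s * Real.exp x
        = (lam * (-x) * s - Real.exp x) ^ 2 / (2 * lam * (-x)) := by
      rw [h2]
      have h5 : lam ≠ 0 := hl.ne'
      have h6 : x ≠ 0 := by linarith
      field_simp
      ring
    have h4 : 0 ≤ (lam * (-x) * s - Real.exp x) ^ 2 / (2 * lam * (-x)) := by positivity
    linarith
  have h2 := mul_le_mul_of_nonneg_left (exp_bound hx) (by positivity : 0 ≤ 1 / (2 * lam))
  linarith

end ANNM

open ANNM in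
theorem specANN (hWEI : SpecWEI) (hPLR : SpecPLR) : SpecANN := by
  intro p x₀ δ hδ hδ1 hx
  set J : ℝ := ∫ z in {z : ℂ | Real.exp x₀ < ‖z‖ ∧ ‖z‖ ≤ Real.exp (-δ)}, sph p z with hJ
  set K : ℝ := 1 + Real.log (1 / δ) with hK
  have hpi := Real.pi_pos
  have hx0 : x₀ ≤ 0 := by linarith
  have hneg : ∀ x ∈ Set.Icc x₀ (-δ), x < 0 := fun x hx' => by linarith [hx'.2]
  -- the bound for every lam
  have key : ∀ lam : ℝ, 0 < lam → J ≤ lam / 4 * UU p 0 + Real.pi / lam * K := by
    intro lam hl
    have h1 : J = ∫ x in x₀..(-δ), ∫ θ in (0 : ℝ)..(2 * Real.pi),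
        sph p (lp x θ) * Real.exp (2 * x) := hPLR (sph p) (sph_cont p) x₀ (-δ) hx
    have hcontL : Continuous fun x => ∫ θ in (0 : ℝ)..(2 * Real.pi),
        sph p (lp x θ) * Real.exp (2 * x) := by
      apply continuous_parametric_intervalIntegral_of_continuous'
        (f := fun x θ => sph p (lp x θ) * Real.exp (2 * x))
      have h1 : Continuous fun q : ℝ × ℝ => sph p (lp q.1 q.2) := (sph_cont p).comp lp_cont
      exact h1.mul (Real.continuous_exp.comp (continuous_const.mul continuous_fst))
    have hHd : ∀ x ∈ Set.uIcc x₀ (-δ), HasDerivAt H (1 / ((-x) * (1 - x))) x := by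
      intro x hx'
      rw [Set.uIcc_of_le hx] at hx'
      exact H_deriv (hneg x hx')
    have hHc : ContinuousOn (fun x : ℝ => 1 / ((-x) * (1 - x))) (Set.uIcc x₀ (-δ)) := by
      rw [Set.uIcc_of_le hx]
      apply ContinuousOn.div continuousOn_const (by fun_prop)
      intro x hx'
      have h := hneg x hx'
      apply mul_ne_zero <;> linarith
    have hHi : IntervalIntegrable (fun x : ℝ => 1 / ((-x) * (1 - x))) volume x₀ (-δ) :=
      hHc.intervalIntegrable
    have hcontA : Continuous fun x => lam / 2 * ((0 - x) * aa p x) :=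
      continuous_const.mul ((continuous_const.sub continuous_id).mul (aa_cont p))
    have h2 : J ≤ ∫ x in x₀..(-δ), (lam / 2 * ((0 - x) * aa p x)
        + Real.pi / lam * (1 / ((-x) * (1 - x)))) := by
      rw [h1]
      apply intervalIntegral.integral_mono_on hx (hcontL.intervalIntegrable _ _)
        ((hcontA.intervalIntegrable _ _).add (hHi.const_mul _))
      intro x hx'
      have hxn := hneg x hx'
      have h3 : (∫ θ in (0 : ℝ)..(2 * Real.pi), sph p (lp x θ) * Real.exp (2 * x)) ≤
          ∫ θ in (0 : ℝ)..(2 * Real.pi), (lam / 2 * (-x) * (sph p (lp x θ) * Real.exp x) ^ 2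
            + 1 / (2 * lam) * (1 / ((-x) * (1 - x)))) := by
        apply intervalIntegral.integral_mono_on (by positivity)
        · exact ((in_cont p x).mul continuous_const).intervalIntegrable _ _
        · exact ((continuous_const.mul (((in_cont p x).mul continuous_const).pow 2)).add
            continuous_const).intervalIntegrable _ _
        · intro θ _
          have h4 := pt_bound (s := sph p (lp x θ) * Real.exp x) hxn hl
          have h5 : sph p (lp x θ) * Real.exp (2 * x)
              = sph p (lp x θ) * Real.exp x * Real.exp x := by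
            rw [two_mul, Real.exp_add]
            ring
          rw [h5]
          exact h4
      refine h3.trans (le_of_eq ?_)
      have hcS : Continuous fun θ => lam / 2 * (-x) * (sph p (lp x θ) * Real.exp x) ^ 2 :=
        continuous_const.mul (((in_cont p x).mul continuous_const).pow 2)
      have hcC : Continuous fun _ : ℝ => 1 / (2 * lam) * (1 / ((-x) * (1 - x))) :=
        continuous_const
      rw [intervalIntegral.integral_add (hcS.intervalIntegrable _ _)
        (hcC.intervalIntegrable _ _), intervalIntegral.integral_const_mul,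
        intervalIntegral.integral_const, smul_eq_mul]
      have hl0 : lam ≠ 0 := hl.ne'
      have hg : ∀ A w : ℝ, lam / 2 * (-x) * A + (2 * Real.pi - 0) * (1 / (2 * lam) * w)
          = lam / 2 * ((0 - x) * A) + Real.pi / lam * w := by
        intro A w
        field_simp
        ring
      exact hg (aa p x) _
    have h3 : (∫ x in x₀..(-δ), (lam / 2 * ((0 - x) * aa p x)
        + Real.pi / lam * (1 / ((-x) * (1 - x))))) =
        lam / 2 * (∫ x in x₀..(-δ), (0 - x) * aa p x) + Real.pi / lam * (H (-δ) - H x₀) := by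
      rw [intervalIntegral.integral_add (hcontA.intervalIntegrable _ _) (hHi.const_mul _),
        intervalIntegral.integral_const_mul, intervalIntegral.integral_const_mul,
        intervalIntegral.integral_eq_sub_of_hasDerivAt hHd hHi]
    have hcB : Continuous fun x => (0 - x) * aa p x :=
      (continuous_const.sub continuous_id).mul (aa_cont p)
    have h4 : (∫ x in x₀..(-δ), (0 - x) * aa p x) ≤ UU p 0 / 2 := by
      have h5 := hWEI p x₀ 0 hx0
      have h6 : (∫ x in x₀..(-δ), (0 - x) * aa p x) + (∫ x in (-δ)..0, (0 - x) * aa p x)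
          = ∫ x in x₀..0, (0 - x) * aa p x :=
        intervalIntegral.integral_add_adjacent_intervals (hcB.intervalIntegrable _ _)
          (hcB.intervalIntegrable _ _)
      have h7 : 0 ≤ ∫ x in (-δ)..0, (0 - x) * aa p x := by
        apply intervalIntegral.integral_nonneg (by linarith)
        intro x hx'
        exact mul_nonneg (by linarith [hx'.2]) (aa_nonneg p x)
      linarith
    have h5 := H_bound hδ hδ1 hx
    have h6 : lam / 2 * (∫ x in x₀..(-δ), (0 - x) * aa p x) ≤ lam / 2 * (UU p 0 / 2) :=
      mul_le_mul_of_nonneg_left h4 (by positivity)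
    have h7 : Real.pi / lam * (H (-δ) - H x₀) ≤ Real.pi / lam * K :=
      mul_le_mul_of_nonneg_left h5 (by positivity)
    rw [h3] at h2
    linarith
  have hK1 : 1 ≤ K := by
    rw [hK]
    have : 0 ≤ Real.log (1 / δ) := Real.log_nonneg (by rw [one_div]; exact (one_le_inv₀ hδ).2 hδ1)
    linarith
  rcases le_or_gt J 0 with hJ0 | hJ0
  · exact hJ0.trans (Real.sqrt_nonneg _)
  · apply Real.le_sqrt_of_sq_le
    have hKp : 0 < K := by linarith
    have h1 := key (2 * Real.pi * K / J) (by positivity)
    have h2 : Real.pi / (2 * Real.pi * K / J) * K = J / 2 := by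
      field_simp
    have h3 : 2 * Real.pi * K / J / 4 * UU p 0 = (Real.pi * UU p 0 * K) / (2 * J) := by
      field_simp
      ring
    rw [h2, h3] at h1
    have h4 : J / 2 ≤ (Real.pi * UU p 0 * K) / (2 * J) := by linarith
    rw [le_div_iff₀ (by positivity)] at h4
    nlinarith

end

end Pool.Agent.Lib.MP684ec1.NB
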