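import Pool.Agent.Lib.MP_684ec1_an.NB.SpecM

/-!
# MP_684ec1 : module LAM of NB, the function `Lam`
-/

set_option autoImplicit false

namespace Pool.Agent.Lib.MP684ec1.NB

open Complex Polynomial MeasureTheory intervalIntegral
open Pool.Agent.Lib.MP684ec1.HP

namespace LAMM

theorem norm_lp (x θ : ℝ) : ‖lp x θ‖ = Real.exp x := by
  unfold lp
  rw [Complex.norm_exp]
  simp

theorem lp_cont (x : ℝ) : Continuous (fun θ : ℝ => lp x θ) := by
  unfold lp
  apply Complex.continuous_exp.comp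
  exact continuous_const.add (Complex.continuous_ofReal.mul continuous_const)

/-- the sum `S(x)` -/
noncomputable def S (p : ℂ[X]) (x : ℝ) : ℝ := ∑ k ∈ p.support, ‖p.coeff k‖ * Real.exp (k * x)

/-- the sum `∑ k |a_k| e^(kx)` -/
noncomputable def T (p : ℂ[X]) (x : ℝ) : ℝ := ∑ k ∈ p.support, (k : ℝ) * (‖p.coeff k‖ * Real.exp (k * x))

theorem S_pos (p : ℂ[X]) (hp : p ≠ 0) (x : ℝ) : 0 < S p x := by
  unfold S
  apply Finset.sum_pos
  · intro k hk
    have : 0 < ‖p.coeff k‖ := norm_pos_iff.mpr (Polynomial.mem_support_iff.mp hk)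
    positivity
  · exact Polynomial.nonempty_support_iff.mpr hp

theorem T_nonneg (p : ℂ[X]) (x : ℝ) : 0 ≤ T p x :=
  Finset.sum_nonneg (fun k _ => by positivity)

theorem T_le (p : ℂ[X]) (x : ℝ) : T p x ≤ p.natDegree * S p x := by
  unfold T S
  rw [Finset.mul_sum]
  apply Finset.sum_le_sum
  intro k hk
  have h1 : (k : ℝ) ≤ p.natDegree := by exact_mod_cast Polynomial.le_natDegree_of_mem_supp k hk
  exact mul_le_mul_of_nonneg_right h1 (by positivity)

theorem S_cont (p : ℂ[X]) : Continuous (S p) := by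
  unfold S
  fun_prop

theorem T_cont (p : ℂ[X]) : Continuous (T p) := by
  unfold T
  fun_prop

theorem S_deriv (p : ℂ[X]) (x : ℝ) : HasDerivAt (S p) (T p x) x := by
  unfold S T
  apply HasDerivAt.fun_sum
  intro k _
  have h1 : HasDerivAt (fun y : ℝ => (k : ℝ) * y) (k : ℝ) x := by
    have := (hasDerivAt_id x).const_mul (k : ℝ)
    rw [mul_one] at this
    exact this
  have h2 := (h1.exp).const_mul ‖p.coeff k‖
  have e : ‖p.coeff k‖ * (Real.exp (k * x) * k) = (k : ℝ) * (‖p.coeff k‖ * Real.exp (k * x)) := by ring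
  rw [e] at h2
  exact h2

theorem Lam_eq (p : ℂ[X]) (x : ℝ) : Lam p x = Real.log (S p x) := rfl

theorem exp_Lam (p : ℂ[X]) (hp : p ≠ 0) (x : ℝ) : Real.exp (Lam p x) = S p x := by
  rw [Lam_eq, Real.exp_log (S_pos p hp x)]

theorem norm_pow_lp (k : ℕ) (x θ : ℝ) : ‖lp x θ ^ k‖ = Real.exp (k * x) := by
  rw [norm_pow, norm_lp, ← Real.exp_nat_mul]

theorem eval_le (p : ℂ[X]) (x θ : ℝ) : ‖p.eval (lp x θ)‖ ≤ S p x := by
  rw [Polynomial.eval_eq_sum, Polynomial.sum_def]
  apply (norm_sum_le _ _).trans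
  unfold S
  apply Finset.sum_le_sum
  intro k _
  rw [norm_mul, norm_pow_lp]

theorem der_le (p : ℂ[X]) (x θ : ℝ) : ‖p.derivative.eval (lp x θ)‖ * Real.exp x ≤ T p x := by
  rw [← norm_lp x θ, ← norm_mul, Polynomial.derivative_eval, Polynomial.sum_def, Finset.sum_mul]
  apply (norm_sum_le _ _).trans
  unfold T
  apply Finset.sum_le_sum
  intro k _
  rcases Nat.eq_zero_or_pos k with h | h
  · subst h
    simp
  · have e : p.coeff k * (k : ℂ) * lp x θ ^ (k - 1) * lp x θ = p.coeff k * (k : ℂ) * lp x θ ^ k := by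
      rw [mul_assoc, ← pow_succ, Nat.sub_add_cancel h]
    rw [e, norm_mul, norm_mul, norm_pow_lp, Complex.norm_natCast]
    apply le_of_eq
    ring

end LAMM

open LAMM in
theorem specLAM : SpecLAM := by
  intro p hp
  refine ⟨⟨fun x => T p x / S p x, ?_, ?_⟩, ?_⟩
  · exact (T_cont p).div (S_cont p) (fun x => (S_pos p hp x).ne')
  · intro x
    refine ⟨?_, div_nonneg (T_nonneg p x) (S_pos p hp x).le, ?_⟩
    · exact (S_deriv p x).log (S_pos p hp x).ne'
    · rw [div_le_iff₀ (S_pos p hp x)]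
      exact T_le p x
  · intro x
    have hexp := exp_Lam p hp x
    have hev : ∀ θ : ℝ, ‖p.eval (lp x θ)‖ ≤ Real.exp (Lam p x) := by
      intro θ
      rw [hexp]
      exact eval_le p x θ
    refine ⟨fun θ => ⟨hev θ, ?_⟩, ?_⟩
    · rw [hexp]
      exact (der_le p x θ).trans (T_le p x)
    · obtain ⟨M, hM⟩ : ∃ M : ℝ, M = max (Lam p x) 0 := ⟨_, rfl⟩
      rw [← hM]
      have hM0 : 0 ≤ M := by rw [hM]; exact le_max_right _ _
      have hML : Lam p x ≤ M := by rw [hM]; exact le_max_left _ _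
      have hpt : ∀ θ : ℝ, Real.log (1 + ‖p.eval (lp x θ)‖ ^ 2) / 2 ≤ (1 + 2 * M) / 2 := by
        intro θ
        have h1 : ‖p.eval (lp x θ)‖ ≤ Real.exp M := (hev θ).trans (Real.exp_le_exp.mpr hML)
        have h2 : (1 : ℝ) ≤ Real.exp M := Real.one_le_exp hM0
        have h3 : 1 + ‖p.eval (lp x θ)‖ ^ 2 ≤ 2 * Real.exp M ^ 2 := by
          have h4 : ‖p.eval (lp x θ)‖ ^ 2 ≤ Real.exp M ^ 2 :=
            pow_le_pow_left₀ (norm_nonneg _) h1 2
          have h5 : (1 : ℝ) ≤ Real.exp M ^ 2 := one_le_pow₀ h2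
          linarith
        have h6 : Real.log (1 + ‖p.eval (lp x θ)‖ ^ 2) ≤ Real.log (2 * Real.exp M ^ 2) :=
          Real.log_le_log (by positivity) h3
        have h7 : Real.log (2 * Real.exp M ^ 2) = Real.log 2 + 2 * M := by
          rw [Real.log_mul (by norm_num) (by positivity), Real.log_pow, Real.log_exp]
          norm_num
        have h8 : Real.log 2 ≤ 1 := by
          have := Real.log_two_lt_d9
          linarith
        linarith
      have hc : Continuous (fun θ : ℝ => Real.log (1 + ‖p.eval (lp x θ)‖ ^ 2) / 2) := by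
        have h9 : Continuous (fun θ : ℝ => 1 + ‖p.eval (lp x θ)‖ ^ 2) :=
          continuous_const.add ((p.continuous.comp (lp_cont x)).norm.pow 2)
        exact (h9.log (fun θ => by positivity)).div_const 2
      have hpi := Real.pi_pos
      unfold UU
      calc ∫ θ in (0 : ℝ)..(2 * Real.pi), Real.log (1 + ‖p.eval (lp x θ)‖ ^ 2) / 2
          ≤ ∫ _θ in (0 : ℝ)..(2 * Real.pi), (1 + 2 * M) / 2 := by
            apply intervalIntegral.integral_mono_on (by positivity) (hc.intervalIntegrable _ _)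
              (continuous_const.intervalIntegrable _ _)
            intro θ _
            exact hpt θ
        _ = Real.pi * (2 * M + 1) := by
            rw [intervalIntegral.integral_const, smul_eq_mul]
            ring

end Pool.Agent.Lib.MP684ec1.NB
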