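import Pool.Agent.Lib.MP_684ec1_an.NB.MainA
import Pool.Agent.Lib.MP_684ec1_an.NB.LAM

/-!
# MP_684ec1 : module BCF of NB, the bound by the number of the monomials and the sum of the coefficients, for every degree

THEOREM. Let `p` have `m` monomials and `N = ∑_(k ≥ 1) |a_k|`. Then `P(p) ≤ 2π (1 + √m log (2 + 2 N))`, whatever the degree.
PROOF. In the coordinates `z = e^(x + iθ)`, `x < 0`, `t = -x`, with `s = e^x p^#`: `s e^x ≤ ∑ k |a_k| e^(-kt)` and
`s e^x ≤ (l/2) t s² + 1/(2 l t)`, hence `s e^x ≤ (l/2) t s² + ∑_k min (k |a_k| e^(-kt), 1/(2 l t))`. The first part gives `(l/4) (U(0) - U(x₀))`, which is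
at most `(l/4) π (log (1 + ∑ |a_k|²) - log (1 + |a_0|²)) ≤ (l/2) π log M`, `M = 2 + 2 N`. Each `k ≥ 1` gives
`2π ∫_0^∞ min (|a_k| e^(-u), 1/(2 l u)) du ≤ 2π (|a_k| α + log (β/α)/(2 l) + |a_k| e^(-β))`, with `α = e^(-β) = 1/M`, `log (β/α) ≤ 2 log M`; and
`l = 2 √m`.
-/

set_option autoImplicit false

namespace Pool.Agent.Lib.MP684ec1.NB

open Complex Polynomial MeasureTheory intervalIntegral
open Pool.Agent.Lib.MP684ec1.HP

noncomputable section

namespace BCFM

theorem sph_cont (p : ℂ[X]) : Continuous (sph p) := by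
  unfold sph
  exact (p.derivative.continuous.norm).div (continuous_const.add (p.continuous.norm.pow 2))
    fun z => by positivity

theorem sph_nonneg (p : ℂ[X]) (z : ℂ) : 0 ≤ sph p z := by
  unfold sph
  positivity

theorem lp_cont : Continuous fun q : ℝ × ℝ => lp q.1 q.2 := by
  unfold lp
  fun_prop

theorem aa_cont (p : ℂ[X]) : Continuous (aa p) := by
  unfold aa
  apply continuous_parametric_intervalIntegral_of_continuous'
    (f := fun x θ => (sph p (lp x θ) * Real.exp x) ^ 2)
  have h1 : Continuous fun q : ℝ × ℝ => sph p (lp q.1 q.2) := (sph_cont p).comp lp_cont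
  exact (h1.mul (Real.continuous_exp.comp continuous_fst)).pow 2

theorem in_cont (p : ℂ[X]) (x : ℝ) : Continuous fun θ => sph p (lp x θ) :=
  (sph_cont p).comp (lp_cont.comp (Continuous.prodMk_right x))

theorem aa_nonneg (p : ℂ[X]) (x : ℝ) : 0 ≤ aa p x := by
  unfold aa
  apply intervalIntegral.integral_nonneg (by positivity)
  intro θ _
  positivity

/-- the contribution of one monomial -/
def u (A c k x : ℝ) : ℝ := min (k * A * Real.exp (k * x)) (c / (-x))

theorem u_cont (A c k : ℝ) {a b : ℝ} (hb : b < 0) : ContinuousOn (u A c k) (Set.Icc a b) := by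
  unfold u
  apply ContinuousOn.inf
  · fun_prop
  · apply ContinuousOn.div continuousOn_const (by fun_prop)
    intro x hx
    have := hx.2
    linarith

theorem u_ii (A c k : ℝ) {a b : ℝ} (hab : a ≤ b) (hb : b < 0) :
    IntervalIntegrable (u A c k) volume a b := by
  apply ContinuousOn.intervalIntegrable
  rw [Set.uIcc_of_le hab]
  exact u_cont A c k hb

theorem u_nonneg {A c k x : ℝ} (hA : 0 ≤ A) (hc : 0 ≤ c) (hk : 0 ≤ k) (hx : x < 0) :
    0 ≤ u A c k x := by
  unfold u
  apply le_min
  · positivity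
  · exact div_nonneg hc (by linarith)

/-- the three pieces -/
theorem u_int {A c k α β x₀ δ : ℝ} (hA : 0 ≤ A) (hc : 0 ≤ c) (hk : 0 < k) (hα : 0 < α)
    (hαβ : α ≤ β) (hδ : 0 < δ) (hx : x₀ ≤ -δ) :
    ∫ x in x₀..(-δ), u A c k x ≤ A * α + c * Real.log (β / α) + A * Real.exp (-β) := by
  have hβ : 0 < β := by linarith
  obtain ⟨y, hy⟩ : ∃ y : ℝ, y = min x₀ (-(β / k)) := ⟨_, rfl⟩
  obtain ⟨w, hw⟩ : ∃ w : ℝ, w = max (-δ) (-(α / k)) := ⟨_, rfl⟩
  have hy1 : y ≤ x₀ := by rw [hy]; exact min_le_left _ _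
  have hy2 : y ≤ -(β / k) := by rw [hy]; exact min_le_right _ _
  have hw1 : -δ ≤ w := by rw [hw]; exact le_max_left _ _
  have hw2 : -(α / k) ≤ w := by rw [hw]; exact le_max_right _ _
  have hαk : 0 < α / k := by positivity
  have hβk : 0 < β / k := by positivity
  have hw0 : w < 0 := by
    rw [hw]
    apply max_lt <;> linarith
  have hm : -(β / k) ≤ -(α / k) := by
    apply neg_le_neg
    exact div_le_div_of_nonneg_right hαβ hk.le
  have h0 : ∫ x in x₀..(-δ), u A c k x ≤ ∫ x in y..w, u A c k x := by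
    apply intervalIntegral.integral_mono_interval hy1 hx hw1
    · apply (ae_restrict_iff' measurableSet_Ioc).mpr
      apply Filter.Eventually.of_forall
      intro x hx'
      exact u_nonneg hA hc hk.le (by linarith [hx'.2])
    · exact u_ii A c k (by linarith) hw0
  have h1 : ∫ x in y..w, u A c k x = (∫ x in y..(-(β / k)), u A c k x) +
      (∫ x in (-(β / k))..(-(α / k)), u A c k x) + ∫ x in (-(α / k))..w, u A c k x := by
    rw [intervalIntegral.integral_add_adjacent_intervals (u_ii A c k hy2 (by linarith))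
      (u_ii A c k hm (by linarith)), intervalIntegral.integral_add_adjacent_intervals
      (u_ii A c k (by linarith) (by linarith)) (u_ii A c k hw2 hw0)]
  have h2 : ∫ x in y..(-(β / k)), u A c k x ≤ A * Real.exp (-β) := by
    have hd : ∀ x ∈ Set.uIcc y (-(β / k)),
        HasDerivAt (fun x => A * Real.exp (k * x)) (k * A * Real.exp (k * x)) x := by
      intro x _
      have g1 : HasDerivAt (fun y : ℝ => k * y) k x := by
        have := (hasDerivAt_id x).const_mul k
        rw [mul_one] at this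
        exact this
      have g2 := (g1.exp).const_mul A
      have e : A * (Real.exp (k * x) * k) = k * A * Real.exp (k * x) := by ring
      rw [e] at g2
      exact g2
    have hi : IntervalIntegrable (fun x => k * A * Real.exp (k * x)) volume y (-(β / k)) := by
      apply Continuous.intervalIntegrable
      fun_prop
    calc ∫ x in y..(-(β / k)), u A c k x ≤ ∫ x in y..(-(β / k)), k * A * Real.exp (k * x) := by
          apply intervalIntegral.integral_mono_on hy2 (u_ii A c k hy2 (by linarith)) hi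
          intro x _
          exact min_le_left _ _
      _ = A * Real.exp (k * (-(β / k))) - A * Real.exp (k * y) :=
          intervalIntegral.integral_eq_sub_of_hasDerivAt hd hi
      _ ≤ A * Real.exp (-β) := by
          have e : k * (-(β / k)) = -β := by
            field_simp
          rw [e]
          have : 0 ≤ A * Real.exp (k * y) := by positivity
          linarith
  have h3 : ∫ x in (-(β / k))..(-(α / k)), u A c k x ≤ c * Real.log (β / α) := by
    have hd : ∀ x ∈ Set.uIcc (-(β / k)) (-(α / k)),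
        HasDerivAt (fun x => -(c * Real.log (-x))) (c / (-x)) x := by
      intro x hx'
      rw [Set.uIcc_of_le hm] at hx'
      have hxn : x < 0 := by linarith [hx'.2]
      have g1 : HasDerivAt (fun x : ℝ => -x) (-1) x := hasDerivAt_neg' x
      have g2 := ((g1.log (by linarith : -x ≠ 0)).const_mul c).neg
      have e : -(c * (-1 / -x)) = c / (-x) := by
        have h6 : x ≠ 0 := by linarith
        field_simp
      rw [e] at g2
      exact g2
    have hi : IntervalIntegrable (fun x => c / (-x)) volume (-(β / k)) (-(α / k)) := by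
      apply ContinuousOn.intervalIntegrable
      rw [Set.uIcc_of_le hm]
      apply ContinuousOn.div continuousOn_const (by fun_prop)
      intro x hx
      have := hx.2
      linarith
    calc ∫ x in (-(β / k))..(-(α / k)), u A c k x
        ≤ ∫ x in (-(β / k))..(-(α / k)), c / (-x) := by
          apply intervalIntegral.integral_mono_on hm (u_ii A c k hm (by linarith)) hi
          intro x _
          exact min_le_right _ _
      _ = -(c * Real.log (-(-(α / k)))) - -(c * Real.log (-(-(β / k)))) :=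
          intervalIntegral.integral_eq_sub_of_hasDerivAt hd hi
      _ = c * Real.log (β / α) := by
          rw [neg_neg, neg_neg, Real.log_div hα.ne' hk.ne', Real.log_div hβ.ne' hk.ne',
            Real.log_div hβ.ne' hα.ne']
          ring
      _ ≤ c * Real.log (β / α) := le_refl _
  have h4 : ∫ x in (-(α / k))..w, u A c k x ≤ A * α := by
    calc ∫ x in (-(α / k))..w, u A c k x ≤ ∫ x in (-(α / k))..w, k * A := by
          apply intervalIntegral.integral_mono_on hw2 (u_ii A c k hw2 hw0)
            (continuous_const.intervalIntegrable _ _)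
          intro x hx'
          refine (min_le_left _ _).trans ?_
          have h5 : Real.exp (k * x) ≤ 1 := by
            rw [Real.exp_le_one_iff]
            have : x ≤ 0 := by linarith [hx'.2]
            exact mul_nonpos_of_nonneg_of_nonpos hk.le this
          exact mul_le_of_le_one_right (by positivity) h5
      _ = (w - -(α / k)) * (k * A) := by
          rw [intervalIntegral.integral_const, smul_eq_mul]
      _ ≤ (α / k) * (k * A) := by
          apply mul_le_mul_of_nonneg_right _ (by positivity)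
          linarith
      _ = A * α := by
          field_simp
  linarith

theorem cs {s x lam : ℝ} (hx : x < 0) (hl : 0 < lam) :
    s * Real.exp x ≤ lam / 2 * (-x) * s ^ 2 + 1 / (2 * lam) / (-x) := by
  have h0 : 0 < -x := by linarith
  have h2 : Real.exp (2 * x) = Real.exp x ^ 2 := by
    rw [← Real.exp_nat_mul]
    norm_num
  have h3 : lam / 2 * (-x) * s ^ 2 + 1 / (2 * lam) * (Real.exp (2 * x) / (-x)) - s * Real.exp x
      = (lam * (-x) * s - Real.exp x) ^ 2 / (2 * lam * (-x)) := by
    rw [h2]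
    have h5 : lam ≠ 0 := hl.ne'
    have h6 : x ≠ 0 := by linarith
    field_simp
    ring
  have h4 : 0 ≤ (lam * (-x) * s - Real.exp x) ^ 2 / (2 * lam * (-x)) := by positivity
  have h5 : Real.exp (2 * x) ≤ 1 := by
    rw [Real.exp_le_one_iff]
    linarith
  have h6 : 1 / (2 * lam) * (Real.exp (2 * x) / (-x)) ≤ 1 / (2 * lam) / (-x) := by
    rw [← mul_div_assoc]
    apply div_le_div_of_nonneg_right _ h0.le
    exact mul_le_of_le_one_right (by positivity) h5
  linarith

/-- the pointwise bound -/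
theorem pt_bound {p : ℂ[X]} {lam x : ℝ} (hl : 0 < lam) (hx : x < 0) (θ : ℝ) :
    sph p (lp x θ) * Real.exp (2 * x) ≤ lam / 2 * (-x) * (sph p (lp x θ) * Real.exp x) ^ 2 +
      ∑ k ∈ p.support, u ‖p.coeff k‖ (1 / (2 * lam)) k x := by
  have h0 : 0 < -x := by linarith
  have hcn : 0 ≤ 1 / (2 * lam) := by positivity
  have h5 : sph p (lp x θ) * Real.exp (2 * x) = sph p (lp x θ) * Real.exp x * Real.exp x := by
    rw [two_mul, Real.exp_add]
    ring
  have hs := sph_nonneg p (lp x θ)
  by_cases h : ∀ k ∈ p.support, (k : ℝ) * ‖p.coeff k‖ * Real.exp (k * x) ≤ 1 / (2 * lam) / (-x)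
  · have h1 : ∑ k ∈ p.support, u ‖p.coeff k‖ (1 / (2 * lam)) k x = LAMM.T p x := by
      unfold LAMM.T
      apply Finset.sum_congr rfl
      intro k hk
      rw [← mul_assoc]
      exact min_eq_left (h k hk)
    have h3 : sph p (lp x θ) * Real.exp x ≤ LAMM.T p x := by
      refine le_trans ?_ (LAMM.der_le p x θ)
      apply mul_le_mul_of_nonneg_right _ (by positivity)
      unfold sph
      apply div_le_self (norm_nonneg _)
      have : 0 ≤ ‖p.eval (lp x θ)‖ ^ 2 := by positivity
      linarith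
    have h4 : Real.exp x ≤ 1 := by
      rw [Real.exp_le_one_iff]
      exact hx.le
    have h6 : sph p (lp x θ) * Real.exp x * Real.exp x ≤ sph p (lp x θ) * Real.exp x :=
      mul_le_of_le_one_right (by positivity) h4
    have h7 : 0 ≤ lam / 2 * (-x) * (sph p (lp x θ) * Real.exp x) ^ 2 := by positivity
    rw [h5, h1]
    linarith
  · push Not at h
    obtain ⟨k, hk, hk'⟩ := h
    have h1 : 1 / (2 * lam) / (-x) ≤ ∑ k ∈ p.support, u ‖p.coeff k‖ (1 / (2 * lam)) k x := by
      have h2 : u ‖p.coeff k‖ (1 / (2 * lam)) k x = 1 / (2 * lam) / (-x) := min_eq_right hk'.le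
      rw [← h2]
      apply Finset.single_le_sum (f := fun k : ℕ => u ‖p.coeff k‖ (1 / (2 * lam)) (k : ℝ) x) _ hk
      intro j _
      exact u_nonneg (norm_nonneg _) hcn (Nat.cast_nonneg j) hx
    have h2 := cs (s := sph p (lp x θ) * Real.exp x) hx hl
    rw [h5]
    linarith

/-- the energy, with the value on the small circle -/
theorem we2 (hGRN : SpecGRN) (hWLM : SpecWLM) (p : ℂ[X]) {x₀ x₁ : ℝ} (hx : x₀ ≤ x₁) :
    ∫ x in x₀..x₁, (x₁ - x) * aa p x ≤ (UU p x₁ - UU p x₀) / 2 := by
  have ha := aa_cont p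
  obtain ⟨A, hA⟩ : ∃ A : ℝ → ℝ, ∀ x, A x = ∫ t in x₀..x, aa p t := ⟨_, fun _ => rfl⟩
  have hAd : ∀ x, HasDerivAt A (aa p x) x := by
    intro x
    have h1 : A = fun x => ∫ t in x₀..x, aa p t := funext hA
    rw [h1]
    exact intervalIntegral.integral_hasDerivAt_right (ha.intervalIntegrable _ _)
      (ha.stronglyMeasurableAtFilter _ _) ha.continuousAt
  have hAc : Continuous A := continuous_iff_continuousAt.2 fun x => (hAd x).continuousAt
  have hA0 : A x₀ = 0 := by rw [hA]; simp
  have hparts : ∫ x in x₀..x₁, ((x₁ - x) * aa p x - A x) = 0 := by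
    have hd : ∀ x ∈ Set.uIcc x₀ x₁, HasDerivAt (fun x => (x₁ - x) * A x)
        ((x₁ - x) * aa p x - A x) x := by
      intro x _
      have h1 : HasDerivAt (fun x : ℝ => x₁ - x) (-1) x := by
        simpa using (hasDerivAt_id x).const_sub x₁
      have h2 := h1.mul (hAd x)
      have h3 : (-1) * A x + (x₁ - x) * aa p x = (x₁ - x) * aa p x - A x := by ring
      rw [← h3]
      exact h2
    rw [intervalIntegral.integral_eq_sub_of_hasDerivAt hd
      (Continuous.intervalIntegrable (by fun_prop) _ _), hA0]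
    simp
  rw [intervalIntegral.integral_sub (Continuous.intervalIntegrable (by fun_prop) _ _)
    (hAc.intervalIntegrable _ _)] at hparts
  obtain ⟨g1, -⟩ := hGRN p x₀ x₁ hx
  have hW : ∫ x in x₀..x₁, WW p x = ∫ x in x₀..x₁, (WW p x₀ + 2 * A x) := by
    apply intervalIntegral.integral_congr
    intro x hx'
    rw [Set.uIcc_of_le hx] at hx'
    have h1 := (hGRN p x₀ x hx'.1).2
    simp only
    rw [hA]
    linarith
  have hle : ∫ x in x₀..x₁, 2 * A x ≤ ∫ x in x₀..x₁, (WW p x₀ + 2 * A x) := by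
    apply intervalIntegral.integral_mono_on hx
    · exact Continuous.intervalIntegrable (by fun_prop) _ _
    · exact Continuous.intervalIntegrable (by fun_prop) _ _
    · intro x _
      have := hWLM p x₀
      linarith
  rw [intervalIntegral.integral_const_mul] at hle
  linarith

/-- the mean over a circle is at least the value at the centre -/
theorem uul (hGRN : SpecGRN) (hWLM : SpecWLM) (p : ℂ[X]) (x : ℝ) :
    Real.pi * Real.log (1 + ‖p.coeff 0‖ ^ 2) ≤ UU p x := by
  have hpi := Real.pi_pos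
  have hmono : ∀ y, y ≤ x → UU p y ≤ UU p x := by
    intro y hy
    have h1 := (hGRN p y x hy).1
    have h2 : 0 ≤ ∫ t in y..x, WW p t :=
      intervalIntegral.integral_nonneg hy (fun t _ => hWLM p t)
    linarith
  have hgc : Continuous fun z : ℂ => Real.log (1 + ‖p.eval z‖ ^ 2) / 2 := by
    have h9 : Continuous (fun z : ℂ => 1 + ‖p.eval z‖ ^ 2) :=
      continuous_const.add ((p.continuous).norm.pow 2)
    exact (h9.log (fun z => by positivity)).div_const 2
  apply le_of_forall_pos_le_add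
  intro ε hε
  obtain ⟨R, hR0, hR⟩ := Metric.continuous_iff.mp hgc 0 (ε / (2 * Real.pi)) (by positivity)
  obtain ⟨y, hy⟩ : ∃ y : ℝ, y = min x (Real.log (R / 2)) := ⟨_, rfl⟩
  have hy1 : y ≤ x := by rw [hy]; exact min_le_left _ _
  have hy2 : y ≤ Real.log (R / 2) := by rw [hy]; exact min_le_right _ _
  have hey : Real.exp y < R := by
    have h1 := Real.exp_le_exp.mpr hy2
    rw [Real.exp_log (by positivity)] at h1
    linarith
  have h0 : p.eval 0 = p.coeff 0 := (Polynomial.coeff_zero_eq_eval_zero p).symm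
  have hlow : (2 * Real.pi - 0) * (Real.log (1 + ‖p.coeff 0‖ ^ 2) / 2 - ε / (2 * Real.pi)) ≤ UU p y := by
    rw [← smul_eq_mul, ← intervalIntegral.integral_const]
    unfold UU
    apply intervalIntegral.integral_mono_on (by positivity)
      (continuous_const.intervalIntegrable _ _)
      ((hgc.comp (lp_cont.comp (Continuous.prodMk_right y))).intervalIntegrable _ _)
    intro θ _
    have h2 := hR (lp y θ) (by
      rw [dist_zero_right, LAMM.norm_lp]
      exact hey)
    rw [h0, Real.dist_eq] at h2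
    have h3 := (abs_lt.mp h2).1
    show Real.log (1 + ‖p.coeff 0‖ ^ 2) / 2 - ε / (2 * Real.pi) ≤
      Real.log (1 + ‖p.eval (lp y θ)‖ ^ 2) / 2
    linarith
  have h1 := hmono y hy1
  have h2 : (2 * Real.pi - 0) * (Real.log (1 + ‖p.coeff 0‖ ^ 2) / 2 - ε / (2 * Real.pi)) =
      Real.pi * Real.log (1 + ‖p.coeff 0‖ ^ 2) - ε := by
    field_simp
    ring
  linarith

/-- the annulus -/
theorem ann (hPLR : SpecPLR) {p : ℂ[X]} {lam x₀ δ E : ℝ} {B : ℕ → ℝ}
    (hl : 0 < lam) (hδ : 0 < δ) (hx : x₀ ≤ -δ)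
    (hE : ∫ x in x₀..0, (0 - x) * aa p x ≤ E)
    (hB : ∀ k ∈ p.support, ∫ x in x₀..(-δ), u ‖p.coeff k‖ (1 / (2 * lam)) k x ≤ B k) :
    ∫ z in {z : ℂ | Real.exp x₀ < ‖z‖ ∧ ‖z‖ ≤ Real.exp (-δ)}, sph p z ≤
      lam / 2 * E + 2 * Real.pi * ∑ k ∈ p.support, B k := by
  have hpi := Real.pi_pos
  have hx0 : x₀ ≤ 0 := by linarith
  have hneg : ∀ x ∈ Set.Icc x₀ (-δ), x < 0 := fun x hx' => by linarith [hx'.2]
  rw [hPLR (sph p) (sph_cont p) x₀ (-δ) hx]
  have hcontL : Continuous fun x => ∫ θ in (0 : ℝ)..(2 * Real.pi),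
      sph p (lp x θ) * Real.exp (2 * x) := by
    apply continuous_parametric_intervalIntegral_of_continuous'
      (f := fun x θ => sph p (lp x θ) * Real.exp (2 * x))
    have h1 : Continuous fun q : ℝ × ℝ => sph p (lp q.1 q.2) := (sph_cont p).comp lp_cont
    exact h1.mul (Real.continuous_exp.comp (continuous_const.mul continuous_fst))
  have hcontA : Continuous fun x => lam / 2 * ((0 - x) * aa p x) :=
    continuous_const.mul ((continuous_const.sub continuous_id).mul (aa_cont p))
  have hUi : ∀ k ∈ p.support, IntervalIntegrable (fun x => u ‖p.coeff k‖ (1 / (2 * lam)) (k : ℝ) x) volume x₀ (-δ) :=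
    fun k _ => u_ii ‖p.coeff k‖ (1 / (2 * lam)) k hx (by linarith)
  have hSi : IntervalIntegrable (fun x => ∑ k ∈ p.support, u ‖p.coeff k‖ (1 / (2 * lam)) (k : ℝ) x) volume x₀ (-δ) :=
    ((intervalIntegrable_iff_integrableOn_Ioc_of_le hx).mpr (integrable_finsetSum _ fun k hk =>
      (intervalIntegrable_iff_integrableOn_Ioc_of_le hx).mp (hUi k hk)))
  have h2 : (∫ x in x₀..(-δ), ∫ θ in (0 : ℝ)..(2 * Real.pi), sph p (lp x θ) * Real.exp (2 * x)) ≤
      ∫ x in x₀..(-δ), (lam / 2 * ((0 - x) * aa p x) +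
        2 * Real.pi * ∑ k ∈ p.support, u ‖p.coeff k‖ (1 / (2 * lam)) (k : ℝ) x) := by
    apply intervalIntegral.integral_mono_on hx (hcontL.intervalIntegrable _ _)
      ((hcontA.intervalIntegrable _ _).add (hSi.const_mul _))
    intro x hx'
    have hxn := hneg x hx'
    obtain ⟨S, hS⟩ : ∃ S : ℝ, S = ∑ k ∈ p.support, u ‖p.coeff k‖ (1 / (2 * lam)) (k : ℝ) x := ⟨_, rfl⟩
    have h3 : (∫ θ in (0 : ℝ)..(2 * Real.pi), sph p (lp x θ) * Real.exp (2 * x)) ≤
        ∫ θ in (0 : ℝ)..(2 * Real.pi), (lam / 2 * (-x) * (sph p (lp x θ) * Real.exp x) ^ 2 + S) := by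
      apply intervalIntegral.integral_mono_on (by positivity)
      · exact ((in_cont p x).mul continuous_const).intervalIntegrable _ _
      · exact ((continuous_const.mul (((in_cont p x).mul continuous_const).pow 2)).add
          continuous_const).intervalIntegrable _ _
      · intro θ _
        rw [hS]
        exact pt_bound hl hxn θ
    refine h3.trans (le_of_eq ?_)
    have hcS : Continuous fun θ => lam / 2 * (-x) * (sph p (lp x θ) * Real.exp x) ^ 2 :=
      continuous_const.mul (((in_cont p x).mul continuous_const).pow 2)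
    have hcC : Continuous fun _ : ℝ => S := continuous_const
    rw [intervalIntegral.integral_add (hcS.intervalIntegrable _ _)
      (hcC.intervalIntegrable _ _), intervalIntegral.integral_const_mul,
      intervalIntegral.integral_const, smul_eq_mul, ← hS]
    have hg : ∀ A' w : ℝ, lam / 2 * (-x) * A' + (2 * Real.pi - 0) * w
        = lam / 2 * ((0 - x) * A') + 2 * Real.pi * w := by
      intro A' w
      ring
    exact hg (aa p x) _
  have h3 : (∫ x in x₀..(-δ), (lam / 2 * ((0 - x) * aa p x) +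
        2 * Real.pi * ∑ k ∈ p.support, u ‖p.coeff k‖ (1 / (2 * lam)) (k : ℝ) x)) =
      lam / 2 * (∫ x in x₀..(-δ), (0 - x) * aa p x) +
        2 * Real.pi * ∑ k ∈ p.support, ∫ x in x₀..(-δ), u ‖p.coeff k‖ (1 / (2 * lam)) (k : ℝ) x := by
    rw [intervalIntegral.integral_add (hcontA.intervalIntegrable _ _) (hSi.const_mul _),
      intervalIntegral.integral_const_mul, intervalIntegral.integral_const_mul,
      intervalIntegral.integral_finsetSum hUi]
  have hcB : Continuous fun x => (0 - x) * aa p x :=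
    (continuous_const.sub continuous_id).mul (aa_cont p)
  have h4 : (∫ x in x₀..(-δ), (0 - x) * aa p x) ≤ E := by
    have h6 : (∫ x in x₀..(-δ), (0 - x) * aa p x) + (∫ x in (-δ)..0, (0 - x) * aa p x)
        = ∫ x in x₀..0, (0 - x) * aa p x :=
      intervalIntegral.integral_add_adjacent_intervals (hcB.intervalIntegrable _ _)
        (hcB.intervalIntegrable _ _)
    have h7 : 0 ≤ ∫ x in (-δ)..0, (0 - x) * aa p x := by
      apply intervalIntegral.integral_nonneg (by linarith)
      intro x hx'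
      exact mul_nonneg (by linarith [hx'.2]) (aa_nonneg p x)
    linarith
  have h6 : lam / 2 * (∫ x in x₀..(-δ), (0 - x) * aa p x) ≤ lam / 2 * E :=
    mul_le_mul_of_nonneg_left h4 (by positivity)
  have h7 : ∑ k ∈ p.support, (∫ x in x₀..(-δ), u ‖p.coeff k‖ (1 / (2 * lam)) (k : ℝ) x) ≤
      ∑ k ∈ p.support, B k := Finset.sum_le_sum hB
  have h8 := mul_le_mul_of_nonneg_left h7 (by positivity : 0 ≤ 2 * Real.pi)
  rw [h3] at h2
  linarith

/-- the two small pieces -/
theorem ball_small (p : ℂ[X]) : ∃ C : ℝ, 0 ≤ C ∧ (∀ r : ℝ, 0 < r → r ≤ 1 →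
    ∫ z in Metric.closedBall (0 : ℂ) r, sph p z ≤ C * r) ∧
    ∀ s : ℝ, 0 < s → s ≤ 1 → ∫ z in {z : ℂ | s < ‖z‖ ∧ ‖z‖ ≤ 1}, sph p z ≤ C * (1 - s) := by
  obtain ⟨C, hC⟩ := (isCompact_closedBall (0 : ℂ) 1).exists_bound_of_continuousOn
    (sph_cont p).continuousOn
  have hC0 : 0 ≤ C := (norm_nonneg _).trans (hC 0 (Metric.mem_closedBall_self zero_le_one))
  have hpi := Real.pi_pos
  have hvol : ∀ r : ℝ, 0 < r → volume.real (Metric.closedBall (0 : ℂ) r) = r ^ 2 * Real.pi := by
    intro r hr0
    rw [Measure.real, Complex.volume_closedBall]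
    rw [ENNReal.toReal_mul, ENNReal.toReal_pow, ENNReal.toReal_ofReal hr0.le]
    rfl
  refine ⟨C * (2 * Real.pi), by positivity, ?_, ?_⟩
  · intro r hr0 hr1
    have h1 : ‖∫ z in Metric.closedBall (0 : ℂ) r, sph p z‖ ≤
        C * volume.real (Metric.closedBall (0 : ℂ) r) := by
      apply norm_setIntegral_le_of_norm_le_const
      · exact measure_closedBall_lt_top
      · intro z hz
        exact hC z (Metric.closedBall_subset_closedBall hr1 hz)
    rw [hvol r hr0] at h1
    have h3 : ∫ z in Metric.closedBall (0 : ℂ) r, sph p z ≤ C * (r ^ 2 * Real.pi) :=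
      (le_abs_self _).trans h1
    have h4 : r ^ 2 ≤ r := by nlinarith
    have h5 : C * (r ^ 2 * Real.pi) ≤ C * (r * Real.pi) := by
      apply mul_le_mul_of_nonneg_left _ hC0
      exact mul_le_mul_of_nonneg_right h4 hpi.le
    have h6 : 0 ≤ C * (r * Real.pi) := by positivity
    linarith
  · intro s hs0 hs1
    have hd : {z : ℂ | s < ‖z‖ ∧ ‖z‖ ≤ 1} = Metric.closedBall (0 : ℂ) 1 \ Metric.closedBall (0 : ℂ) s := by
      ext z
      simp only [Set.mem_ofPred_eq, Set.mem_sdiff, Metric.mem_closedBall, dist_zero_right, not_le]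
      exact and_comm
    have hv : volume.real {z : ℂ | s < ‖z‖ ∧ ‖z‖ ≤ 1} = Real.pi - s ^ 2 * Real.pi := by
      rw [hd, measureReal_sdiff (Metric.closedBall_subset_closedBall hs1) measurableSet_closedBall
        measure_closedBall_lt_top.ne, hvol 1 one_pos, hvol s hs0]
      ring
    have h1 : ‖∫ z in {z : ℂ | s < ‖z‖ ∧ ‖z‖ ≤ 1}, sph p z‖ ≤
        C * volume.real {z : ℂ | s < ‖z‖ ∧ ‖z‖ ≤ 1} := by
      apply norm_setIntegral_le_of_norm_le_const
      · rw [hd]
        exact (measure_mono Set.sdiff_subset).trans_lt measure_closedBall_lt_top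
      · intro z hz
        apply hC z
        rw [mem_closedBall_zero_iff]
        exact hz.2
    rw [hv] at h1
    have h3 : ∫ z in {z : ℂ | s < ‖z‖ ∧ ‖z‖ ≤ 1}, sph p z ≤ C * (Real.pi - s ^ 2 * Real.pi) :=
      (le_abs_self _).trans h1
    have h4 : Real.pi - s ^ 2 * Real.pi ≤ 2 * Real.pi * (1 - s) := by
      have : 0 ≤ Real.pi * (1 - s) ^ 2 := by positivity
      nlinarith
    have h5 := mul_le_mul_of_nonneg_left h4 hC0
    linarith

/-- the choice of the parameters -/
theorem logs {M : ℝ} (hM : 2 ≤ M) : 0 < Real.log M ∧ 1 / M ≤ Real.log M ∧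
    Real.log (Real.log M / (1 / M)) ≤ 2 * Real.log M := by
  have hM0 : 0 < M := by linarith
  have h2 : Real.log 2 ≤ Real.log M := Real.log_le_log (by norm_num) hM
  have h3 : 1 / 2 < Real.log 2 := by
    have := Real.log_two_gt_d9
    linarith
  have h4 : 1 / M ≤ 1 / 2 := one_div_le_one_div_of_le (by norm_num) hM
  have hl0 : 0 < Real.log M := by linarith
  refine ⟨hl0, by linarith, ?_⟩
  have h5 : Real.log M ≤ M := by
    have := Real.log_le_sub_one_of_pos hM0
    linarith
  have h6 : Real.log M / (1 / M) ≤ M ^ 2 := by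
    rw [div_div_eq_mul_div, div_one]
    nlinarith
  calc Real.log (Real.log M / (1 / M)) ≤ Real.log (M ^ 2) := Real.log_le_log (by positivity) h6
    _ = 2 * Real.log M := by
        rw [Real.log_pow]
        norm_num

end BCFM

open BCFM in
/-- every degree: the number of the monomials and the sum of the coefficients -/
theorem specBCF (hGRN : SpecGRN) (hWLM : SpecWLM) (hPLR : SpecPLR) (hJEN : SpecJEN) (p : ℂ[X]) :
    ∫ z in Metric.closedBall (0 : ℂ) 1, sph p z ≤ 2 * Real.pi * (1 + Real.sqrt p.support.card *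
      Real.log (2 + 2 * ∑ k ∈ p.support.erase 0, ‖p.coeff k‖)) := by
  have hpi := Real.pi_pos
  obtain ⟨N, hN⟩ : ∃ N : ℝ, N = ∑ k ∈ p.support.erase 0, ‖p.coeff k‖ := ⟨_, rfl⟩
  have hN0 : 0 ≤ N := by
    rw [hN]
    exact Finset.sum_nonneg fun k _ => norm_nonneg _
  rw [← hN]
  obtain ⟨M, hM⟩ : ∃ M : ℝ, M = 2 + 2 * N := ⟨_, rfl⟩
  have hM2 : 2 ≤ M := by linarith
  have hM0 : 0 < M := by linarith
  rw [← hM]
  obtain ⟨hl0, hl1, hl2⟩ := logs hM2
  obtain ⟨L, hL⟩ : ∃ L : ℝ, L = Real.log M := ⟨_, rfl⟩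
  rw [← hL] at hl0 hl1 hl2 ⊢
  rcases eq_or_ne p 0 with hp | hp
  · have h1 : ∀ z : ℂ, sph p z = 0 := by
      intro z
      rw [hp]
      simp [sph]
    simp only [h1, integral_zero]
    positivity
  obtain ⟨m, hm⟩ : ∃ m : ℝ, m = (p.support.card : ℝ) := ⟨_, rfl⟩
  have hm1 : 1 ≤ m := by
    rw [hm]
    have : 0 < p.support.card := Finset.card_pos.mpr (Polynomial.nonempty_support_iff.mpr hp)
    exact_mod_cast this
  have hm0 : 0 < m := by linarith
  rw [← hm]
  obtain ⟨q, hq⟩ : ∃ q : ℝ, q = Real.sqrt m := ⟨_, rfl⟩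
  have hq0 : 0 < q := by rw [hq]; exact Real.sqrt_pos.mpr hm0
  have hqq : q ^ 2 = m := by rw [hq]; exact Real.sq_sqrt hm0.le
  rw [← hq]
  have hU : ∀ x, UU p 0 - UU p x ≤ 2 * Real.pi * L := by
    intro x
    have h1 : ∑ k ∈ p.support, ‖p.coeff k‖ ^ 2 ≤ ‖p.coeff 0‖ ^ 2 + N ^ 2 := by
      calc ∑ k ∈ p.support, ‖p.coeff k‖ ^ 2
          ≤ ∑ k ∈ insert 0 (p.support.erase 0), ‖p.coeff k‖ ^ 2 := by
            apply Finset.sum_le_sum_of_subset_of_nonneg
            · intro k hk
              rcases eq_or_ne k 0 with h | h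
              · rw [h]
                exact Finset.mem_insert_self _ _
              · exact Finset.mem_insert_of_mem (Finset.mem_erase.mpr ⟨h, hk⟩)
            · intro k _ _
              positivity
        _ = ‖p.coeff 0‖ ^ 2 + ∑ k ∈ p.support.erase 0, ‖p.coeff k‖ ^ 2 :=
            Finset.sum_insert (Finset.notMem_erase _ _)
        _ ≤ ‖p.coeff 0‖ ^ 2 + N ^ 2 := by
            have h2 : ∑ k ∈ p.support.erase 0, ‖p.coeff k‖ ^ 2 ≤ N ^ 2 := by
              rw [hN]
              exact Finset.sum_sq_le_sq_sum_of_nonneg fun k _ => norm_nonneg _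
            linarith
    have h0 : 0 ≤ ∑ k ∈ p.support, ‖p.coeff k‖ ^ 2 := Finset.sum_nonneg fun k _ => by positivity
    have h00 : 0 ≤ ‖p.coeff 0‖ ^ 2 := by positivity
    have h2 : 1 + ∑ k ∈ p.support, ‖p.coeff k‖ ^ 2 ≤ (1 + ‖p.coeff 0‖ ^ 2) * M ^ 2 := by
      have h3 : 1 + N ^ 2 ≤ M ^ 2 := by
        rw [hM]
        nlinarith
      have h4 : (1 + ‖p.coeff 0‖ ^ 2) * (1 + N ^ 2) ≤ (1 + ‖p.coeff 0‖ ^ 2) * M ^ 2 :=
        mul_le_mul_of_nonneg_left h3 (by positivity)
      have h5 : 0 ≤ ‖p.coeff 0‖ ^ 2 * N ^ 2 := by positivity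
      nlinarith
    have h5 : Real.log (1 + ∑ k ∈ p.support, ‖p.coeff k‖ ^ 2) ≤
        Real.log (1 + ‖p.coeff 0‖ ^ 2) + 2 * L := by
      calc Real.log (1 + ∑ k ∈ p.support, ‖p.coeff k‖ ^ 2)
          ≤ Real.log ((1 + ‖p.coeff 0‖ ^ 2) * M ^ 2) := Real.log_le_log (by linarith) h2
        _ = Real.log (1 + ‖p.coeff 0‖ ^ 2) + 2 * L := by
            rw [Real.log_mul (by positivity) (by positivity), Real.log_pow, hL]
            norm_num
    have h6 := mul_le_mul_of_nonneg_left h5 hpi.le
    have h7 := hJEN p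
    have h8 := uul hGRN hWLM p x
    linarith
  have hexp : Real.exp (-L) = 1 / M := by
    rw [hL, Real.exp_neg, Real.exp_log hM0, one_div]
  have hlogn : 0 ≤ Real.log (L / (1 / M)) := by
    apply Real.log_nonneg
    rw [le_div_iff₀ (by positivity)]
    linarith
  obtain ⟨B, hB⟩ : ∃ B : ℕ → ℝ, ∀ k, B k = (if k = 0 then 0 else ‖p.coeff k‖) * (2 / M) +
    1 / (2 * (2 * q)) * Real.log (L / (1 / M)) := ⟨_, fun _ => rfl⟩
  have hBm : 2 * Real.pi * ∑ k ∈ p.support, B k ≤ 2 * Real.pi * (1 + q * L / 2) := by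
    apply mul_le_mul_of_nonneg_left _ (by positivity)
    have h1 : ∑ k ∈ p.support, B k = N * (2 / M) + m * (1 / (2 * (2 * q)) * Real.log (L / (1 / M))) := by
      simp only [hB]
      rw [Finset.sum_add_distrib, ← Finset.sum_mul, Finset.sum_const, nsmul_eq_mul, ← hm]
      congr 2
      rw [hN, ← Finset.sum_erase p.support (a := 0) (f := fun k => if k = 0 then 0 else ‖p.coeff k‖)
        (by simp)]
      apply Finset.sum_congr rfl
      intro k hk
      rw [if_neg (Finset.mem_erase.mp hk).1]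
    have h2 : N * (2 / M) ≤ 1 := by
      rw [mul_div_assoc', div_le_one hM0]
      linarith
    have h3 : m * (1 / (2 * (2 * q)) * Real.log (L / (1 / M))) ≤ m * (1 / (2 * (2 * q)) * (2 * L)) := by
      apply mul_le_mul_of_nonneg_left _ hm0.le
      exact mul_le_mul_of_nonneg_left hl2 (by positivity)
    have h4 : m * (1 / (2 * (2 * q)) * (2 * L)) = q * L / 2 := by
      rw [← hqq]
      field_simp
    rw [h1]
    linarith
  obtain ⟨C, hC0, hC1, hC2⟩ := ball_small p
  apply le_of_forall_pos_le_add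
  intro ε hε
  obtain ⟨r, hr⟩ : ∃ r : ℝ, r = min (1 / 4) (ε / (2 * (C + 1))) := ⟨_, rfl⟩
  have hr0 : 0 < r := by
    rw [hr]
    exact lt_min (by norm_num) (by positivity)
  have hr1 : r ≤ 1 / 4 := by rw [hr]; exact min_le_left _ _
  have hr2 : r ≤ ε / (2 * (C + 1)) := by rw [hr]; exact min_le_right _ _
  have hCr : C * r ≤ ε / 2 := by
    rw [le_div_iff₀ (by positivity)] at hr2
    nlinarith
  have hs0 : 0 < 1 - r := by linarith
  have hs1 : 1 - r ≤ 1 := by linarith
  have hlogr : Real.exp (Real.log r) = r := Real.exp_log hr0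
  have hlogs : Real.exp (-(-Real.log (1 - r))) = 1 - r := by rw [neg_neg, Real.exp_log hs0]
  have hδ : 0 < -Real.log (1 - r) := by
    have := Real.log_neg hs0 (by linarith)
    linarith
  have hx : Real.log r ≤ -(-Real.log (1 - r)) := by
    rw [neg_neg]
    exact Real.log_le_log hr0 (by linarith)
  have hint : ∀ k ∈ p.support, ∫ x in (Real.log r)..(-(-Real.log (1 - r))),
      u ‖p.coeff k‖ (1 / (2 * (2 * q))) k x ≤ B k := by
    intro k _
    rw [hB]
    rcases Nat.eq_zero_or_pos k with h | h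
    · subst h
      have h1 : ∫ x in (Real.log r)..(-(-Real.log (1 - r))),
          u ‖p.coeff 0‖ (1 / (2 * (2 * q))) ((0 : ℕ) : ℝ) x ≤
          ∫ x in (Real.log r)..(-(-Real.log (1 - r))), (0 : ℝ) := by
        apply intervalIntegral.integral_mono_on hx (u_ii _ _ _ hx (by linarith))
          (continuous_const.intervalIntegrable _ _)
        intro x _
        refine (min_le_left _ _).trans (le_of_eq ?_)
        simp
      rw [intervalIntegral.integral_zero] at h1
      refine h1.trans ?_
      rw [if_pos rfl, zero_mul, zero_add]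
      positivity
    · have hk : (0 : ℝ) < k := by exact_mod_cast h
      rw [if_neg h.ne']
      have h1 := u_int (A := ‖p.coeff k‖) (c := 1 / (2 * (2 * q))) (norm_nonneg _) (by positivity) hk
        (by positivity : 0 < 1 / M) hl1 hδ hx
      rw [hexp] at h1
      refine h1.trans (le_of_eq ?_)
      ring
  have hE : ∫ x in (Real.log r)..0, (0 - x) * aa p x ≤ Real.pi * L := by
    have h1 := we2 hGRN hWLM p (x₀ := Real.log r) (x₁ := 0)
      (by rw [Real.log_nonpos_iff hr0.le]; linarith)
    have h2 := hU (Real.log r)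
    linarith
  have hann := ann hPLR (by positivity : 0 < 2 * q) hδ hx hE hint
  rw [hlogr, hlogs] at hann
  have h1 := hC1 r hr0 (by linarith)
  have h2 := hC2 (1 - r) hs0 hs1
  have h3 : C * (1 - (1 - r)) = C * r := by ring
  rw [h3] at h2
  rw [FNBM.split p r (1 - r) (by linarith) hs1]
  have h5 : 2 * q / 2 * (Real.pi * L) + 2 * Real.pi * (1 + q * L / 2) =
      2 * Real.pi * (1 + q * L) := by ring
  linarith

end

end Pool.Agent.Lib.MP684ec1.NB
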