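import Pool.Agent.Lib.MP_684ec1_an.NB.BCF

/-!
# MP_684ec1 : module BCG of NB, the bound by the number of the monomials and the logarithm of the sum of the coefficients

THEOREM. Let `p` have `m ≥ 1` monomials, `N = ∑_(k ≥ 1) |a_k|`, `L = log (2 + 2 N)`. Then `P(p) ≤ π (4 + √(2 m L log (8 m² L)))`, whatever the degree.
PROOF. `z = e^(x + iθ)`, `t = -x > 0`, `s = e^x p^#`, `α = 1/(4 m²)`, `β = 2 L`. If `α ≤ k t ≤ β` for some `k` of the support: `s e^x ≤ (l/2) t s² + 1/(2 l t)`.
Otherwise `p = q + r`, `q` the monomials with `k t < α`, `r` those with `k t > β`: `|r| ≤ ∑ |a_k| e^(-2L) ≤ 1/2`, `|z r'| ≤ ∑ k |a_k| e^(-L) e^(-kt/2)`, so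
`p^# ≤ 2 q^# + |r'|`. The part of `q` is at most, for each `K` of the support, twice the integral of `(q_K)^#` over `e^(-α/K) < |z| ≤ 1`, `q_K` the monomials with
`k ≤ K`; the area of the image is at most `π K` (with multiplicities), so Cauchy-Schwarz gives `√(π K · 2 π α/K) = π/(√2 m)`.
-/

set_option autoImplicit false

namespace Pool.Agent.Lib.MP684ec1.NB

open Complex Polynomial MeasureTheory intervalIntegral
open Pool.Agent.Lib.MP684ec1.HP

noncomputable section

namespace BCGM

/-- the part of `p` with exponents in `S` -/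
def qq (p : ℂ[X]) (S : Finset ℕ) : ℂ[X] := ∑ k ∈ S, monomial k (p.coeff k)

theorem qq_support (p : ℂ[X]) : qq p p.support = p := (p.as_sum_support).symm

theorem qq_split (p : ℂ[X]) {S : Finset ℕ} (hS : S ⊆ p.support) :
    qq p S + qq p (p.support \ S) = p := by
  unfold qq
  rw [add_comm, Finset.sum_sdiff hS]
  exact (p.as_sum_support).symm

theorem qq_eval_le (p : ℂ[X]) (S : Finset ℕ) (x θ : ℝ) :
    ‖(qq p S).eval (lp x θ)‖ ≤ ∑ k ∈ S, ‖p.coeff k‖ * Real.exp (k * x) := by
  unfold qq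
  rw [eval_finsetSum]
  refine (norm_sum_le _ _).trans (le_of_eq ?_)
  apply Finset.sum_congr rfl
  intro k _
  rw [eval_monomial, norm_mul, LAMM.norm_pow_lp]

theorem qq_der_le (p : ℂ[X]) (S : Finset ℕ) (x θ : ℝ) :
    ‖(qq p S).derivative.eval (lp x θ)‖ * Real.exp x ≤
      ∑ k ∈ S, (k : ℝ) * ‖p.coeff k‖ * Real.exp (k * x) := by
  rw [← LAMM.norm_lp x θ, ← norm_mul]
  unfold qq
  rw [derivative_sum, eval_finsetSum, Finset.sum_mul]
  refine (norm_sum_le _ _).trans (le_of_eq ?_)
  apply Finset.sum_congr rfl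
  intro k _
  rw [derivative_monomial, eval_monomial]
  rcases Nat.eq_zero_or_pos k with h | h
  · subst h
    simp
  · have e : p.coeff k * (k : ℂ) * lp x θ ^ (k - 1) * lp x θ = p.coeff k * (k : ℂ) * lp x θ ^ k := by
      rw [mul_assoc, ← pow_succ, Nat.sub_add_cancel h]
    rw [e, norm_mul, norm_mul, LAMM.norm_pow_lp, Complex.norm_natCast]
    ring

theorem qq_natDegree (p : ℂ[X]) (S : Finset ℕ) (K : ℕ) (hS : ∀ k ∈ S, k ≤ K) :
    (qq p S).natDegree ≤ K := by
  unfold qq
  apply natDegree_sum_le_of_forall_le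
  intro k hk
  exact (natDegree_monomial_le _).trans (hS k hk)

/-- the majorant of the high part -/
def B (p : ℂ[X]) (M : ℝ) (k : ℕ) (x : ℝ) : ℝ := (k : ℝ) * ‖p.coeff k‖ * (1 / M) * Real.exp (k * x / 2)

theorem B_nonneg (p : ℂ[X]) {M : ℝ} (hM : 0 < M) (k : ℕ) (x : ℝ) : 0 ≤ B p M k x := by
  unfold B
  positivity

/-- low part and high part -/
theorem split_bound (p : ℂ[X]) {S : Finset ℕ} (hS : S ⊆ p.support) {M x : ℝ} (hM : 2 ≤ M)
    (hN : 2 + 2 * ∑ k ∈ p.support.erase 0, ‖p.coeff k‖ ≤ M) (hx : x < 0)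
    (hHi : ∀ k ∈ p.support, k ∉ S → 2 * Real.log M < k * (-x)) (θ : ℝ) :
    sph p (lp x θ) * Real.exp (2 * x) ≤ 2 * (sph (qq p S) (lp x θ) * Real.exp (2 * x)) +
      ∑ k ∈ p.support, B p M k x := by
  have hM0 : 0 < M := by linarith
  have hL0 : 0 < Real.log M := Real.log_pos (by linarith)
  obtain ⟨z, hz⟩ : ∃ z : ℂ, z = lp x θ := ⟨_, rfl⟩
  obtain ⟨r, hr⟩ : ∃ r : ℂ[X], r = qq p (p.support \ S) := ⟨_, rfl⟩
  obtain ⟨q, hq⟩ : ∃ q : ℂ[X], q = qq p S := ⟨_, rfl⟩
  have hpq : p = q + r := by rw [hq, hr, qq_split p hS]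
  have hex : ∀ k ∈ p.support \ S, Real.exp (k * x) ≤ 1 / M * Real.exp (k * x / 2) := by
    intro k hk
    have h1 := hHi k (Finset.mem_sdiff.mp hk).1 (Finset.mem_sdiff.mp hk).2
    have h2 : Real.exp (k * x) = Real.exp (k * x / 2) * Real.exp (k * x / 2) := by
      rw [← Real.exp_add]
      congr 1
      ring
    have h3 : Real.exp (k * x / 2) ≤ 1 / M := by
      have h4 : 1 / M = Real.exp (-Real.log M) := by
        rw [Real.exp_neg, Real.exp_log hM0, one_div]
      rw [h4]
      apply Real.exp_le_exp.mpr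
      linarith
    rw [h2]
    exact mul_le_mul_of_nonneg_right h3 (Real.exp_pos _).le
  have hrz : ‖r.eval z‖ ≤ 1 / 2 := by
    rw [hr, hz]
    refine (qq_eval_le p _ x θ).trans ?_
    have h1 : ∀ k ∈ p.support \ S, ‖p.coeff k‖ * Real.exp (k * x) ≤ ‖p.coeff k‖ * (1 / M) := by
      intro k hk
      apply mul_le_mul_of_nonneg_left _ (norm_nonneg _)
      refine (hex k hk).trans ?_
      apply mul_le_of_le_one_right (by positivity)
      rw [Real.exp_le_one_iff]
      have : (k : ℝ) * x ≤ 0 := mul_nonpos_of_nonneg_of_nonpos (Nat.cast_nonneg k) hx.le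
      linarith
    refine (Finset.sum_le_sum h1).trans ?_
    rw [← Finset.sum_mul]
    have h2 : ∑ k ∈ p.support \ S, ‖p.coeff k‖ ≤ ∑ k ∈ p.support.erase 0, ‖p.coeff k‖ := by
      apply Finset.sum_le_sum_of_subset_of_nonneg
      · intro k hk
        rw [Finset.mem_erase]
        refine ⟨?_, (Finset.mem_sdiff.mp hk).1⟩
        rintro rfl
        have h1 := hHi 0 (Finset.mem_sdiff.mp hk).1 (Finset.mem_sdiff.mp hk).2
        simp only [Nat.cast_zero, zero_mul] at h1
        linarith
      · intro k _ _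
        positivity
    rw [mul_one_div, div_le_iff₀ hM0]
    linarith
  have hrd : ‖r.derivative.eval z‖ * Real.exp (2 * x) ≤ ∑ k ∈ p.support, B p M k x := by
    have h1 : ‖r.derivative.eval z‖ * Real.exp x ≤ ∑ k ∈ p.support, B p M k x := by
      rw [hr, hz]
      refine (qq_der_le p _ x θ).trans ?_
      have h2 : ∑ k ∈ p.support \ S, (k : ℝ) * ‖p.coeff k‖ * Real.exp (k * x) ≤
          ∑ k ∈ p.support \ S, B p M k x := by
        apply Finset.sum_le_sum
        intro k hk
        unfold B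
        rw [mul_assoc ((k : ℝ) * ‖p.coeff k‖)]
        exact mul_le_mul_of_nonneg_left (hex k hk) (by positivity)
      refine h2.trans ?_
      apply Finset.sum_le_sum_of_subset_of_nonneg Finset.sdiff_subset
      intro k _ _
      exact B_nonneg p hM0 k x
    have h3 : Real.exp (2 * x) ≤ Real.exp x := Real.exp_le_exp.mpr (by linarith)
    exact (mul_le_mul_of_nonneg_left h3 (norm_nonneg _)).trans h1
  have hmain : sph p z ≤ 2 * sph q z + ‖r.derivative.eval z‖ := by
    unfold sph
    rw [hpq, derivative_add, eval_add, eval_add]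
    obtain ⟨a, ha⟩ : ∃ a : ℂ, a = q.derivative.eval z := ⟨_, rfl⟩
    obtain ⟨b, hb⟩ : ∃ b : ℂ, b = r.derivative.eval z := ⟨_, rfl⟩
    obtain ⟨c, hc⟩ : ∃ c : ℂ, c = q.eval z := ⟨_, rfl⟩
    obtain ⟨d, hd⟩ : ∃ d : ℂ, d = r.eval z := ⟨_, rfl⟩
    rw [← ha, ← hb, ← hc, ← hd]
    rw [← hd] at hrz
    have h1 : ‖c‖ ≤ ‖c + d‖ + 1 / 2 := by
      have h2 : c = (c + d) - d := by ring
      calc ‖c‖ = ‖(c + d) - d‖ := by rw [← h2]
        _ ≤ ‖c + d‖ + ‖d‖ := norm_sub_le _ _
        _ ≤ ‖c + d‖ + 1 / 2 := by linarith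
    have h2 : 1 + ‖c‖ ^ 2 ≤ 2 * (1 + ‖c + d‖ ^ 2) := by
      have h3 : ‖c‖ ^ 2 ≤ (‖c + d‖ + 1 / 2) ^ 2 := pow_le_pow_left₀ (norm_nonneg _) h1 2
      nlinarith [sq_nonneg (‖c + d‖ - 1 / 2)]
    have h3 : 0 < 1 + ‖c + d‖ ^ 2 := by positivity
    have h4 : 0 < 1 + ‖c‖ ^ 2 := by positivity
    calc ‖a + b‖ / (1 + ‖c + d‖ ^ 2) ≤ (‖a‖ + ‖b‖) / (1 + ‖c + d‖ ^ 2) :=
          div_le_div_of_nonneg_right (norm_add_le _ _) h3.le
      _ = ‖a‖ / (1 + ‖c + d‖ ^ 2) + ‖b‖ / (1 + ‖c + d‖ ^ 2) := add_div _ _ _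
      _ ≤ 2 * (‖a‖ / (1 + ‖c‖ ^ 2)) + ‖b‖ := by
          have h5 : ‖a‖ / (1 + ‖c + d‖ ^ 2) ≤ 2 * (‖a‖ / (1 + ‖c‖ ^ 2)) := by
            rw [← mul_div_assoc, div_le_div_iff₀ h3 h4]
            nlinarith [norm_nonneg a, mul_le_mul_of_nonneg_left h2 (norm_nonneg a)]
          have h6 : ‖b‖ / (1 + ‖c + d‖ ^ 2) ≤ ‖b‖ := by
            apply div_le_self (norm_nonneg _)
            have : 0 ≤ ‖c + d‖ ^ 2 := by positivity
            linarith
          linarith
  rw [← hz, ← hq]
  have h7 := mul_le_mul_of_nonneg_right hmain (Real.exp_pos (2 * x)).le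
  rw [add_mul] at h7
  linarith

/-- the cut-off of the active part -/
def Ac (c α β : ℝ) (k : ℕ) (x : ℝ) : ℝ :=
  if α ≤ k * (-x) ∧ k * (-x) ≤ β then c / (-x) else 0

/-- the cut-off of the low part -/
def Zc (α : ℝ) (K : ℕ) (x : ℝ) : ℝ := if (K : ℝ) * (-x) < α then 1 else 0

theorem Ac_nonneg {c α β x : ℝ} (hc : 0 ≤ c) (hx : x < 0) (k : ℕ) : 0 ≤ Ac c α β k x := by
  unfold Ac
  split_ifs
  · exact div_nonneg hc (by linarith)
  · exact le_refl _

theorem Zc_nonneg (α : ℝ) (K : ℕ) (x : ℝ) : 0 ≤ Zc α K x := by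
  unfold Zc
  split_ifs
  · exact zero_le_one
  · exact le_refl _

theorem pt (p : ℂ[X]) {M x lam α : ℝ} (hM : 2 ≤ M)
    (hN : 2 + 2 * ∑ k ∈ p.support.erase 0, ‖p.coeff k‖ ≤ M) (hx : x < 0) (hl : 0 < lam) (θ : ℝ) :
    sph p (lp x θ) * Real.exp (2 * x) ≤ lam / 2 * (-x) * (sph p (lp x θ) * Real.exp x) ^ 2 +
      ∑ k ∈ p.support, (Ac (1 / (2 * lam)) α (2 * Real.log M) k x + B p M k x) +
      ∑ K ∈ p.support, Zc α K x *
        (2 * (sph (qq p (p.support.filter (· ≤ K))) (lp x θ) * Real.exp (2 * x))) := by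
  have hM0 : 0 < M := by linarith
  have h0 : 0 < -x := by linarith
  have hcn : 0 ≤ 1 / (2 * lam) := by positivity
  have hs := BCFM.sph_nonneg p (lp x θ)
  have hA : ∀ k, 0 ≤ Ac (1 / (2 * lam)) α (2 * Real.log M) k x := fun k => Ac_nonneg hcn hx k
  have hB : ∀ k, 0 ≤ B p M k x := fun k => B_nonneg p hM0 k x
  have hZ : ∀ K : ℕ, 0 ≤ Zc α K x *
      (2 * (sph (qq p (p.support.filter (· ≤ K))) (lp x θ) * Real.exp (2 * x))) := by
    intro K
    apply mul_nonneg (Zc_nonneg α K x)
    have := BCFM.sph_nonneg (qq p (p.support.filter (· ≤ K))) (lp x θ)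
    positivity
  have hZs : 0 ≤ ∑ K ∈ p.support, Zc α K x *
      (2 * (sph (qq p (p.support.filter (· ≤ K))) (lp x θ) * Real.exp (2 * x))) :=
    Finset.sum_nonneg fun K _ => hZ K
  have hsq : 0 ≤ lam / 2 * (-x) * (sph p (lp x θ) * Real.exp x) ^ 2 := by positivity
  have hAB : ∑ k ∈ p.support, B p M k x ≤
      ∑ k ∈ p.support, (Ac (1 / (2 * lam)) α (2 * Real.log M) k x + B p M k x) :=
    Finset.sum_le_sum fun k _ => by linarith [hA k]
  by_cases h : ∃ k ∈ p.support, α ≤ (k : ℝ) * (-x) ∧ (k : ℝ) * (-x) ≤ 2 * Real.log M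
  · obtain ⟨k, hk, hk'⟩ := h
    have h1 : 1 / (2 * lam) / (-x) ≤
        ∑ k ∈ p.support, (Ac (1 / (2 * lam)) α (2 * Real.log M) k x + B p M k x) := by
      have h2 : Ac (1 / (2 * lam)) α (2 * Real.log M) k x = 1 / (2 * lam) / (-x) := if_pos hk'
      have h3 := Finset.single_le_sum
        (f := fun k => Ac (1 / (2 * lam)) α (2 * Real.log M) k x + B p M k x)
        (fun j _ => add_nonneg (hA j) (hB j)) hk
      have h4 := hB k
      rw [← h2]
      refine le_trans ?_ h3
      show Ac (1 / (2 * lam)) α (2 * Real.log M) k x ≤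
        Ac (1 / (2 * lam)) α (2 * Real.log M) k x + B p M k x
      linarith
    have h2 := BCFM.cs (s := sph p (lp x θ) * Real.exp x) hx hl
    have h5 : sph p (lp x θ) * Real.exp (2 * x) = sph p (lp x θ) * Real.exp x * Real.exp x := by
      rw [two_mul, Real.exp_add]
      ring
    rw [h5]
    linarith
  · push Not at h
    obtain ⟨S, hS⟩ : ∃ S : Finset ℕ, S = p.support.filter (fun k : ℕ => (k : ℝ) * (-x) < α) := ⟨_, rfl⟩
    have hSs : S ⊆ p.support := by rw [hS]; exact Finset.filter_subset _ _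
    have hHi : ∀ k ∈ p.support, k ∉ S → 2 * Real.log M < k * (-x) := by
      intro k hk hkS
      apply h k hk
      by_contra hlt
      push Not at hlt
      apply hkS
      rw [hS, Finset.mem_filter]
      exact ⟨hk, hlt⟩
    have hsb := split_bound p hSs hM hN hx hHi θ
    rcases S.eq_empty_or_nonempty with hE | hE
    · have h1 : sph (qq p S) (lp x θ) = 0 := by
        rw [hE]
        simp [qq, sph]
      rw [h1] at hsb
      linarith
    · obtain ⟨K, hK⟩ : ∃ K : ℕ, K = S.max' hE := ⟨_, rfl⟩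
      have hKS : K ∈ S := by rw [hK]; exact S.max'_mem hE
      have hKs := hSs hKS
      have hKα : (K : ℝ) * (-x) < α := by
        rw [hS, Finset.mem_filter] at hKS
        exact hKS.2
      have hSK : S = p.support.filter (· ≤ K) := by
        ext k
        constructor
        · intro hk
          rw [Finset.mem_filter]
          refine ⟨hSs hk, ?_⟩
          rw [hK]
          exact S.le_max' k hk
        · intro hk
          rw [Finset.mem_filter] at hk
          rw [hS, Finset.mem_filter]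
          refine ⟨hk.1, lt_of_le_of_lt ?_ hKα⟩
          apply mul_le_mul_of_nonneg_right _ h0.le
          exact_mod_cast hk.2
      have h1 := Finset.single_le_sum (f := fun K : ℕ => Zc α K x *
        (2 * (sph (qq p (p.support.filter (· ≤ K))) (lp x θ) * Real.exp (2 * x))))
        (fun j _ => hZ j) hKs
      have h2 : Zc α K x = 1 := if_pos hKα
      simp only [h2, one_mul] at h1
      rw [← hSK] at h1
      linarith

/-- the integral of the active part -/
theorem A_int {c α β x₀ δ : ℝ} (hc : 0 ≤ c) (hα : 0 < α) (hαβ : α ≤ β) (hδ : 0 < δ) (hx : x₀ ≤ -δ)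
    (k : ℕ) : IntervalIntegrable (Ac c α β k) volume x₀ (-δ) ∧
      ∫ x in x₀..(-δ), Ac c α β k x ≤ c * Real.log (β / α) := by
  have hβ : 0 < β := by linarith
  rcases Nat.eq_zero_or_pos k with h | h
  · subst h
    have h1 : Ac c α β 0 = fun _ => 0 := by
      funext x
      unfold Ac
      rw [if_neg]
      rintro ⟨h1, -⟩
      simp only [Nat.cast_zero, zero_mul] at h1
      linarith
    rw [h1]
    refine ⟨intervalIntegrable_const, ?_⟩
    rw [intervalIntegral.integral_zero]
    apply mul_nonneg hc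
    apply Real.log_nonneg
    rw [le_div_iff₀ hα]
    linarith
  · have hk : (0 : ℝ) < k := by exact_mod_cast h
    have hαk : 0 < α / k := by positivity
    have hβk : 0 < β / k := by positivity
    have hm : -(β / k) ≤ -(α / k) := by
      apply neg_le_neg
      exact div_le_div_of_nonneg_right hαβ hk.le
    have hA : Ac c α β k = Set.indicator (Set.Icc (-(β / k)) (-(α / k))) (fun x => c / (-x)) := by
      funext x
      unfold Ac
      by_cases hx' : x ∈ Set.Icc (-(β / (k : ℝ))) (-(α / k))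
      · rw [Set.indicator_of_mem hx', if_pos]
        have h1 := hx'.1
        have h2 := hx'.2
        constructor
        · have h3 : α / k ≤ -x := by linarith
          rw [div_le_iff₀ hk] at h3
          linarith
        · have h3 : -x ≤ β / k := by linarith
          rw [le_div_iff₀ hk] at h3
          linarith
      · rw [Set.indicator_of_notMem hx', if_neg]
        rintro ⟨h1, h2⟩
        apply hx'
        constructor
        · have h3 : -x ≤ β / k := by
            rw [le_div_iff₀ hk]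
            linarith
          linarith
        · have h3 : α / k ≤ -x := by
            rw [div_le_iff₀ hk]
            linarith
          linarith
    have hco : ContinuousOn (fun x : ℝ => c / (-x)) (Set.Icc (-(β / (k : ℝ))) (-(α / k))) := by
      apply ContinuousOn.div continuousOn_const (by fun_prop)
      intro x hx'
      have := hx'.2
      linarith
    have hint : Integrable (Ac c α β k) := by
      rw [hA, integrable_indicator_iff measurableSet_Icc]
      exact hco.integrableOn_Icc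
    refine ⟨hint.intervalIntegrable, ?_⟩
    have hnn : ∀ x, 0 ≤ Ac c α β k x := by
      intro x
      rw [hA]
      apply Set.indicator_nonneg
      intro x hx'
      have := hx'.2
      exact div_nonneg hc (by linarith)
    have h1 : ∫ x in x₀..(-δ), Ac c α β k x ≤ ∫ x, Ac c α β k x := by
      rw [intervalIntegral.integral_of_le hx]
      exact setIntegral_le_integral hint (Filter.Eventually.of_forall hnn)
    have h2 : ∫ x, Ac c α β k x = ∫ x in (-(β / (k : ℝ)))..(-(α / k)), c / (-x) := by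
      rw [hA, MeasureTheory.integral_indicator measurableSet_Icc, integral_Icc_eq_integral_Ioc,
        ← intervalIntegral.integral_of_le hm]
    have hd : ∀ x ∈ Set.uIcc (-(β / (k : ℝ))) (-(α / k)),
        HasDerivAt (fun x => -(c * Real.log (-x))) (c / (-x)) x := by
      intro x hx'
      rw [Set.uIcc_of_le hm] at hx'
      have hxn : x < 0 := by linarith [hx'.2]
      have g1 : HasDerivAt (fun x : ℝ => -x) (-1) x := hasDerivAt_neg' x
      have g2 := ((g1.log (by linarith : -x ≠ 0)).const_mul c).neg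
      have e : -(c * (-1 / -x)) = c / (-x) := by
        have h6 : x ≠ 0 := by linarith
        field_simp
      rw [e] at g2
      exact g2
    have hi : IntervalIntegrable (fun x => c / (-x)) volume (-(β / (k : ℝ))) (-(α / k)) := by
      apply ContinuousOn.intervalIntegrable
      rw [Set.uIcc_of_le hm]
      exact hco
    rw [h2, intervalIntegral.integral_eq_sub_of_hasDerivAt hd hi] at h1
    refine h1.trans (le_of_eq ?_)
    rw [neg_neg, neg_neg, Real.log_div hα.ne' hk.ne', Real.log_div hβ.ne' hk.ne',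
      Real.log_div hβ.ne' hα.ne']
    ring

/-- the integral of the high part -/
theorem B_int (p : ℂ[X]) {M x₀ δ : ℝ} (hM : 0 < M) (hδ : 0 < δ) (k : ℕ) :
    IntervalIntegrable (B p M k) volume x₀ (-δ) ∧
      ∫ x in x₀..(-δ), B p M k x ≤ (if k = 0 then 0 else ‖p.coeff k‖) * (2 / M) := by
  have hi : IntervalIntegrable (B p M k) volume x₀ (-δ) := by
    apply Continuous.intervalIntegrable
    unfold B
    fun_prop
  refine ⟨hi, ?_⟩
  have hd : ∀ x ∈ Set.uIcc x₀ (-δ), HasDerivAt (fun x => 2 * ‖p.coeff k‖ * (1 / M) *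
      Real.exp (k * x / 2)) (B p M k x) x := by
    intro x _
    have g1 : HasDerivAt (fun y : ℝ => (k : ℝ) * y / 2) ((k : ℝ) / 2) x := by
      have := ((hasDerivAt_id x).const_mul (k : ℝ)).div_const 2
      rw [mul_one] at this
      exact this
    have g2 := (g1.exp).const_mul (2 * ‖p.coeff k‖ * (1 / M))
    have e : 2 * ‖p.coeff k‖ * (1 / M) * (Real.exp (k * x / 2) * ((k : ℝ) / 2)) = B p M k x := by
      unfold B
      ring
    rw [e] at g2
    exact g2
  rw [intervalIntegral.integral_eq_sub_of_hasDerivAt hd hi]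
  split_ifs with h
  · subst h
    simp
  · have h1 : Real.exp (k * (-δ) / 2) ≤ 1 := by
      rw [Real.exp_le_one_iff]
      have : 0 ≤ (k : ℝ) * δ := by positivity
      linarith
    have h2 : 2 * ‖p.coeff k‖ * (1 / M) * Real.exp (k * (-δ) / 2) ≤ 2 * ‖p.coeff k‖ * (1 / M) :=
      mul_le_of_le_one_right (by positivity) h1
    have h3 : 0 ≤ 2 * ‖p.coeff k‖ * (1 / M) * Real.exp (k * x₀ / 2) := by positivity
    have h4 : ‖p.coeff k‖ * (2 / M) = 2 * ‖p.coeff k‖ * (1 / M) := by ring
    linarith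

/-- the inner integral -/
def hh (q : ℂ[X]) (x : ℝ) : ℝ := ∫ θ in (0 : ℝ)..(2 * Real.pi), sph q (lp x θ) * Real.exp (2 * x)

theorem hh_cont (q : ℂ[X]) : Continuous (hh q) := by
  unfold hh
  apply continuous_parametric_intervalIntegral_of_continuous'
    (f := fun x θ => sph q (lp x θ) * Real.exp (2 * x))
  have h1 : Continuous fun q' : ℝ × ℝ => sph q (lp q'.1 q'.2) :=
    (BCFM.sph_cont q).comp BCFM.lp_cont
  exact h1.mul (Real.continuous_exp.comp (continuous_const.mul continuous_fst))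

theorem hh_nonneg (q : ℂ[X]) (x : ℝ) : 0 ≤ hh q x := by
  unfold hh
  apply intervalIntegral.integral_nonneg (by positivity)
  intro θ _
  have := BCFM.sph_nonneg q (lp x θ)
  positivity

/-- the integral of the low part -/
theorem Z_int (hPLR : SpecPLR) (hCSA : MD.SpecCSA) (q : ℂ[X]) {α x₀ δ : ℝ} (hα : 0 < α) (hδ : 0 < δ)
    (hx : x₀ ≤ -δ) (K : ℕ) (hq : q.natDegree ≤ K) :
    IntervalIntegrable (fun x => Zc α K x * (2 * hh q x)) volume x₀ (-δ) ∧
      ∫ x in x₀..(-δ), Zc α K x * (2 * hh q x) ≤ 2 * (Real.pi * Real.sqrt (2 * α)) := by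
  have hpi := Real.pi_pos
  rcases Nat.eq_zero_or_pos q.natDegree with h | h
  · have h1 : (fun x => Zc α K x * (2 * hh q x)) = fun _ => 0 := by
      funext x
      have h2 : hh q x = 0 := by
        unfold hh
        have h3 : ∀ z : ℂ, sph q z = 0 := by
          intro z
          rw [Polynomial.eq_C_of_natDegree_eq_zero h]
          simp [sph]
        simp only [h3, zero_mul, intervalIntegral.integral_zero]
      rw [h2]
      ring
    rw [h1]
    refine ⟨intervalIntegrable_const, ?_⟩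
    rw [intervalIntegral.integral_zero]
    positivity
  · have hn : (0 : ℝ) < q.natDegree := by exact_mod_cast h
    have hK : (0 : ℝ) < K := by
      have : 0 < K := lt_of_lt_of_le h hq
      exact_mod_cast this
    have hnK : (q.natDegree : ℝ) ≤ K := by exact_mod_cast hq
    have hαK : 0 < α / K := by positivity
    have hZ : (fun x => Zc α K x * (2 * hh q x)) =
        Set.indicator (Set.Ioi (-(α / (K : ℝ)))) (fun x => 2 * hh q x) := by
      funext x
      unfold Zc
      by_cases hx' : x ∈ Set.Ioi (-(α / (K : ℝ)))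
      · rw [Set.indicator_of_mem hx', if_pos, one_mul]
        have h1 : -x < α / K := by
          have := hx'
          rw [Set.mem_Ioi] at this
          linarith
        rw [lt_div_iff₀ hK] at h1
        linarith
      · rw [Set.indicator_of_notMem hx', if_neg, zero_mul]
        intro h1
        apply hx'
        rw [Set.mem_Ioi]
        have h2 : -x < α / K := by
          rw [lt_div_iff₀ hK]
          linarith
        linarith
    have hc2 : Continuous fun x => 2 * hh q x := continuous_const.mul (hh_cont q)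
    have hio : IntegrableOn (fun x => 2 * hh q x) (Set.Ioc x₀ (-δ)) :=
      (intervalIntegrable_iff_integrableOn_Ioc_of_le hx).mp (hc2.intervalIntegrable _ _)
    have hint : IntervalIntegrable (fun x => Zc α K x * (2 * hh q x)) volume x₀ (-δ) := by
      rw [hZ, intervalIntegrable_iff_integrableOn_Ioc_of_le hx]
      exact hio.indicator measurableSet_Ioi
    refine ⟨hint, ?_⟩
    rw [hZ, intervalIntegral.integral_of_le hx, setIntegral_indicator measurableSet_Ioi]
    have hsub : Set.Ioc x₀ (-δ) ∩ Set.Ioi (-(α / (K : ℝ))) ⊆ Set.Ioc (-(α / (K : ℝ))) 0 := by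
      intro x hx'
      have h1 := hx'.1.2
      have h2 := hx'.2
      rw [Set.mem_Ioi] at h2
      exact ⟨h2, by linarith⟩
    have hio2 : IntegrableOn (fun x => 2 * hh q x) (Set.Ioc (-(α / (K : ℝ))) 0) :=
      (intervalIntegrable_iff_integrableOn_Ioc_of_le (by linarith)).mp (hc2.intervalIntegrable _ _)
    have h1 : ∫ x in Set.Ioc x₀ (-δ) ∩ Set.Ioi (-(α / (K : ℝ))), 2 * hh q x ≤
        ∫ x in Set.Ioc (-(α / (K : ℝ))) 0, 2 * hh q x := by
      apply setIntegral_mono_set hio2
      · apply Filter.Eventually.of_forall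
        intro x
        have := hh_nonneg q x
        show 0 ≤ 2 * hh q x
        positivity
      · exact Filter.Eventually.of_forall hsub
    refine h1.trans ?_
    rw [← intervalIntegral.integral_of_le (by linarith), intervalIntegral.integral_const_mul]
    have h2 := hPLR (sph q) (BCFM.sph_cont q) (-(α / (K : ℝ))) 0 (by linarith)
    have h3 : (∫ x in (-(α / (K : ℝ)))..0, hh q x) =
        ∫ z in {z : ℂ | Real.exp (-(α / (K : ℝ))) < ‖z‖ ∧ ‖z‖ ≤ Real.exp 0}, sph q z := h2.symm
    rw [h3, Real.exp_zero]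
    obtain ⟨r, hr⟩ : ∃ r : ℝ, r = Real.exp (-(α / (K : ℝ))) := ⟨_, rfl⟩
    rw [← hr]
    have hr0 : 0 ≤ r := by rw [hr]; exact (Real.exp_pos _).le
    have hr1 : r ≤ 1 := by
      rw [hr, Real.exp_le_one_iff]
      linarith
    have hr2 : 1 - r ^ 2 ≤ 2 * α / K := by
      have h4 : r ^ 2 = Real.exp (-(2 * α / K)) := by
        rw [hr, ← Real.exp_nat_mul]
        congr 1
        push_cast
        ring
      have h5 := Real.add_one_le_exp (-(2 * α / (K : ℝ)))
      rw [h4]
      linarith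
    have hvol : volume {z : ℂ | r < ‖z‖ ∧ ‖z‖ ≤ 1} ≤ ENNReal.ofReal (Real.pi * (2 * α / K)) := by
      rw [OUTM.volume_annulus r hr0 hr1]
      apply ENNReal.ofReal_le_ofReal
      exact mul_le_mul_of_nonneg_left hr2 hpi.le
    have hmeas : MeasurableSet {z : ℂ | r < ‖z‖ ∧ ‖z‖ ≤ 1} := by
      rw [OUTM.annulus_eq]
      exact measurableSet_closedBall.diff measurableSet_closedBall
    have hsub2 : {z : ℂ | r < ‖z‖ ∧ ‖z‖ ≤ 1} ⊆ Metric.closedBall 0 1 := by
      rw [OUTM.annulus_eq]
      exact Set.sdiff_subset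
    have h6 := hCSA q _ (Real.pi * (2 * α / K)) h (by positivity) hmeas hsub2 hvol
    have h7 : Real.sqrt (q.natDegree * Real.pi * (Real.pi * (2 * α / K))) ≤
        Real.pi * Real.sqrt (2 * α) := by
      have h8 : (q.natDegree : ℝ) * Real.pi * (Real.pi * (2 * α / K)) ≤ Real.pi ^ 2 * (2 * α) := by
        have h9 : (q.natDegree : ℝ) * Real.pi * (Real.pi * (2 * α / K)) =
            Real.pi ^ 2 * (2 * α) * (q.natDegree / K) := by
          field_simp
        rw [h9]
        apply mul_le_of_le_one_right (by positivity)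
        rw [div_le_one hK]
        exact hnK
      refine (Real.sqrt_le_sqrt h8).trans (le_of_eq ?_)
      rw [Real.sqrt_mul (by positivity), Real.sqrt_sq hpi.le]
    linarith

/-- the annulus -/
theorem ann (hPLR : SpecPLR) (hCSA : MD.SpecCSA) (p : ℂ[X]) {M lam α x₀ δ E : ℝ} (hM : 2 ≤ M)
    (hN : 2 + 2 * ∑ k ∈ p.support.erase 0, ‖p.coeff k‖ ≤ M)
    (hl : 0 < lam) (hα : 0 < α) (hαβ : α ≤ 2 * Real.log M) (hδ : 0 < δ) (hx : x₀ ≤ -δ)
    (hE : ∫ x in x₀..0, (0 - x) * aa p x ≤ E) :
    ∫ z in {z : ℂ | Real.exp x₀ < ‖z‖ ∧ ‖z‖ ≤ Real.exp (-δ)}, sph p z ≤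
      lam / 2 * E + 2 * Real.pi * (p.support.card * (1 / (2 * lam) * Real.log (2 * Real.log M / α)) + 1) +
        p.support.card * (2 * (Real.pi * Real.sqrt (2 * α))) := by
  have hpi := Real.pi_pos
  have hM0 : 0 < M := by linarith
  have hx0 : x₀ ≤ 0 := by linarith
  have hcn : 0 ≤ 1 / (2 * lam) := by positivity
  have hneg : ∀ x ∈ Set.Icc x₀ (-δ), x < 0 := fun x hx' => by linarith [hx'.2]
  obtain ⟨q, hq⟩ : ∃ q : ℕ → ℂ[X], ∀ K, q K = qq p (p.support.filter (· ≤ K)) := ⟨_, fun _ => rfl⟩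
  obtain ⟨V, hV⟩ : ∃ V : ℕ → ℝ → ℝ, ∀ k x, V k x = Ac (1 / (2 * lam)) α (2 * Real.log M) k x + B p M k x :=
    ⟨_, fun _ _ => rfl⟩
  rw [hPLR (sph p) (BCFM.sph_cont p) x₀ (-δ) hx]
  have hcontL : Continuous fun x => ∫ θ in (0 : ℝ)..(2 * Real.pi),
      sph p (lp x θ) * Real.exp (2 * x) := hh_cont p
  have hcontA : Continuous fun x => lam / 2 * ((0 - x) * aa p x) :=
    continuous_const.mul ((continuous_const.sub continuous_id).mul (BCFM.aa_cont p))
  have hVi : ∀ k ∈ p.support, IntervalIntegrable (fun x => V k x) volume x₀ (-δ) := by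
    intro k _
    have h1 : (fun x => V k x) = fun x => Ac (1 / (2 * lam)) α (2 * Real.log M) k x + B p M k x :=
      funext (hV k)
    rw [h1]
    exact (A_int hcn hα hαβ hδ hx k).1.add (B_int p hM0 hδ k).1
  have hZi : ∀ K ∈ p.support, IntervalIntegrable (fun x => Zc α K x * (2 * hh (q K) x)) volume x₀ (-δ) := by
    intro K _
    refine (Z_int hPLR hCSA (q K) hα hδ hx K ?_).1
    rw [hq]
    apply qq_natDegree
    intro k hk
    exact (Finset.mem_filter.mp hk).2
  have hSV : IntervalIntegrable (fun x => ∑ k ∈ p.support, V k x) volume x₀ (-δ) :=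
    ((intervalIntegrable_iff_integrableOn_Ioc_of_le hx).mpr (integrable_finsetSum _ fun k hk =>
      (intervalIntegrable_iff_integrableOn_Ioc_of_le hx).mp (hVi k hk)))
  have hSZ : IntervalIntegrable (fun x => ∑ K ∈ p.support, Zc α K x * (2 * hh (q K) x)) volume x₀ (-δ) :=
    ((intervalIntegrable_iff_integrableOn_Ioc_of_le hx).mpr (integrable_finsetSum _ fun k hk =>
      (intervalIntegrable_iff_integrableOn_Ioc_of_le hx).mp (hZi k hk)))
  have h2 : (∫ x in x₀..(-δ), ∫ θ in (0 : ℝ)..(2 * Real.pi), sph p (lp x θ) * Real.exp (2 * x)) ≤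
      ∫ x in x₀..(-δ), (lam / 2 * ((0 - x) * aa p x) + 2 * Real.pi * (∑ k ∈ p.support, V k x) +
        ∑ K ∈ p.support, Zc α K x * (2 * hh (q K) x)) := by
    apply intervalIntegral.integral_mono_on hx (hcontL.intervalIntegrable _ _)
      (((hcontA.intervalIntegrable _ _).add (hSV.const_mul _)).add hSZ)
    intro x hx'
    have hxn := hneg x hx'
    obtain ⟨S, hS⟩ : ∃ S : ℝ, S = ∑ k ∈ p.support, V k x := ⟨_, rfl⟩
    have hcS : Continuous fun θ => lam / 2 * (-x) * (sph p (lp x θ) * Real.exp x) ^ 2 :=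
      continuous_const.mul (((BCFM.in_cont p x).mul continuous_const).pow 2)
    have hcC : Continuous fun _ : ℝ => S := continuous_const
    have hcSC : Continuous fun θ => lam / 2 * (-x) * (sph p (lp x θ) * Real.exp x) ^ 2 + S :=
      hcS.add hcC
    have hcK : ∀ K, Continuous fun θ => Zc α K x * (2 * (sph (q K) (lp x θ) * Real.exp (2 * x))) :=
      fun K => continuous_const.mul (continuous_const.mul ((BCFM.in_cont (q K) x).mul continuous_const))
    have hcKs : Continuous fun θ => ∑ K ∈ p.support,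
        Zc α K x * (2 * (sph (q K) (lp x θ) * Real.exp (2 * x))) :=
      continuous_finsetSum _ fun K _ => hcK K
    have h3 : (∫ θ in (0 : ℝ)..(2 * Real.pi), sph p (lp x θ) * Real.exp (2 * x)) ≤
        ∫ θ in (0 : ℝ)..(2 * Real.pi), (lam / 2 * (-x) * (sph p (lp x θ) * Real.exp x) ^ 2 + S +
          ∑ K ∈ p.support, Zc α K x * (2 * (sph (q K) (lp x θ) * Real.exp (2 * x)))) := by
      apply intervalIntegral.integral_mono_on (by positivity)
      · exact ((BCFM.in_cont p x).mul continuous_const).intervalIntegrable _ _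
      · exact ((hcS.add hcC).add hcKs).intervalIntegrable _ _
      · intro θ _
        have h4 := pt p (α := α) hM hN hxn hl θ
        simp only [← hV, ← hq] at h4
        rw [← hS] at h4
        exact h4
    refine h3.trans (le_of_eq ?_)
    rw [intervalIntegral.integral_add (hcSC.intervalIntegrable _ _)
      (hcKs.intervalIntegrable _ _), intervalIntegral.integral_add (hcS.intervalIntegrable _ _)
      (hcC.intervalIntegrable _ _), intervalIntegral.integral_const_mul,
      intervalIntegral.integral_const, smul_eq_mul,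
      intervalIntegral.integral_finsetSum fun K _ => (hcK K).intervalIntegrable _ _]
    have h5 : ∀ K, (∫ θ in (0 : ℝ)..(2 * Real.pi), Zc α K x * (2 * (sph (q K) (lp x θ) * Real.exp (2 * x)))) =
        Zc α K x * (2 * hh (q K) x) := by
      intro K
      rw [intervalIntegral.integral_const_mul, intervalIntegral.integral_const_mul]
      rfl
    simp only [h5]
    rw [← hS]
    have hg : ∀ A' w : ℝ, lam / 2 * (-x) * A' + (2 * Real.pi - 0) * w
        = lam / 2 * ((0 - x) * A') + 2 * Real.pi * w := by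
      intro A' w
      ring
    rw [show (∫ θ in (0 : ℝ)..(2 * Real.pi), (sph p (lp x θ) * Real.exp x) ^ 2) = aa p x from rfl, hg]
  have h3 : (∫ x in x₀..(-δ), (lam / 2 * ((0 - x) * aa p x) + 2 * Real.pi * (∑ k ∈ p.support, V k x) +
        ∑ K ∈ p.support, Zc α K x * (2 * hh (q K) x))) =
      lam / 2 * (∫ x in x₀..(-δ), (0 - x) * aa p x) +
        2 * Real.pi * (∑ k ∈ p.support, ∫ x in x₀..(-δ), V k x) +
        ∑ K ∈ p.support, ∫ x in x₀..(-δ), Zc α K x * (2 * hh (q K) x) := by
    rw [intervalIntegral.integral_add ((hcontA.intervalIntegrable _ _).add (hSV.const_mul _)) hSZ,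
      intervalIntegral.integral_add (hcontA.intervalIntegrable _ _) (hSV.const_mul _),
      intervalIntegral.integral_const_mul, intervalIntegral.integral_const_mul,
      intervalIntegral.integral_finsetSum hVi, intervalIntegral.integral_finsetSum hZi]
  have hcB : Continuous fun x => (0 - x) * aa p x :=
    (continuous_const.sub continuous_id).mul (BCFM.aa_cont p)
  have h4 : (∫ x in x₀..(-δ), (0 - x) * aa p x) ≤ E := by
    have h6 : (∫ x in x₀..(-δ), (0 - x) * aa p x) + (∫ x in (-δ)..0, (0 - x) * aa p x)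
        = ∫ x in x₀..0, (0 - x) * aa p x :=
      intervalIntegral.integral_add_adjacent_intervals (hcB.intervalIntegrable _ _)
        (hcB.intervalIntegrable _ _)
    have h7 : 0 ≤ ∫ x in (-δ)..0, (0 - x) * aa p x := by
      apply intervalIntegral.integral_nonneg (by linarith)
      intro x hx'
      exact mul_nonneg (by linarith [hx'.2]) (BCFM.aa_nonneg p x)
    linarith
  have h6 : lam / 2 * (∫ x in x₀..(-δ), (0 - x) * aa p x) ≤ lam / 2 * E :=
    mul_le_mul_of_nonneg_left h4 (by positivity)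
  have h7 : ∑ k ∈ p.support, (∫ x in x₀..(-δ), V k x) ≤
      p.support.card * (1 / (2 * lam) * Real.log (2 * Real.log M / α)) + 1 := by
    have h8 : ∀ k ∈ p.support, (∫ x in x₀..(-δ), V k x) ≤
        1 / (2 * lam) * Real.log (2 * Real.log M / α) + (if k = 0 then 0 else ‖p.coeff k‖) * (2 / M) := by
      intro k _
      have h9 : (fun x => V k x) = fun x => Ac (1 / (2 * lam)) α (2 * Real.log M) k x + B p M k x :=
        funext (hV k)
      rw [h9, intervalIntegral.integral_add (A_int hcn hα hαβ hδ hx k).1 (B_int p hM0 hδ k).1]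
      exact add_le_add (A_int hcn hα hαβ hδ hx k).2 (B_int p hM0 hδ k).2
    refine (Finset.sum_le_sum h8).trans ?_
    rw [Finset.sum_add_distrib, Finset.sum_const, nsmul_eq_mul]
    have h12 : ∑ k ∈ p.support, (if k = 0 then 0 else ‖p.coeff k‖) * (2 / M) =
        (∑ k ∈ p.support, (if k = 0 then 0 else ‖p.coeff k‖)) * (2 / M) :=
      (Finset.sum_mul _ _ _).symm
    have h10 : ∑ k ∈ p.support, (if k = 0 then 0 else ‖p.coeff k‖) =
        ∑ k ∈ p.support.erase 0, ‖p.coeff k‖ := by
      rw [← Finset.sum_erase p.support (a := 0) (f := fun k => if k = 0 then 0 else ‖p.coeff k‖)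
        (by simp)]
      apply Finset.sum_congr rfl
      intro k hk
      rw [if_neg (Finset.mem_erase.mp hk).1]
    rw [h12, h10]
    have h11 : (∑ k ∈ p.support.erase 0, ‖p.coeff k‖) * (2 / M) ≤ 1 := by
      rw [mul_div_assoc', div_le_one hM0]
      linarith
    linarith
  have h8 := mul_le_mul_of_nonneg_left h7 (by positivity : 0 ≤ 2 * Real.pi)
  have h9 : ∑ K ∈ p.support, (∫ x in x₀..(-δ), Zc α K x * (2 * hh (q K) x)) ≤
      p.support.card * (2 * (Real.pi * Real.sqrt (2 * α))) := by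
    have h10 : ∀ K ∈ p.support, (∫ x in x₀..(-δ), Zc α K x * (2 * hh (q K) x)) ≤
        2 * (Real.pi * Real.sqrt (2 * α)) := by
      intro K _
      refine (Z_int hPLR hCSA (q K) hα hδ hx K ?_).2
      rw [hq]
      apply qq_natDegree
      intro k hk
      exact (Finset.mem_filter.mp hk).2
    refine (Finset.sum_le_sum h10).trans (le_of_eq ?_)
    rw [Finset.sum_const, nsmul_eq_mul]
  rw [h3] at h2
  linarith

/-- the growth of `U` -/
theorem growth (hGRN : SpecGRN) (hWLM : SpecWLM) (hJEN : SpecJEN) (p : ℂ[X]) {M : ℝ}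
    (hM : M = 2 + 2 * ∑ k ∈ p.support.erase 0, ‖p.coeff k‖) (x : ℝ) :
    UU p 0 - UU p x ≤ 2 * Real.pi * Real.log M := by
  have hpi := Real.pi_pos
  obtain ⟨N, hN⟩ : ∃ N : ℝ, N = ∑ k ∈ p.support.erase 0, ‖p.coeff k‖ := ⟨_, rfl⟩
  have hN0 : 0 ≤ N := by
    rw [hN]
    exact Finset.sum_nonneg fun k _ => norm_nonneg _
  rw [← hN] at hM
  have hM0 : 0 < M := by linarith
  have h1 : ∑ k ∈ p.support, ‖p.coeff k‖ ^ 2 ≤ ‖p.coeff 0‖ ^ 2 + N ^ 2 := by
    calc ∑ k ∈ p.support, ‖p.coeff k‖ ^ 2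
        ≤ ∑ k ∈ insert 0 (p.support.erase 0), ‖p.coeff k‖ ^ 2 := by
          apply Finset.sum_le_sum_of_subset_of_nonneg
          · intro k hk
            rcases eq_or_ne k 0 with h | h
            · rw [h]
              exact Finset.mem_insert_self _ _
            · exact Finset.mem_insert_of_mem (Finset.mem_erase.mpr ⟨h, hk⟩)
          · intro k _ _
            positivity
      _ = ‖p.coeff 0‖ ^ 2 + ∑ k ∈ p.support.erase 0, ‖p.coeff k‖ ^ 2 :=
          Finset.sum_insert (Finset.notMem_erase _ _)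
      _ ≤ ‖p.coeff 0‖ ^ 2 + N ^ 2 := by
          have h2 : ∑ k ∈ p.support.erase 0, ‖p.coeff k‖ ^ 2 ≤ N ^ 2 := by
            rw [hN]
            exact Finset.sum_sq_le_sq_sum_of_nonneg fun k _ => norm_nonneg _
          linarith
  have h0 : 0 ≤ ∑ k ∈ p.support, ‖p.coeff k‖ ^ 2 := Finset.sum_nonneg fun k _ => by positivity
  have h00 : 0 ≤ ‖p.coeff 0‖ ^ 2 := by positivity
  have h2 : 1 + ∑ k ∈ p.support, ‖p.coeff k‖ ^ 2 ≤ (1 + ‖p.coeff 0‖ ^ 2) * M ^ 2 := by
    have h3 : 1 + N ^ 2 ≤ M ^ 2 := by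
      rw [hM]
      nlinarith
    have h4 : (1 + ‖p.coeff 0‖ ^ 2) * (1 + N ^ 2) ≤ (1 + ‖p.coeff 0‖ ^ 2) * M ^ 2 :=
      mul_le_mul_of_nonneg_left h3 (by positivity)
    have h5 : 0 ≤ ‖p.coeff 0‖ ^ 2 * N ^ 2 := by positivity
    nlinarith
  have h5 : Real.log (1 + ∑ k ∈ p.support, ‖p.coeff k‖ ^ 2) ≤
      Real.log (1 + ‖p.coeff 0‖ ^ 2) + 2 * Real.log M := by
    calc Real.log (1 + ∑ k ∈ p.support, ‖p.coeff k‖ ^ 2)
        ≤ Real.log ((1 + ‖p.coeff 0‖ ^ 2) * M ^ 2) := Real.log_le_log (by linarith) h2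
      _ = Real.log (1 + ‖p.coeff 0‖ ^ 2) + 2 * Real.log M := by
          rw [Real.log_mul (by positivity) (by positivity), Real.log_pow]
          norm_num
  have h6 := mul_le_mul_of_nonneg_left h5 hpi.le
  have h7 := hJEN p
  have h8 := BCFM.uul hGRN hWLM p x
  linarith

end BCGM

open BCGM in
/-- every degree: the number of the monomials and the logarithm of the sum of the coefficients -/
theorem specBCG (hGRN : SpecGRN) (hWLM : SpecWLM) (hPLR : SpecPLR) (hJEN : SpecJEN) (hCSA : MD.SpecCSA)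
    (p : ℂ[X]) (L : ℝ) (hL : L = Real.log (2 + 2 * ∑ k ∈ p.support.erase 0, ‖p.coeff k‖)) :
    ∫ z in Metric.closedBall (0 : ℂ) 1, sph p z ≤ Real.pi * (4 +
      Real.sqrt (2 * p.support.card * L * Real.log (8 * p.support.card ^ 2 * L))) := by
  have hpi := Real.pi_pos
  obtain ⟨M, hM⟩ : ∃ M : ℝ, M = 2 + 2 * ∑ k ∈ p.support.erase 0, ‖p.coeff k‖ := ⟨_, rfl⟩
  have hN0 : 0 ≤ ∑ k ∈ p.support.erase 0, ‖p.coeff k‖ := Finset.sum_nonneg fun k _ => norm_nonneg _
  have hM2 : 2 ≤ M := by linarith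
  have hM0 : 0 < M := by linarith
  rw [← hM] at hL
  rcases eq_or_ne p 0 with hp | hp
  · have h1 : ∀ z : ℂ, sph p z = 0 := by
      intro z
      rw [hp]
      simp [sph]
    simp only [h1, integral_zero]
    positivity
  obtain ⟨m, hm⟩ : ∃ m : ℝ, m = (p.support.card : ℝ) := ⟨_, rfl⟩
  have hm1 : 1 ≤ m := by
    rw [hm]
    have : 0 < p.support.card := Finset.card_pos.mpr (Polynomial.nonempty_support_iff.mpr hp)
    exact_mod_cast this
  have hm0 : 0 < m := by linarith
  rw [← hm]
  have hL2 : 1 / 2 < L := by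
    have h1 := Real.log_two_gt_d9
    have h2 : Real.log 2 ≤ Real.log M := Real.log_le_log (by norm_num) hM2
    rw [hL]
    linarith
  have hL0 : 0 < L := by linarith
  obtain ⟨W, hW⟩ : ∃ W : ℝ, W = Real.log (8 * m ^ 2 * L) := ⟨_, rfl⟩
  rw [← hW]
  have hW0 : 0 < W := by
    rw [hW]
    apply Real.log_pos
    nlinarith [one_le_pow₀ hm1 (n := 2)]
  obtain ⟨Y, hY⟩ : ∃ Y : ℝ, Y = Real.sqrt (2 * m * L * W) := ⟨_, rfl⟩
  have hY0 : 0 < Y := by
    rw [hY]
    apply Real.sqrt_pos.mpr
    positivity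
  have hYY : Y ^ 2 = 2 * m * L * W := by
    rw [hY]
    exact Real.sq_sqrt (by positivity)
  rw [← hY]
  obtain ⟨α, hα⟩ : ∃ α : ℝ, α = 1 / (4 * m ^ 2) := ⟨_, rfl⟩
  have hα0 : 0 < α := by rw [hα]; positivity
  have hα1 : α ≤ 2 * Real.log M := by
    have h1 : α ≤ 1 := by
      rw [hα, div_le_one (by positivity)]
      nlinarith [one_le_pow₀ hm1 (n := 2)]
    rw [← hL]
    linarith
  have hlog : Real.log (2 * Real.log M / α) = W := by
    rw [hW, hα, ← hL]
    congr 1
    field_simp
    ring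
  have hsq : m * Real.sqrt (2 * α) ≤ 1 := by
    have h1 : Real.sqrt (2 * α) ≤ 1 / m := by
      rw [Real.sqrt_le_left (by positivity), hα]
      rw [div_pow, one_pow, mul_one_div, div_le_div_iff₀ (by positivity) (by positivity)]
      nlinarith [sq_nonneg m]
    calc m * Real.sqrt (2 * α) ≤ m * (1 / m) := mul_le_mul_of_nonneg_left h1 hm0.le
      _ = 1 := by field_simp
  obtain ⟨C, hC0, hC1, hC2⟩ := BCFM.ball_small p
  apply le_of_forall_pos_le_add
  intro ε hε
  obtain ⟨r, hr⟩ : ∃ r : ℝ, r = min (1 / 4) (ε / (2 * (C + 1))) := ⟨_, rfl⟩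
  have hr0 : 0 < r := by
    rw [hr]
    exact lt_min (by norm_num) (by positivity)
  have hr1 : r ≤ 1 / 4 := by rw [hr]; exact min_le_left _ _
  have hr2 : r ≤ ε / (2 * (C + 1)) := by rw [hr]; exact min_le_right _ _
  have hCr : C * r ≤ ε / 2 := by
    rw [le_div_iff₀ (by positivity)] at hr2
    nlinarith
  have hs0 : 0 < 1 - r := by linarith
  have hs1 : 1 - r ≤ 1 := by linarith
  have hlogr : Real.exp (Real.log r) = r := Real.exp_log hr0
  have hlogs : Real.exp (-(-Real.log (1 - r))) = 1 - r := by rw [neg_neg, Real.exp_log hs0]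
  have hδ : 0 < -Real.log (1 - r) := by
    have := Real.log_neg hs0 (by linarith)
    linarith
  have hx : Real.log r ≤ -(-Real.log (1 - r)) := by
    rw [neg_neg]
    exact Real.log_le_log hr0 (by linarith)
  have hE : ∫ x in (Real.log r)..0, (0 - x) * aa p x ≤ Real.pi * L := by
    have h1 := BCFM.we2 hGRN hWLM p (x₀ := Real.log r) (x₁ := 0)
      (by rw [Real.log_nonpos_iff hr0.le]; linarith)
    have h2 := growth hGRN hWLM hJEN p hM (Real.log r)
    rw [← hL] at h2
    linarith
  have hann := ann hPLR hCSA p hM2 (le_of_eq hM.symm) (by positivity : 0 < Y / L) hα0 hα1 hδ hx hE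
  rw [hlogr, hlogs, ← hm, hlog] at hann
  have h1 := hC1 r hr0 (by linarith)
  have h2 := hC2 (1 - r) hs0 hs1
  have h3 : C * (1 - (1 - r)) = C * r := by ring
  rw [h3] at h2
  rw [FNBM.split p r (1 - r) (by linarith) hs1]
  have h4 : Y / L / 2 * (Real.pi * L) = Real.pi * Y / 2 := by
    field_simp
  have h5 : 2 * Real.pi * (m * (1 / (2 * (Y / L)) * W) + 1) = Real.pi * Y / 2 + 2 * Real.pi := by
    have h6 : m * (1 / (2 * (Y / L)) * W) = Y / 4 := by
      have h7 : m * (1 / (2 * (Y / L)) * W) = (2 * m * L * W) / (4 * Y) := by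
        field_simp
        ring
      rw [h7, ← hYY]
      field_simp
    rw [h6]
    ring
  have h6 : m * (2 * (Real.pi * Real.sqrt (2 * α))) ≤ 2 * Real.pi := by
    have h7 := mul_le_mul_of_nonneg_left hsq (by positivity : 0 ≤ 2 * Real.pi)
    have h8 : m * (2 * (Real.pi * Real.sqrt (2 * α))) = 2 * Real.pi * (m * Real.sqrt (2 * α)) := by ring
    rw [h8]
    linarith
  rw [h4, h5] at hann
  have h9 : Real.pi * (4 + Y) = Real.pi * Y / 2 + (Real.pi * Y / 2 + 2 * Real.pi) + 2 * Real.pi := by ring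
  linarith

end

end Pool.Agent.Lib.MP684ec1.NB
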