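import Pool.Agent.Lib.MP_684ec1_an.NB.MainB
import Pool.Agent.Lib.MP_684ec1_an.NB.BCF

/-!
# MP_684ec1 : module BCH of NB, the bound for polynomials of degree `n` with `m` monomials, the size of the coefficients taken into account

THEOREM. `p` of degree `n ≥ 1` with `m` monomials, `l = 1 + log n`, `Lam(0) = log ∑ |a_k|`, `kap = 1 + log max (1, (Lam(0) + 1)/m)`:
`P(p) ≤ 70 √(m l kap)`. The proof is the one of `SpecTMC` (`NB/SpecM.lean`) with the level `m` in the place of `1 + 2 log n` and the end point `1/n` in the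
place of `1` of the weight.
-/

set_option autoImplicit false

namespace Pool.Agent.Lib.MP684ec1.NB

open Complex Polynomial MeasureTheory intervalIntegral
open Pool.Agent.Lib.MP684ec1.HP

noncomputable section

namespace BCHM

open WOMM in
/-- `SpecWOM` with the end point `y₁` in the place of `1` -/
theorem wom (hWEI : SpecWEI) (hLAM : SpecLAM) (p : ℂ[X]) (xs y₁ : ℝ) (hp : p ≠ 0) (hxs : xs ≤ 0)
    (hy₁ : 0 ≤ y₁) (hL : 1 ≤ Lam p xs) :
    ∫ x in xs..0, (∫ t in x..y₁, 1 / Lam p t) * aa p x ≤
      3 * Real.pi / 2 * (1 + Real.log (Lam p y₁ / Lam p xs)) := by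
  obtain ⟨⟨d, hdc, hd⟩, hU⟩ := hLAM p hp
  have hmono : Monotone (Lam p) := monotone_of_deriv_nonneg
    (fun x => (hd x).1.differentiableAt) (fun x => by
      rw [(hd x).1.deriv]
      exact (hd x).2.1)
  have hLc : Continuous (Lam p) := continuous_iff_continuousAt.2 fun x => (hd x).1.continuousAt
  have hL1 : ∀ x, xs ≤ x → 1 ≤ Lam p x := fun x hx => hL.trans (hmono hx)
  have hac := aa_cont p
  have ha0 := aa_nonneg p
  have hpi := Real.pi_pos
  have hxs1 : xs ≤ y₁ := by linarith
  -- `A`, `F`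
  set A : ℝ → ℝ := fun y => ∫ x in xs..y, aa p x with hAdef
  have hA : ∀ y, HasDerivAt A (aa p y) y := fun y => (hac.integral_hasStrictDerivAt xs y).hasDerivAt
  have hA0 : A xs = 0 := intervalIntegral.integral_same
  have hAc : Continuous A := continuous_iff_continuousAt.2 fun x => (hA x).continuousAt
  set F : ℝ → ℝ := fun y => ∫ x in xs..y, (y - x) * aa p x with hFdef
  have hxa : Continuous fun x : ℝ => x * aa p x := continuous_id.mul hac
  have hFe : F = fun y => y * A y - ∫ x in xs..y, x * aa p x := by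
    funext y
    have h1 : y * A y = ∫ x in xs..y, y * aa p x := by
      rw [intervalIntegral.integral_const_mul]
    have hya : Continuous fun x : ℝ => y * aa p x := continuous_const.mul hac
    rw [h1, ← intervalIntegral.integral_sub (hya.intervalIntegrable _ _)
      (hxa.intervalIntegrable _ _)]
    show ∫ x in xs..y, (y - x) * aa p x = _
    refine intervalIntegral.integral_congr fun x _ => ?_
    show (y - x) * aa p x = y * aa p x - x * aa p x
    ring
  have hF : ∀ y, HasDerivAt F (A y) y := by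
    intro y
    rw [hFe]
    have h1 := ((hasDerivAt_id y).mul (hA y)).sub (hxa.integral_hasStrictDerivAt xs y).hasDerivAt
    have e : 1 * A y + id y * aa p y - y * aa p y = A y := by
      simp only [id]
      ring
    rw [e] at h1
    exact h1
  have hF0 : F xs = 0 := intervalIntegral.integral_same
  have hFc : Continuous F := continuous_iff_continuousAt.2 fun x => (hF x).continuousAt
  have hFup : ∀ y, xs ≤ y → F y ≤ 3 * Real.pi / 2 * Lam p y := by
    intro y hy
    have h1 := hWEI p xs y hy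
    have h2 := (hU y).2
    have h3 := hL1 y hy
    rw [max_eq_left (by linarith)] at h2
    have h4 : Real.pi * (2 * Lam p y + 1) ≤ Real.pi * (3 * Lam p y) :=
      mul_le_mul_of_nonneg_left (by linarith) hpi.le
    have h5 : F y ≤ UU p y / 2 := h1
    linarith
  -- the weight
  set μ : ℝ → ℝ := fun t => 1 / max 1 (Lam p t) with hμ
  have hμc : Continuous μ := by
    refine continuous_const.div (continuous_const.max hLc) fun x => ?_
    have : (1 : ℝ) ≤ max 1 (Lam p x) := le_max_left _ _
    positivity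
  have hμe : ∀ t, xs ≤ t → μ t = 1 / Lam p t := by
    intro t ht
    show 1 / max 1 (Lam p t) = 1 / Lam p t
    rw [max_eq_right (hL1 t ht)]
  have hμ0 : ∀ t, 0 ≤ μ t := by
    intro t
    have : (1 : ℝ) ≤ max 1 (Lam p t) := le_max_left _ _
    show 0 ≤ 1 / max 1 (Lam p t)
    positivity
  set W : ℝ → ℝ := fun x => ∫ t in x..y₁, μ t with hW
  have hWd : ∀ x, HasDerivAt W (-(μ x)) x := by
    intro x
    have h1 := ((hμc.integral_hasStrictDerivAt y₁ x).hasDerivAt).neg
    have h2 : W = fun x => -∫ t in y₁..x, μ t := by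
      funext y
      exact intervalIntegral.integral_symm _ _
    rw [h2]
    exact h1
  have hWc : Continuous W := continuous_iff_continuousAt.2 fun x => (hWd x).continuousAt
  have hW1 : W y₁ = 0 := intervalIntegral.integral_same
  have hWe : ∀ x, xs ≤ x → ∫ t in x..y₁, 1 / Lam p t = W x := by
    intro x hx
    refine intervalIntegral.integral_congr fun t ht => ?_
    have h1 : xs ≤ t := by
      have h2 : min x y₁ ≤ t := ht.1
      exact (le_min hx hxs1).trans h2
    exact (hμe t h1).symm
  have hW0 : ∀ x, x ≤ y₁ → 0 ≤ W x := fun x hx =>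
    intervalIntegral.integral_nonneg hx fun t _ => hμ0 t
  have hWa : Continuous fun x => W x * aa p x := hWc.mul hac
  -- up to `1`
  have h1 : ∫ x in xs..0, (∫ t in x..y₁, 1 / Lam p t) * aa p x = ∫ x in xs..0, W x * aa p x := by
    refine intervalIntegral.integral_congr fun x hx => ?_
    rw [Set.uIcc_of_le hxs] at hx
    show (∫ t in x..y₁, 1 / Lam p t) * aa p x = W x * aa p x
    rw [hWe x hx.1]
  have h2 : ∫ x in xs..0, W x * aa p x ≤ ∫ x in xs..y₁, W x * aa p x := by
    rw [← intervalIntegral.integral_add_adjacent_intervals (hWa.intervalIntegrable xs 0)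
      (hWa.intervalIntegrable 0 y₁)]
    have h3 : 0 ≤ ∫ x in (0 : ℝ)..y₁, W x * aa p x :=
      intervalIntegral.integral_nonneg hy₁ fun x hx => mul_nonneg (hW0 x hx.2) (ha0 x)
    linarith
  -- integration by parts
  have h3 : ∫ x in xs..y₁, W x * aa p x = ∫ x in xs..y₁, μ x * A x := by
    rw [intervalIntegral.integral_mul_deriv_eq_deriv_mul (fun x _ => hWd x) (fun x _ => hA x)
      (hμc.neg.intervalIntegrable _ _) (hac.intervalIntegrable _ _), hW1, hA0]
    have e : ∀ x, -(μ x) * A x = -(μ x * A x) := fun x => by ring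
    simp only [e]
    rw [intervalIntegral.integral_neg]
    ring
  have hne : ∀ x, xs ≤ x → Lam p x ≠ 0 := fun x hx => by
    have := hL1 x hx
    positivity
  have hI : Set.uIcc xs y₁ = Set.Icc xs y₁ := Set.uIcc_of_le hxs1
  have hcont : ContinuousOn (fun x => d x / Lam p x ^ 2) (Set.uIcc xs y₁) := by
    rw [hI]
    exact hdc.continuousOn.div (hLc.pow 2).continuousOn fun x hx => pow_ne_zero 2 (hne x hx.1)
  have h4 : ∫ x in xs..y₁, μ x * A x =
      F y₁ / Lam p y₁ + ∫ x in xs..y₁, d x / Lam p x ^ 2 * F x := by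
    have h5 : ∫ x in xs..y₁, μ x * A x = ∫ x in xs..y₁, (Lam p x)⁻¹ * A x := by
      refine intervalIntegral.integral_congr fun x hx => ?_
      rw [hI] at hx
      show μ x * A x = (Lam p x)⁻¹ * A x
      rw [hμe x hx.1, one_div]
    rw [h5, intervalIntegral.integral_mul_deriv_eq_deriv_mul
      (u' := fun x => -(d x / Lam p x ^ 2)) (v := F) (fun x hx => by
        rw [hI] at hx
        have h6 := (hd x).1.inv (hne x hx.1)
        have e : -d x / Lam p x ^ 2 = -(d x / Lam p x ^ 2) := by ring
        rw [e] at h6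
        exact h6) (fun x _ => hF x) hcont.neg.intervalIntegrable (hAc.intervalIntegrable _ _), hF0]
    have e : ∀ x, -(d x / Lam p x ^ 2) * F x = -(d x / Lam p x ^ 2 * F x) := fun x => by ring
    simp only [e]
    rw [intervalIntegral.integral_neg]
    ring
  -- the bound
  have hdl : ContinuousOn (fun x => d x / Lam p x) (Set.uIcc xs y₁) := by
    rw [hI]
    exact hdc.continuousOn.div hLc.continuousOn fun x hx => hne x hx.1
  have h5 : ∫ x in xs..y₁, d x / Lam p x ^ 2 * F x ≤
      ∫ x in xs..y₁, 3 * Real.pi / 2 * (d x / Lam p x) := by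
    refine intervalIntegral.integral_mono_on hxs1
      (hcont.mul hFc.continuousOn).intervalIntegrable
      (continuousOn_const.mul hdl).intervalIntegrable fun x hx => ?_
    have h6 := hFup x hx.1
    have h7 := hL1 x hx.1
    have h8 : 0 ≤ d x / Lam p x ^ 2 := div_nonneg (hd x).2.1 (sq_nonneg _)
    calc d x / Lam p x ^ 2 * F x ≤ d x / Lam p x ^ 2 * (3 * Real.pi / 2 * Lam p x) :=
          mul_le_mul_of_nonneg_left h6 h8
      _ = 3 * Real.pi / 2 * (d x / Lam p x) := by
          field_simp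
  have h6 : ∫ x in xs..y₁, d x / Lam p x = Real.log (Lam p y₁ / Lam p xs) := by
    rw [intervalIntegral.integral_eq_sub_of_hasDerivAt (f := fun x => Real.log (Lam p x))
      (fun x hx => by
        rw [hI] at hx
        exact (hd x).1.log (hne x hx.1)) hdl.intervalIntegrable]
    rw [Real.log_div (hne y₁ hxs1) (hne xs le_rfl)]
  rw [intervalIntegral.integral_const_mul, h6] at h5
  have h7 : F y₁ / Lam p y₁ ≤ 3 * Real.pi / 2 := by
    have := hL1 y₁ hxs1
    rw [div_le_iff₀ (by linarith)]
    exact hFup y₁ hxs1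
  rw [h1]
  linarith


open SIMM in
/-- one circle -/
theorem sim (hEXC : SpecEXC) (p : ℂ[X]) (x v d : ℝ) (hp0 : p ≠ 0) (hx : x ≤ 0)
    (hLp : 0 < Lam p x) (hv : 0 < v) (hd : LAMM.T p x = d * LAMM.S p x) (hd0 : 0 ≤ d) :
    ∫ θ in (0 : ℝ)..(2 * Real.pi), sph p (lp x θ) * Real.exp (2 * x) ≤
      2 * Real.pi * (d * Real.exp (-(1 / 2 * Lam p x))) + v / 2 * aa p x +
        8 * Real.pi * p.support.card / (v * Lam p x) := by
  have hvol := hEXC p x hp0 hLp
  generalize hE : {θ : ℝ | θ ∈ Set.Icc 0 (2 * Real.pi) ∧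
    ‖p.eval (lp x θ)‖ < Real.exp (3 / 4 * Lam p x)} = E at hvol
  have hEm : MeasurableSet E := by
    rw [← hE]
    exact measurableSet_Icc.inter (measurableSet_lt (ev_cont p x).measurable measurable_const)
  have hEf : volume E ≠ ⊤ := ne_top_of_le_ne_top ENNReal.ofReal_ne_top hvol
  have hEr : volume.real E ≤ 16 * Real.pi * p.support.card / Lam p x := by
    apply ENNReal.toReal_le_of_le_ofReal _ hvol
    positivity
  have hpi : (0 : ℝ) ≤ 2 * Real.pi := by positivity
  have hint : Integrable (E.indicator fun _ : ℝ => 1 / (2 * v)) volume :=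
    (integrable_indicator_iff hEm).2 (integrableOn_const hEf)
  have hpt : ∀ θ ∈ Set.Icc 0 (2 * Real.pi), sph p (lp x θ) * Real.exp (2 * x) ≤
      (d * Real.exp (-(1 / 2 * Lam p x)) + v / 2 * (sph p (lp x θ) * Real.exp x) ^ 2) +
        E.indicator (fun _ : ℝ => 1 / (2 * v)) θ := by
    intro θ hθ
    have hs : 0 ≤ sph p (lp x θ) * Real.exp x := mul_nonneg (sph_nn _ _) (Real.exp_nonneg _)
    have h4 : sph p (lp x θ) * Real.exp (2 * x) = sph p (lp x θ) * Real.exp x * Real.exp x := by
      rw [two_mul, Real.exp_add]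
      ring
    rw [h4]
    by_cases hm : θ ∈ E
    · rw [Set.indicator_of_mem hm]
      have h5 := quad hs hv hx
      have h6 : 0 ≤ d * Real.exp (-(1 / 2 * Lam p x)) := by positivity
      linarith
    · rw [Set.indicator_of_notMem hm]
      have h5 : Real.exp (3 / 4 * Lam p x) ≤ ‖p.eval (lp x θ)‖ := by
        by_contra h6
        exact hm (hE ▸ ⟨hθ, not_le.1 h6⟩)
      have h6 : sph p (lp x θ) * Real.exp x ≤ d * Real.exp (-(1 / 2 * Lam p x)) := by
        have g1 := LAMM.der_le p x θ
        rw [hd, ← LAMM.exp_Lam p hp0 x] at g1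
        have g2 : Real.exp (3 / 4 * Lam p x) ^ 2 ≤ ‖p.eval (lp x θ)‖ ^ 2 :=
          pow_le_pow_left₀ (Real.exp_nonneg _) h5 2
        have g3 : Real.exp (-(1 / 2 * Lam p x)) * Real.exp (3 / 4 * Lam p x) ^ 2 =
            Real.exp (Lam p x) := by
          rw [← Real.exp_nat_mul, ← Real.exp_add]
          congr 1
          push_cast
          ring
        have g4 : 0 < 1 + ‖p.eval (lp x θ)‖ ^ 2 := by positivity
        unfold sph
        rw [div_mul_eq_mul_div, div_le_iff₀ g4]
        refine g1.trans ?_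
        rw [mul_assoc, ← g3]
        apply mul_le_mul_of_nonneg_left _ hd0
        apply mul_le_mul_of_nonneg_left _ (Real.exp_nonneg _)
        linarith
      have h7 : sph p (lp x θ) * Real.exp x * Real.exp x ≤ sph p (lp x θ) * Real.exp x :=
        mul_le_of_le_one_right hs (Real.exp_le_one_iff.2 hx)
      have h8 : 0 ≤ v / 2 * (sph p (lp x θ) * Real.exp x) ^ 2 := by positivity
      linarith
  have hc1 : Continuous (fun θ : ℝ => sph p (lp x θ) * Real.exp (2 * x)) :=
    (sph_cont p x).mul continuous_const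
  have hc2 : Continuous (fun θ : ℝ => v / 2 * (sph p (lp x θ) * Real.exp x) ^ 2) :=
    continuous_const.mul (((sph_cont p x).mul continuous_const).pow 2)
  have hc3 : Continuous (fun θ : ℝ => d * Real.exp (-(1 / 2 * Lam p x)) + v / 2 * (sph p (lp x θ) * Real.exp x) ^ 2) :=
    continuous_const.add hc2
  have h9 := intervalIntegral.integral_mono_on hpi (hc1.intervalIntegrable _ _)
    ((hc3.intervalIntegrable _ _).add hint.intervalIntegrable) hpt
  refine h9.trans ?_
  have h10 : (∫ θ in (0 : ℝ)..(2 * Real.pi),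
      ((d * Real.exp (-(1 / 2 * Lam p x)) + v / 2 * (sph p (lp x θ) * Real.exp x) ^ 2) +
        E.indicator (fun _ : ℝ => 1 / (2 * v)) θ)) =
      (2 * Real.pi * (d * Real.exp (-(1 / 2 * Lam p x))) + v / 2 * aa p x) +
        ∫ θ in (0 : ℝ)..(2 * Real.pi), E.indicator (fun _ : ℝ => 1 / (2 * v)) θ := by
    rw [intervalIntegral.integral_add (hc3.intervalIntegrable _ _) hint.intervalIntegrable,
      intervalIntegral.integral_add (continuous_const.intervalIntegrable _ _)
        (hc2.intervalIntegrable _ _), intervalIntegral.integral_const,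
      intervalIntegral.integral_const_mul]
    simp [aa]
  have h11 : (∫ θ in (0 : ℝ)..(2 * Real.pi), E.indicator (fun _ : ℝ => 1 / (2 * v)) θ) ≤
      8 * Real.pi * p.support.card / (v * Lam p x) := by
    rw [intervalIntegral.integral_of_le hpi]
    have h12 : (∫ θ in Set.Ioc 0 (2 * Real.pi), E.indicator (fun _ : ℝ => 1 / (2 * v)) θ) ≤
        ∫ θ, E.indicator (fun _ : ℝ => 1 / (2 * v)) θ := by
      apply setIntegral_le_integral hint
      filter_upwards with θ
      exact Set.indicator_nonneg (fun _ _ => by positivity) θ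
    refine h12.trans ?_
    rw [integral_indicator_const _ hEm, smul_eq_mul]
    calc volume.real E * (1 / (2 * v)) ≤ 16 * Real.pi * p.support.card / Lam p x * (1 / (2 * v)) :=
          mul_le_mul_of_nonneg_right hEr (by positivity)
      _ = 8 * Real.pi * p.support.card / (v * Lam p x) := by
          field_simp
          ring
  refine (le_of_eq h10).trans ?_
  linarith


/-- the annulus above the level `M₀` -/
theorem sin' (hEXC : SpecEXC) (hWEI : SpecWEI) (hLAM : SpecLAM) (p : ℂ[X]) (xs M₀ κ : ℝ)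
    (hn : 0 < p.natDegree) (hxN : -(1 + Real.log p.natDegree) ≤ xs) (hx0 : xs ≤ 0)
    (hM₀ : 1 ≤ M₀) (hL : M₀ ≤ Lam p xs) (hκ1 : 1 ≤ κ) (hκ : (Lam p 0 + 1) / M₀ ≤ Real.exp (κ - 1))
    (hκn : κ ≤ 1 + Real.log p.natDegree) :
    ∫ x in xs..0, ∫ θ in (0 : ℝ)..(2 * Real.pi), sph p (lp x θ) * Real.exp (2 * x) ≤
      13 + 27 * Real.sqrt (p.support.card * (1 + Real.log p.natDegree) * κ) := by
  have hp : p ≠ 0 := by
    rintro rfl
    simp at hn
  have hn1 : (1 : ℝ) ≤ p.natDegree := by exact_mod_cast hn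
  have hlog : 0 ≤ Real.log p.natDegree := Real.log_nonneg hn1
  have hm : (1 : ℝ) ≤ p.support.card := by
    have h0 : 0 < p.support.card := Finset.card_pos.mpr (Polynomial.nonempty_support_iff.mpr hp)
    exact_mod_cast h0
  obtain ⟨⟨d, hdc, hd⟩, -⟩ := hLAM p hp
  obtain ⟨y₁, hy₁⟩ : ∃ y₁ : ℝ, y₁ = 1 / (p.natDegree : ℝ) := ⟨_, rfl⟩
  have hy₁0 : 0 < y₁ := by rw [hy₁]; positivity
  have hy₁1 : y₁ ≤ 1 := by
    rw [hy₁, div_le_one (by linarith)]
    exact hn1
  have hny : (p.natDegree : ℝ) * y₁ = 1 := by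
    rw [hy₁]
    field_simp
  have hlogy : Real.log y₁ = - Real.log p.natDegree := by
    rw [hy₁, one_div, Real.log_inv]
  have hW := wom hWEI hLAM p xs y₁ hp hx0 hy₁0.le (by linarith)
  have hdS : ∀ x, LAMM.T p x = d x * LAMM.S p x := by
    intro x
    have g1 := (hd x).1
    have g2 := (LAMM.S_deriv p x).log (LAMM.S_pos p hp x).ne'
    have g3 : d x = LAMM.T p x / LAMM.S p x := g1.unique g2
    rw [g3, div_mul_cancel₀ _ (LAMM.S_pos p hp x).ne']
  have hS : ∀ x v : ℝ, x ≤ 0 → 0 < Lam p x → 0 < v →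
      ∫ θ in (0 : ℝ)..(2 * Real.pi), sph p (lp x θ) * Real.exp (2 * x) ≤
        2 * Real.pi * (d x * Real.exp (-(1 / 2 * Lam p x))) + v / 2 * aa p x +
          8 * Real.pi * p.support.card / (v * Lam p x) :=
    fun x v h1 h2 h3 => sim hEXC p x v (d x) hp h1 h2 h3 (hdS x) (hd x).2.1
  generalize hndef : (p.natDegree : ℝ) = n at *
  generalize hmdef : (p.support.card : ℝ) = m at *
  have hLd : ∀ x, HasDerivAt (Lam p) (d x) x := fun x => (hd x).1
  have hLc : Continuous (Lam p) := continuous_iff_continuousAt.mpr fun x => (hLd x).continuousAt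
  have hmono : Monotone (Lam p) := monotone_of_deriv_nonneg (fun x => (hLd x).differentiableAt)
    (fun x => by rw [(hLd x).deriv]; exact (hd x).2.1)
  have hL1 : 1 ≤ Lam p xs := by linarith
  have hLpos : 0 < Lam p xs := by linarith
  have hslope : Lam p y₁ ≤ Lam p 0 + 1 := by
    have hm2 : Monotone (fun x => n * x - Lam p x) := by
      have hd2 : ∀ x, HasDerivAt (fun x => n * x - Lam p x) (n * 1 - d x) x := fun x =>
        ((hasDerivAt_id x).const_mul n).sub (hLd x)
      refine monotone_of_deriv_nonneg (fun x => (hd2 x).differentiableAt) (fun x => ?_)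
      rw [(hd2 x).deriv]
      have := (hd x).2.2
      simp only [mul_one]
      linarith
    have := hm2 hy₁0.le
    simp only [mul_zero] at this
    linarith
  -- the weight
  obtain ⟨g, hg⟩ : ∃ g : ℝ → ℝ, ∀ t, g t = (max (Lam p t) 1)⁻¹ := ⟨_, fun _ => rfl⟩
  have hgc : Continuous g := by
    have : g = fun t => (max (Lam p t) 1)⁻¹ := funext hg
    rw [this]
    exact (hLc.max continuous_const).inv₀
      (fun t => (lt_of_lt_of_le one_pos (le_max_right _ _)).ne')
  have hgpos : ∀ t, 0 < g t := fun t => by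
    rw [hg]
    exact inv_pos.mpr (lt_of_lt_of_le one_pos (le_max_right _ _))
  have hgeq : ∀ t, xs ≤ t → g t = 1 / Lam p t := fun t ht => by
    rw [hg, max_eq_left (hL1.trans (hmono ht)), one_div]
  obtain ⟨ω, hω⟩ : ∃ ω : ℝ → ℝ, ∀ x, ω x = ∫ t in x..y₁, g t := ⟨_, fun _ => rfl⟩
  have hωf : ω = fun x => ∫ t in x..y₁, g t := funext hω
  have hωd : ∀ x, HasDerivAt ω (-(g x)) x := fun x => by
    rw [hωf]
    exact intervalIntegral.integral_hasDerivAt_left (hgc.intervalIntegrable _ _)
      (hgc.stronglyMeasurableAtFilter _ _) hgc.continuousAt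
  have hωc : Continuous ω := continuous_iff_continuousAt.mpr fun x => (hωd x).continuousAt
  have hωpos : ∀ x, x ≤ 0 → 0 < ω x := fun x hx => by
    rw [hω]
    exact intervalIntegral.intervalIntegral_pos_of_pos (hgc.intervalIntegrable _ _) hgpos
      (by linarith)
  have hω1 : ω xs ≤ (y₁ - xs) / Lam p xs := by
    rw [hω]
    have h1 : ∫ t in xs..y₁, g t ≤ ∫ _t in xs..y₁, (1 / Lam p xs) := by
      refine intervalIntegral.integral_mono_on (by linarith) (hgc.intervalIntegrable _ _)
        intervalIntegrable_const (fun t ht => ?_)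
      rw [hgeq t ht.1]
      exact one_div_le_one_div_of_le hLpos (hmono ht.1)
    rw [intervalIntegral.integral_const, smul_eq_mul] at h1
    exact h1.trans (le_of_eq (by ring))
  have hω0 : y₁ / Lam p y₁ ≤ ω 0 := by
    rw [hω]
    have h1 : ∫ _t in (0 : ℝ)..y₁, (1 / Lam p y₁) ≤ ∫ t in (0 : ℝ)..y₁, g t := by
      refine intervalIntegral.integral_mono_on hy₁0.le intervalIntegrable_const
        (hgc.intervalIntegrable _ _) (fun t ht => ?_)
      rw [hgeq t (by linarith [ht.1])]
      exact one_div_le_one_div_of_le (lt_of_lt_of_le hLpos (hmono (by linarith [ht.1])))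
        (hmono ht.2)
    rw [intervalIntegral.integral_const, smul_eq_mul] at h1
    exact (le_of_eq (by ring)).trans h1
  have hLam1 : 0 < Lam p y₁ := lt_of_lt_of_le hLpos (hmono (by linarith))
  have hM₀0 : 0 < M₀ := by linarith
  -- the logarithm of the quotient
  have hl : Real.log (Lam p y₁ / Lam p xs) ≤ κ - 1 := by
    rw [Real.log_le_iff_le_exp (div_pos hLam1 hLpos)]
    refine le_trans ?_ hκ
    apply div_le_div₀ (by linarith) hslope hM₀0 hL
  have hlw : Real.log (ω xs) - Real.log (ω 0) ≤ 3 * (1 + Real.log n) := by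
    have h1 : Real.log (ω xs) ≤ Real.log ((y₁ - xs) / Lam p xs) := Real.log_le_log (hωpos xs hx0) hω1
    have h2 : Real.log (y₁ / Lam p y₁) ≤ Real.log (ω 0) :=
      Real.log_le_log (by positivity) hω0
    have h3 : Real.log ((y₁ - xs) / Lam p xs) = Real.log (y₁ - xs) - Real.log (Lam p xs) :=
      Real.log_div (by linarith) hLpos.ne'
    have h4 : Real.log (y₁ / Lam p y₁) = - Real.log n - Real.log (Lam p y₁) := by
      rw [Real.log_div hy₁0.ne' hLam1.ne', hlogy]
    have h5 : Real.log (Lam p y₁ / Lam p xs) = Real.log (Lam p y₁) - Real.log (Lam p xs) :=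
      Real.log_div hLam1.ne' hLpos.ne'
    have h6 : Real.log (y₁ - xs) ≤ y₁ - xs - 1 := Real.log_le_sub_one_of_pos (by linarith)
    linarith
  -- the pointwise bound and the integral
  obtain ⟨R, hR⟩ : ∃ R : ℝ, R = Real.sqrt (m * (1 + Real.log n) * κ) := ⟨_, rfl⟩
  have hprod : 0 < m * (1 + Real.log n) * κ := by positivity
  have hR0 : 0 < R := by rw [hR]; exact Real.sqrt_pos.mpr hprod
  have hRR : R * R = m * (1 + Real.log n) * κ := by rw [hR]; exact Real.mul_self_sqrt hprod.le
  obtain ⟨τ, hτd⟩ : ∃ τ : ℝ, τ = 6 * R / κ := ⟨_, rfl⟩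
  have hκ0 : 0 < κ := by linarith
  have hτ : 0 < τ := by rw [hτd]; positivity
  have hi1 : IntervalIntegrable (fun x => 2 * Real.pi * (d x * Real.exp (-(1 / 2 * Lam p x)))) volume xs 0 :=
    (continuous_const.mul (hdc.mul (Real.continuous_exp.comp
      (continuous_const.mul hLc).neg))).intervalIntegrable _ _
  have hi2 : IntervalIntegrable (fun x => τ / 2 * (ω x * aa p x)) volume xs 0 :=
    (continuous_const.mul (hωc.mul (SINM.cont_aa p))).intervalIntegrable _ _
  have hco : ContinuousOn (fun x => g x / ω x) (Set.uIcc xs 0) := by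
    rw [Set.uIcc_of_le hx0]
    exact hgc.continuousOn.div hωc.continuousOn (fun x hx => (hωpos x hx.2).ne')
  have hi3' : IntervalIntegrable (fun x => g x / ω x) volume xs 0 := hco.intervalIntegrable
  have hi3 : IntervalIntegrable (fun x => 8 * Real.pi * m / τ * (g x / ω x)) volume xs 0 :=
    hi3'.const_mul _
  have hmain : ∫ x in xs..0, ∫ θ in (0 : ℝ)..(2 * Real.pi), sph p (lp x θ) * Real.exp (2 * x) ≤
      ∫ x in xs..0, (2 * Real.pi * (d x * Real.exp (-(1 / 2 * Lam p x))) + τ / 2 * (ω x * aa p x) +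
        8 * Real.pi * m / τ * (g x / ω x)) := by
    refine intervalIntegral.integral_mono_on hx0 ((SINM.cont_F p).intervalIntegrable _ _)
      ((hi1.add hi2).add hi3) (fun x hx => ?_)
    have hwx := hωpos x hx.2
    have hLx : 0 < Lam p x := lt_of_lt_of_le hLpos (hmono hx.1)
    have h1 := hS x (τ * ω x) hx.2 hLx (mul_pos hτ hwx)
    refine h1.trans (le_of_eq ?_)
    rw [hgeq x hx.1]
    field_simp
  have hI1 : ∫ x in xs..0, 2 * Real.pi * (d x * Real.exp (-(1 / 2 * Lam p x))) ≤ 13 := by
    have h1 : ∀ x ∈ Set.uIcc xs 0, HasDerivAt (fun x => -(4 * Real.pi * Real.exp (-(1 / 2 * Lam p x))))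
        (2 * Real.pi * (d x * Real.exp (-(1 / 2 * Lam p x)))) x := by
      intro x _
      have h2 := ((((hLd x).const_mul (1 / 2)).neg).exp.const_mul (4 * Real.pi)).neg
      refine h2.congr_deriv ?_
      simp only [Pi.neg_apply]
      ring
    rw [intervalIntegral.integral_eq_sub_of_hasDerivAt h1 hi1]
    have h2 := Real.exp_pos (-(1 / 2 * Lam p 0))
    have h3 : Real.exp (-(1 / 2 * Lam p xs)) ≤ 1 := by
      rw [Real.exp_le_one_iff]
      linarith
    have h4 := Real.pi_lt_d2
    have h5 := Real.pi_pos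
    nlinarith
  have hI2 : ∫ x in xs..0, ω x * aa p x ≤ 3 * Real.pi / 2 * (1 + Real.log (Lam p y₁ / Lam p xs)) := by
    refine le_trans (le_of_eq ?_) hW
    refine intervalIntegral.integral_congr (fun x hx => ?_)
    rw [Set.uIcc_of_le hx0] at hx
    rw [hω]
    refine congrArg (fun y => y * aa p x) ?_
    refine intervalIntegral.integral_congr (fun t ht => ?_)
    rw [Set.uIcc_of_le (by linarith [hx.2])] at ht
    exact hgeq t (hx.1.trans ht.1)
  have hI3 : ∫ x in xs..0, g x / ω x = Real.log (ω xs) - Real.log (ω 0) := by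
    have h1 : ∀ x ∈ Set.uIcc xs 0, HasDerivAt (fun x => - Real.log (ω x)) (g x / ω x) x := by
      intro x hx
      rw [Set.uIcc_of_le hx0] at hx
      have h2 := ((hωd x).log (hωpos x hx.2).ne').neg
      have h3 : -(-(g x) / ω x) = g x / ω x := by ring
      rw [h3] at h2
      exact h2
    rw [intervalIntegral.integral_eq_sub_of_hasDerivAt h1 hi3']
    ring
  rw [intervalIntegral.integral_add (hi1.add hi2) hi3, intervalIntegral.integral_add hi1 hi2,
    intervalIntegral.integral_const_mul (8 * Real.pi * m / τ),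
    intervalIntegral.integral_const_mul (τ / 2), hI3] at hmain
  have hA : τ / 2 * ∫ x in xs..0, ω x * aa p x ≤ 9 / 2 * Real.pi * R := by
    have h1 : τ / 2 * ∫ x in xs..0, ω x * aa p x ≤ τ / 2 * (3 * Real.pi / 2 * κ) := by
      refine mul_le_mul_of_nonneg_left (hI2.trans ?_) (by positivity)
      refine mul_le_mul_of_nonneg_left ?_ (by positivity)
      linarith
    refine h1.trans (le_of_eq ?_)
    rw [hτd]
    field_simp
    ring
  have hB : 8 * Real.pi * m / τ * (Real.log (ω xs) - Real.log (ω 0)) ≤ 4 * Real.pi * R := by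
    have h1 : 8 * Real.pi * m / τ * (Real.log (ω xs) - Real.log (ω 0)) ≤
        8 * Real.pi * m / τ * (3 * (1 + Real.log n)) :=
      mul_le_mul_of_nonneg_left hlw (by positivity)
    refine h1.trans (le_of_eq ?_)
    have h2 : 8 * Real.pi * m / τ * (3 * (1 + Real.log n)) =
        4 * Real.pi * (m * (1 + Real.log n) * κ) / R := by
      rw [hτd]
      field_simp
      ring
    rw [h2, ← hRR]
    field_simp
  rw [← hR]
  have hD : 9 / 2 * Real.pi * R + 4 * Real.pi * R ≤ 27 * R := by
    have h1 : 9 / 2 * Real.pi * R + 4 * Real.pi * R = 17 / 2 * Real.pi * R := by ring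
    rw [h1]
    refine mul_le_mul_of_nonneg_right ?_ hR0.le
    have := Real.pi_lt_d2
    linarith
  linarith

/-- `UU` at most at the level `m` -/
theorem root {U m l κ : ℝ} (hm : 1 ≤ m) (hl : 1 ≤ l) (hκ : 1 ≤ κ) (hU : U ≤ Real.pi * (2 * m + 1)) :
    Real.sqrt (Real.pi * U * l) ≤ 6 * Real.sqrt (m * l * κ) := by
  have hpi : 0 < Real.pi := Real.pi_pos
  have h1 : Real.pi < 3.15 := Real.pi_lt_d2
  have h2 : Real.pi * U * l ≤ 6 ^ 2 * (m * l * κ) := by
    have h3 : Real.pi * U * l ≤ Real.pi * (Real.pi * (3 * m)) * l := by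
      apply mul_le_mul_of_nonneg_right _ (by linarith)
      apply mul_le_mul_of_nonneg_left _ hpi.le
      exact hU.trans (mul_le_mul_of_nonneg_left (by linarith) hpi.le)
    have h4 : Real.pi * Real.pi ≤ 10 := by nlinarith
    have h5 : 0 ≤ m * l := by positivity
    have h6 : m * l ≤ m * l * κ := le_mul_of_one_le_right h5 hκ
    have h7 : Real.pi * (Real.pi * (3 * m)) * l = 3 * (Real.pi * Real.pi) * (m * l) := by ring
    rw [h7] at h3
    nlinarith
  calc Real.sqrt (Real.pi * U * l) ≤ Real.sqrt (6 ^ 2 * (m * l * κ)) := Real.sqrt_le_sqrt h2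
    _ = 6 * Real.sqrt (m * l * κ) := by
        rw [Real.sqrt_mul (by positivity), Real.sqrt_sq (by norm_num)]

end BCHM

open BCHM in
/-- degree `n`, `m` monomials, the size of the coefficients taken into account -/
theorem specBCH (hEXC : SpecEXC) (hWEI : SpecWEI) (hPLR : SpecPLR) (hFNB : SpecFNB) (hLAM : SpecLAM)
    (hSCA : SpecSCA) (hINB : SpecINB) (hTMC : SpecTMC) (p : ℂ[X]) (hp : 0 < p.natDegree) (l L : ℝ)
    (hl : l = 1 + Real.log p.natDegree)
    (hL : L = Real.log (2 + 2 * ∑ k ∈ p.support, ‖p.coeff k‖)) :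
    ∫ z in Metric.closedBall (0 : ℂ) 1, sph p z ≤
      70 * Real.sqrt (p.support.card * l * min l (2 + Real.log (1 + L / p.support.card))) := by
  have hp0 : p ≠ 0 := by
    rintro rfl
    simp at hp
  have hcard : 1 ≤ p.support.card := by
    rw [Nat.one_le_iff_ne_zero, Ne, Finset.card_eq_zero, Polynomial.support_eq_empty]
    exact hp0
  have hn1 : (1 : ℝ) ≤ (p.natDegree : ℝ) := by exact_mod_cast hp
  have hlog : 0 ≤ Real.log p.natDegree := Real.log_nonneg hn1
  have hl1 : 1 ≤ l := by linarith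
  obtain ⟨m, hm⟩ : ∃ m : ℝ, m = p.support.card := ⟨_, rfl⟩
  have hm1 : 1 ≤ m := by rw [hm]; exact_mod_cast hcard
  have hm0 : 0 < m := by linarith
  rw [← hm]
  have hS0 : 0 ≤ ∑ k ∈ p.support, ‖p.coeff k‖ := Finset.sum_nonneg fun k _ => norm_nonneg _
  have hL0 : 0 ≤ L := by
    rw [hL]
    apply Real.log_nonneg
    linarith
  have hLm : 0 ≤ L / m := by positivity
  obtain ⟨κ, hκ⟩ : ∃ κ : ℝ, κ = 2 + Real.log (1 + L / m) := ⟨_, rfl⟩
  have hκ1 : 1 ≤ κ := by
    have : 0 ≤ Real.log (1 + L / m) := Real.log_nonneg (by linarith)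
    linarith
  rw [← hκ]
  rcases le_total κ l with hkl | hkl
  · rw [min_eq_right hkl]
    have hLam0 : Lam p 0 ≤ L := by
      have h1 : Lam p 0 = Real.log (∑ k ∈ p.support, ‖p.coeff k‖) := by
        unfold Lam
        simp
      rw [h1, hL]
      have h2 : 0 < ∑ k ∈ p.support, ‖p.coeff k‖ := by
        apply Finset.sum_pos
        · intro k hk
          exact norm_pos_iff.mpr (Polynomial.mem_support_iff.mp hk)
        · exact Polynomial.nonempty_support_iff.mpr hp0
      exact Real.log_le_log h2 (by linarith)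
    have hκe : (Lam p 0 + 1) / m ≤ Real.exp (κ - 1) := by
      have h1 : κ - 1 = 1 + Real.log (1 + L / m) := by rw [hκ]; ring
      rw [h1, Real.exp_add, Real.exp_log (by linarith)]
      have h2 : (Lam p 0 + 1) / m ≤ (L + m) / m := by
        apply div_le_div_of_nonneg_right _ hm0.le
        linarith
      have h3 : (L + m) / m = 1 + L / m := by
        field_simp
        ring
      have h4 : (1 : ℝ) ≤ Real.exp 1 := Real.one_le_exp zero_le_one
      rw [h3] at h2
      exact h2.trans (le_mul_of_one_le_left (by linarith) h4)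
    obtain ⟨⟨d, hd, hder⟩, hUU⟩ := hLAM p hp0
    have hcont : Continuous (Lam p) :=
      continuous_iff_continuousAt.2 fun x => (hder x).1.continuousAt
    obtain ⟨R, hR⟩ : ∃ R : ℝ, R = Real.sqrt (m * l * κ) := ⟨_, rfl⟩
    have hR1 : 1 ≤ R := by
      rw [hR]
      apply Real.one_le_sqrt.2
      have h1 : 1 ≤ m * l := by nlinarith
      nlinarith
    have hUb : ∀ x, Lam p x ≤ m → UU p x ≤ Real.pi * (2 * m + 1) := by
      intro x hx
      refine ((hUU x).2).trans (mul_le_mul_of_nonneg_left ?_ Real.pi_pos.le)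
      have : max (Lam p x) 0 ≤ m := max_le hx (by linarith)
      linarith
    have hsin : ∀ xs : ℝ, -l ≤ xs → xs ≤ 0 → m ≤ Lam p xs →
        ∫ z in {z : ℂ | Real.exp xs < ‖z‖ ∧ ‖z‖ ≤ Real.exp 0}, sph p z ≤ 13 + 27 * R := by
      intro xs h1 h2 h3
      rw [hPLR (sph p) (TMCM.cont_sph p) xs 0 h2, hR, hm, hl]
      rw [hm] at h3 hκe
      rw [hl] at h1 hkl
      exact sin' hEXC hWEI hLAM p xs p.support.card κ hp h1 h2 (by exact_mod_cast hcard) h3 hκ1 hκe hkl
    rw [← hR]
    by_cases c1 : Lam p 0 ≤ m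
    · have h1 := hFNB p hp
      rw [← hl] at h1
      have h2 := root hm1 hl1 hκ1 (hUb 0 c1)
      rw [← hR] at h2
      linarith
    · push Not at c1
      by_cases c2 : m ≤ Lam p (-l)
      · rw [TMCM.split (TMCM.cont_sph p) (xs := -l) (by linarith)]
        have h1 := hsin (-l) le_rfl (by linarith) c2
        have h2 := hINB p hp
        rw [← hl] at h2
        linarith
      · push Not at c2
        obtain ⟨xs, hxs, hval⟩ := intermediate_value_Icc (show -l ≤ (0 : ℝ) by linarith)
          hcont.continuousOn (show m ∈ Set.Icc (Lam p (-l)) (Lam p 0) from ⟨c2.le, c1.le⟩)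
        rw [TMCM.split (TMCM.cont_sph p) (xs := xs) hxs.2]
        have h1 := hsin xs hxs.1 hxs.2 hval.ge
        have h2 := hSCA p xs hp hxs.2
        rw [← hl] at h2
        have h3 := root hm1 hl1 hκ1 (hUb xs hval.le)
        rw [← hR] at h3
        linarith
  · rw [min_eq_left hkl]
    have h1 := hTMC p hp
    rw [← hl, ← hm] at h1
    refine h1.trans (le_of_eq ?_)
    rw [mul_assoc m l l, Real.sqrt_mul hm0.le, Real.sqrt_mul_self (by linarith)]
    ring

end

end Pool.Agent.Lib.MP684ec1.NB
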