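import Pool.Agent.Lib.MP_684ec1_an.NB.Spec

/-!
# MP_684ec1, NB, module CCF
-/

set_option autoImplicit false

namespace Pool.Agent.Lib.MP684ec1.NB

open Complex Polynomial MeasureTheory intervalIntegral
open Pool.Agent.Lib.MP684ec1.HP

namespace CCFM

lemma inj : Function.Injective (fun j : ℕ => 4 ^ (j + 1)) := by
  intro a b hab
  have h1 : (4 : ℕ) ^ (a + 1) = 4 ^ (b + 1) := hab
  have h2 := Nat.pow_right_injective (le_refl 2 |>.trans (by norm_num : 2 ≤ 4)) h1
  omega

lemma coeff_cc (m k : ℕ) : (cc m).coeff k =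
    if k ∈ (Finset.range m).image (fun j : ℕ => 4 ^ (j + 1)) then ((1 / Real.sqrt m : ℝ) : ℂ)
    else 0 := by
  unfold cc
  rw [finsetSum_coeff]
  simp only [coeff_C_mul, coeff_X_pow, mul_ite, mul_one, mul_zero]
  split_ifs with h
  · obtain ⟨j, hj, hjk⟩ := Finset.mem_image.1 h
    rw [Finset.sum_eq_single j]
    · rw [if_pos hjk.symm]
    · intro b _ hb
      rw [if_neg]
      intro hkb
      exact hb (inj (hkb.symm.trans hjk.symm))
    · intro hj'
      exact absurd hj hj'
  · apply Finset.sum_eq_zero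
    intro j hj
    rw [if_neg]
    rintro rfl
    exact h (Finset.mem_image.2 ⟨j, hj, rfl⟩)

end CCFM

open CCFM in
theorem specCCF : SpecCCF := by
  intro m hm
  have hm' : (0 : ℝ) < m := Nat.cast_pos.2 hm
  have hs : 0 < Real.sqrt m := Real.sqrt_pos.2 hm'
  have hc : ((1 / Real.sqrt m : ℝ) : ℂ) ≠ 0 := by
    rw [Complex.ofReal_ne_zero]
    positivity
  have hsupp : (cc m).support = (Finset.range m).image (fun j : ℕ => 4 ^ (j + 1)) := by
    ext k
    rw [mem_support_iff, coeff_cc]
    split_ifs with h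
    · exact ⟨fun _ => h, fun _ => hc⟩
    · exact ⟨fun h0 => absurd rfl h0, fun h1 => absurd h1 h⟩
  have hcard : (cc m).support.card = m := by
    rw [hsupp, Finset.card_image_of_injective _ inj, Finset.card_range]
  refine ⟨?_, hcard, ?_⟩
  · apply le_antisymm
    · rw [natDegree_le_iff_coeff_eq_zero]
      intro k hk
      rw [coeff_cc, if_neg]
      intro h
      obtain ⟨j, hj, rfl⟩ := Finset.mem_image.1 h
      have h1 : 4 ^ (j + 1) ≤ 4 ^ m :=
        Nat.pow_le_pow_right (by norm_num) (Finset.mem_range.1 hj)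
      exact absurd hk (not_lt.2 h1)
    · apply le_natDegree_of_ne_zero
      rw [coeff_cc, if_pos]
      · exact hc
      · refine Finset.mem_image.2 ⟨m - 1, Finset.mem_range.2 (by omega), ?_⟩
        rw [Nat.sub_add_cancel hm]
  · have h1 : ∀ k ∈ (cc m).support, ‖(cc m).coeff k‖ ^ 2 = 1 / (m : ℝ) := by
      intro k hk
      rw [hsupp] at hk
      rw [coeff_cc, if_pos hk, Complex.norm_real, Real.norm_eq_abs, sq_abs, div_pow, one_pow,
        Real.sq_sqrt hm'.le]
    rw [Finset.sum_congr rfl h1, Finset.sum_const, hcard, nsmul_eq_mul]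
    field_simp

end Pool.Agent.Lib.MP684ec1.NB
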