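import Pool.Agent.Lib.MP_684ec1_an.NB.Spec

/-!
# MP_684ec1: module DSC (Descartes)
-/

set_option autoImplicit false

namespace Pool.Agent.Lib.MP684ec1.NB

open Complex Polynomial MeasureTheory intervalIntegral

namespace DSCM

lemma sv_le : ∀ (n : ℕ) (q : ℝ[X]), q.support.card = n → q ≠ 0 →
    q.signVariations + 1 ≤ q.support.card := by
  intro n
  induction n with
  | zero =>
    intro q hq h0
    exact absurd (Polynomial.card_support_eq_zero.1 hq) h0
  | succ n ih =>
    intro q hq h0
    have h1 : q.eraseLead.support.card = n := by
      have := Polynomial.card_support_eraseLead_add_one h0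
      omega
    by_cases he : q.eraseLead = 0
    · have h2 : q = monomial q.natDegree q.leadingCoeff := by
        have := Polynomial.eraseLead_add_monomial_natDegree_leadingCoeff q
        rw [he, zero_add] at this
        exact this.symm
      have h3 : q.signVariations = 0 := by
        rw [h2]
        exact Polynomial.signVariations_monomial _ _
      rw [h3, hq]
      omega
    · have h2 := ih _ h1 he
      have h3 := Polynomial.signVariations_le_eraseLead_succ (P := q)
      omega

end DSCM

open DSCM in
theorem specDSC : SpecDSC := by
  intro q hq
  have h1 : (q.roots.toFinset.filter (fun r => 0 < r)).card ≤ q.roots.countP (fun r => 0 < r) := by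
    rw [Multiset.countP_eq_card_filter, ← Multiset.toFinset_filter]
    exact Multiset.toFinset_card_le _
  have h2 := Polynomial.roots_countP_pos_le_signVariations q
  have h3 := sv_le _ q rfl hq
  omega

end Pool.Agent.Lib.MP684ec1.NB
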