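import Pool.Agent.Lib.MP_684ec1_an.NB.SpecM

/-! Module EXC (helper52): the exceptional angles. -/

set_option autoImplicit false

namespace Pool.Agent.Lib.MP684ec1.NB

open Complex Polynomial MeasureTheory intervalIntegral
open Pool.Agent.Lib.MP684ec1.HP

theorem specEXC (hMLG : SpecMLG) (hLAM : SpecLAM) : SpecEXC := by
  intro p x hp hL
  obtain ⟨hint, hlow⟩ := hMLG p x hp
  have hup := fun θ : ℝ => (((hLAM p hp).2 x).1 θ).1
  have h2pi : (0 : ℝ) ≤ 2 * Real.pi := by positivity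
  obtain ⟨g, hg⟩ : ∃ g : ℝ → ℝ, g = fun θ => Real.log ‖p.eval (lp x θ)‖ := ⟨_, rfl⟩
  have hgle : ∀ θ, g θ ≤ Lam p x := by
    intro θ
    rw [hg]
    show Real.log ‖p.eval (lp x θ)‖ ≤ Lam p x
    rcases (norm_nonneg (p.eval (lp x θ))).eq_or_lt with h | h
    · rw [← h, Real.log_zero]
      exact hL.le
    · exact (Real.log_le_iff_le_exp h).2 (hup θ)
  have hgi : IntervalIntegrable g volume 0 (2 * Real.pi) := by rw [hg]; exact hint
  have hcon : IntervalIntegrable (fun _ : ℝ => Lam p x) volume 0 (2 * Real.pi) :=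
    intervalIntegrable_const
  obtain ⟨f, hf⟩ : ∃ f : ℝ → ℝ, f = fun θ => Lam p x - g θ := ⟨_, rfl⟩
  have hf0 : ∀ θ, 0 ≤ f θ := fun θ => by rw [hf]; exact sub_nonneg.2 (hgle θ)
  have hfi : IntervalIntegrable f volume 0 (2 * Real.pi) := by
    rw [hf]; exact hcon.sub hgi
  have hfint : ∫ θ in (0 : ℝ)..(2 * Real.pi), f θ ≤ 4 * Real.pi * p.support.card := by
    rw [hf, intervalIntegral.integral_sub hcon hgi, intervalIntegral.integral_const, smul_eq_mul]
    rw [← hg] at hlow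
    linarith
  have hfi' : Integrable f (volume.restrict (Set.Ioc 0 (2 * Real.pi))) :=
    (intervalIntegrable_iff_integrableOn_Ioc_of_le h2pi).1 hfi
  rw [intervalIntegral.integral_of_le h2pi] at hfint
  have hmark := mul_meas_ge_le_integral_of_nonneg (Filter.Eventually.of_forall hf0) hfi'
    (Lam p x / 4)
  have hbound : (volume.restrict (Set.Ioc 0 (2 * Real.pi))).real {θ | Lam p x / 4 ≤ f θ} ≤
      16 * Real.pi * p.support.card / Lam p x := by
    rw [le_div_iff₀ hL]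
    have h1 := hmark.trans hfint
    linarith
  have hsub : {θ : ℝ | θ ∈ Set.Icc 0 (2 * Real.pi) ∧
      ‖p.eval (lp x θ)‖ < Real.exp (3 / 4 * Lam p x)} ⊆
      {0} ∪ ({θ | Lam p x / 4 ≤ f θ} ∩ Set.Ioc 0 (2 * Real.pi)) := by
    rintro θ ⟨hθ, hlt⟩
    rcases hθ.1.eq_or_lt with h0 | h0
    · exact Or.inl h0.symm
    · refine Or.inr ⟨?_, h0, hθ.2⟩
      show Lam p x / 4 ≤ f θ
      have h1 : g θ ≤ 3 / 4 * Lam p x := by
        rw [hg]
        show Real.log ‖p.eval (lp x θ)‖ ≤ 3 / 4 * Lam p x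
        rcases (norm_nonneg (p.eval (lp x θ))).eq_or_lt with h | h
        · rw [← h, Real.log_zero]
          positivity
        · exact (Real.log_le_iff_le_exp h).2 hlt.le
      rw [hf]
      show Lam p x / 4 ≤ Lam p x - g θ
      linarith
  have hrestr : (volume.restrict (Set.Ioc 0 (2 * Real.pi))) {θ | Lam p x / 4 ≤ f θ} =
      volume ({θ | Lam p x / 4 ≤ f θ} ∩ Set.Ioc 0 (2 * Real.pi)) :=
    Measure.restrict_apply' measurableSet_Ioc
  calc volume {θ : ℝ | θ ∈ Set.Icc 0 (2 * Real.pi) ∧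
      ‖p.eval (lp x θ)‖ < Real.exp (3 / 4 * Lam p x)} ≤
      volume ({0} ∪ ({θ | Lam p x / 4 ≤ f θ} ∩ Set.Ioc 0 (2 * Real.pi))) := measure_mono hsub
    _ ≤ volume ({0} : Set ℝ) + volume ({θ | Lam p x / 4 ≤ f θ} ∩ Set.Ioc 0 (2 * Real.pi)) :=
        measure_union_le _ _
    _ = (volume.restrict (Set.Ioc 0 (2 * Real.pi))) {θ | Lam p x / 4 ≤ f θ} := by
        rw [Real.volume_singleton, zero_add, hrestr]
    _ ≤ ENNReal.ofReal (16 * Real.pi * p.support.card / Lam p x) := by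
        rw [← ENNReal.ofReal_toReal (measure_ne_top _ _)]
        exact ENNReal.ofReal_le_ofReal hbound

end Pool.Agent.Lib.MP684ec1.NB
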