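import Pool.Agent.Lib.MP_684ec1_an.NB.Spec

/-!
# Module EXM: the lower bound for the example
-/

set_option autoImplicit false

namespace Pool.Agent.Lib.MP684ec1.NB

open Complex Polynomial MeasureTheory intervalIntegral
open Pool.Agent.Lib.MP684ec1.HP

noncomputable section

namespace EXMM

theorem sph_nonneg (p : ℂ[X]) (z : ℂ) : 0 ≤ sph p z := by
  unfold sph
  positivity

theorem sph_cont (p : ℂ[X]) : Continuous (sph p) := by
  unfold sph
  exact Continuous.div (by fun_prop) (by fun_prop) (fun z => by positivity)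

/-- the coefficients on the circle of radius `e^x` -/
def cf (m : ℕ) (x : ℝ) (j : ℕ) : ℝ := Real.exp (4 ^ (j + 1) * x) / Real.sqrt m

def PP (m : ℕ) (x θ : ℝ) : ℂ :=
  ∑ j ∈ Finset.range m, ((cf m x j : ℝ) : ℂ) * exp (((4 ^ (j + 1) : ℕ) : ℂ) * ((θ : ℂ) * I))

def QQ (m : ℕ) (x θ : ℝ) : ℂ :=
  ∑ j ∈ Finset.range m, ((4 ^ (j + 1) * cf m x j : ℝ) : ℂ) *
    exp (((4 ^ (j + 1) : ℕ) : ℂ) * ((θ : ℂ) * I))

theorem PP_cont (m : ℕ) (x : ℝ) : Continuous (PP m x) := by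
  unfold PP
  fun_prop

theorem QQ_cont (m : ℕ) (x : ℝ) : Continuous (QQ m x) := by
  unfold QQ
  fun_prop

theorem lp_pow (x θ : ℝ) (K : ℕ) : lp x θ ^ K =
    ((Real.exp (K * x) : ℝ) : ℂ) * exp ((K : ℂ) * ((θ : ℂ) * I)) := by
  unfold lp
  rw [← Complex.exp_nat_mul, Complex.ofReal_exp, ← Complex.exp_add]
  congr 1
  push_cast
  ring

theorem lp_norm (x θ : ℝ) : ‖lp x θ‖ = Real.exp x := by
  unfold lp
  rw [Complex.norm_exp]
  simp

theorem lp_cont : Continuous (Function.uncurry lp) := by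
  unfold lp Function.uncurry
  fun_prop

theorem eval_cc (m : ℕ) (x θ : ℝ) : (cc m).eval (lp x θ) = PP m x θ := by
  unfold cc PP cf
  rw [Polynomial.eval_finsetSum]
  refine Finset.sum_congr rfl fun j _ => ?_
  rw [Polynomial.eval_mul, Polynomial.eval_C, Polynomial.eval_pow, Polynomial.eval_X, lp_pow]
  push_cast
  ring

theorem eval_der (m : ℕ) (x θ : ℝ) :
    lp x θ * (cc m).derivative.eval (lp x θ) = QQ m x θ := by
  unfold cc QQ cf
  rw [Polynomial.derivative_sum, Polynomial.eval_finsetSum, Finset.mul_sum]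
  refine Finset.sum_congr rfl fun j _ => ?_
  rw [Polynomial.derivative_C_mul_X_pow, Polynomial.eval_mul, Polynomial.eval_C,
    Polynomial.eval_pow, Polynomial.eval_X]
  have h1 : lp x θ * lp x θ ^ (4 ^ (j + 1) - 1) = lp x θ ^ (4 ^ (j + 1)) := by
    rw [← pow_succ', Nat.sub_add_cancel (Nat.one_le_pow _ _ (by norm_num))]
  rw [mul_left_comm, h1, lp_pow]
  push_cast
  ring

theorem sph_lp (m : ℕ) (x θ : ℝ) : sph (cc m) (lp x θ) * Real.exp (2 * x) =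
    Real.exp x * (‖QQ m x θ‖ / (1 + ‖PP m x θ‖ ^ 2)) := by
  unfold sph
  rw [← eval_cc, ← eval_der, norm_mul, lp_norm, two_mul, Real.exp_add]
  ring

theorem cf_nonneg (m : ℕ) (x : ℝ) (j : ℕ) : 0 ≤ cf m x j := by
  unfold cf
  positivity

theorem norm_sq_ofReal (r : ℝ) : ‖(r : ℂ)‖ ^ 2 = r ^ 2 := by
  rw [Complex.norm_real, Real.norm_eq_abs, sq_abs]

theorem sum_cf (m : ℕ) (hm : 0 < m) (x : ℝ) (hx : x ≤ 0) :
    ∑ j ∈ Finset.range m, ‖((cf m x j : ℝ) : ℂ)‖ ^ 2 ≤ 1 := by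
  have hm' : (0 : ℝ) < m := by exact_mod_cast hm
  have h1 : ∀ j ∈ Finset.range m, ‖((cf m x j : ℝ) : ℂ)‖ ^ 2 ≤ 1 / (m : ℝ) := by
    intro j _
    rw [norm_sq_ofReal]
    unfold cf
    rw [div_pow, Real.sq_sqrt hm'.le]
    have h2 : Real.exp (4 ^ (j + 1) * x) ≤ 1 := by
      rw [Real.exp_le_one_iff]
      exact mul_nonpos_of_nonneg_of_nonpos (by positivity) hx
    have h3 : Real.exp (4 ^ (j + 1) * x) ^ 2 ≤ 1 := pow_le_one₀ (Real.exp_pos _).le h2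
    gcongr
  refine (Finset.sum_le_sum h1).trans ?_
  rw [Finset.sum_const, Finset.card_range, nsmul_eq_mul, mul_one_div, div_self hm'.ne']

theorem key (hMOM : SpecMOM) (hLOW : SpecLOW) (m : ℕ) (hm : 0 < m) (x : ℝ) (hx : x ≤ 0)
    (j : ℕ) (hj : j < m) :
    2 * Real.pi / 5 * (4 ^ (j + 1) * cf m x j) ≤
      ∫ θ in (0 : ℝ)..(2 * Real.pi), ‖QQ m x θ‖ / (1 + ‖PP m x θ‖ ^ 2) := by
  have hMP := hMOM m (fun j => ((cf m x j : ℝ) : ℂ))
  have hMQ := hMOM m (fun j => ((4 ^ (j + 1) * cf m x j : ℝ) : ℂ))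
  obtain ⟨S, hS⟩ : ∃ S, S = ∑ i ∈ Finset.range m, ‖((4 ^ (i + 1) * cf m x i : ℝ) : ℂ)‖ ^ 2 :=
    ⟨_, rfl⟩
  have hS0 : 0 ≤ S := by
    rw [hS]
    exact Finset.sum_nonneg fun i _ => by positivity
  have hs2 : Real.sqrt S ^ 2 = S := Real.sq_sqrt hS0
  have hs4 : Real.sqrt S ^ 4 = S ^ 2 := by
    calc Real.sqrt S ^ 4 = (Real.sqrt S ^ 2) ^ 2 := by ring
      _ = S ^ 2 := by rw [hs2]
  have hP4 : (∫ θ in (0 : ℝ)..(2 * Real.pi), ‖PP m x θ‖ ^ 4) ≤ 4 * Real.pi := by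
    refine hMP.2.trans ?_
    have h1 := sum_cf m hm x hx
    have h2 : 0 ≤ ∑ j ∈ Finset.range m, ‖((cf m x j : ℝ) : ℂ)‖ ^ 2 :=
      Finset.sum_nonneg fun i _ => by positivity
    have h3 : (∑ j ∈ Finset.range m, ‖((cf m x j : ℝ) : ℂ)‖ ^ 2) ^ 2 ≤ 1 := pow_le_one₀ h2 h1
    have h4 : 0 < 4 * Real.pi := by positivity
    nlinarith
  have hQ2 : (∫ θ in (0 : ℝ)..(2 * Real.pi), ‖QQ m x θ‖ ^ 2) = 2 * Real.pi * Real.sqrt S ^ 2 := by
    rw [hs2, hS]
    exact hMQ.1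
  have hQ4 : (∫ θ in (0 : ℝ)..(2 * Real.pi), ‖QQ m x θ‖ ^ 4) ≤ 4 * Real.pi * Real.sqrt S ^ 4 := by
    rw [hs4, hS]
    exact hMQ.2
  have h := hLOW (PP m x) (QQ m x) (Real.sqrt S) (PP_cont m x) (QQ_cont m x)
    (Real.sqrt_nonneg S) hP4 hQ2 hQ4
  refine le_trans ?_ h
  have h5 : 4 ^ (j + 1) * cf m x j ≤ Real.sqrt S := by
    apply Real.le_sqrt_of_sq_le
    rw [hS, ← norm_sq_ofReal]
    exact Finset.single_le_sum (f := fun i => ‖((4 ^ (i + 1) * cf m x i : ℝ) : ℂ)‖ ^ 2)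
      (fun i _ => by positivity) (Finset.mem_range.mpr hj)
  have h6 : 0 < 2 * Real.pi / 5 := by positivity
  calc 2 * Real.pi / 5 * (4 ^ (j + 1) * cf m x j) ≤ 2 * Real.pi / 5 * Real.sqrt S :=
        mul_le_mul_of_nonneg_left h5 h6.le
    _ = 2 * Real.pi * Real.sqrt S / 5 := by ring

/-- the integral over a circle -/
def FF (m : ℕ) (x : ℝ) : ℝ :=
  ∫ θ in (0 : ℝ)..(2 * Real.pi), sph (cc m) (lp x θ) * Real.exp (2 * x)

theorem FF_cont (m : ℕ) : Continuous (FF m) := by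
  unfold FF
  apply continuous_parametric_intervalIntegral_of_continuous'
  have h1 : Continuous fun q : ℝ × ℝ => sph (cc m) (lp q.1 q.2) :=
    (sph_cont (cc m)).comp lp_cont
  have h2 : Continuous fun q : ℝ × ℝ => Real.exp (2 * q.1) := by fun_prop
  exact h1.mul h2

theorem FF_nonneg (m : ℕ) (x : ℝ) : 0 ≤ FF m x := by
  unfold FF
  apply intervalIntegral.integral_nonneg (by positivity)
  intro θ _
  exact mul_nonneg (sph_nonneg _ _) (Real.exp_pos _).le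

theorem FF_bound (hMOM : SpecMOM) (hLOW : SpecLOW) (m : ℕ) (hm : 0 < m) (x : ℝ) (hx : x ≤ 0)
    (j : ℕ) (hj : j < m) (hx1 : -(1 / 4) ≤ x) (hx2 : -1 ≤ 4 ^ (j + 1) * x) :
    Real.exp (-(5 / 4)) * (2 * Real.pi / 5) * 4 ^ (j + 1) / Real.sqrt m ≤ FF m x := by
  have h1 : FF m x = Real.exp x *
      ∫ θ in (0 : ℝ)..(2 * Real.pi), ‖QQ m x θ‖ / (1 + ‖PP m x θ‖ ^ 2) := by
    unfold FF
    simp only [sph_lp]
    rw [intervalIntegral.integral_const_mul]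
  rw [h1]
  have h2 := mul_le_mul_of_nonneg_left (key hMOM hLOW m hm x hx j hj) (Real.exp_pos x).le
  refine le_trans ?_ h2
  unfold cf
  have h3 : Real.exp (-(5 / 4)) ≤ Real.exp x * Real.exp (4 ^ (j + 1) * x) := by
    rw [← Real.exp_add, Real.exp_le_exp]
    linarith
  have h4 : 0 ≤ (2 * Real.pi / 5) * 4 ^ (j + 1) / Real.sqrt m := by positivity
  calc Real.exp (-(5 / 4)) * (2 * Real.pi / 5) * 4 ^ (j + 1) / Real.sqrt m
      = Real.exp (-(5 / 4)) * ((2 * Real.pi / 5) * 4 ^ (j + 1) / Real.sqrt m) := by ring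
    _ ≤ (Real.exp x * Real.exp (4 ^ (j + 1) * x)) *
        ((2 * Real.pi / 5) * 4 ^ (j + 1) / Real.sqrt m) := mul_le_mul_of_nonneg_right h3 h4
    _ = Real.exp x * (2 * Real.pi / 5 * (4 ^ (j + 1) *
        (Real.exp (4 ^ (j + 1) * x) / Real.sqrt m))) := by ring

theorem num : 1 / 4 ≤ 3 * Real.pi / 10 * Real.exp (-(5 / 4)) := by
  have h1 : Real.exp (5 / 4) < 7 / 2 := by
    apply lt_of_pow_lt_pow_left₀ 4 (by norm_num)
    have h2 : Real.exp (5 / 4) ^ 4 = Real.exp 1 ^ 5 := by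
      rw [← Real.exp_nat_mul, ← Real.exp_nat_mul]
      norm_num
    rw [h2]
    have h3 := Real.exp_one_lt_d9
    calc Real.exp 1 ^ 5 < 2.7182818286 ^ 5 := pow_lt_pow_left₀ h3 (Real.exp_pos 1).le (by norm_num)
      _ < (7 / 2) ^ 4 := by norm_num
  have h4 : Real.exp (-(5 / 4)) = (Real.exp (5 / 4))⁻¹ := Real.exp_neg _
  have h5 : (7 / 2 : ℝ)⁻¹ ≤ Real.exp (-(5 / 4)) := by
    rw [h4]
    exact inv_anti₀ (Real.exp_pos _) h1.le
  have h6 := Real.pi_gt_d2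
  have h7 : (0 : ℝ) < Real.exp (-(5 / 4)) := Real.exp_pos _
  nlinarith

/-- the points of division -/
def aj (j : ℕ) : ℝ := -((1 / 4 : ℝ) ^ (j + 1))

theorem piece (hMOM : SpecMOM) (hLOW : SpecLOW) (m : ℕ) (hm : 0 < m) (j : ℕ) (hj : j < m) :
    1 / 4 / Real.sqrt m ≤ ∫ x in (aj j)..(aj (j + 1)), FF m x := by
  have h4 : (0 : ℝ) < (1 / 4 : ℝ) ^ (j + 1) := by positivity
  have h5 : (1 / 4 : ℝ) ^ (j + 1) * 4 ^ (j + 1) = 1 := by
    rw [← mul_pow]
    norm_num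
  have h6 : (1 / 4 : ℝ) ^ (j + 1) ≤ 1 / 4 := by
    rw [pow_succ]
    have : (1 / 4 : ℝ) ^ j ≤ 1 := pow_le_one₀ (by norm_num) (by norm_num)
    linarith
  have h7 : aj (j + 1) - aj j = 3 / 4 * (1 / 4 : ℝ) ^ (j + 1) := by
    unfold aj
    rw [pow_succ (1 / 4 : ℝ) (j + 1)]
    ring
  have hle : aj j ≤ aj (j + 1) := by linarith
  have hint : (∫ x in (aj j)..(aj (j + 1)),
      Real.exp (-(5 / 4)) * (2 * Real.pi / 5) * 4 ^ (j + 1) / Real.sqrt m) ≤
      ∫ x in (aj j)..(aj (j + 1)), FF m x := by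
    apply intervalIntegral.integral_mono_on hle (by simp)
      ((FF_cont m).intervalIntegrable _ _)
    intro x hx
    obtain ⟨hx1, hx2⟩ := hx
    have h8 : aj (j + 1) ≤ 0 := by
      unfold aj
      have : (0 : ℝ) < (1 / 4 : ℝ) ^ (j + 1 + 1) := by positivity
      linarith
    have h9 : -((1 / 4 : ℝ) ^ (j + 1)) ≤ x := hx1
    apply FF_bound hMOM hLOW m hm x (hx2.trans h8) j hj (by linarith)
    have h10 : (0 : ℝ) < 4 ^ (j + 1) := by positivity
    have h11 := mul_le_mul_of_nonneg_left h9 h10.le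
    linarith
  refine le_trans ?_ hint
  rw [intervalIntegral.integral_const, smul_eq_mul, h7]
  have h12 : 3 / 4 * (1 / 4 : ℝ) ^ (j + 1) *
      (Real.exp (-(5 / 4)) * (2 * Real.pi / 5) * 4 ^ (j + 1) / Real.sqrt m) =
      (3 * Real.pi / 10 * Real.exp (-(5 / 4))) * ((1 / 4 : ℝ) ^ (j + 1) * 4 ^ (j + 1)) /
        Real.sqrt m := by ring
  rw [h12, h5, mul_one]
  exact div_le_div_of_nonneg_right num (Real.sqrt_nonneg _)

end EXMM

open EXMM in
theorem specEXM (hPLR : SpecPLR) (hMOM : SpecMOM) (hLOW : SpecLOW) : SpecEXM := by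
  intro m hm
  have hm' : (0 : ℝ) < m := by exact_mod_cast hm
  have h1 := hPLR (sph (cc m)) (sph_cont (cc m)) (-(1 / 4)) 0 (by norm_num)
  rw [Real.exp_zero] at h1
  have h2 : ∫ z in {z : ℂ | Real.exp (-(1 / 4)) < ‖z‖ ∧ ‖z‖ ≤ 1}, sph (cc m) z ≤
      ∫ z in Metric.closedBall (0 : ℂ) 1, sph (cc m) z := by
    apply setIntegral_mono_set
    · exact (sph_cont (cc m)).continuousOn.integrableOn_compact (isCompact_closedBall _ _)
    · exact Filter.Eventually.of_forall fun z => sph_nonneg _ _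
    · apply Filter.Eventually.of_forall
      intro z hz
      have h3 : ‖z‖ ≤ 1 := hz.2
      change z ∈ Metric.closedBall (0 : ℂ) 1
      rw [mem_closedBall_zero_iff]
      exact h3
  refine le_trans ?_ h2
  rw [h1]
  have h3 : (∫ x in (-(1 / 4) : ℝ)..0, ∫ θ in (0 : ℝ)..(2 * Real.pi),
      sph (cc m) (lp x θ) * Real.exp (2 * x)) = ∫ x in (-(1 / 4) : ℝ)..0, FF m x := rfl
  rw [h3]
  have ha0 : aj 0 = -(1 / 4) := by
    unfold aj
    norm_num
  have ham : aj m ≤ 0 := by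
    unfold aj
    have : (0 : ℝ) < (1 / 4 : ℝ) ^ (m + 1) := by positivity
    linarith
  have hii : ∀ a b, IntervalIntegrable (FF m) volume a b := fun a b =>
    (FF_cont m).intervalIntegrable a b
  have h4 : (∫ x in (-(1 / 4) : ℝ)..0, FF m x) =
      (∫ x in (aj 0)..(aj m), FF m x) + ∫ x in (aj m)..0, FF m x := by
    rw [← ha0]
    exact (intervalIntegral.integral_add_adjacent_intervals (hii _ _) (hii _ _)).symm
  have h5 : 0 ≤ ∫ x in (aj m)..0, FF m x :=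
    intervalIntegral.integral_nonneg ham fun x _ => FF_nonneg m x
  have h6 : ∑ j ∈ Finset.range m, (∫ x in (aj j)..(aj (j + 1)), FF m x) =
      ∫ x in (aj 0)..(aj m), FF m x :=
    intervalIntegral.sum_integral_adjacent_intervals fun k _ => hii _ _
  have h7 : ∑ j ∈ Finset.range m, (1 / 4 / Real.sqrt m) ≤
      ∑ j ∈ Finset.range m, (∫ x in (aj j)..(aj (j + 1)), FF m x) :=
    Finset.sum_le_sum fun j hj => piece hMOM hLOW m hm j (Finset.mem_range.mp hj)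
  rw [Finset.sum_const, Finset.card_range, nsmul_eq_mul] at h7
  have h8 : (m : ℝ) * (1 / 4 / Real.sqrt m) = Real.sqrt m / 4 := by
    have h9 : Real.sqrt m * Real.sqrt m = m := Real.mul_self_sqrt hm'.le
    have h10 : Real.sqrt m ≠ 0 := (Real.sqrt_pos.mpr hm').ne'
    rw [mul_div_assoc', div_eq_iff h10]
    linarith
  rw [h8] at h7
  rw [h4, ← h6]
  linarith

end

end Pool.Agent.Lib.MP684ec1.NB
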