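import Pool.Agent.Lib.MP_684ec1_an.NB.Spec

/-!
# MP_684ec1_an, module FLB: polynomials of every degree bound with a large integral
-/

set_option autoImplicit false

namespace Pool.Agent.Lib.MP684ec1.NB

open Complex Polynomial MeasureTheory intervalIntegral
open Pool.Agent.Lib.MP684ec1.HP

namespace FLBM

theorem sph_cont (p : ℂ[X]) : Continuous (sph p) := by
  unfold sph
  refine Continuous.div (p.derivative.continuous.norm) (continuous_const.add (p.continuous.norm.pow 2)) ?_
  intro z
  positivity

theorem sph_X (z : ℂ) : sph (X : ℂ[X]) z = 1 / (1 + ‖z‖ ^ 2) := by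
  rw [sph, derivative_X, eval_one, eval_X, norm_one]

theorem int_X : (1 : ℝ) ≤ ∫ z in Metric.closedBall (0 : ℂ) 1, sph (X : ℂ[X]) z := by
  have hvol : volume.real (Metric.closedBall (0 : ℂ) 1) = Real.pi := by
    rw [Measure.real, Complex.volume_closedBall]
    simp
  have hint : IntegrableOn (sph (X : ℂ[X])) (Metric.closedBall (0 : ℂ) 1) :=
    (sph_cont X).continuousOn.integrableOn_compact (isCompact_closedBall 0 1)
  have hc : IntegrableOn (fun _ : ℂ => (1 / 2 : ℝ)) (Metric.closedBall (0 : ℂ) 1) :=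
    continuous_const.continuousOn.integrableOn_compact (isCompact_closedBall 0 1)
  have h := setIntegral_mono_on hc hint Metric.isClosed_closedBall.measurableSet (fun z hz => by
    rw [sph_X]
    have h1 : ‖z‖ ≤ 1 := mem_closedBall_zero_iff.mp hz
    have h0 : 0 ≤ ‖z‖ := norm_nonneg z
    have h2 : ‖z‖ ^ 2 ≤ 1 := pow_le_one₀ h0 h1
    exact one_div_le_one_div_of_le (by positivity) (by linarith))
  rw [setIntegral_const, hvol, smul_eq_mul] at h
  have hpi := Real.pi_gt_three
  linarith

theorem log_four : Real.log 4 ≤ 3 / 2 := by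
  have h : (4 : ℝ) = 2 ^ 2 := by norm_num
  rw [h, Real.log_pow]
  have := Real.log_two_lt_d9
  push_cast
  linarith

end FLBM

theorem specFLB (hC : SpecCCF) (hE : SpecEXM) : SpecFLB := by
  intro n hn
  by_cases h4 : 4 ≤ n
  · have hm : 0 < Nat.log 4 n := Nat.log_pos (by norm_num) h4
    obtain ⟨m, hmm⟩ : ∃ m, m = Nat.log 4 n := ⟨_, rfl⟩
    rw [← hmm] at hm
    obtain ⟨c1, -, c3⟩ := hC m hm
    have hle : 4 ^ m ≤ n := by
      rw [hmm]
      exact Nat.pow_log_le_self 4 (by omega)
    have hlt : n < 4 ^ (m + 1) := by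
      rw [hmm]
      exact Nat.lt_pow_succ_log_self (by norm_num) n
    refine ⟨cc m, c1.le.trans hle, c3.le, le_trans ?_ (hE m hm)⟩
    have hm1 : (1 : ℝ) ≤ m := by exact_mod_cast hm
    have hlog : Real.log n ≤ 3 * m := by
      have h1 : (n : ℝ) ≤ 4 ^ (m + 1) := by exact_mod_cast hlt.le
      have h2 : Real.log n ≤ Real.log (4 ^ (m + 1)) :=
        Real.log_le_log (by exact_mod_cast hn) h1
      rw [Real.log_pow] at h2
      have h3 := FLBM.log_four
      push_cast at h2
      have h5 : ((m : ℝ) + 1) * Real.log 4 ≤ (m + 1) * (3 / 2) :=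
        mul_le_mul_of_nonneg_left h3 (by positivity)
      linarith
    have hs : Real.sqrt (Real.log n) ≤ Real.sqrt (3 * m) := Real.sqrt_le_sqrt hlog
    have hs2 : Real.sqrt (3 * m) ≤ 7 / 4 * Real.sqrt m := by
      rw [Real.sqrt_mul (by norm_num)]
      have h3 : Real.sqrt 3 ≤ 7 / 4 := by
        rw [Real.sqrt_le_left (by norm_num)]
        norm_num
      exact mul_le_mul_of_nonneg_right h3 (Real.sqrt_nonneg _)
    linarith
  · push Not at h4
    refine ⟨X, ?_, ?_, ?_⟩
    · rw [natDegree_X]
      exact hn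
    · have hsupp : (X : ℂ[X]).support = {1} := support_X
      rw [hsupp, Finset.sum_singleton, coeff_X_one, norm_one]
      norm_num
    · refine le_trans ?_ FLBM.int_X
      have hn3 : (n : ℝ) ≤ 4 := by exact_mod_cast h4.le
      have h1 : Real.log n ≤ 3 := by
        have := Real.log_le_sub_one_of_pos (show (0 : ℝ) < n by exact_mod_cast hn)
        linarith
      have h2 : Real.sqrt (Real.log n) ≤ 7 := by
        rw [Real.sqrt_le_left (by norm_num)]
        linarith
      linarith

end Pool.Agent.Lib.MP684ec1.NB
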