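import Pool.Agent.Lib.MP_684ec1_an.NB.Spec

/-!
# MP_684ec1 : module FNB of NB, the upper bound
-/

set_option autoImplicit false

namespace Pool.Agent.Lib.MP684ec1.NB

open Complex Polynomial MeasureTheory intervalIntegral
open Pool.Agent.Lib.MP684ec1.HP

namespace FNBM

theorem sph_cont (p : ℂ[X]) : Continuous (sph p) := by
  unfold sph
  refine Continuous.div ?_ ?_ ?_
  · exact p.derivative.continuous.norm
  · exact continuous_const.add (p.continuous.norm.pow 2)
  · intro z
    positivity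

theorem integ (p : ℂ[X]) (S : Set ℂ) (hS : S ⊆ Metric.closedBall (0 : ℂ) 1) :
    IntegrableOn (sph p) S :=
  ((sph_cont p).continuousOn.integrableOn_compact (isCompact_closedBall 0 1)).mono_set hS

theorem meas (r s : ℝ) : MeasurableSet {z : ℂ | r < ‖z‖ ∧ ‖z‖ ≤ s} :=
  (measurableSet_lt measurable_const measurable_norm).inter
    (measurableSet_le measurable_norm measurable_const)

theorem split (p : ℂ[X]) (r s : ℝ) (hr : r ≤ s) (hs : s ≤ 1) :
    ∫ z in Metric.closedBall (0 : ℂ) 1, sph p z =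
      (∫ z in {z : ℂ | s < ‖z‖ ∧ ‖z‖ ≤ 1}, sph p z) +
      ((∫ z in {z : ℂ | r < ‖z‖ ∧ ‖z‖ ≤ s}, sph p z) + ∫ z in Metric.closedBall (0 : ℂ) r, sph p z) := by
  have e1 : Metric.closedBall (0 : ℂ) 1 =
      {z : ℂ | s < ‖z‖ ∧ ‖z‖ ≤ 1} ∪ Metric.closedBall (0 : ℂ) s := by
    ext z
    simp only [Metric.mem_closedBall, dist_zero_right, Set.mem_union, Set.mem_ofPred_eq]
    constructor
    · intro h
      rcases lt_or_ge s ‖z‖ with h1 | h1
      · exact Or.inl ⟨h1, h⟩
      · exact Or.inr h1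
    · rintro (h | h)
      · exact h.2
      · exact h.trans hs
  have e2 : Metric.closedBall (0 : ℂ) s =
      {z : ℂ | r < ‖z‖ ∧ ‖z‖ ≤ s} ∪ Metric.closedBall (0 : ℂ) r := by
    ext z
    simp only [Metric.mem_closedBall, dist_zero_right, Set.mem_union, Set.mem_ofPred_eq]
    constructor
    · intro h
      rcases lt_or_ge r ‖z‖ with h1 | h1
      · exact Or.inl ⟨h1, h⟩
      · exact Or.inr h1
    · rintro (h | h)
      · exact h.2
      · exact h.trans hr
  have d1 : Disjoint {z : ℂ | s < ‖z‖ ∧ ‖z‖ ≤ 1} (Metric.closedBall (0 : ℂ) s) := by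
    rw [Set.disjoint_left]
    intro z hz hz'
    rw [mem_closedBall_zero_iff] at hz'
    exact absurd hz.1 (not_lt.mpr hz')
  have d2 : Disjoint {z : ℂ | r < ‖z‖ ∧ ‖z‖ ≤ s} (Metric.closedBall (0 : ℂ) r) := by
    rw [Set.disjoint_left]
    intro z hz hz'
    rw [mem_closedBall_zero_iff] at hz'
    exact absurd hz.1 (not_lt.mpr hz')
  have s1 : {z : ℂ | s < ‖z‖ ∧ ‖z‖ ≤ 1} ⊆ Metric.closedBall (0 : ℂ) 1 := fun z hz => by
    rw [mem_closedBall_zero_iff]
    exact hz.2
  have s2 : {z : ℂ | r < ‖z‖ ∧ ‖z‖ ≤ s} ⊆ Metric.closedBall (0 : ℂ) 1 := fun z hz => by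
    rw [mem_closedBall_zero_iff]
    exact hz.2.trans hs
  have s3 : Metric.closedBall (0 : ℂ) s ⊆ Metric.closedBall (0 : ℂ) 1 :=
    Metric.closedBall_subset_closedBall hs
  have s4 : Metric.closedBall (0 : ℂ) r ⊆ Metric.closedBall (0 : ℂ) 1 :=
    Metric.closedBall_subset_closedBall (hr.trans hs)
  conv_lhs => rw [e1]
  rw [setIntegral_union d1 measurableSet_closedBall (integ p _ s1) (integ p _ s3)]
  congr 1
  conv_lhs => rw [e2]
  rw [setIntegral_union d2 measurableSet_closedBall (integ p _ s2) (integ p _ s4)]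

end FNBM

open FNBM in
theorem specFNB (hANN : SpecANN) (hOUT : SpecOUT) : SpecFNB := by
  intro p hp
  have hn1 : (1 : ℝ) ≤ p.natDegree := by exact_mod_cast hp
  have hn0 : (0 : ℝ) < p.natDegree := by linarith
  obtain ⟨δ, hδ⟩ : ∃ δ : ℝ, δ = 1 / (p.natDegree : ℝ) := ⟨_, rfl⟩
  have hδ0 : 0 < δ := by rw [hδ]; positivity
  have hδ1 : δ ≤ 1 := by
    rw [hδ, div_le_one hn0]
    exact hn1
  obtain ⟨C, hC⟩ := (isCompact_closedBall (0 : ℂ) 1).exists_bound_of_continuousOn
    (sph_cont p).continuousOn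
  have hC0 : 0 ≤ C := (norm_nonneg _).trans (hC 0 (Metric.mem_closedBall_self zero_le_one))
  apply le_of_forall_pos_le_add
  intro ε hε
  have hpi := Real.pi_pos
  obtain ⟨r, hr⟩ : ∃ r : ℝ, r = min (Real.exp (-δ)) (ε / (C * Real.pi + 1)) := ⟨_, rfl⟩
  have hr0 : 0 < r := by
    rw [hr]
    exact lt_min (Real.exp_pos _) (by positivity)
  have hr1 : r ≤ Real.exp (-δ) := by rw [hr]; exact min_le_left _ _
  have hr2 : r ≤ ε / (C * Real.pi + 1) := by rw [hr]; exact min_le_right _ _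
  have hs1 : Real.exp (-δ) ≤ 1 := by
    rw [Real.exp_le_one_iff]
    linarith
  have hlog : Real.exp (Real.log r) = r := Real.exp_log hr0
  have hA := hOUT p hp
  rw [← hδ] at hA
  have hB := hANN p (Real.log r) δ hδ0 hδ1 (by
    rw [← Real.log_exp (-δ)]
    exact Real.log_le_log hr0 hr1)
  rw [hlog] at hB
  have hlogn : Real.log (1 / δ) = Real.log p.natDegree := by
    rw [hδ, one_div_one_div]
  rw [hlogn] at hB
  have hD : ∫ z in Metric.closedBall (0 : ℂ) r, sph p z ≤ ε := by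
    have h1 : ‖∫ z in Metric.closedBall (0 : ℂ) r, sph p z‖ ≤
        C * volume.real (Metric.closedBall (0 : ℂ) r) := by
      apply norm_setIntegral_le_of_norm_le_const
      · exact measure_closedBall_lt_top
      · intro z hz
        exact hC z (Metric.closedBall_subset_closedBall (hr1.trans hs1) hz)
    have h2 : volume.real (Metric.closedBall (0 : ℂ) r) = r ^ 2 * Real.pi := by
      rw [Measure.real, Complex.volume_closedBall]
      rw [ENNReal.toReal_mul, ENNReal.toReal_pow, ENNReal.toReal_ofReal hr0.le]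
      rfl
    rw [h2] at h1
    have h3 : ∫ z in Metric.closedBall (0 : ℂ) r, sph p z ≤ C * (r ^ 2 * Real.pi) :=
      (le_abs_self _).trans h1
    have hr3 : r ≤ 1 := hr1.trans hs1
    have h4 : r ^ 2 ≤ r := by nlinarith
    have h5 : r * (C * Real.pi + 1) ≤ ε := by
      rwa [le_div_iff₀ (by positivity)] at hr2
    have h6 : 0 ≤ C * Real.pi := by positivity
    calc ∫ z in Metric.closedBall (0 : ℂ) r, sph p z ≤ C * (r ^ 2 * Real.pi) := h3
      _ = (C * Real.pi) * r ^ 2 := by ring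
      _ ≤ (C * Real.pi) * r := mul_le_mul_of_nonneg_left h4 h6
      _ ≤ ε := by nlinarith
  rw [split p r (Real.exp (-δ)) hr1 hs1]
  linarith

end Pool.Agent.Lib.MP684ec1.NB
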