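import Pool.Agent.Lib.MP_684ec1_an.NB.Spec

/-!
# MP_684ec1 : module GRN of NB, Green's formula
-/

set_option autoImplicit false

namespace Pool.Agent.Lib.MP684ec1.NB

open Complex Polynomial MeasureTheory intervalIntegral
open Pool.Agent.Lib.MP684ec1.HP

namespace GRNM

theorem lp_cont : Continuous (fun q : ℝ × ℝ => lp q.1 q.2) := by
  unfold lp
  apply Complex.continuous_exp.comp
  exact (Complex.continuous_ofReal.comp continuous_fst).add
    ((Complex.continuous_ofReal.comp continuous_snd).mul continuous_const)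

theorem pair_left (θ : ℝ) : Continuous (fun x : ℝ => (x, θ)) :=
  continuous_id.prodMk continuous_const

theorem pair_right (x : ℝ) : Continuous (fun θ : ℝ => (x, θ)) :=
  continuous_const.prodMk continuous_id

theorem fx_cont (p : ℂ[X]) : Continuous (fun q : ℝ × ℝ => fx p q.1 q.2) := by
  unfold fx
  have h1 : Continuous (fun q : ℝ × ℝ => p.eval (lp q.1 q.2)) := p.continuous.comp lp_cont
  have h2 : Continuous (fun q : ℝ × ℝ => p.derivative.eval (lp q.1 q.2) * lp q.1 q.2) :=
    (p.derivative.continuous.comp lp_cont).mul lp_cont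
  have h3 : ∀ q : ℝ × ℝ, (1 + ‖p.eval (lp q.1 q.2)‖ ^ 2) ≠ 0 := by
    intro q
    positivity
  exact (Complex.continuous_re.comp ((Complex.continuous_conj.comp h1).mul h2)).div
    (continuous_const.add (h1.norm.pow 2)) h3

theorem log_cont (p : ℂ[X]) :
    Continuous (fun q : ℝ × ℝ => Real.log (1 + ‖p.eval (lp q.1 q.2)‖ ^ 2) / 2) := by
  have h1 : Continuous (fun q : ℝ × ℝ => p.eval (lp q.1 q.2)) := p.continuous.comp lp_cont
  have h3 : ∀ q : ℝ × ℝ, (1 + ‖p.eval (lp q.1 q.2)‖ ^ 2) ≠ 0 := by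
    intro q
    positivity
  have h4 : Continuous (fun q : ℝ × ℝ => 1 + ‖p.eval (lp q.1 q.2)‖ ^ 2) :=
    continuous_const.add (h1.norm.pow 2)
  exact (h4.log h3).div_const 2

theorem sph_cont (p : ℂ[X]) : Continuous (sph p) := by
  unfold sph
  refine Continuous.div ?_ ?_ ?_
  · exact p.derivative.continuous.norm
  · exact continuous_const.add (p.continuous.norm.pow 2)
  · intro z
    positivity

theorem s_cont (p : ℂ[X]) :
    Continuous (fun q : ℝ × ℝ => (sph p (lp q.1 q.2) * Real.exp q.1) ^ 2) :=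
  (((sph_cont p).comp lp_cont).mul (Real.continuous_exp.comp continuous_fst)).pow 2

theorem swapc (H : ℝ × ℝ → ℝ) (hH : Continuous H) (a b c d : ℝ) :
    ∫ x in a..b, ∫ y in c..d, H (x, y) = ∫ y in c..d, ∫ x in a..b, H (x, y) := by
  apply intervalIntegral_intervalIntegral_swap (F := fun x y => H (x, y))
  have h1 : IntegrableOn H (Set.uIcc a b ×ˢ Set.uIcc c d) :=
    hH.continuousOn.integrableOn_compact (isCompact_uIcc.prod isCompact_uIcc)
  exact h1.mono_set (Set.prod_mono Set.uIoc_subset_uIcc Set.uIoc_subset_uIcc)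

theorem leib (F : ℝ → ℝ → ℝ) (f : ℝ × ℝ → ℝ) (hf : Continuous f) (hF : ∀ x, Continuous (F x))
    (hd : ∀ x θ, HasDerivAt (fun t => F t θ) (f (x, θ)) x) (x₀ x₁ c d : ℝ) :
    (∫ θ in c..d, F x₁ θ) - (∫ θ in c..d, F x₀ θ) = ∫ x in x₀..x₁, ∫ θ in c..d, f (x, θ) := by
  rw [← intervalIntegral.integral_sub ((hF x₁).intervalIntegrable _ _)
    ((hF x₀).intervalIntegrable _ _), swapc f hf]
  apply intervalIntegral.integral_congr
  intro θ _
  simp only
  rw [intervalIntegral.integral_eq_sub_of_hasDerivAt (fun x _ => hd x θ)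
    ((hf.comp (pair_left θ)).intervalIntegrable _ _)]

theorem lp_per (x : ℝ) : lp x (2 * Real.pi) = lp x 0 := by
  unfold lp
  rw [Complex.exp_add, Complex.exp_add]
  push_cast
  rw [Complex.exp_two_pi_mul_I]
  simp

end GRNM

open GRNM in
theorem specGRN (hPDE : SpecPDE) : SpecGRN := by
  intro p x₀ x₁ _
  obtain ⟨gxx, gtt, hxc, htc, hd1, hd2, hd3, hsum⟩ := hPDE p
  constructor
  · exact leib (fun x θ => Real.log (1 + ‖p.eval (lp x θ)‖ ^ 2) / 2) (fun q => fx p q.1 q.2)
      (fx_cont p) (fun x => (log_cont p).comp (pair_right x)) hd1 x₀ x₁ 0 (2 * Real.pi)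
  · have h1 := leib (fun x θ => fx p x θ) gxx hxc (fun x => (fx_cont p).comp (pair_right x)) hd2
      x₀ x₁ 0 (2 * Real.pi)
    have h2 : ∀ x, ∫ θ in (0 : ℝ)..(2 * Real.pi), gxx (x, θ) = 2 * aa p x := by
      intro x
      have h3 : ∫ θ in (0 : ℝ)..(2 * Real.pi), gtt (x, θ) = 0 := by
        rw [intervalIntegral.integral_eq_sub_of_hasDerivAt (fun θ _ => hd3 x θ)
          ((htc.comp (pair_right x)).intervalIntegrable _ _)]
        unfold ft
        rw [lp_per]
        simp
      have h4 : ∫ θ in (0 : ℝ)..(2 * Real.pi), (gxx (x, θ) + gtt (x, θ)) = 2 * aa p x := by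
        unfold aa
        rw [← intervalIntegral.integral_const_mul]
        apply intervalIntegral.integral_congr
        intro θ _
        exact hsum x θ
      have hi1 : IntervalIntegrable (fun θ => gxx (x, θ)) volume 0 (2 * Real.pi) :=
        (hxc.comp (pair_right x)).intervalIntegrable _ _
      have hi2 : IntervalIntegrable (fun θ => gtt (x, θ)) volume 0 (2 * Real.pi) :=
        (htc.comp (pair_right x)).intervalIntegrable _ _
      rw [intervalIntegral.integral_add hi1 hi2, h3, add_zero] at h4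
      exact h4
    have h5 : WW p x₁ - WW p x₀ = ∫ x in x₀..x₁, ∫ θ in (0 : ℝ)..(2 * Real.pi), gxx (x, θ) := h1
    rw [h5, ← intervalIntegral.integral_const_mul]
    apply intervalIntegral.integral_congr
    intro x _
    exact h2 x

end Pool.Agent.Lib.MP684ec1.NB
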