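import Pool.Agent.Lib.MP_684ec1_an.NB.SpecM

/-! Module INB (helper52): the integral over the disc of radius `e^(-(1 + log n))`. -/

set_option autoImplicit false

namespace Pool.Agent.Lib.MP684ec1.NB

open Complex Polynomial MeasureTheory intervalIntegral
open Pool.Agent.Lib.MP684ec1.HP

theorem specINB (hCSA : MD.SpecCSA) : SpecINB := by
  intro p hn
  obtain ⟨r, hr⟩ : ∃ r : ℝ, r = Real.exp (-(1 + Real.log p.natDegree)) := ⟨_, rfl⟩
  have hn1 : (1 : ℝ) ≤ p.natDegree := by exact_mod_cast hn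
  have hn0 : (0 : ℝ) < p.natDegree := by linarith
  have hr0 : 0 < r := by rw [hr]; exact Real.exp_pos _
  have hrn : r * p.natDegree = Real.exp (-1) := by
    rw [hr, neg_add, Real.exp_add, Real.exp_neg (Real.log p.natDegree), Real.exp_log hn0]
    field_simp
  have he : Real.exp (-1) ≤ 1 / 2 := by
    rw [Real.exp_neg, ← one_div]
    apply one_div_le_one_div_of_le two_pos
    have := Real.add_one_le_exp (1 : ℝ)
    linarith
  have hr1 : r ≤ 1 := by
    have h1 : r * 1 ≤ r * p.natDegree := mul_le_mul_of_nonneg_left hn1 hr0.le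
    linarith
  have hvol : volume (Metric.closedBall (0 : ℂ) r) ≤ ENNReal.ofReal (Real.pi * r ^ 2) := by
    rw [Complex.volume_closedBall]
    apply le_of_eq
    rw [mul_comm Real.pi, ENNReal.ofReal_mul (by positivity), ENNReal.ofReal_pow hr0.le]
    congr 1
    exact (ENNReal.ofReal_coe_nnreal (p := NNReal.pi)).symm
  rw [← hr]
  refine (hCSA p (Metric.closedBall 0 r) (Real.pi * r ^ 2) hn (by positivity)
    measurableSet_closedBall (Metric.closedBall_subset_closedBall hr1) hvol).trans ?_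
  rw [show (2 : ℝ) = Real.sqrt (2 ^ 2) by rw [Real.sqrt_sq two_pos.le]]
  apply Real.sqrt_le_sqrt
  have h1 : p.natDegree * r ^ 2 ≤ 1 / 4 := by
    have h2 : p.natDegree * r ^ 2 = Real.exp (-1) * r := by rw [← hrn]; ring
    have h3 : r ≤ Real.exp (-1) := by
      rw [← hrn]
      nlinarith
    rw [h2]
    have h4 := Real.exp_pos (-1)
    nlinarith
  have hpi : Real.pi ^ 2 ≤ 16 := by
    have h2 := Real.pi_le_four
    have h3 := Real.pi_pos
    nlinarith
  have h5 : (p.natDegree : ℝ) * Real.pi * (Real.pi * r ^ 2) = Real.pi ^ 2 * (p.natDegree * r ^ 2) := by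
    ring
  rw [h5]
  have h6 : 0 ≤ (p.natDegree : ℝ) * r ^ 2 := by positivity
  calc Real.pi ^ 2 * (p.natDegree * r ^ 2) ≤ 16 * (p.natDegree * r ^ 2) :=
        mul_le_mul_of_nonneg_right hpi h6
    _ ≤ 16 * (1 / 4) := by linarith
    _ = 2 ^ 2 := by norm_num

end Pool.Agent.Lib.MP684ec1.NB
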