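import Pool.Agent.Lib.MP_684ec1_an.NB.Spec

/-!
# MP_684ec1, module JEN: the mean of log (1 + |p|^2) on the circle and the coefficients
-/

set_option autoImplicit false

namespace Pool.Agent.Lib.MP684ec1.NB

open Complex Polynomial MeasureTheory intervalIntegral
open Pool.Agent.Lib.MP684ec1.HP

noncomputable section

namespace JENM

lemma lp_zero (θ : ℝ) : lp 0 θ = circleMap 0 1 θ := by
  simp [lp, circleMap]

lemma cont_lp : Continuous (fun θ : ℝ => lp 0 θ) := by
  unfold lp
  fun_prop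

lemma cont_sq (p : ℂ[X]) : Continuous (fun θ : ℝ => ‖p.eval (lp 0 θ)‖ ^ 2) :=
  ((p.continuous.comp cont_lp).norm).pow 2

lemma parseval (p : ℂ[X]) : ∫ θ in (0 : ℝ)..(2 * Real.pi), ‖p.eval (lp 0 θ)‖ ^ 2 =
    2 * Real.pi * ∑ k ∈ p.support, ‖p.coeff k‖ ^ 2 := by
  have h := p.sum_sq_norm_coeff_eq_circleAverage
  rw [h, Real.circleAverage_def, smul_eq_mul, ← mul_assoc,
    mul_inv_cancel₀ (by positivity : (2 * Real.pi : ℝ) ≠ 0), one_mul]
  apply intervalIntegral.integral_congr
  intro θ _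
  simp only [lp_zero]

end JENM

open JENM in
theorem specJEN : SpecJEN := by
  intro p
  set c : ℝ := ∑ k ∈ p.support, ‖p.coeff k‖ ^ 2 with hc
  have hc0 : 0 ≤ c := Finset.sum_nonneg fun _ _ => by positivity
  have hpi : (0 : ℝ) ≤ 2 * Real.pi := by positivity
  have hcont : Continuous (fun θ : ℝ => Real.log (1 + ‖p.eval (lp 0 θ)‖ ^ 2) / 2) := by
    refine Continuous.div_const (Continuous.log (continuous_const.add (cont_sq p)) ?_) 2
    intro θ
    have : 0 ≤ ‖p.eval (lp 0 θ)‖ ^ 2 := by positivity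
    exact (by linarith : (0 : ℝ) < 1 + ‖p.eval (lp 0 θ)‖ ^ 2).ne'
  have hcont2 : Continuous (fun θ : ℝ => (Real.log (1 + c) +
      (‖p.eval (lp 0 θ)‖ ^ 2 - c) / (1 + c)) / 2) :=
    (continuous_const.add (((cont_sq p).sub continuous_const).div_const _)).div_const _
  have hle : UU p 0 ≤ ∫ θ in (0 : ℝ)..(2 * Real.pi), (Real.log (1 + c) +
      (‖p.eval (lp 0 θ)‖ ^ 2 - c) / (1 + c)) / 2 := by
    unfold UU
    apply intervalIntegral.integral_mono_on hpi (hcont.intervalIntegrable _ _)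
      (hcont2.intervalIntegrable _ _)
    intro θ _
    have ht : 0 ≤ ‖p.eval (lp 0 θ)‖ ^ 2 := by positivity
    set t : ℝ := ‖p.eval (lp 0 θ)‖ ^ 2 with htd
    have h1 : 0 < 1 + c := by linarith
    have h2 : 0 < 1 + t := by linarith
    have h3 := Real.log_le_sub_one_of_pos (div_pos h2 h1)
    rw [Real.log_div h2.ne' h1.ne'] at h3
    have h4 : (1 + t) / (1 + c) - 1 = (t - c) / (1 + c) := by
      field_simp
      ring
    rw [h4] at h3
    linarith
  refine hle.trans (le_of_eq ?_)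
  have hpar := parseval p
  have i1 : IntervalIntegrable (fun θ : ℝ => ‖p.eval (lp 0 θ)‖ ^ 2) volume 0 (2 * Real.pi) :=
    (cont_sq p).intervalIntegrable _ _
  have i2 : IntervalIntegrable (fun _ : ℝ => c) volume 0 (2 * Real.pi) :=
    continuous_const.intervalIntegrable _ _
  have i3 : IntervalIntegrable (fun θ : ℝ => (‖p.eval (lp 0 θ)‖ ^ 2 - c) / (1 + c)) volume 0
      (2 * Real.pi) := (i1.sub i2).div_const _
  have i4 : IntervalIntegrable (fun _ : ℝ => Real.log (1 + c)) volume 0 (2 * Real.pi) :=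
    continuous_const.intervalIntegrable _ _
  have e1 : ∫ θ in (0 : ℝ)..(2 * Real.pi), (‖p.eval (lp 0 θ)‖ ^ 2 - c) / (1 + c) = 0 := by
    rw [intervalIntegral.integral_div, intervalIntegral.integral_sub i1 i2, hpar,
      intervalIntegral.integral_const, ← hc]
    simp
  rw [intervalIntegral.integral_div, intervalIntegral.integral_add i4 i3, e1,
    intervalIntegral.integral_const]
  simp only [smul_eq_mul, sub_zero]
  ring

end

end Pool.Agent.Lib.MP684ec1.NB
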