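import Pool.Agent.Lib.MP_684ec1_an.NB.Spec

/-!
# MP_684ec1, module LOW: the lower bound on a circle
-/

set_option autoImplicit false

namespace Pool.Agent.Lib.MP684ec1.NB

open Complex Polynomial MeasureTheory intervalIntegral
open Pool.Agent.Lib.MP684ec1.HP

namespace LOWM

lemma l1 (u μ : ℝ) (hu : 0 ≤ u) (hμ : 0 < μ) : u ^ 2 / μ - 4 / 27 * u ^ 4 / μ ^ 3 ≤ u := by
  set v := u / μ with hv
  have hv0 : 0 ≤ v := div_nonneg hu hμ.le
  have h1 : u = v * μ := by rw [hv]; field_simp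
  have h2 : u ^ 2 / μ = v ^ 2 * μ := by rw [h1]; field_simp
  have h3 : 4 / 27 * u ^ 4 / μ ^ 3 = 4 / 27 * v ^ 4 * μ := by rw [h1]; field_simp
  rw [h2, h3, h1]
  have h4 : 0 ≤ μ * (v * (v + 3) * (2 * v - 3) ^ 2) := by positivity
  have h5 : μ * (v * (v + 3) * (2 * v - 3) ^ 2) =
      27 * (v * μ - (v ^ 2 * μ - 4 / 27 * v ^ 4 * μ)) := by ring
  rw [h5] at h4
  linarith

lemma l2 (q t : ℝ) (hq : 0 ≤ q) : 5 / 9 * q - 1 / 9 * (q * t ^ 2) ≤ q / (1 + t ^ 2) := by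
  rw [le_div_iff₀ (by positivity)]
  have h4 : 0 ≤ q * (t ^ 2 - 2) ^ 2 := by positivity
  have h5 : q * (t ^ 2 - 2) ^ 2 = 9 * (q - (5 / 9 * q - 1 / 9 * (q * t ^ 2)) * (1 + t ^ 2)) := by
    ring
  rw [h5] at h4
  linarith

lemma l3 (q t κ : ℝ) (hκ : 0 < κ) : q * t ^ 2 ≤ q ^ 2 / (2 * κ) + κ * t ^ 4 / 2 := by
  have h1 : 0 ≤ (q - κ * t ^ 2) ^ 2 / (2 * κ) := by positivity
  have h2 : (q - κ * t ^ 2) ^ 2 / (2 * κ) = q ^ 2 / (2 * κ) + κ * t ^ 4 / 2 - q * t ^ 2 := by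
    field_simp
    ring
  rw [h2] at h1
  linarith

lemma pw (q t μ κ : ℝ) (hq : 0 ≤ q) (hμ : 0 < μ) (hκ : 0 < κ) :
    (5 / (9 * μ) - 1 / (18 * κ)) * q ^ 2 - 20 / (243 * μ ^ 3) * q ^ 4 - κ / 18 * t ^ 4 ≤
      q / (1 + t ^ 2) := by
  have h1 := l1 q μ hq hμ
  have h2 := l2 q t hq
  have h3 := l3 q t κ hκ
  have h4 : (5 / (9 * μ) - 1 / (18 * κ)) * q ^ 2 - 20 / (243 * μ ^ 3) * q ^ 4 - κ / 18 * t ^ 4 =
      5 / 9 * (q ^ 2 / μ - 4 / 27 * q ^ 4 / μ ^ 3) -
        1 / 9 * (q ^ 2 / (2 * κ) + κ * t ^ 4 / 2) := by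
    field_simp
    ring
  rw [h4]
  linarith

end LOWM

open LOWM in
theorem specLOW : SpecLOW := by
  intro P Q s hP hQ hs h1 h2 h3
  have h2π : (0 : ℝ) ≤ 2 * Real.pi := by positivity
  have hden : ∀ θ : ℝ, 1 + ‖P θ‖ ^ 2 ≠ 0 := fun θ => by positivity
  have hcont : Continuous fun θ => ‖Q θ‖ / (1 + ‖P θ‖ ^ 2) :=
    hQ.norm.div (continuous_const.add (hP.norm.pow 2)) hden
  rcases hs.eq_or_lt with h0 | hs0
  · rw [← h0, mul_zero, zero_div]
    exact intervalIntegral.integral_nonneg h2π fun θ _ => by positivity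
  · set r := Real.sqrt 2 with hr
    have hr2 : r ^ 2 = 2 := Real.sq_sqrt (by norm_num)
    have hr0 : 0 < r := Real.sqrt_pos.2 (by norm_num)
    set μ : ℝ := 2 * r / 3 * s with hμd
    set κ : ℝ := r / 2 * s with hκd
    have hμ : 0 < μ := by positivity
    have hκ : 0 < κ := by positivity
    have hc2 : Continuous fun θ => ‖Q θ‖ ^ 2 := hQ.norm.pow 2
    have hc4 : Continuous fun θ => ‖Q θ‖ ^ 4 := hQ.norm.pow 4
    have hcP : Continuous fun θ => ‖P θ‖ ^ 4 := hP.norm.pow 4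
    set A : ℝ := 5 / (9 * μ) - 1 / (18 * κ) with hA
    set B : ℝ := 20 / (243 * μ ^ 3) with hB
    set C : ℝ := κ / 18 with hC
    have hB0 : 0 ≤ B := by positivity
    have hC0 : 0 ≤ C := by positivity
    have hmono : ∫ θ in (0 : ℝ)..(2 * Real.pi), (A * ‖Q θ‖ ^ 2 - B * ‖Q θ‖ ^ 4 - C * ‖P θ‖ ^ 4) ≤
        ∫ θ in (0 : ℝ)..(2 * Real.pi), ‖Q θ‖ / (1 + ‖P θ‖ ^ 2) := by
      refine intervalIntegral.integral_mono_on h2π ?_ (hcont.intervalIntegrable _ _) ?_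
      · exact (((hc2.const_mul A).sub (hc4.const_mul B)).sub (hcP.const_mul C)).intervalIntegrable
          _ _
      · intro θ _
        exact pw ‖Q θ‖ ‖P θ‖ μ κ (norm_nonneg _) hμ hκ
    have heq : ∫ θ in (0 : ℝ)..(2 * Real.pi), (A * ‖Q θ‖ ^ 2 - B * ‖Q θ‖ ^ 4 - C * ‖P θ‖ ^ 4) =
        A * (∫ θ in (0 : ℝ)..(2 * Real.pi), ‖Q θ‖ ^ 2) -
          B * (∫ θ in (0 : ℝ)..(2 * Real.pi), ‖Q θ‖ ^ 4) -
          C * (∫ θ in (0 : ℝ)..(2 * Real.pi), ‖P θ‖ ^ 4) := by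
      rw [intervalIntegral.integral_sub, intervalIntegral.integral_sub,
        intervalIntegral.integral_const_mul, intervalIntegral.integral_const_mul,
        intervalIntegral.integral_const_mul]
      · exact (hc2.const_mul A).intervalIntegrable _ _
      · exact (hc4.const_mul B).intervalIntegrable _ _
      · exact ((hc2.const_mul A).sub (hc4.const_mul B)).intervalIntegrable _ _
      · exact (hcP.const_mul C).intervalIntegrable _ _
    rw [heq, h2] at hmono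
    have e1 := mul_le_mul_of_nonneg_left h3 hB0
    have e2 := mul_le_mul_of_nonneg_left h1 hC0
    -- the numbers
    have e3 : A * (2 * Real.pi * s ^ 2) - B * (4 * Real.pi * s ^ 4) - C * (4 * Real.pi) =
        2 * Real.pi * s * (r / 6) := by
      have f1 : A * (2 * Real.pi * s ^ 2) = 2 * Real.pi * s * (5 / (6 * r) - 1 / (9 * r)) := by
        rw [hA, hμd, hκd]
        field_simp
        ring
      have f2 : B * (4 * Real.pi * s ^ 4) = 2 * Real.pi * s * (5 / (9 * r * r ^ 2)) := by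
        rw [hB, hμd]
        field_simp
        ring
      have f3 : C * (4 * Real.pi) = 2 * Real.pi * s * (r / 18) := by
        rw [hC, hκd]
        ring
      rw [f1, f2, f3, hr2]
      have f4 : 1 / r = r / 2 := by
        rw [div_eq_div_iff hr0.ne' (by norm_num)]
        rw [← hr2]
        ring
      have f5 : 5 / (6 * r) - 1 / (9 * r) = (13 / 18) * (1 / r) := by
        field_simp
        ring
      have f6 : 5 / (9 * r * 2) = (5 / 18) * (1 / r) := by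
        field_simp
        ring
      rw [f5, f6, f4]
      ring
    have hr1 : (6 : ℝ) / 5 ≤ r := by
      rw [hr]
      exact Real.le_sqrt_of_sq_le (by norm_num)
    have e4 : 2 * Real.pi * s / 5 ≤ 2 * Real.pi * s * (r / 6) := by
      have h5 : 0 ≤ 2 * Real.pi * s := by positivity
      have h6 := mul_le_mul_of_nonneg_left (show (1 : ℝ) / 5 ≤ r / 6 by linarith) h5
      linarith
    linarith

end Pool.Agent.Lib.MP684ec1.NB

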