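import Pool.Agent.Lib.MP_684ec1_an.NB.SpecM

set_option autoImplicit false

namespace Pool.Agent.Lib.MP684ec1.NB

open Complex Polynomial MeasureTheory intervalIntegral
open Pool.Agent.Lib.MP684ec1.HP
open scoped ComplexConjugate

namespace MDQM

lemma refl_le (a z : ℂ) (ha : 1 ≤ ‖a‖) (hz : 1 ≤ ‖z‖) : ‖z - a‖ ≤ ‖1 - conj a * z‖ := by
  have h1 : ‖1 - conj a * z‖ ^ 2 - ‖z - a‖ ^ 2 = (1 - ‖z‖ ^ 2) * (1 - ‖a‖ ^ 2) := by
    rw [← Complex.normSq_eq_norm_sq, ← Complex.normSq_eq_norm_sq, ← Complex.normSq_eq_norm_sq,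
      ← Complex.normSq_eq_norm_sq, Complex.normSq_apply, Complex.normSq_apply,
      Complex.normSq_apply, Complex.normSq_apply]
    simp only [Complex.sub_re, Complex.sub_im, Complex.mul_re, Complex.mul_im, Complex.one_re,
      Complex.one_im, Complex.conj_re, Complex.conj_im]
    ring
  have h2 : 0 ≤ (1 - ‖z‖ ^ 2) * (1 - ‖a‖ ^ 2) := by
    have h3 : 1 ≤ ‖z‖ ^ 2 := one_le_pow₀ hz
    have h4 : 1 ≤ ‖a‖ ^ 2 := one_le_pow₀ ha
    exact mul_nonneg_of_nonpos_of_nonpos (by linarith) (by linarith)
  exact (sq_le_sq₀ (norm_nonneg _) (norm_nonneg _)).1 (by linarith)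

lemma main (s : Multiset ℂ) : ∃ q : ℂ[X], q ≠ 0 ∧ q.natDegree = s.card ∧
    (∀ z : ℂ, q.eval z = 0 → ‖z‖ ≤ 1) ∧
    ‖q.leadingCoeff‖ = (s.map (fun a => max 1 ‖a‖)).prod ∧
    ∀ z : ℂ, 1 ≤ ‖z‖ → ‖((s.map (fun a => X - C a)).prod).eval z‖ ≤ ‖q.eval z‖ := by
  induction s using Multiset.induction_on with
  | empty => exact ⟨1, one_ne_zero, by simp, by simp, by simp, by simp⟩
  | cons a s ih =>
    obtain ⟨q, hq0, hdeg, hroot, hlc, hle⟩ := ih
    by_cases ha : ‖a‖ ≤ 1
    · refine ⟨(X - C a) * q, mul_ne_zero (X_sub_C_ne_zero a) hq0, ?_, ?_, ?_, ?_⟩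
      · rw [natDegree_mul (X_sub_C_ne_zero a) hq0, natDegree_X_sub_C, hdeg, Multiset.card_cons,
          add_comm]
      · intro z hz
        rw [eval_mul, mul_eq_zero] at hz
        rcases hz with hz | hz
        · have : z = a := by
            simpa [sub_eq_zero] using hz
          rwa [this]
        · exact hroot z hz
      · rw [leadingCoeff_mul, leadingCoeff_X_sub_C, one_mul, hlc, Multiset.map_cons,
          Multiset.prod_cons, max_eq_left ha, one_mul]
      · intro z hz
        rw [Multiset.map_cons, Multiset.prod_cons, eval_mul, eval_mul, norm_mul, norm_mul]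
        gcongr
        exact hle z hz
    · push Not at ha
      have hca : -conj a ≠ 0 := by
        rw [neg_ne_zero]
        intro h
        rw [map_eq_zero] at h
        rw [h, norm_zero] at ha
        linarith
      have hg : (1 - C (conj a) * X : ℂ[X]) = C (-conj a) * X + C 1 := by
        rw [C_neg, C_1]
        ring
      have hgd : (1 - C (conj a) * X : ℂ[X]).natDegree = 1 := by
        rw [hg]
        exact natDegree_linear hca
      have hgl : (1 - C (conj a) * X : ℂ[X]).leadingCoeff = -conj a := by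
        rw [hg]
        exact leadingCoeff_linear hca
      have hg0 : (1 - C (conj a) * X : ℂ[X]) ≠ 0 := by
        intro h
        rw [h, natDegree_zero] at hgd
        exact zero_ne_one hgd
      refine ⟨(1 - C (conj a) * X) * q, mul_ne_zero hg0 hq0, ?_, ?_, ?_, ?_⟩
      · rw [natDegree_mul hg0 hq0, hgd, hdeg, Multiset.card_cons, add_comm]
      · intro z hz
        rw [eval_mul, mul_eq_zero] at hz
        rcases hz with hz | hz
        · have h1 : conj a * z = 1 := by
            simp only [eval_sub, eval_one, eval_mul, eval_C, eval_X] at hz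
            linear_combination -hz
          have h2 : ‖a‖ * ‖z‖ = 1 := by
            have := congrArg norm h1
            rwa [norm_mul, RCLike.norm_conj, norm_one] at this
          by_contra hlt
          push Not at hlt
          nlinarith
        · exact hroot z hz
      · rw [leadingCoeff_mul, hgl, norm_mul, norm_neg, RCLike.norm_conj, hlc, Multiset.map_cons,
          Multiset.prod_cons, max_eq_right ha.le]
      · intro z hz
        rw [Multiset.map_cons, Multiset.prod_cons, eval_mul, eval_mul, norm_mul, norm_mul]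
        refine mul_le_mul ?_ (hle z hz) (norm_nonneg _) (norm_nonneg _)
        simp only [eval_sub, eval_one, eval_mul, eval_C, eval_X]
        exact refl_le a z ha.le hz

end MDQM

open MDQM in
theorem specMDQ : SpecMDQ := by
  intro p hp
  obtain ⟨q, hq0, hdeg, hroot, hlc, hle⟩ := main p.roots
  have hl : p.leadingCoeff ≠ 0 := leadingCoeff_ne_zero.2 hp
  have hcard : p.roots.card = p.natDegree := IsAlgClosed.card_roots_eq_natDegree
  have hfac : C p.leadingCoeff * (p.roots.map (fun a => X - C a)).prod = p :=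
    C_leadingCoeff_mul_prod_multiset_X_sub_C hcard
  refine ⟨C p.leadingCoeff * q, ?_, ?_, ?_, ?_⟩
  · rw [natDegree_C_mul hl, hdeg, hcard]
  · intro z hz
    rw [eval_mul, eval_C, mul_eq_zero] at hz
    exact hroot z (hz.resolve_left hl)
  · rw [leadingCoeff_mul, leadingCoeff_C, norm_mul, hlc,
      mahlerMeasure_eq_leadingCoeff_mul_prod_roots]
  · intro z hz
    have h1 : p.eval z = p.leadingCoeff * ((p.roots.map (fun a => X - C a)).prod).eval z := by
      conv_lhs => rw [← hfac]
      rw [eval_mul, eval_C]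
    rw [h1, eval_mul, eval_C, norm_mul, norm_mul]
    exact mul_le_mul_of_nonneg_left (hle z hz) (norm_nonneg _)

end Pool.Agent.Lib.MP684ec1.NB
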