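import Pool.Agent.Lib.MP_684ec1_an.NB.SpecM

/-!
# MDR: the Mahler measure of the derivative
-/

set_option autoImplicit false

namespace Pool.Agent.Lib.MP684ec1.NB

open Complex Polynomial MeasureTheory intervalIntegral
open Pool.Agent.Lib.MP684ec1.HP

noncomputable section

namespace MDRM

open Filter Set in
/-- the Mahler measure is monotone in the absolute value on the circle -/
lemma mahler_mono {p q : ℂ[X]} (hp : p ≠ 0) (hq : q ≠ 0)
    (h : ∀ z : ℂ, ‖z‖ = 1 → ‖p.eval z‖ ≤ ‖q.eval z‖) : p.mahlerMeasure ≤ q.mahlerMeasure := by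
  rw [mahlerMeasure_def_of_ne_zero hp, mahlerMeasure_def_of_ne_zero hq]
  refine Real.exp_le_exp.2 (mul_le_mul_of_nonneg_left ?_ (by positivity))
  apply intervalIntegral.integral_mono_ae_restrict (by positivity)
    p.intervalIntegrable_mahlerMeasure q.intervalIntegrable_mahlerMeasure
  rw [EventuallyLE, eventually_iff_exists_mem]
  use {x : ℝ | eval (circleMap 0 1 x) p ≠ 0}
  constructor
  · rw [mem_ae_iff, compl_def, Measure.restrict_apply' (by simp)]
    apply (Finite.of_sdiff _ <| finite_singleton (2 * Real.pi)).measure_zero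
    simp only [ne_eq, mem_ofPred_eq, Decidable.not_not, inter_sdiff_assoc, Icc_sdiff_right]
    rw [ofPred_inter_eq_sep]
    apply Finite.of_finite_image (f := circleMap 0 1) ((Multiset.finite_toSet p.roots).subset _)
      <| fun _ h _ k l ↦ injOn_circleMap_of_abs_sub_le' one_ne_zero (by linarith) h.1 k.1 l
    simp [hp]
  · intro x hx
    exact Real.log_le_log (norm_pos_iff.2 hx) (h _ (by simp [circleMap]))

/-- Gauss-Lucas for the closed unit disc -/
lemma gauss {h : ℂ[X]} (hd : 0 < h.natDegree) (hr : ∀ z, h.eval z = 0 → ‖z‖ ≤ 1) :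
    ∀ z, h.derivative.eval z = 0 → ‖z‖ ≤ 1 := by
  intro z hz
  have hd' : 0 < h.degree := natDegree_pos_iff_degree_pos.1 hd
  have h0 : h.derivative ≠ 0 := by
    rw [Ne, derivative_eq_zero]
    omega
  have h1 : z ∈ h.derivative.rootSet ℂ := by
    rw [mem_rootSet, coe_aeval_eq_eval]
    exact ⟨h0, hz⟩
  have h2 := rootSet_derivative_subset_convexHull_rootSet hd' h1
  have h3 : convexHull ℝ (h.rootSet ℂ) ⊆ Metric.closedBall (0 : ℂ) 1 := by
    refine convexHull_min ?_ (convex_closedBall _ _)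
    intro w hw
    rw [mem_rootSet, coe_aeval_eq_eval] at hw
    rw [mem_closedBall_zero_iff]
    exact hr w hw.2
  have h4 := h3 h2
  rwa [mem_closedBall_zero_iff] at h4

/-- comparison of the derivatives outside of the disc -/
lemma compare {p q : ℂ[X]} (hn : 0 < p.natDegree) (hdeg : q.natDegree = p.natDegree)
    (hq : ∀ z : ℂ, q.eval z = 0 → ‖z‖ ≤ 1) (hlc : ‖q.leadingCoeff‖ = p.mahlerMeasure)
    (hpq : ∀ z : ℂ, 1 ≤ ‖z‖ → ‖p.eval z‖ ≤ ‖q.eval z‖) (z : ℂ) (hz : 1 < ‖z‖) :
    ‖p.derivative.eval z‖ ≤ ‖q.derivative.eval z‖ := by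
  have hp : p ≠ 0 := by
    rintro rfl
    simp at hn
  have hM : 0 < p.mahlerMeasure := mahlerMeasure_pos_of_ne_zero hp
  by_contra hlt
  push Not at hlt
  have hp' : p.derivative.eval z ≠ 0 := by
    intro h0
    rw [h0, norm_zero] at hlt
    exact absurd hlt (not_lt.2 (norm_nonneg _))
  set μ : ℂ := q.derivative.eval z / p.derivative.eval z with hμ
  have hμ1 : ‖μ‖ < 1 := by
    rw [hμ, norm_div, div_lt_one (norm_pos_iff.2 hp')]
    exact hlt
  set h : ℂ[X] := q - C μ * p with hh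
  have hcoeff : h.coeff p.natDegree ≠ 0 := by
    rw [hh, coeff_sub, coeff_C_mul]
    intro h0
    have h1 : q.leadingCoeff = μ * p.leadingCoeff := by
      rw [leadingCoeff, hdeg, leadingCoeff]
      exact sub_eq_zero.1 h0
    have h2 : ‖q.leadingCoeff‖ ≤ ‖μ‖ * p.mahlerMeasure := by
      rw [h1, norm_mul]
      exact mul_le_mul_of_nonneg_left (leadingCoeff_le_mahlerMeasure p) (norm_nonneg _)
    rw [hlc] at h2
    nlinarith
  have hd : 0 < h.natDegree := lt_of_lt_of_le hn (le_natDegree_of_ne_zero hcoeff)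
  have hr : ∀ w, h.eval w = 0 → ‖w‖ ≤ 1 := by
    intro w hw
    by_contra hw1
    push Not at hw1
    have h1 : q.eval w ≠ 0 := fun h0 => absurd (hq w h0) (not_le.2 hw1)
    have h2 : q.eval w = μ * p.eval w := by
      rw [hh, eval_sub, eval_mul, eval_C] at hw
      exact sub_eq_zero.1 hw
    have h3 : ‖q.eval w‖ ≤ ‖μ‖ * ‖q.eval w‖ := by
      nth_rewrite 1 [h2]
      rw [norm_mul]
      exact mul_le_mul_of_nonneg_left (hpq w hw1.le) (norm_nonneg _)
    have h4 : 0 < ‖q.eval w‖ := norm_pos_iff.2 h1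
    nlinarith
  have hz0 : h.derivative.eval z = 0 := by
    rw [hh, derivative_sub, derivative_C_mul, eval_sub, eval_mul, eval_C, hμ,
      div_mul_cancel₀ _ hp', sub_self]
  exact absurd (gauss hd hr z hz0) (not_le.2 hz)

/-- by continuity, also on the circle -/
lemma compare' {p q : ℂ[X]}
    (h : ∀ z : ℂ, 1 < ‖z‖ → ‖p.eval z‖ ≤ ‖q.eval z‖) (z : ℂ) (hz : ‖z‖ = 1) :
    ‖p.eval z‖ ≤ ‖q.eval z‖ := by
  set S : Set ℝ := {t : ℝ | ‖p.eval ((t : ℂ) * z)‖ ≤ ‖q.eval ((t : ℂ) * z)‖} with hS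
  have hc1 : Continuous fun t : ℝ => ‖p.eval ((t : ℂ) * z)‖ :=
    (p.continuous.comp (continuous_ofReal.mul continuous_const)).norm
  have hc2 : Continuous fun t : ℝ => ‖q.eval ((t : ℂ) * z)‖ :=
    (q.continuous.comp (continuous_ofReal.mul continuous_const)).norm
  have hcl : IsClosed S := isClosed_le hc1 hc2
  have hsub : Set.Ioi (1 : ℝ) ⊆ S := by
    intro t ht
    refine h _ ?_
    rw [norm_mul, hz, mul_one, Complex.norm_real, Real.norm_eq_abs,
      abs_of_pos (lt_trans one_pos ht)]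
    exact ht
  have h1 : (1 : ℝ) ∈ S := by
    have h2 : closure (Set.Ioi (1 : ℝ)) ⊆ S := closure_minimal hsub hcl
    apply h2
    rw [closure_Ioi]
    exact Set.self_mem_Ici
  have h3 : ‖p.eval (((1 : ℝ) : ℂ) * z)‖ ≤ ‖q.eval (((1 : ℝ) : ℂ) * z)‖ := h1
  rwa [ofReal_one, one_mul] at h3

end MDRM

open MDRM in
/-- **MDR** -/
theorem specMDR (hMDQ : SpecMDQ) : SpecMDR := by
  intro p
  by_cases hn : p.natDegree = 0
  · rw [derivative_of_natDegree_zero hn, mahlerMeasure_zero]
    exact mul_nonneg (Nat.cast_nonneg _) (mahlerMeasure_nonneg p)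
  have hn' : 0 < p.natDegree := Nat.pos_of_ne_zero hn
  have hp : p ≠ 0 := by
    rintro rfl
    simp at hn
  obtain ⟨q, hdeg, hq, hlc, hpq⟩ := hMDQ p hp
  have hp' : p.derivative ≠ 0 := by
    rw [Ne, derivative_eq_zero]
    exact hn
  have hqn : 0 < q.natDegree := by rw [hdeg]; exact hn'
  have hq' : q.derivative ≠ 0 := by
    rw [Ne, derivative_eq_zero]
    omega
  have h1 := mahler_mono hp' hq' (compare' (compare hn' hdeg hq hlc hpq))
  have h2 : q.derivative.mahlerMeasure = p.natDegree * p.mahlerMeasure := by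
    rw [mahlerMeasure_eq_leadingCoeff_mul_prod_roots, Multiset.prod_eq_one, mul_one,
      leadingCoeff_derivative, norm_mul, hlc, hdeg, mul_comm, Complex.norm_natCast]
    intro x hx
    obtain ⟨a, ha, rfl⟩ := Multiset.mem_map.1 hx
    have h3 : ‖a‖ ≤ 1 := gauss hqn hq a ((mem_roots hq').1 ha)
    exact max_eq_left h3
  exact h1.trans h2.le

end

end Pool.Agent.Lib.MP684ec1.NB
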