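import Pool.Agent.Lib.MP_684ec1_an.NB.SpecM

/-!
# MP_684ec1 : module MLG of NB, the mean of the logarithm
-/

set_option autoImplicit false

namespace Pool.Agent.Lib.MP684ec1.NB

open Complex Polynomial MeasureTheory intervalIntegral
open Pool.Agent.Lib.MP684ec1.HP

namespace MLGM

theorem lp_circ (x θ : ℝ) : lp x θ = ((Real.exp x : ℝ) : ℂ) * circleMap 0 1 θ := by
  simp only [lp, circleMap, ofReal_one, one_mul, zero_add, ofReal_exp]
  rw [Complex.exp_add]

end MLGM

open MLGM in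
theorem specMLG (hMTM : SpecMTM) : SpecMLG := by
  intro p x hp
  obtain ⟨q, hq⟩ : ∃ q : ℂ[X], q = p.comp (C ((Real.exp x : ℝ) : ℂ) * X) := ⟨_, rfl⟩
  have hev : ∀ θ : ℝ, q.eval (circleMap 0 1 θ) = p.eval (lp x θ) := by
    intro θ
    rw [hq, lp_circ]
    simp
  have hco : ∀ k : ℕ, q.coeff k = p.coeff k * ((Real.exp x : ℝ) : ℂ) ^ k := by
    intro k
    rw [hq, Polynomial.comp_C_mul_X_coeff]
  have hex : ((Real.exp x : ℝ) : ℂ) ≠ 0 := by
    exact_mod_cast (Real.exp_pos x).ne'
  have hsup : q.support = p.support := by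
    ext k
    rw [Polynomial.mem_support_iff, Polynomial.mem_support_iff, hco]
    constructor
    · intro h
      exact left_ne_zero_of_mul h
    · intro h
      exact mul_ne_zero h (pow_ne_zero _ hex)
  have hq0 : q ≠ 0 := by
    rw [← Polynomial.support_nonempty, hsup, Polynomial.support_nonempty]
    exact hp
  have hnorm : ∀ k : ℕ, ‖q.coeff k‖ = ‖p.coeff k‖ * Real.exp (k * x) := by
    intro k
    rw [hco, norm_mul, norm_pow, Complex.norm_real, Real.norm_eq_abs, abs_of_pos (Real.exp_pos x),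
      ← Real.exp_nat_mul]
  have hfun : (fun θ : ℝ => Real.log ‖p.eval (lp x θ)‖) =
      fun θ => Real.log ‖q.eval (circleMap 0 1 θ)‖ := by
    funext θ
    rw [hev]
  have hm : 0 < p.support.card := by
    rw [Finset.card_pos]
    exact Polynomial.nonempty_support_iff.mpr hp
  obtain ⟨m, hmd⟩ : ∃ m : ℕ, m = p.support.card := ⟨_, rfl⟩
  rw [← hmd] at hm
  have hm1 : (1 : ℝ) ≤ m := by exact_mod_cast hm
  have hMpos : 0 < q.mahlerMeasure := Polynomial.mahlerMeasure_pos_of_ne_zero hq0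
  have hsum : ∑ k ∈ p.support, ‖p.coeff k‖ * Real.exp (k * x) ≤ m * (2 ^ (m - 1) * q.mahlerMeasure) := by
    calc ∑ k ∈ p.support, ‖p.coeff k‖ * Real.exp (k * x)
        ≤ ∑ _k ∈ p.support, 2 ^ (m - 1) * q.mahlerMeasure := by
          apply Finset.sum_le_sum
          intro k _
          rw [← hnorm]
          have h := hMTM q hq0 k
          rw [hsup, ← hmd] at h
          exact h
      _ = m * (2 ^ (m - 1) * q.mahlerMeasure) := by
          rw [Finset.sum_const, nsmul_eq_mul, hmd]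
  have hSpos : 0 < ∑ k ∈ p.support, ‖p.coeff k‖ * Real.exp (k * x) := by
    apply Finset.sum_pos
    · intro k hk
      have : 0 < ‖p.coeff k‖ := norm_pos_iff.mpr (Polynomial.mem_support_iff.mp hk)
      positivity
    · exact Polynomial.nonempty_support_iff.mpr hp
  have hLam : Lam p x ≤ 2 * m + Real.log q.mahlerMeasure := by
    have h1 : Lam p x ≤ Real.log (m * (2 ^ (m - 1) * q.mahlerMeasure)) :=
      Real.log_le_log hSpos hsum
    have h2 : Real.log (m * (2 ^ (m - 1) * q.mahlerMeasure)) =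
        Real.log m + ((m - 1 : ℕ) * Real.log 2 + Real.log q.mahlerMeasure) := by
      rw [Real.log_mul (by positivity) (by positivity), Real.log_mul (by positivity) hMpos.ne',
        Real.log_pow]
    have h3 : Real.log m ≤ m - 1 := Real.log_le_sub_one_of_pos (by linarith)
    have h4 : ((m - 1 : ℕ) : ℝ) = m - 1 := by
      rw [Nat.cast_sub hm]
      simp
    have h5 : Real.log 2 ≤ 1 := by
      have := Real.log_two_lt_d9
      linarith
    have h6 : ((m - 1 : ℕ) : ℝ) * Real.log 2 ≤ m - 1 := by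
      rw [h4]
      nlinarith
    linarith
  have hlogM : Real.log q.mahlerMeasure =
      (2 * Real.pi)⁻¹ * ∫ θ in (0 : ℝ)..(2 * Real.pi), Real.log ‖q.eval (circleMap 0 1 θ)‖ := by
    rw [Polynomial.mahlerMeasure_def_of_ne_zero hq0, Real.log_exp]
  rw [hfun]
  refine ⟨q.intervalIntegrable_mahlerMeasure, ?_⟩
  rw [← hmd]
  have hpi : 0 < 2 * Real.pi := by
    have := Real.pi_pos
    positivity
  have h7 : Lam p x - 2 * m ≤
      (2 * Real.pi)⁻¹ * ∫ θ in (0 : ℝ)..(2 * Real.pi), Real.log ‖q.eval (circleMap 0 1 θ)‖ := by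
    rw [← hlogM]
    linarith
  calc 2 * Real.pi * (Lam p x - 2 * m) ≤ 2 * Real.pi * ((2 * Real.pi)⁻¹ *
        ∫ θ in (0 : ℝ)..(2 * Real.pi), Real.log ‖q.eval (circleMap 0 1 θ)‖) :=
        mul_le_mul_of_nonneg_left h7 hpi.le
    _ = ∫ θ in (0 : ℝ)..(2 * Real.pi), Real.log ‖q.eval (circleMap 0 1 θ)‖ := by
        rw [← mul_assoc, mul_inv_cancel₀ hpi.ne', one_mul]

end Pool.Agent.Lib.MP684ec1.NB
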