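import Pool.Agent.Lib.MP_684ec1_an.NB.Spec

/-!
# MP_684ec1, NB: module MOM, moments of lacunary sums
-/

set_option autoImplicit false

namespace Pool.Agent.Lib.MP684ec1.NB

open Complex Polynomial MeasureTheory intervalIntegral
open Pool.Agent.Lib.MP684ec1.HP

namespace MOMM

/-- orthogonality -/
theorem int_e (n m : ℕ) : ∫ θ in (0 : ℝ)..(2 * Real.pi),
    exp ((n : ℂ) * ((θ : ℂ) * I)) * (starRingEnd ℂ) (exp ((m : ℂ) * ((θ : ℂ) * I))) =
      if n = m then ((2 * Real.pi : ℝ) : ℂ) else 0 := by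
  have h1 : ∀ θ : ℝ, exp ((n : ℂ) * ((θ : ℂ) * I)) *
      (starRingEnd ℂ) (exp ((m : ℂ) * ((θ : ℂ) * I))) =
      exp ((((n : ℂ) - (m : ℂ)) * I) * (θ : ℂ)) := by
    intro θ
    rw [← exp_conj, ← exp_add]
    congr 1
    simp only [map_mul, conj_I, conj_ofReal, map_natCast]
    ring
  simp only [h1]
  split_ifs with h
  · subst h
    simp
  · have hc : (((n : ℂ) - (m : ℂ)) * I) ≠ 0 := by
      apply mul_ne_zero _ I_ne_zero
      rw [sub_ne_zero]
      exact_mod_cast h
    rw [integral_exp_mul_complex hc]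
    have h2 : exp ((((n : ℂ) - (m : ℂ)) * I) * ((2 * Real.pi : ℝ) : ℂ)) = 1 := by
      have h3 : (((n : ℂ) - (m : ℂ)) * I) * ((2 * Real.pi : ℝ) : ℂ) =
          (((n : ℤ) - (m : ℤ) : ℤ) : ℂ) * (2 * (Real.pi : ℂ) * I) := by
        push_cast
        ring
      rw [h3]
      exact exp_int_mul_two_pi_mul_I _
    rw [h2]
    simp

theorem parseval {ι : Type} (s : Finset ι) (n : ι → ℕ) (b : ι → ℂ) :
    (∫ θ in (0 : ℝ)..(2 * Real.pi), ‖∑ i ∈ s, b i * exp ((n i : ℂ) * ((θ : ℂ) * I))‖ ^ 2) =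
      ∑ i ∈ s, ∑ j ∈ s, if n i = n j then 2 * Real.pi * (b i * (starRingEnd ℂ) (b j)).re
        else 0 := by
  have hcont : ∀ k : ℕ, Continuous fun θ : ℝ => exp ((k : ℂ) * ((θ : ℂ) * I)) := by
    intro k
    fun_prop
  have h1 : ∀ θ : ℝ, (((‖∑ i ∈ s, b i * exp ((n i : ℂ) * ((θ : ℂ) * I))‖ ^ 2 : ℝ)) : ℂ) =
      ∑ i ∈ s, ∑ j ∈ s, (b i * (starRingEnd ℂ) (b j)) *
        (exp ((n i : ℂ) * ((θ : ℂ) * I)) *
          (starRingEnd ℂ) (exp ((n j : ℂ) * ((θ : ℂ) * I)))) := by
    intro θ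
    rw [ofReal_pow, ← mul_conj', map_sum, Finset.sum_mul_sum]
    apply Finset.sum_congr rfl
    intro i _
    apply Finset.sum_congr rfl
    intro j _
    rw [map_mul]
    ring
  have h2 : ((∫ θ in (0 : ℝ)..(2 * Real.pi),
      ‖∑ i ∈ s, b i * exp ((n i : ℂ) * ((θ : ℂ) * I))‖ ^ 2 : ℝ) : ℂ) =
      ∑ i ∈ s, ∑ j ∈ s, (b i * (starRingEnd ℂ) (b j)) *
        (if n i = n j then ((2 * Real.pi : ℝ) : ℂ) else 0) := by
    rw [← intervalIntegral.integral_ofReal]
    simp only [h1]
    rw [intervalIntegral.integral_finsetSum]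
    · apply Finset.sum_congr rfl
      intro i _
      rw [intervalIntegral.integral_finsetSum]
      · apply Finset.sum_congr rfl
        intro j _
        rw [intervalIntegral.integral_const_mul, int_e]
      · intro j _
        apply Continuous.intervalIntegrable
        exact continuous_const.mul ((hcont _).mul (continuous_conj.comp (hcont _)))
    · intro i _
      apply Continuous.intervalIntegrable
      exact continuous_finsetSum _ fun j _ =>
        continuous_const.mul ((hcont _).mul (continuous_conj.comp (hcont _)))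
  have h3 := congrArg Complex.re h2
  rw [ofReal_re] at h3
  rw [h3, re_sum]
  apply Finset.sum_congr rfl
  intro i _
  rw [re_sum]
  apply Finset.sum_congr rfl
  intro j _
  split_ifs
  · rw [re_mul_ofReal]
    ring
  · simp

theorem sid1 {i j k l : ℕ} (hij : i ≤ j) (hkl : k ≤ l)
    (h : 4 ^ (i + 1) + 4 ^ (j + 1) = 4 ^ (k + 1) + 4 ^ (l + 1)) : i = k ∧ j = l := by
  have key : ∀ {a b c d : ℕ}, a ≤ b → b < d →
      4 ^ (a + 1) + 4 ^ (b + 1) ≠ 4 ^ (c + 1) + 4 ^ (d + 1) := by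
    intro a b c d hab hbd he
    have h1 : 4 ^ (a + 1) ≤ 4 ^ (b + 1) := Nat.pow_le_pow_right (by norm_num) (by omega)
    have h2 : 4 ^ (b + 1 + 1) ≤ 4 ^ (d + 1) := Nat.pow_le_pow_right (by norm_num) (by omega)
    have h3 : 4 ^ (b + 1 + 1) = 4 * 4 ^ (b + 1) := by ring
    have h4 : 0 < 4 ^ (b + 1) := by positivity
    have h5 : 0 < 4 ^ (c + 1) := by positivity
    omega
  have hjl : j = l := by
    rcases lt_trichotomy j l with h1 | h1 | h1
    · exact absurd h (key hij h1)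
    · exact h1
    · exact absurd h.symm (key hkl h1)
  subst hjl
  have h5 : 4 ^ (i + 1) = 4 ^ (k + 1) := by omega
  have h6 := Nat.pow_right_injective (le_refl 2 |>.trans (by norm_num : 2 ≤ 4)) h5
  exact ⟨by omega, rfl⟩

theorem sid {i j k l : ℕ} (h : 4 ^ (i + 1) + 4 ^ (j + 1) = 4 ^ (k + 1) + 4 ^ (l + 1)) :
    (i = k ∧ j = l) ∨ (i = l ∧ j = k) := by
  rcases le_total i j with hij | hij <;> rcases le_total k l with hkl | hkl
  · exact Or.inl (sid1 hij hkl h)
  · exact Or.inr (sid1 hij hkl (by omega))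
  · have := sid1 hij hkl (by omega)
    exact Or.inr ⟨this.2, this.1⟩
  · have := sid1 hij hkl (by omega)
    exact Or.inl ⟨this.2, this.1⟩

end MOMM

open MOMM in
theorem specMOM : SpecMOM := by
  classical
  intro m c
  constructor
  · rw [parseval (Finset.range m) (fun j => 4 ^ (j + 1)) c, Finset.mul_sum]
    apply Finset.sum_congr rfl
    intro i hi
    rw [Finset.sum_eq_single i]
    · rw [if_pos rfl, mul_conj, ofReal_re, normSq_eq_norm_sq]
    · intro j _ hji
      rw [if_neg]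
      intro h
      have h6 := Nat.pow_right_injective (le_refl 2 |>.trans (by norm_num : 2 ≤ 4)) h
      omega
    · intro h
      exact absurd hi h
  · have h1 : ∀ θ : ℝ, ‖∑ j ∈ Finset.range m,
        c j * exp (((4 ^ (j + 1) : ℕ) : ℂ) * ((θ : ℂ) * I))‖ ^ 4 =
        ‖∑ p ∈ Finset.range m ×ˢ Finset.range m,
          (c p.1 * c p.2) * exp (((4 ^ (p.1 + 1) + 4 ^ (p.2 + 1) : ℕ) : ℂ) *
            ((θ : ℂ) * I))‖ ^ 2 := by
      intro θ
      have h2 : ∑ p ∈ Finset.range m ×ˢ Finset.range m,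
          (c p.1 * c p.2) * exp (((4 ^ (p.1 + 1) + 4 ^ (p.2 + 1) : ℕ) : ℂ) *
            ((θ : ℂ) * I)) = (∑ j ∈ Finset.range m,
        c j * exp (((4 ^ (j + 1) : ℕ) : ℂ) * ((θ : ℂ) * I))) ^ 2 := by
        rw [pow_two, Finset.sum_mul_sum, Finset.sum_product]
        apply Finset.sum_congr rfl
        intro i _
        apply Finset.sum_congr rfl
        intro j _
        rw [Nat.cast_add, add_mul, exp_add]
        ring
      rw [h2, norm_pow]
      ring
    simp only [h1]
    rw [parseval (Finset.range m ×ˢ Finset.range m)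
      (fun p => 4 ^ (p.1 + 1) + 4 ^ (p.2 + 1)) (fun p => c p.1 * c p.2)]
    have h3 : ∀ p ∈ Finset.range m ×ˢ Finset.range m,
        (∑ q ∈ Finset.range m ×ˢ Finset.range m,
          if 4 ^ (p.1 + 1) + 4 ^ (p.2 + 1) = 4 ^ (q.1 + 1) + 4 ^ (q.2 + 1) then
            2 * Real.pi * ((c p.1 * c p.2) * (starRingEnd ℂ) (c q.1 * c q.2)).re else 0) ≤
        4 * Real.pi * (‖c p.1‖ ^ 2 * ‖c p.2‖ ^ 2) := by
      intro p _
      have hnn : 0 ≤ 2 * Real.pi * (‖c p.1‖ ^ 2 * ‖c p.2‖ ^ 2) := by positivity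
      have h4 : ∀ q ∈ Finset.range m ×ˢ Finset.range m,
          (if 4 ^ (p.1 + 1) + 4 ^ (p.2 + 1) = 4 ^ (q.1 + 1) + 4 ^ (q.2 + 1) then
            2 * Real.pi * ((c p.1 * c p.2) * (starRingEnd ℂ) (c q.1 * c q.2)).re else 0) ≤
          if q ∈ ({p, p.swap} : Finset (ℕ × ℕ)) then
            2 * Real.pi * (‖c p.1‖ ^ 2 * ‖c p.2‖ ^ 2) else 0 := by
        intro q _
        split_ifs with ha hb hb
        · have h5 : c q.1 * c q.2 = c p.1 * c p.2 := by
            rcases sid ha with ⟨h6, h7⟩ | ⟨h6, h7⟩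
            · rw [h6, h7]
            · rw [h6, h7, mul_comm]
          rw [h5, mul_conj, ofReal_re, normSq_eq_norm_sq, norm_mul, mul_pow]
        · exfalso
          apply hb
          rw [Finset.mem_insert, Finset.mem_singleton]
          rcases sid ha with ⟨h6, h7⟩ | ⟨h6, h7⟩
          · exact Or.inl (Prod.ext h6.symm h7.symm)
          · exact Or.inr (Prod.ext h7.symm h6.symm)
        · exact hnn
        · exact le_refl _
      refine (Finset.sum_le_sum h4).trans ?_
      rw [← Finset.sum_filter, Finset.sum_const, nsmul_eq_mul]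
      have h8 : ((Finset.range m ×ˢ Finset.range m).filter
          (fun q => q ∈ ({p, p.swap} : Finset (ℕ × ℕ)))).card ≤ 2 := by
        refine (Finset.card_le_card (t := ({p, p.swap} : Finset (ℕ × ℕ))) ?_).trans
          Finset.card_le_two
        intro q hq
        exact (Finset.mem_filter.1 hq).2
      have h9 : (((Finset.range m ×ˢ Finset.range m).filter
          (fun q => q ∈ ({p, p.swap} : Finset (ℕ × ℕ)))).card : ℝ) ≤ 2 := by
        exact_mod_cast h8
      nlinarith [mul_le_mul_of_nonneg_right h9 hnn]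
    refine (Finset.sum_le_sum h3).trans (le_of_eq ?_)
    rw [← Finset.mul_sum, Finset.sum_product, pow_two (∑ j ∈ Finset.range m, ‖c j‖ ^ 2),
      Finset.sum_mul_sum]

end Pool.Agent.Lib.MP684ec1.NB
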