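import Pool.Agent.Lib.MP_684ec1_an.NB.Spec

/-!
# MP_684ec1, module MON: the number of monomials
-/

set_option autoImplicit false

namespace Pool.Agent.Lib.MP684ec1.NB

open Complex Polynomial MeasureTheory intervalIntegral Set
open Pool.Agent.Lib.MP684ec1.HP

namespace MONM

lemma cont_sph (p : ℂ[X]) : Continuous (sph p) := by
  unfold sph
  apply Continuous.div
  · exact (p.derivative.continuous).norm
  · exact continuous_const.add ((p.continuous).norm.pow 2)
  · intro z
    positivity

lemma sph_nonneg (p : ℂ[X]) (z : ℂ) : 0 ≤ sph p z := by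
  unfold sph
  positivity

lemma cont_pt : Continuous (fun q : ℝ × ℝ => pt q.1 q.2) := by
  unfold pt
  fun_prop

end MONM

open MONM in
theorem specMON (hRAY : SpecRAY) (hPLD : SpecPLD) : SpecMON := by
  intro p
  have hc := cont_sph p
  have hf : Continuous (fun q : ℝ × ℝ => sph p (pt q.2 q.1)) :=
    hc.comp (cont_pt.comp (continuous_snd.prodMk continuous_fst))
  rw [hPLD _ hc]
  have h1 : ∀ φ : ℝ, ∫ r in (0 : ℝ)..1, r * sph p (pt r φ) ≤ Real.pi ^ 2 / 2 * p.support.card := by
    intro φ
    have hcφ : Continuous (fun r : ℝ => sph p (pt r φ)) :=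
      hf.comp (continuous_const.prodMk continuous_id)
    refine le_trans ?_ (hRAY p φ)
    apply intervalIntegral.integral_mono_on (by norm_num)
    · exact (continuous_id.mul hcφ).intervalIntegrable _ _
    · exact hcφ.intervalIntegrable _ _
    · intro r hr
      have := sph_nonneg p (pt r φ)
      nlinarith [hr.1, hr.2]
  have hg : Continuous (fun φ : ℝ => ∫ r in (0 : ℝ)..1, r * sph p (pt r φ)) := by
    apply intervalIntegral.continuous_parametric_intervalIntegral_of_continuous' (μ := volume)
    exact continuous_snd.mul hf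
  have h2 : ∫ φ in (0 : ℝ)..(2 * Real.pi), ∫ r in (0 : ℝ)..1, r * sph p (pt r φ) ≤
      ∫ φ in (0 : ℝ)..(2 * Real.pi), Real.pi ^ 2 / 2 * (p.support.card : ℝ) := by
    apply intervalIntegral.integral_mono_on (by positivity)
    · exact hg.intervalIntegrable _ _
    · exact continuous_const.intervalIntegrable _ _
    · intro φ _
      exact h1 φ
  refine h2.trans (le_of_eq ?_)
  rw [intervalIntegral.integral_const, smul_eq_mul]
  ring

end Pool.Agent.Lib.MP684ec1.NB
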