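import Pool.Agent.Lib.MP_684ec1_an.NB.SpecM

/-!
# MP_684ec1 : module MTM of NB, coefficients and the Mahler measure
-/

set_option autoImplicit false

namespace Pool.Agent.Lib.MP684ec1.NB

open Complex Polynomial MeasureTheory intervalIntegral
open Pool.Agent.Lib.MP684ec1.HP

namespace MTMM

theorem mahler_X : (X : ℂ[X]).mahlerMeasure = 1 := by
  have h := Polynomial.mahlerMeasure_X_sub_C 0
  simp only [map_zero, sub_zero, norm_zero] at h
  rw [h]
  simp

theorem rev_eval (p : ℂ[X]) (w : ℂ) (hw : ‖w‖ = 1) : ‖p.reverse.eval w⁻¹‖ = ‖p.eval w‖ := by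
  have hw0 : w ≠ 0 := by
    rintro rfl
    simp at hw
  let _ : Invertible w := invertibleOfNonzero hw0
  have h := Polynomial.eval₂_reverse_mul_pow (RingHom.id ℂ) w p
  rw [invOf_eq_inv] at h
  rw [Polynomial.eval₂_id, Polynomial.eval₂_id] at h
  rw [← h, norm_mul, norm_pow, hw, one_pow, mul_one]

theorem circ_neg (x : ℝ) : circleMap 0 1 x = (circleMap 0 1 (-x))⁻¹ := by
  simp only [circleMap, ofReal_one, one_mul, zero_add, ofReal_neg, neg_mul, Complex.exp_neg, inv_inv]

theorem circ_norm (x : ℝ) : ‖circleMap 0 1 x‖ = 1 := by
  simp [circleMap, Complex.norm_exp]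

theorem mahler_rev (p : ℂ[X]) (hp : p ≠ 0) : p.reverse.mahlerMeasure = p.mahlerMeasure := by
  have hr : p.reverse ≠ 0 := by
    rw [Ne, Polynomial.reverse_eq_zero]
    exact hp
  rw [Polynomial.mahlerMeasure_def_of_ne_zero hp, Polynomial.mahlerMeasure_def_of_ne_zero hr]
  have key : ∫ x in (0 : ℝ)..(2 * Real.pi), Real.log ‖p.reverse.eval (circleMap 0 1 x)‖ =
      ∫ x in (0 : ℝ)..(2 * Real.pi), Real.log ‖p.eval (circleMap 0 1 x)‖ := by
    obtain ⟨g, hg⟩ : ∃ g : ℝ → ℝ, ∀ x, g x = Real.log ‖p.eval (circleMap 0 1 x)‖ :=
      ⟨fun x => Real.log ‖p.eval (circleMap 0 1 x)‖, fun x => rfl⟩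
    have h1 : ∀ x : ℝ, Real.log ‖p.reverse.eval (circleMap 0 1 x)‖ = g (-x) := by
      intro x
      rw [hg, circ_neg x, rev_eval p _ (circ_norm _)]
    have hper : Function.Periodic g (2 * Real.pi) := by
      intro x
      rw [hg, hg, periodic_circleMap 0 1 x]
    simp only [h1, ← hg]
    rw [intervalIntegral.integral_comp_neg]
    have h2 := hper.intervalIntegral_add_eq (-(2 * Real.pi)) 0
    rw [neg_add_cancel, zero_add] at h2
    rw [neg_zero]
    exact h2
  rw [key]

theorem card_der (r : ℂ[X]) (h0 : r.coeff 0 ≠ 0) (m : ℕ) (hc : r.support.card ≤ m + 1) :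
    r.derivative.support.card ≤ m := by
  have hsub : r.derivative.support ⊆ (r.support.erase 0).image (fun i => i - 1) := by
    intro j hj
    rw [Polynomial.mem_support_iff, Polynomial.coeff_derivative] at hj
    rw [Finset.mem_image]
    refine ⟨j + 1, ?_, by simp⟩
    rw [Finset.mem_erase]
    refine ⟨Nat.succ_ne_zero j, ?_⟩
    rw [Polynomial.mem_support_iff]
    exact left_ne_zero_of_mul hj
  have h1 := (Finset.card_le_card hsub).trans Finset.card_image_le
  have h2 : 0 ∈ r.support := Polynomial.mem_support_iff.mpr h0
  rw [Finset.card_erase_of_mem h2] at h1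
  omega

/-- one step by the derivative -/
theorem step (hMDR : SpecMDR) (m : ℕ)
    (IH : ∀ p : ℂ[X], p ≠ 0 → p.support.card ≤ m + 1 → ∀ k, ‖p.coeff k‖ ≤ 2 ^ m * p.mahlerMeasure)
    (r : ℂ[X]) (h0 : r.coeff 0 ≠ 0) (hc : r.support.card ≤ m + 2) (j : ℕ) (hj1 : 1 ≤ j)
    (hj : r.natDegree ≤ 2 * j) (hcj : r.coeff j ≠ 0) :
    ‖r.coeff j‖ ≤ 2 ^ (m + 1) * r.mahlerMeasure := by
  have hcard := card_der r h0 (m + 1) hc
  have hco : r.derivative.coeff (j - 1) = r.coeff j * j := by
    rw [Polynomial.coeff_derivative, Nat.sub_add_cancel hj1]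
    have : ((j - 1 : ℕ) : ℂ) + 1 = j := by
      rw [← Nat.cast_succ, Nat.succ_eq_add_one, Nat.sub_add_cancel hj1]
    rw [this]
  have hjc : (j : ℂ) ≠ 0 := by
    exact_mod_cast (show j ≠ 0 by omega)
  have hne : r.derivative ≠ 0 := by
    intro h
    rw [h, Polynomial.coeff_zero] at hco
    exact mul_ne_zero hcj hjc hco.symm
  have h1 := IH r.derivative hne hcard (j - 1)
  rw [hco, norm_mul, Complex.norm_natCast] at h1
  have h2 := hMDR r
  have hM := r.mahlerMeasure_nonneg
  have h3 : (r.natDegree : ℝ) ≤ 2 * j := by exact_mod_cast hj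
  have hjpos : (0 : ℝ) < j := by exact_mod_cast (show 0 < j by omega)
  have h4 : ‖r.coeff j‖ * j ≤ (2 ^ (m + 1) * r.mahlerMeasure) * j := by
    calc ‖r.coeff j‖ * j ≤ 2 ^ m * r.derivative.mahlerMeasure := h1
      _ ≤ 2 ^ m * (r.natDegree * r.mahlerMeasure) := mul_le_mul_of_nonneg_left h2 (by positivity)
      _ ≤ 2 ^ m * ((2 * j) * r.mahlerMeasure) := by
          apply mul_le_mul_of_nonneg_left _ (by positivity)
          exact mul_le_mul_of_nonneg_right h3 hM
      _ = (2 ^ (m + 1) * r.mahlerMeasure) * j := by ring
  exact le_of_mul_le_mul_right h4 hjpos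

theorem main (hMDR : SpecMDR) (m : ℕ) : ∀ p : ℂ[X], p ≠ 0 → p.support.card ≤ m + 1 →
    ∀ k, ‖p.coeff k‖ ≤ 2 ^ m * p.mahlerMeasure := by
  induction m with
  | zero =>
    intro p hp hc k
    have h1 : p.support.card = 1 := by
      have : 0 < p.support.card := by
        rw [Finset.card_pos]
        exact Polynomial.nonempty_support_iff.mpr hp
      omega
    obtain ⟨j, a, ha, rfl⟩ := Polynomial.card_support_eq_one.mp h1
    have h2 : (C a * X ^ j : ℂ[X]).mahlerMeasure = ‖a‖ := by
      rw [Polynomial.mahlerMeasure_mul, Polynomial.mahlerMeasure_const]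
      have : (X ^ j : ℂ[X]).mahlerMeasure = 1 := by
        induction j with
        | zero => simp
        | succ j ih =>
          rw [pow_succ, Polynomial.mahlerMeasure_mul, mahler_X, mul_one]
          apply ih
          · exact mul_ne_zero (C_ne_zero.mpr ha) (pow_ne_zero _ X_ne_zero)
          · rw [Polynomial.card_support_eq_one.mpr ⟨j, a, ha, rfl⟩]
          · rw [Polynomial.card_support_eq_one.mpr ⟨j, a, ha, rfl⟩]
      rw [this, mul_one]
    rw [h2, Polynomial.coeff_C_mul, Polynomial.coeff_X_pow, pow_zero, one_mul]
    split_ifs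
    · rw [mul_one]
    · rw [mul_zero, norm_zero]
      exact norm_nonneg a
  | succ m IH =>
    -- strong statement by the degree
    have key : ∀ N : ℕ, ∀ p : ℂ[X], p ≠ 0 → p.support.card ≤ m + 2 → p.natDegree ≤ N →
        ∀ k, ‖p.coeff k‖ ≤ 2 ^ (m + 1) * p.mahlerMeasure := by
      intro N
      induction N with
      | zero =>
        intro p hp _ hN k
        have h1 : p = C (p.coeff 0) := Polynomial.eq_C_of_natDegree_le_zero hN
        have h2 : p.mahlerMeasure = ‖p.coeff 0‖ := by
          conv_lhs => rw [h1]
          exact Polynomial.mahlerMeasure_const _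
        have h3 : ‖p.coeff k‖ ≤ ‖p.coeff 0‖ := by
          rcases Nat.eq_zero_or_pos k with h | h
          · rw [h]
          · rw [Polynomial.coeff_eq_zero_of_natDegree_lt (by omega), norm_zero]
            exact norm_nonneg _
        rw [h2]
        have h4 : (1 : ℝ) ≤ 2 ^ (m + 1) := one_le_pow₀ (by norm_num)
        nlinarith [norm_nonneg (p.coeff 0)]
      | succ N IHN =>
        intro p hp hc hN k
        have hM := p.mahlerMeasure_nonneg
        by_cases hck : p.coeff k = 0
        · rw [hck, norm_zero]
          positivity
        by_cases h0 : p.coeff 0 = 0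
        · -- divide by X
          have hdiv : p.divX * X = p := by
            have := Polynomial.divX_mul_X_add p
            rw [h0, map_zero, add_zero] at this
            exact this
          have hk : k ≠ 0 := by
            rintro rfl
            exact hck h0
          obtain ⟨j, rfl⟩ := Nat.exists_eq_succ_of_ne_zero hk
          have hq : p.divX ≠ 0 := by
            intro h
            rw [h, zero_mul] at hdiv
            exact hp hdiv.symm
          have hqc : p.divX.support.card ≤ m + 2 := by
            refine le_trans ?_ hc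
            apply Finset.card_le_card_of_injOn (fun i => i + 1)
            · intro i hi
              simp only [Finset.mem_coe, Polynomial.mem_support_iff, Polynomial.coeff_divX] at hi ⊢
              exact hi
            · intro a _ b _ hab
              simpa using hab
          have hqd : p.divX.natDegree ≤ N := by
            rw [Polynomial.natDegree_divX_eq_natDegree_tsub_one]
            omega
          have h1 := IHN p.divX hq hqc hqd j
          rw [Polynomial.coeff_divX] at h1
          have h2 : p.mahlerMeasure = p.divX.mahlerMeasure := by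
            conv_lhs => rw [← hdiv]
            rw [Polynomial.mahlerMeasure_mul, mahler_X, mul_one]
          rw [h2]
          exact h1
        · by_cases hn : p.natDegree = 0
          · exact IHN p hp hc (by omega) k
          · by_cases h2k : p.natDegree ≤ 2 * k
            · exact step hMDR m IH p h0 hc k (by omega) h2k hck
            · have hkn : k ≤ p.natDegree := Polynomial.le_natDegree_of_ne_zero hck
              have hrc : p.reverse.coeff (p.natDegree - k) = p.coeff k := by
                rw [Polynomial.coeff_reverse, Polynomial.revAt_le (Nat.sub_le _ _)]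
                congr 1
                omega
              have hr0 : p.reverse.coeff 0 ≠ 0 := by
                rw [Polynomial.coeff_zero_reverse]
                exact Polynomial.leadingCoeff_ne_zero.mpr hp
              have hrs : p.reverse.support.card ≤ m + 2 := by
                refine le_trans ?_ hc
                unfold Polynomial.reverse
                rw [Polynomial.reflect_support]
                exact Finset.card_image_le
              have hrd : p.reverse.natDegree ≤ 2 * (p.natDegree - k) := by
                have := Polynomial.reverse_natDegree_le p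
                omega
              have h1 := step hMDR m IH p.reverse hr0 hrs (p.natDegree - k) (by omega) hrd
                (by rw [hrc]; exact hck)
              rw [hrc, mahler_rev p hp] at h1
              exact h1
    intro p hp hc k
    exact key p.natDegree p hp hc le_rfl k

end MTMM

open MTMM in
theorem specMTM (hMDR : SpecMDR) : SpecMTM := by
  intro p hp k
  have hpos : 0 < p.support.card := by
    rw [Finset.card_pos]
    exact Polynomial.nonempty_support_iff.mpr hp
  exact main hMDR (p.support.card - 1) p hp (by omega) k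

end Pool.Agent.Lib.MP684ec1.NB
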