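import Pool.Agent.Lib.MP_684ec1_an.NB.Spec

/-!
# Module OUT: the outer annulus
-/

set_option autoImplicit false

namespace Pool.Agent.Lib.MP684ec1.NB

open Complex Polynomial MeasureTheory intervalIntegral
open Pool.Agent.Lib.MP684ec1.HP

namespace OUTM

theorem annulus_eq (r : ℝ) :
    {z : ℂ | r < ‖z‖ ∧ ‖z‖ ≤ 1} = Metric.closedBall (0 : ℂ) 1 \ Metric.closedBall (0 : ℂ) r := by
  ext z
  simp only [Set.mem_setOf_eq, Set.mem_diff, Metric.mem_closedBall, dist_zero_right, not_le]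
  tauto

theorem volume_annulus (r : ℝ) (h0 : 0 ≤ r) (h1 : r ≤ 1) :
    volume {z : ℂ | r < ‖z‖ ∧ ‖z‖ ≤ 1} = ENNReal.ofReal (Real.pi * (1 - r ^ 2)) := by
  have hpi : 0 ≤ Real.pi := Real.pi_pos.le
  have hball : ∀ s : ℝ, 0 ≤ s → volume (Metric.closedBall (0 : ℂ) s) = ENNReal.ofReal (Real.pi * s ^ 2) := by
    intro s hs
    rw [Complex.volume_closedBall, ← ENNReal.ofReal_pow hs]
    have : (NNReal.pi : ENNReal) = ENNReal.ofReal Real.pi := by
      rw [← NNReal.coe_real_pi, ENNReal.ofReal_coe_nnreal]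
    rw [this, ← ENNReal.ofReal_mul (by positivity), mul_comm]
  rw [annulus_eq, measure_diff (Metric.closedBall_subset_closedBall h1)
    measurableSet_closedBall.nullMeasurableSet (measure_closedBall_lt_top.ne), hball 1 zero_le_one,
    hball r h0, ← ENNReal.ofReal_sub _ (by positivity)]
  congr 1
  ring

end OUTM

theorem specOUT (hCSA : MD.SpecCSA) : SpecOUT := by
  intro p hp
  have hn : (0 : ℝ) < p.natDegree := by exact_mod_cast hp
  set n : ℝ := (p.natDegree : ℝ) with hndef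
  set r : ℝ := Real.exp (-(1 / n)) with hr
  have hr0 : 0 ≤ r := (Real.exp_pos _).le
  have hr1 : r ≤ 1 := by
    rw [hr]
    apply Real.exp_le_one_iff.2
    have : 0 < 1 / n := by positivity
    linarith
  have hpi : 0 < Real.pi := Real.pi_pos
  have hr2 : 1 - r ^ 2 ≤ 2 / n := by
    have h1 : r ^ 2 = Real.exp (-(2 / n)) := by
      rw [hr, ← Real.exp_nat_mul]
      congr 1
      push_cast
      ring
    have h2 := Real.add_one_le_exp (-(2 / n))
    rw [h1]
    linarith
  have hvol : volume {z : ℂ | r < ‖z‖ ∧ ‖z‖ ≤ 1} ≤ ENNReal.ofReal (2 * Real.pi / n) := by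
    rw [OUTM.volume_annulus r hr0 hr1]
    apply ENNReal.ofReal_le_ofReal
    calc Real.pi * (1 - r ^ 2) ≤ Real.pi * (2 / n) := by
          exact mul_le_mul_of_nonneg_left hr2 hpi.le
      _ = 2 * Real.pi / n := by ring
  have hmeas : MeasurableSet {z : ℂ | r < ‖z‖ ∧ ‖z‖ ≤ 1} := by
    rw [OUTM.annulus_eq]
    exact measurableSet_closedBall.diff measurableSet_closedBall
  have hsub : {z : ℂ | r < ‖z‖ ∧ ‖z‖ ≤ 1} ⊆ Metric.closedBall 0 1 := by
    rw [OUTM.annulus_eq]
    exact Set.diff_subset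
  have h := hCSA p _ (2 * Real.pi / n) hp (by positivity) hmeas hsub hvol
  refine h.trans ?_
  rw [← hndef]
  have h3 : n * Real.pi * (2 * Real.pi / n) = 2 * Real.pi ^ 2 := by
    field_simp
  rw [h3]
  apply Real.sqrt_le_iff.2
  constructor
  · norm_num
  · have h4 : Real.pi < 3.15 := Real.pi_lt_d2
    nlinarith

end Pool.Agent.Lib.MP684ec1.NB
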