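import Pool.Agent.Lib.MP_684ec1_an.NB.Spec

/-!
# MP_684ec1 : module PDE of NB, the pointwise facts
-/

set_option autoImplicit false

namespace Pool.Agent.Lib.MP684ec1.NB

open Complex Polynomial MeasureTheory intervalIntegral
open Pool.Agent.Lib.MP684ec1.HP

namespace PDEM

theorem lp_cont : Continuous (fun q : ℝ × ℝ => lp q.1 q.2) := by
  unfold lp
  apply Complex.continuous_exp.comp
  exact (Complex.continuous_ofReal.comp continuous_fst).add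
    ((Complex.continuous_ofReal.comp continuous_snd).mul continuous_const)

theorem norm_lp (x θ : ℝ) : ‖lp x θ‖ = Real.exp x := by
  unfold lp
  rw [Complex.norm_exp]
  simp

theorem lp_dx (x θ : ℝ) : HasDerivAt (fun t => lp t θ) (lp x θ) x := by
  unfold lp
  have h1 : HasDerivAt (fun t : ℝ => (t : ℂ) + (θ : ℂ) * I) 1 x :=
    (HasDerivAt.ofReal_comp (hasDerivAt_id x)).add_const _
  have h2 := h1.cexp
  rw [mul_one] at h2
  exact h2

theorem lp_dt (x θ : ℝ) : HasDerivAt (fun t => lp x t) (lp x θ * I) θ := by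
  unfold lp
  have h0 : HasDerivAt (fun t : ℝ => (t : ℂ)) 1 θ := HasDerivAt.ofReal_comp (hasDerivAt_id θ)
  have h1 : HasDerivAt (fun t : ℝ => (x : ℂ) + (t : ℂ) * I) (1 * I) θ :=
    (h0.mul_const I).const_add _
  have h2 := h1.cexp
  rw [one_mul] at h2
  exact h2

/-- composition of a polynomial with a curve -/
theorem poly_comp (p : ℂ[X]) (g : ℝ → ℂ) (g' : ℂ) (x : ℝ) (hg : HasDerivAt g g' x) :
    HasDerivAt (fun t => p.eval (g t)) (p.derivative.eval (g x) * g') x := by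
  have h := (p.hasDerivAt (g x)).scomp x hg
  rw [smul_eq_mul, mul_comm] at h
  exact h

theorem inn (w z : ℂ) : inner ℝ w z = ((starRingEnd ℂ) w * z).re := by
  rw [Complex.inner, mul_comm]

theorem logd (G G1 : ℝ → ℂ) (x : ℝ) (h1 : HasDerivAt G (G1 x) x) :
    HasDerivAt (fun t => Real.log (1 + ‖G t‖ ^ 2) / 2)
      (((starRingEnd ℂ) (G x) * G1 x).re / (1 + ‖G x‖ ^ 2)) x := by
  have hN : HasDerivAt (fun t => 1 + ‖G t‖ ^ 2) (2 * inner ℝ (G x) (G1 x)) x :=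
    h1.norm_sq.const_add 1
  have hpos : (1 + ‖G x‖ ^ 2) ≠ 0 := by positivity
  have h := (hN.log hpos).div_const 2
  rw [inn] at h
  have e : 2 * ((starRingEnd ℂ) (G x) * G1 x).re / (1 + ‖G x‖ ^ 2) / 2 =
      ((starRingEnd ℂ) (G x) * G1 x).re / (1 + ‖G x‖ ^ 2) := by
    field_simp
  rw [e] at h
  exact h

theorem quo (G G1 : ℝ → ℂ) (G2 : ℂ) (x : ℝ) (h1 : HasDerivAt G (G1 x) x)
    (h2 : HasDerivAt G1 G2 x) :
    HasDerivAt (fun t => ((starRingEnd ℂ) (G t) * G1 t).re / (1 + ‖G t‖ ^ 2))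
      ((‖G1 x‖ ^ 2 + ((starRingEnd ℂ) (G x) * G2).re) / (1 + ‖G x‖ ^ 2) -
        2 * ((starRingEnd ℂ) (G x) * G1 x).re ^ 2 / (1 + ‖G x‖ ^ 2) ^ 2) x := by
  have hN : HasDerivAt (fun t => 1 + ‖G t‖ ^ 2) (2 * inner ℝ (G x) (G1 x)) x :=
    h1.norm_sq.const_add 1
  have hpos : (1 + ‖G x‖ ^ 2) ≠ 0 := by positivity
  have hI : HasDerivAt (fun t => inner ℝ (G t) (G1 t)) (inner ℝ (G x) G2 + inner ℝ (G1 x) (G1 x)) x :=
    h1.inner ℝ h2
  have h := hI.div hN hpos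
  simp only [inn] at h
  have e0 : ((starRingEnd ℂ) (G1 x) * G1 x).re = ‖G1 x‖ ^ 2 := by
    rw [Complex.sq_norm, Complex.normSq_apply]
    simp
  rw [e0] at h
  have e : ((((starRingEnd ℂ) (G x) * G2).re + ‖G1 x‖ ^ 2) * (1 + ‖G x‖ ^ 2) -
      ((starRingEnd ℂ) (G x) * G1 x).re * (2 * ((starRingEnd ℂ) (G x) * G1 x).re)) /
      (1 + ‖G x‖ ^ 2) ^ 2 =
      (‖G1 x‖ ^ 2 + ((starRingEnd ℂ) (G x) * G2).re) / (1 + ‖G x‖ ^ 2) -
        2 * ((starRingEnd ℂ) (G x) * G1 x).re ^ 2 / (1 + ‖G x‖ ^ 2) ^ 2 := by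
    field_simp
    ring
  rw [e] at h
  exact h

/-- `G`, `G'`, `G''` -/
noncomputable def Gz (p : ℂ[X]) (q : ℝ × ℝ) : ℂ := p.eval (lp q.1 q.2)
noncomputable def Ga (p : ℂ[X]) (q : ℝ × ℝ) : ℂ := p.derivative.eval (lp q.1 q.2) * lp q.1 q.2
noncomputable def Gb (p : ℂ[X]) (q : ℝ × ℝ) : ℂ :=
  (p.derivative.eval (lp q.1 q.2) + p.derivative.derivative.eval (lp q.1 q.2) * lp q.1 q.2) * lp q.1 q.2

theorem Gz_cont (p : ℂ[X]) : Continuous (Gz p) := p.continuous.comp lp_cont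
theorem Ga_cont (p : ℂ[X]) : Continuous (Ga p) := (p.derivative.continuous.comp lp_cont).mul lp_cont
theorem Gb_cont (p : ℂ[X]) : Continuous (Gb p) :=
  ((p.derivative.continuous.comp lp_cont).add
    ((p.derivative.derivative.continuous.comp lp_cont).mul lp_cont)).mul lp_cont

theorem den_ne (p : ℂ[X]) (q : ℝ × ℝ) : (1 + ‖Gz p q‖ ^ 2) ≠ 0 := by positivity

noncomputable def gxx (p : ℂ[X]) (q : ℝ × ℝ) : ℝ :=
  (‖Ga p q‖ ^ 2 + ((starRingEnd ℂ) (Gz p q) * Gb p q).re) / (1 + ‖Gz p q‖ ^ 2) -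
    2 * ((starRingEnd ℂ) (Gz p q) * Ga p q).re ^ 2 / (1 + ‖Gz p q‖ ^ 2) ^ 2

noncomputable def gtt (p : ℂ[X]) (q : ℝ × ℝ) : ℝ :=
  (‖Ga p q‖ ^ 2 - ((starRingEnd ℂ) (Gz p q) * Gb p q).re) / (1 + ‖Gz p q‖ ^ 2) -
    2 * ((starRingEnd ℂ) (Gz p q) * Ga p q).im ^ 2 / (1 + ‖Gz p q‖ ^ 2) ^ 2

theorem conj_cont (p : ℂ[X]) : Continuous (fun q => (starRingEnd ℂ) (Gz p q)) :=
  Complex.continuous_conj.comp (Gz_cont p)

theorem den_cont (p : ℂ[X]) : Continuous (fun q => 1 + ‖Gz p q‖ ^ 2) :=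
  continuous_const.add ((Gz_cont p).norm.pow 2)

theorem gxx_cont (p : ℂ[X]) : Continuous (gxx p) := by
  unfold gxx
  apply Continuous.sub
  · apply Continuous.div _ (den_cont p) (den_ne p)
    exact ((Ga_cont p).norm.pow 2).add (Complex.continuous_re.comp ((conj_cont p).mul (Gb_cont p)))
  · apply Continuous.div _ ((den_cont p).pow 2) (fun q => pow_ne_zero 2 (den_ne p q))
    exact continuous_const.mul ((Complex.continuous_re.comp ((conj_cont p).mul (Ga_cont p))).pow 2)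

theorem gtt_cont (p : ℂ[X]) : Continuous (gtt p) := by
  unfold gtt
  apply Continuous.sub
  · apply Continuous.div _ (den_cont p) (den_ne p)
    exact ((Ga_cont p).norm.pow 2).sub (Complex.continuous_re.comp ((conj_cont p).mul (Gb_cont p)))
  · apply Continuous.div _ ((den_cont p).pow 2) (fun q => pow_ne_zero 2 (den_ne p q))
    exact continuous_const.mul ((Complex.continuous_im.comp ((conj_cont p).mul (Ga_cont p))).pow 2)

theorem Gz_dx (p : ℂ[X]) (x θ : ℝ) : HasDerivAt (fun t => Gz p (t, θ)) (Ga p (x, θ)) x :=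
  poly_comp p _ _ x (lp_dx x θ)

theorem Gz_dt (p : ℂ[X]) (x θ : ℝ) : HasDerivAt (fun t => Gz p (x, t)) (Ga p (x, θ) * I) θ := by
  have h := poly_comp p _ _ θ (lp_dt x θ)
  rw [← mul_assoc] at h
  exact h

theorem Ga_dx (p : ℂ[X]) (x θ : ℝ) : HasDerivAt (fun t => Ga p (t, θ)) (Gb p (x, θ)) x := by
  have h := (poly_comp p.derivative _ _ x (lp_dx x θ)).mul (lp_dx x θ)
  have e : p.derivative.derivative.eval (lp x θ) * lp x θ * lp x θ + p.derivative.eval (lp x θ) * lp x θ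
      = Gb p (x, θ) := by
    simp only [Gb]
    ring
  rw [e] at h
  exact h

theorem Ga_dt (p : ℂ[X]) (x θ : ℝ) : HasDerivAt (fun t => Ga p (x, t)) (Gb p (x, θ) * I) θ := by
  have h := (poly_comp p.derivative _ _ θ (lp_dt x θ)).mul (lp_dt x θ)
  have e : p.derivative.derivative.eval (lp x θ) * (lp x θ * I) * lp x θ +
      p.derivative.eval (lp x θ) * (lp x θ * I) = Gb p (x, θ) * I := by
    simp only [Gb]
    ring
  rw [e] at h
  exact h

theorem sumid (a b w : ℂ) (N : ℝ) (hN : N = 1 + ‖a‖ ^ 2) :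
    ((‖b‖ ^ 2 + w.re) / N - 2 * ((starRingEnd ℂ) a * b).re ^ 2 / N ^ 2) +
    ((‖b‖ ^ 2 - w.re) / N - 2 * ((starRingEnd ℂ) a * b).im ^ 2 / N ^ 2) = 2 * (‖b‖ / N) ^ 2 := by
  have hpos : 0 < N := by
    rw [hN]
    positivity
  have h1 : ((starRingEnd ℂ) a * b).re ^ 2 + ((starRingEnd ℂ) a * b).im ^ 2 = ‖a‖ ^ 2 * ‖b‖ ^ 2 := by
    have h2 : ‖(starRingEnd ℂ) a * b‖ ^ 2 = ‖a‖ ^ 2 * ‖b‖ ^ 2 := by
      rw [norm_mul, RCLike.norm_conj, mul_pow]
    rw [← h2, Complex.sq_norm, Complex.normSq_apply]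
    ring
  have h3 : ‖a‖ ^ 2 = N - 1 := by rw [hN]; ring
  rw [h3] at h1
  have h4 : ((starRingEnd ℂ) a * b).im ^ 2 = (N - 1) * ‖b‖ ^ 2 - ((starRingEnd ℂ) a * b).re ^ 2 := by
    linarith
  rw [h4]
  field_simp
  ring

end PDEM

open PDEM in
theorem specPDE : SpecPDE := by
  intro p
  refine ⟨gxx p, gtt p, gxx_cont p, gtt_cont p, ?_, ?_, ?_, ?_⟩
  · intro x θ
    exact logd (fun t => Gz p (t, θ)) (fun t => Ga p (t, θ)) x (Gz_dx p x θ)
  · intro x θ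
    exact quo (fun t => Gz p (t, θ)) (fun t => Ga p (t, θ)) (Gb p (x, θ)) x (Gz_dx p x θ) (Ga_dx p x θ)
  · intro x θ
    have h := quo (fun t => Gz p (x, t)) (fun t => Ga p (x, t) * I) (Gb p (x, θ) * I * I) θ
      (Gz_dt p x θ) ((Ga_dt p x θ).mul_const I)
    have e1 : ∀ t, ((starRingEnd ℂ) (Gz p (x, t)) * (Ga p (x, t) * I)).re =
        -((starRingEnd ℂ) (Gz p (x, t)) * Ga p (x, t)).im := by
      intro t
      rw [← mul_assoc, Complex.mul_I_re]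
    have e2 : ((starRingEnd ℂ) (Gz p (x, θ)) * (Gb p (x, θ) * I * I)).re =
        -((starRingEnd ℂ) (Gz p (x, θ)) * Gb p (x, θ)).re := by
      rw [mul_assoc, Complex.I_mul_I, ← mul_assoc]
      simp
    have e3 : ‖Ga p (x, θ) * I‖ = ‖Ga p (x, θ)‖ := by
      rw [norm_mul, Complex.norm_I, mul_one]
    simp only [e1, e2, e3] at h
    have e4 : (‖Ga p (x, θ)‖ ^ 2 + -((starRingEnd ℂ) (Gz p (x, θ)) * Gb p (x, θ)).re) /
        (1 + ‖Gz p (x, θ)‖ ^ 2) -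
        2 * (-((starRingEnd ℂ) (Gz p (x, θ)) * Ga p (x, θ)).im) ^ 2 / (1 + ‖Gz p (x, θ)‖ ^ 2) ^ 2 =
        gtt p (x, θ) := by
      simp only [gtt]
      rw [neg_sq, ← sub_eq_add_neg]
    rw [e4] at h
    exact h
  · intro x θ
    have h := sumid (Gz p (x, θ)) (Ga p (x, θ)) ((starRingEnd ℂ) (Gz p (x, θ)) * Gb p (x, θ))
      (1 + ‖Gz p (x, θ)‖ ^ 2) rfl
    have e5 : ‖Ga p (x, θ)‖ / (1 + ‖Gz p (x, θ)‖ ^ 2) = sph p (lp x θ) * Real.exp x := by
      simp only [Ga, Gz, sph]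
      rw [norm_mul, norm_lp]
      ring
    rw [e5] at h
    exact h

end Pool.Agent.Lib.MP684ec1.NB
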