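import Pool.Agent.Lib.MP_684ec1_an.NB.Spec

/-!
# MP_684ec1: module PLR (log-polar coordinates on an annulus)
-/

set_option autoImplicit false

namespace Pool.Agent.Lib.MP684ec1.NB

open Complex Polynomial MeasureTheory intervalIntegral
open Pool.Agent.Lib.MP684ec1.HP

namespace PLRM

lemma pt_eq (r φ : ℝ) : pt r φ = (r : ℂ) * ((Real.cos φ : ℝ) + (Real.sin φ : ℝ) * I) := by
  unfold pt
  rw [exp_mul_I, ofReal_cos, ofReal_sin]

lemma pt_norm {r : ℝ} (hr : 0 ≤ r) (φ : ℝ) : ‖pt r φ‖ = r := by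
  unfold pt
  rw [norm_mul, norm_exp_ofReal_mul_I, mul_one, norm_real, Real.norm_of_nonneg hr]

lemma pt_cont : Continuous fun p : ℝ × ℝ => pt p.1 p.2 := by
  unfold pt
  fun_prop

lemma lp_eq (x θ : ℝ) : pt (Real.exp x) θ = lp x θ := by
  unfold pt lp
  rw [Complex.exp_add, ofReal_exp]

lemma pt_per (r φ : ℝ) : pt r (φ + 2 * Real.pi) = pt r φ := by
  rw [pt_eq, pt_eq, Real.cos_add_two_pi, Real.sin_add_two_pi]

lemma meas_A (a b : ℝ) : MeasurableSet {z : ℂ | a < ‖z‖ ∧ ‖z‖ ≤ b} :=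
  (isOpen_lt continuous_const continuous_norm).measurableSet.inter
    (isClosed_le continuous_norm continuous_const).measurableSet

end PLRM

open PLRM in
theorem specPLR : SpecPLR := by
  intro f hf x₀ x₁ hx
  set a := Real.exp x₀ with ha
  set b := Real.exp x₁ with hb
  have ha0 : 0 < a := Real.exp_pos _
  have hab : a ≤ b := Real.exp_le_exp.mpr hx
  set A : Set ℂ := {z : ℂ | a < ‖z‖ ∧ ‖z‖ ≤ b} with hA
  rw [← MeasureTheory.integral_indicator (meas_A a b), ← Complex.integral_comp_polarCoord_symm]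
  have hS : MeasurableSet (Set.Ioc a b ×ˢ Set.Ioo (-Real.pi) Real.pi) :=
    measurableSet_Ioc.prod measurableSet_Ioo
  have hT : MeasurableSet polarCoord.target := polarCoord.open_target.measurableSet
  have e1 : ∫ p in polarCoord.target, p.1 • A.indicator f (Complex.polarCoord.symm p) =
      ∫ p in polarCoord.target, (Set.Ioc a b ×ˢ Set.Ioo (-Real.pi) Real.pi).indicator
        (fun p : ℝ × ℝ => p.1 * f (pt p.1 p.2)) p := by
    refine setIntegral_congr_fun hT ?_
    rintro ⟨r, φ⟩ hp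
    rw [polarCoord_target, Set.mem_prod, Set.mem_Ioi, Set.mem_Ioo] at hp
    obtain ⟨h0, h1, h2⟩ := hp
    have e2 : Complex.polarCoord.symm (r, φ) = pt r φ := by
      rw [Complex.polarCoord_symm_apply, pt_eq]
    change r • A.indicator f (Complex.polarCoord.symm (r, φ)) = _
    rw [e2]
    have hn : ‖pt r φ‖ = r := pt_norm (le_of_lt h0) φ
    by_cases h : pt r φ ∈ A
    · rw [Set.indicator_of_mem h]
      have h3 : a < ‖pt r φ‖ ∧ ‖pt r φ‖ ≤ b := h
      rw [hn] at h3
      rw [Set.indicator_of_mem (show (r, φ) ∈ Set.Ioc a b ×ˢ Set.Ioo (-Real.pi) Real.pi from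
        ⟨h3, ⟨h1, h2⟩⟩)]
      rfl
    · rw [Set.indicator_of_notMem h, smul_zero, Set.indicator_of_notMem]
      rintro ⟨h4, _⟩
      apply h
      change a < ‖pt r φ‖ ∧ ‖pt r φ‖ ≤ b
      rw [hn]
      exact h4
  rw [e1, setIntegral_indicator hS]
  have hsub : Set.Ioc a b ×ˢ Set.Ioo (-Real.pi) Real.pi ⊆ polarCoord.target := by
    rw [polarCoord_target]
    rintro ⟨r, φ⟩ ⟨h1, h2⟩
    exact ⟨lt_trans ha0 h1.1, h2⟩
  rw [Set.inter_eq_self_of_subset_right hsub]
  have hcont : Continuous fun p : ℝ × ℝ => p.1 * f (pt p.1 p.2) :=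
    continuous_fst.mul (hf.comp pt_cont)
  have hint : IntegrableOn (fun p : ℝ × ℝ => p.1 * f (pt p.1 p.2))
      (Set.Icc a b ×ˢ Set.Icc (-Real.pi) Real.pi) (volume.prod volume) := by
    refine ContinuousOn.integrableOn_compact (isCompact_Icc.prod isCompact_Icc) hcont.continuousOn
  have hint1 : IntegrableOn (fun p : ℝ × ℝ => p.1 * f (pt p.1 p.2))
      (Set.Ioc a b ×ˢ Set.Ioo (-Real.pi) Real.pi) (volume.prod volume) :=
    hint.mono_set (Set.prod_mono Set.Ioc_subset_Icc_self Set.Ioo_subset_Icc_self)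
  have e3 : ∫ p in Set.Ioc a b ×ˢ Set.Ioo (-Real.pi) Real.pi, p.1 * f (pt p.1 p.2) =
      ∫ r in Set.Ioc a b, ∫ φ in Set.Ioo (-Real.pi) Real.pi, r * f (pt r φ) :=
    setIntegral_prod (fun p : ℝ × ℝ => p.1 * f (pt p.1 p.2)) hint1
  rw [e3]
  -- the inner integral over `(0, 2π)`
  have e4 : ∀ r : ℝ, ∫ φ in Set.Ioo (-Real.pi) Real.pi, r * f (pt r φ) =
      ∫ φ in (0 : ℝ)..(2 * Real.pi), r * f (pt r φ) := by
    intro r
    rw [← integral_Ioc_eq_integral_Ioo, ← intervalIntegral.integral_of_le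
      (show -Real.pi ≤ Real.pi by linarith [Real.pi_pos])]
    have hper : Function.Periodic (fun φ : ℝ => r * f (pt r φ)) (2 * Real.pi) := by
      intro φ
      change r * f (pt r (φ + 2 * Real.pi)) = r * f (pt r φ)
      rw [pt_per]
    have h1 := hper.intervalIntegral_add_eq (-Real.pi) 0
    rw [zero_add, show -Real.pi + 2 * Real.pi = Real.pi by ring] at h1
    exact h1
  simp_rw [e4]
  rw [← intervalIntegral.integral_of_le hab]
  -- the substitution `r = e^x`
  have hg : Continuous fun r : ℝ => ∫ φ in (0 : ℝ)..(2 * Real.pi), r * f (pt r φ) :=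
    intervalIntegral.continuous_parametric_intervalIntegral_of_continuous' hcont 0 (2 * Real.pi)
  have h5 := intervalIntegral.integral_comp_mul_deriv (a := x₀) (b := x₁) (f := Real.exp)
    (f' := Real.exp) (g := fun r : ℝ => ∫ φ in (0 : ℝ)..(2 * Real.pi), r * f (pt r φ))
    (fun x _ => Real.hasDerivAt_exp x) Real.continuous_exp.continuousOn hg
  rw [ha, hb, ← h5]
  refine intervalIntegral.integral_congr ?_
  intro x _
  change (∫ φ in (0 : ℝ)..(2 * Real.pi), Real.exp x * f (pt (Real.exp x) φ)) * Real.exp x =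
    ∫ θ in (0 : ℝ)..(2 * Real.pi), f (lp x θ) * Real.exp (2 * x)
  rw [← intervalIntegral.integral_mul_const]
  refine intervalIntegral.integral_congr ?_
  intro θ _
  change Real.exp x * f (pt (Real.exp x) θ) * Real.exp x = f (lp x θ) * Real.exp (2 * x)
  rw [lp_eq, two_mul, Real.exp_add]
  ring

end Pool.Agent.Lib.MP684ec1.NB
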