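import Pool.Agent.Lib.MP_684ec1_an.NB.Spec

set_option autoImplicit false

namespace Pool.Agent.Lib.MP684ec1.NB

open Complex Polynomial MeasureTheory intervalIntegral
open Pool.Agent.Lib.MP684ec1.HP

namespace WEIM

theorem continuous_sph (p : ℂ[X]) : Continuous (sph p) := by
  unfold sph
  apply Continuous.div
  · exact p.derivative.continuous.norm
  · exact continuous_const.add (p.continuous.norm.pow 2)
  · intro z
    positivity

theorem continuous_lp : Continuous (fun q : ℝ × ℝ => lp q.1 q.2) := by
  unfold lp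
  fun_prop

theorem continuous_aa (p : ℂ[X]) : Continuous (aa p) := by
  unfold aa
  apply continuous_parametric_intervalIntegral_of_continuous'
  have h1 : Continuous (fun q : ℝ × ℝ => (sph p (lp q.1 q.2) * Real.exp q.1) ^ 2) := by
    have h2 := (continuous_sph p).comp continuous_lp
    have h3 : Continuous (fun q : ℝ × ℝ => Real.exp q.1) := by fun_prop
    exact (h2.mul h3).pow 2
  exact h1

theorem UU_nonneg (p : ℂ[X]) (x : ℝ) : 0 ≤ UU p x := by
  unfold UU
  apply intervalIntegral.integral_nonneg (by positivity)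
  intro θ _
  have h1 : 0 ≤ Real.log (1 + ‖p.eval (lp x θ)‖ ^ 2) := by
    apply Real.log_nonneg
    have := sq_nonneg ‖p.eval (lp x θ)‖
    linarith
  linarith

end WEIM

open WEIM in
theorem specWEI (hGRN : SpecGRN) (hWLM : SpecWLM) : SpecWEI := by
  intro p x₀ x₁ hx
  have ha := continuous_aa p
  obtain ⟨A, hA⟩ : ∃ A : ℝ → ℝ, ∀ x, A x = ∫ t in x₀..x, aa p t := ⟨_, fun _ => rfl⟩
  have hAd : ∀ x, HasDerivAt A (aa p x) x := by
    intro x
    have h1 : A = fun x => ∫ t in x₀..x, aa p t := funext hA
    rw [h1]
    exact intervalIntegral.integral_hasDerivAt_right (ha.intervalIntegrable _ _)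
      (ha.stronglyMeasurableAtFilter _ _) ha.continuousAt
  have hAc : Continuous A := continuous_iff_continuousAt.2 fun x => (hAd x).continuousAt
  have hA0 : A x₀ = 0 := by rw [hA]; simp
  have hparts : ∫ x in x₀..x₁, ((x₁ - x) * aa p x - A x) = 0 := by
    have hd : ∀ x ∈ Set.uIcc x₀ x₁, HasDerivAt (fun x => (x₁ - x) * A x)
        ((x₁ - x) * aa p x - A x) x := by
      intro x _
      have h1 : HasDerivAt (fun x : ℝ => x₁ - x) (-1) x := by
        simpa using (hasDerivAt_id x).const_sub x₁
      have h2 := h1.mul (hAd x)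
      have h3 : (-1) * A x + (x₁ - x) * aa p x = (x₁ - x) * aa p x - A x := by ring
      rw [← h3]
      exact h2
    rw [intervalIntegral.integral_eq_sub_of_hasDerivAt hd
      (Continuous.intervalIntegrable (by fun_prop) _ _), hA0]
    simp
  rw [intervalIntegral.integral_sub (Continuous.intervalIntegrable (by fun_prop) _ _)
    (hAc.intervalIntegrable _ _)] at hparts
  obtain ⟨g1, -⟩ := hGRN p x₀ x₁ hx
  have hW : ∫ x in x₀..x₁, WW p x = ∫ x in x₀..x₁, (WW p x₀ + 2 * A x) := by
    apply intervalIntegral.integral_congr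
    intro x hx'
    rw [Set.uIcc_of_le hx] at hx'
    have h1 := (hGRN p x₀ x hx'.1).2
    simp only
    rw [hA]
    linarith
  have hle : ∫ x in x₀..x₁, 2 * A x ≤ ∫ x in x₀..x₁, (WW p x₀ + 2 * A x) := by
    apply intervalIntegral.integral_mono_on hx
    · exact Continuous.intervalIntegrable (by fun_prop) _ _
    · exact Continuous.intervalIntegrable (by fun_prop) _ _
    · intro x _
      have := hWLM p x₀
      linarith
  rw [intervalIntegral.integral_const_mul] at hle
  have h0 := UU_nonneg p x₀
  linarith

end Pool.Agent.Lib.MP684ec1.NB
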