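import Pool.Agent.Lib.MP_684ec1_an.NB.Spec

/-!
# MP_684ec1, module WLM (helper87): `W ≥ 0`
-/

set_option autoImplicit false

namespace Pool.Agent.Lib.MP684ec1.NB

open Complex Polynomial MeasureTheory intervalIntegral
open Pool.Agent.Lib.MP684ec1.HP

namespace WLMM

lemma norm_lp (x θ : ℝ) : ‖lp x θ‖ = Real.exp x := by
  unfold lp
  rw [Complex.norm_exp]
  simp

lemma aa_nonneg (p : ℂ[X]) (x : ℝ) : 0 ≤ aa p x := by
  unfold aa
  apply intervalIntegral.integral_nonneg (by positivity)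
  intro θ _
  positivity

lemma fx_le (p : ℂ[X]) (M : ℝ) (hM : ∀ z ∈ Metric.closedBall (0 : ℂ) 1, ‖p.derivative.eval z‖ ≤ M)
    (y θ : ℝ) (hy : y ≤ 0) : ‖fx p y θ‖ ≤ M * Real.exp y := by
  have hz : lp y θ ∈ Metric.closedBall (0 : ℂ) 1 := by
    rw [Metric.mem_closedBall, dist_zero_right, norm_lp]
    exact Real.exp_le_one_iff.2 hy
  have h1 := hM _ hz
  unfold fx
  set G := p.eval (lp y θ)
  have hpos : (0 : ℝ) < 1 + ‖G‖ ^ 2 := by positivity
  rw [Real.norm_eq_abs, abs_div, abs_of_pos hpos, div_le_iff₀ hpos]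
  have h2 : |((starRingEnd ℂ) G * (p.derivative.eval (lp y θ) * lp y θ)).re| ≤
      ‖G‖ * (‖p.derivative.eval (lp y θ)‖ * Real.exp y) := by
    refine le_trans (Complex.abs_re_le_norm _) ?_
    rw [norm_mul, norm_mul, norm_lp, RCLike.norm_conj]
  refine le_trans h2 ?_
  have h3 : ‖G‖ ≤ 1 + ‖G‖ ^ 2 := by nlinarith [sq_nonneg (‖G‖ - 1), norm_nonneg G]
  have h4 : ‖p.derivative.eval (lp y θ)‖ * Real.exp y ≤ M * Real.exp y :=
    mul_le_mul_of_nonneg_right h1 (Real.exp_pos y).le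
  have h5 : 0 ≤ ‖p.derivative.eval (lp y θ)‖ * Real.exp y := by positivity
  calc ‖G‖ * (‖p.derivative.eval (lp y θ)‖ * Real.exp y)
      ≤ (1 + ‖G‖ ^ 2) * (‖p.derivative.eval (lp y θ)‖ * Real.exp y) :=
        mul_le_mul_of_nonneg_right h3 h5
    _ ≤ (1 + ‖G‖ ^ 2) * (M * Real.exp y) := mul_le_mul_of_nonneg_left h4 hpos.le
    _ = M * Real.exp y * (1 + ‖G‖ ^ 2) := by ring

end WLMM

theorem specWLM (hGRN : SpecGRN) : SpecWLM := by
  intro p x
  by_contra hneg
  push Not at hneg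
  obtain ⟨M, hM⟩ := (isCompact_closedBall (0 : ℂ) 1).exists_bound_of_continuousOn
    (f := fun z => p.derivative.eval z) p.derivative.continuous.continuousOn
  have hM0 : 0 ≤ M := le_trans (norm_nonneg _) (hM 0 (by simp))
  have hmono : ∀ y, y ≤ x → WW p y ≤ WW p x := by
    intro y hy
    have h1 := (hGRN p y x hy).2
    have h2 : 0 ≤ ∫ t in y..x, aa p t :=
      intervalIntegral.integral_nonneg hy (fun t _ => WLMM.aa_nonneg p t)
    linarith
  have hb : ∀ y, y ≤ 0 → |WW p y| ≤ M * Real.exp y * (2 * Real.pi) := by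
    intro y hy
    unfold WW
    have h1 := intervalIntegral.norm_integral_le_of_norm_le_const
      (a := 0) (b := 2 * Real.pi) (f := fun θ => fx p y θ) (C := M * Real.exp y)
      (fun θ _ => WLMM.fx_le p M hM y θ hy)
    rw [Real.norm_eq_abs, sub_zero, abs_of_pos (by positivity : (0 : ℝ) < 2 * Real.pi)] at h1
    exact h1
  have hlim : Filter.Tendsto (fun y : ℝ => M * Real.exp y * (2 * Real.pi)) Filter.atBot (nhds 0) := by
    have h1 := (Real.tendsto_exp_atBot.const_mul M).mul_const (2 * Real.pi)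
    simpa using h1
  have hev : ∀ᶠ y in Filter.atBot, M * Real.exp y * (2 * Real.pi) < -WW p x :=
    hlim.eventually_lt_const (by linarith)
  obtain ⟨y, hy1, hy2, hy3⟩ :=
    (hev.and ((Filter.eventually_le_atBot x).and (Filter.eventually_le_atBot 0))).exists
  have h1 := hmono y hy2
  have h2 := hb y hy3
  have h3 := neg_abs_le (WW p y)
  linarith

end Pool.Agent.Lib.MP684ec1.NB
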