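import Pool.Agent.Lib.MP_684ec1_an.MD.CSA
import Pool.Agent.Lib.MP_684ec1_an.MD.ARE
import Pool.Agent.Lib.MP_684ec1_an.NB.PDE
import Pool.Agent.Lib.MP_684ec1_an.NB.GRN
import Pool.Agent.Lib.MP_684ec1_an.NB.WLM
import Pool.Agent.Lib.MP_684ec1_an.NB.WEI
import Pool.Agent.Lib.MP_684ec1_an.NB.PLR
import Pool.Agent.Lib.MP_684ec1_an.NB.ANN
import Pool.Agent.Lib.MP_684ec1_an.NB.OUT
import Pool.Agent.Lib.MP_684ec1_an.NB.FNB
import Pool.Agent.Lib.MP_684ec1_an.NB.JEN
import Pool.Agent.Lib.MP_684ec1_an.NB.MOM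
import Pool.Agent.Lib.MP_684ec1_an.NB.LOW
import Pool.Agent.Lib.MP_684ec1_an.NB.CCF
import Pool.Agent.Lib.MP_684ec1_an.NB.EXM
import Pool.Agent.Lib.MP_684ec1_an.NB.FLB

/-!
# MP_684ec1, NB: assembly of Theorem A
-/

set_option autoImplicit false

namespace Pool.Agent.Lib.MP684ec1.NB

open Complex Polynomial MeasureTheory intervalIntegral

theorem allPLR : SpecPLR := specPLR

theorem allGRN : SpecGRN := specGRN specPDE

theorem allWEI : SpecWEI := specWEI allGRN (specWLM allGRN)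

theorem allFNB : SpecFNB := specFNB (specANN allWEI allPLR) (specOUT (MD.specCSA MD.specARE))

theorem allEXM : SpecEXM := specEXM allPLR specMOM specLOW

theorem allFLB : SpecFLB := specFLB specCCF allEXM

/-- `UU p 0` is `π` times the mean of `log (1 + |p|²)` over the unit circle -/
theorem UU_zero (p : ℂ[X]) :
    UU p 0 = Real.pi * Real.circleAverage (fun z => Real.log (1 + ‖p.eval z‖ ^ 2)) 0 1 := by
  have h : ∀ θ : ℝ, lp 0 θ = circleMap 0 1 θ := by
    intro θ
    simp [lp, circleMap]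
  rw [Real.circleAverage_def, UU, smul_eq_mul]
  simp only [h]
  rw [intervalIntegral.integral_div]
  have := Real.pi_ne_zero
  field_simp

/-- Theorem A, upper bound -/
theorem upperA (p : ℂ[X]) (hp : 0 < p.natDegree) :
    ∫ z in Metric.closedBall (0 : ℂ) 1, ‖p.derivative.eval z‖ / (1 + ‖p.eval z‖ ^ 2) ≤
      5 + Real.pi * Real.sqrt (Real.circleAverage (fun z => Real.log (1 + ‖p.eval z‖ ^ 2)) 0 1 *
        (1 + Real.log p.natDegree)) := by
  refine (allFNB p hp).trans (le_of_eq ?_)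
  rw [UU_zero, show Real.pi * (Real.pi * Real.circleAverage (fun z => Real.log (1 + ‖p.eval z‖ ^ 2)) 0 1) *
    (1 + Real.log p.natDegree) = Real.pi ^ 2 * (Real.circleAverage (fun z => Real.log (1 + ‖p.eval z‖ ^ 2)) 0 1 *
        (1 + Real.log p.natDegree)) by ring, Real.sqrt_mul (by positivity), Real.sqrt_sq Real.pi_pos.le]

/-- Jensen's inequality for the mean -/
theorem meanA (p : ℂ[X]) :
    Real.circleAverage (fun z => Real.log (1 + ‖p.eval z‖ ^ 2)) 0 1 ≤
      Real.log (1 + ∑ k ∈ p.support, ‖p.coeff k‖ ^ 2) := by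
  have h := specJEN p
  rw [UU_zero] at h
  exact le_of_mul_le_mul_left h Real.pi_pos

end Pool.Agent.Lib.MP684ec1.NB
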