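import Pool.Agent.Lib.MP_684ec1_an.NB.Spec

/-!
# MP_684ec1, module PIE: monotone pieces of a real polynomial
-/

set_option autoImplicit false

namespace Pool.Agent.Lib.MP684ec1.NB

open Complex Polynomial MeasureTheory intervalIntegral
open Pool.Agent.Lib.MP684ec1.HP

noncomputable section

namespace PIEM

theorem den_ne (g : ℝ[X]) (r : ℝ) : 1 + g.eval r ^ 2 ≠ 0 := by positivity

theorem cont (g : ℝ[X]) : Continuous fun r : ℝ => g.derivative.eval r / (1 + g.eval r ^ 2) :=
  (g.derivative.continuous).div (by fun_prop) (den_ne g)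

theorem cont_abs (g : ℝ[X]) :
    Continuous fun r : ℝ => |g.derivative.eval r| / (1 + g.eval r ^ 2) :=
  (g.derivative.continuous.abs).div (by fun_prop) (den_ne g)

theorem ftc (g : ℝ[X]) (a b : ℝ) :
    ∫ r in a..b, g.derivative.eval r / (1 + g.eval r ^ 2)
      = Real.arctan (g.eval b) - Real.arctan (g.eval a) := by
  refine integral_eq_sub_of_hasDerivAt (f := fun r => Real.arctan (g.eval r)) ?_
    ((cont g).intervalIntegrable a b)
  intro r _
  have h := (g.hasDerivAt r).arctan
  have e : 1 / (1 + g.eval r ^ 2) * g.derivative.eval r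
      = g.derivative.eval r / (1 + g.eval r ^ 2) := by ring
  rw [e] at h
  exact h

theorem base (g : ℝ[X]) (a b : ℝ) (hab : a ≤ b)
    (h : ∀ r ∈ Set.Ioo a b, g.derivative.eval r ≠ 0) :
    ∫ r in a..b, |g.derivative.eval r| / (1 + g.eval r ^ 2) ≤ Real.pi := by
  have hsign : (∀ r ∈ Set.Ioo a b, 0 ≤ g.derivative.eval r) ∨
      (∀ r ∈ Set.Ioo a b, g.derivative.eval r ≤ 0) := by
    by_contra hcon
    push Not at hcon
    obtain ⟨⟨r1, hr1, h1⟩, ⟨r2, hr2, h2⟩⟩ := hcon
    have hiv := isPreconnected_Ioo.intermediate_value hr1 hr2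
      (g.derivative.continuous.continuousOn (s := Set.Ioo a b))
    obtain ⟨c, hc, hc0⟩ := hiv ⟨h1.le, h2.le⟩
    exact h c hc hc0
  have ha1 := Real.arctan_lt_pi_div_two (g.eval a)
  have ha2 := Real.neg_pi_div_two_lt_arctan (g.eval a)
  have hb1 := Real.arctan_lt_pi_div_two (g.eval b)
  have hb2 := Real.neg_pi_div_two_lt_arctan (g.eval b)
  have hden : ∀ r, 0 < 1 + g.eval r ^ 2 := fun r => by positivity
  rcases hsign with hs | hs
  · have hle : ∫ r in a..b, |g.derivative.eval r| / (1 + g.eval r ^ 2)
        ≤ ∫ r in a..b, g.derivative.eval r / (1 + g.eval r ^ 2) := by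
      refine integral_mono_on_of_le_Ioo hab ((cont_abs g).intervalIntegrable a b)
        ((cont g).intervalIntegrable a b) ?_
      intro r hr
      rw [abs_of_nonneg (hs r hr)]
    rw [ftc] at hle
    linarith
  · have hle : ∫ r in a..b, |g.derivative.eval r| / (1 + g.eval r ^ 2)
        ≤ ∫ r in a..b, -(g.derivative.eval r / (1 + g.eval r ^ 2)) := by
      refine integral_mono_on_of_le_Ioo hab ((cont_abs g).intervalIntegrable a b)
        ((cont g).neg.intervalIntegrable a b) ?_
      intro r hr
      rw [abs_of_nonpos (hs r hr), neg_div]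
    rw [intervalIntegral.integral_neg, ftc] at hle
    linarith

/-- the roots of the derivative in an open interval -/
def rt (g : ℝ[X]) (a b : ℝ) : Finset ℝ :=
  g.derivative.roots.toFinset.filter (fun r => a < r ∧ r < b)

theorem mem_rt {g : ℝ[X]} (hg : g.derivative ≠ 0) {a b r : ℝ} :
    r ∈ rt g a b ↔ g.derivative.eval r = 0 ∧ a < r ∧ r < b := by
  rw [rt, Finset.mem_filter, Multiset.mem_toFinset, mem_roots hg, IsRoot.def]

theorem main (g : ℝ[X]) (hg : g.derivative ≠ 0) (N : ℕ) : ∀ a b : ℝ, a ≤ b → (rt g a b).card = N →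
    ∫ r in a..b, |g.derivative.eval r| / (1 + g.eval r ^ 2) ≤ Real.pi * (N + 1) := by
  induction N using Nat.strong_induction_on with
  | _ N ih =>
    intro a b hab hN
    rcases Finset.eq_empty_or_nonempty (rt g a b) with he | ⟨c, hc⟩
    · have h1 := base g a b hab (by
        intro r hr h0
        have : r ∈ rt g a b := (mem_rt hg).mpr ⟨h0, hr.1, hr.2⟩
        rw [he] at this
        exact absurd this (Finset.notMem_empty r))
      rw [he, Finset.card_empty] at hN
      rw [← hN]
      simpa using h1
    · have hc' := (mem_rt hg).mp hc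
      have hdisj : Disjoint (rt g a c) (rt g c b) := by
        rw [Finset.disjoint_left]
        intro r h1 h2
        have := (mem_rt hg).mp h1
        have := (mem_rt hg).mp h2
        linarith
      have hsub : insert c (rt g a c ∪ rt g c b) ⊆ rt g a b := by
        intro r hr
        rw [Finset.mem_insert, Finset.mem_union] at hr
        rcases hr with rfl | hr | hr
        · exact hc
        · have := (mem_rt hg).mp hr
          exact (mem_rt hg).mpr ⟨this.1, this.2.1, this.2.2.trans hc'.2.2⟩
        · have := (mem_rt hg).mp hr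
          exact (mem_rt hg).mpr ⟨this.1, hc'.2.1.trans this.2.1, this.2.2⟩
      have hcn : c ∉ rt g a c ∪ rt g c b := by
        rw [Finset.mem_union]
        rintro (h | h)
        · exact lt_irrefl _ ((mem_rt hg).mp h).2.2
        · exact lt_irrefl _ ((mem_rt hg).mp h).2.1
      have hcard := Finset.card_le_card hsub
      rw [Finset.card_insert_of_notMem hcn, Finset.card_union_of_disjoint hdisj, hN] at hcard
      have i1 := ih (rt g a c).card (by omega) a c hc'.2.1.le rfl
      have i2 := ih (rt g c b).card (by omega) c b hc'.2.2.le rfl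
      rw [← integral_add_adjacent_intervals ((cont_abs g).intervalIntegrable a c)
        ((cont_abs g).intervalIntegrable c b)]
      have hcard' : ((rt g a c).card : ℝ) + (rt g c b).card + 1 ≤ N := by exact_mod_cast hcard
      have hpi := Real.pi_pos
      nlinarith

end PIEM

theorem specPIE : SpecPIE := by
  intro g
  have hpi := Real.pi_pos
  by_cases hg : g.derivative = 0
  · rw [hg]
    simp only [eval_zero, abs_zero, zero_div, intervalIntegral.integral_zero]
    positivity
  · refine (PIEM.main g hg _ 0 1 zero_le_one rfl).trans ?_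
    have hsub : PIEM.rt g 0 1 ⊆ g.derivative.roots.toFinset.filter (fun r => 0 < r) := by
      intro r hr
      rw [PIEM.rt, Finset.mem_filter] at hr
      rw [Finset.mem_filter]
      exact ⟨hr.1, hr.2.1⟩
    have hcard : ((PIEM.rt g 0 1).card : ℝ)
        ≤ (g.derivative.roots.toFinset.filter (fun r => 0 < r)).card := by
      exact_mod_cast Finset.card_le_card hsub
    exact mul_le_mul_of_nonneg_left (by linarith) hpi.le

end

end Pool.Agent.Lib.MP684ec1.NB
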