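import Pool.Agent.Lib.MP_684ec1_an.NB.Spec

/-!
# MP_684ec1, module RAY: the spherical length of the image of a ray
-/

set_option autoImplicit false

namespace Pool.Agent.Lib.MP684ec1.NB

open Complex Polynomial MeasureTheory intervalIntegral
open Pool.Agent.Lib.MP684ec1.HP

noncomputable section

namespace RAYM

/-- `∫_0^π |Re (e^(-iα) v)| dα = 2 |v|` -/
lemma mean (v : ℂ) :
    ∫ α in (0 : ℝ)..Real.pi, |(exp (-((α : ℂ) * I)) * v).re| = 2 * ‖v‖ := by
  have h1 : ∀ α : ℝ, |(exp (-((α : ℂ) * I)) * v).re| = ‖v‖ * |Real.cos (arg v - α)| := by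
    intro α
    have e1 : v = ‖v‖ * exp (arg v * I) := (norm_mul_exp_arg_mul_I v).symm
    have e2 : exp (-((α : ℂ) * I)) * v = (‖v‖ : ℂ) * exp (((arg v - α : ℝ) : ℂ) * I) := by
      calc exp (-((α : ℂ) * I)) * v = exp (-((α : ℂ) * I)) * (‖v‖ * exp (arg v * I)) := by
            rw [← e1]
        _ = (‖v‖ : ℂ) * (exp (-((α : ℂ) * I)) * exp (arg v * I)) := by ring
        _ = _ := by
            rw [← Complex.exp_add]
            congr 2
            push_cast
            ring
    rw [e2, Complex.re_ofReal_mul, Complex.exp_ofReal_mul_I_re, abs_mul,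
      abs_of_nonneg (norm_nonneg v)]
  simp_rw [h1]
  rw [intervalIntegral.integral_const_mul]
  have h2 : ∫ α in (0:ℝ)..Real.pi, |Real.cos (arg v - α)| = 2 := by
    rw [intervalIntegral.integral_comp_sub_left (fun u => |Real.cos u|) (arg v)]
    have hper : Function.Periodic (fun u : ℝ => |Real.cos u|) Real.pi := by
      intro u
      simp [Real.cos_add_pi]
    have h3 := hper.intervalIntegral_add_eq (arg v - Real.pi) (-(Real.pi/2))
    rw [show arg v - Real.pi + Real.pi = arg v - 0 by ring] at h3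
    rw [h3, show -(Real.pi/2) + Real.pi = Real.pi/2 by ring]
    have h4 : ∫ x in (-(Real.pi/2))..(Real.pi/2), |Real.cos x|
        = ∫ x in (-(Real.pi/2))..(Real.pi/2), Real.cos x := by
      apply intervalIntegral.integral_congr
      intro x hx
      rw [Set.uIcc_of_le (by linarith [Real.pi_pos])] at hx
      exact abs_of_nonneg (Real.cos_nonneg_of_mem_Icc hx)
    rw [h4, integral_cos, Real.sin_neg, Real.sin_pi_div_two]
    norm_num
  rw [h2]
  ring

/-- the real polynomial `Re (e^(-iα) p(r e^(iθ)))` -/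
def gg (p : ℂ[X]) (θ α : ℝ) : ℝ[X] :=
  ∑ k ∈ p.support, C ((exp (-((α : ℂ) * I)) * (p.coeff k * exp ((θ : ℂ) * I) ^ k)).re) * X ^ k

lemma gg_eval (p : ℂ[X]) (θ α r : ℝ) :
    (gg p θ α).eval r = (exp (-((α : ℂ) * I)) * p.eval (pt r θ)).re := by
  unfold gg
  rw [Polynomial.eval_finsetSum, Polynomial.eval_eq_sum, Polynomial.sum_def, Finset.mul_sum,
    Complex.re_sum]
  apply Finset.sum_congr rfl
  intro k _
  rw [Polynomial.eval_mul, Polynomial.eval_C, Polynomial.eval_pow, Polynomial.eval_X]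
  have e1 : exp (-((α : ℂ) * I)) * (p.coeff k * pt r θ ^ k)
      = ((r ^ k : ℝ) : ℂ) * (exp (-((α : ℂ) * I)) * (p.coeff k * exp ((θ : ℂ) * I) ^ k)) := by
    unfold pt
    rw [mul_pow]
    push_cast
    ring
  rw [e1, Complex.re_ofReal_mul]
  ring

lemma gg_deriv (p : ℂ[X]) (θ α r : ℝ) :
    (gg p θ α).derivative.eval r
      = (exp (-((α : ℂ) * I)) * (p.derivative.eval (pt r θ) * exp ((θ : ℂ) * I))).re := by
  have h1 : HasDerivAt (fun s : ℝ => (gg p θ α).eval s) ((gg p θ α).derivative.eval r) r :=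
    (gg p θ α).hasDerivAt r
  have h2 : HasDerivAt (fun s : ℝ => pt s θ) (exp ((θ : ℂ) * I)) r := by
    have := ((hasDerivAt_id r).ofReal_comp).mul_const (exp ((θ : ℂ) * I))
    simpa [pt] using this
  have h3 : HasDerivAt (fun s : ℝ => p.eval (pt s θ))
      (p.derivative.eval (pt r θ) * exp ((θ : ℂ) * I)) r :=
    HasDerivAt.comp (h₂ := fun z => p.eval z) r (p.hasDerivAt (pt r θ)) h2
  have h4 := h3.const_mul (exp (-((α : ℂ) * I)))
  have h5 := Complex.reCLM.hasFDerivAt.comp_hasDerivAt r h4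
  have h6 : (fun s : ℝ => (gg p θ α).eval s)
      = (⇑Complex.reCLM ∘ fun s : ℝ => exp (-((α : ℂ) * I)) * p.eval (pt s θ)) := by
    funext s
    rw [gg_eval]
    rfl
  rw [h6] at h1
  exact h1.unique h5

lemma gg_supp (p : ℂ[X]) (θ α : ℝ) :
    (gg p θ α).derivative.support.card ≤ p.support.card := by
  have hsub : (gg p θ α).derivative.support ⊆ p.support.image (fun k => k - 1) := by
    intro n hn
    rw [Polynomial.mem_support_iff, Polynomial.coeff_derivative] at hn
    have h1 : (gg p θ α).coeff (n + 1) ≠ 0 := left_ne_zero_of_mul hn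
    rw [Finset.mem_image]
    refine ⟨n + 1, ?_, by omega⟩
    by_contra hcon
    apply h1
    unfold gg
    rw [Polynomial.finsetSum_coeff]
    apply Finset.sum_eq_zero
    intro k hk
    rw [Polynomial.coeff_C_mul_X_pow, if_neg]
    intro h
    rw [h] at hcon
    exact hcon hk
  exact (Finset.card_le_card hsub).trans Finset.card_image_le

/-- the integrand -/
def FF (p : ℂ[X]) (θ r α : ℝ) : ℝ :=
  |(exp (-((α : ℂ) * I)) * (p.derivative.eval (pt r θ) * exp ((θ : ℂ) * I))).re| /
    (1 + (exp (-((α : ℂ) * I)) * p.eval (pt r θ)).re ^ 2)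

lemma FF_cont (p : ℂ[X]) (θ : ℝ) : Continuous (fun x : ℝ × ℝ => FF p θ x.1 x.2) := by
  have hpt : Continuous (fun x : ℝ × ℝ => pt x.1 θ) := by
    unfold pt
    fun_prop
  have h1 : Continuous (fun x : ℝ × ℝ => p.eval (pt x.1 θ)) := p.continuous.comp hpt
  have h2 : Continuous (fun x : ℝ × ℝ => p.derivative.eval (pt x.1 θ)) :=
    p.derivative.continuous.comp hpt
  unfold FF
  refine Continuous.div ?_ ?_ ?_
  · have : Continuous (fun x : ℝ × ℝ => exp (-((x.2 : ℂ) * I)) *
        (p.derivative.eval (pt x.1 θ) * exp ((θ : ℂ) * I))) := by fun_prop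
    exact (Complex.continuous_re.comp this).abs
  · have : Continuous (fun x : ℝ × ℝ => exp (-((x.2 : ℂ) * I)) * p.eval (pt x.1 θ)) := by fun_prop
    exact continuous_const.add ((Complex.continuous_re.comp this).pow 2)
  · intro x
    positivity

lemma FF_low (p : ℂ[X]) (θ r : ℝ) :
    2 * sph p (pt r θ) ≤ ∫ α in (0 : ℝ)..Real.pi, FF p θ r α := by
  set v := p.derivative.eval (pt r θ) * exp ((θ : ℂ) * I) with hv
  set h := p.eval (pt r θ) with hh
  have hv' : ‖v‖ = ‖p.derivative.eval (pt r θ)‖ := by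
    rw [hv, norm_mul, Complex.norm_exp_ofReal_mul_I, mul_one]
  have e1 : 2 * sph p (pt r θ)
      = ∫ α in (0 : ℝ)..Real.pi, |(exp (-((α : ℂ) * I)) * v).re| / (1 + ‖h‖ ^ 2) := by
    rw [intervalIntegral.integral_div, mean, hv']
    unfold sph
    rw [← hh]
    ring
  rw [e1]
  have hc : Continuous (fun α : ℝ => |(exp (-((α : ℂ) * I)) * v).re|) := by
    have : Continuous (fun α : ℝ => exp (-((α : ℂ) * I)) * v) := by fun_prop
    exact (Complex.continuous_re.comp this).abs
  apply intervalIntegral.integral_mono_on Real.pi_pos.le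
  · exact (hc.div_const _).intervalIntegrable _ _
  · exact ((FF_cont p θ).comp (continuous_const.prodMk continuous_id)).intervalIntegrable _ _
  · intro α _
    unfold FF
    rw [← hv, ← hh]
    apply div_le_div_of_nonneg_left (abs_nonneg _) (by positivity)
    have e2 : |(exp (-((α : ℂ) * I)) * h).re| ≤ ‖h‖ := by
      refine (Complex.abs_re_le_norm _).trans ?_
      rw [norm_mul]
      have : ‖exp (-((α : ℂ) * I))‖ = 1 := by
        rw [show -((α : ℂ) * I) = ((-α : ℝ) : ℂ) * I by push_cast; ring]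
        exact Complex.norm_exp_ofReal_mul_I _
      rw [this, one_mul]
    have e3 : (exp (-((α : ℂ) * I)) * h).re ^ 2 ≤ ‖h‖ ^ 2 := by
      rw [← sq_abs]
      exact pow_le_pow_left₀ (abs_nonneg _) e2 2
    linarith

end RAYM

open RAYM in
theorem specRAY (hPIE : SpecPIE) (hDSC : SpecDSC) : SpecRAY := by
  intro p θ
  have key : ∀ α : ℝ, ∫ r in (0 : ℝ)..1, FF p θ r α ≤ Real.pi * p.support.card := by
    intro α
    have e1 : ∀ r : ℝ, FF p θ r α
        = |(gg p θ α).derivative.eval r| / (1 + (gg p θ α).eval r ^ 2) := by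
      intro r
      rw [gg_deriv, gg_eval]
      rfl
    simp_rw [e1]
    by_cases h0 : (gg p θ α).derivative = 0
    · simp only [h0, Polynomial.eval_zero, abs_zero, zero_div, intervalIntegral.integral_zero]
      positivity
    · refine (hPIE (gg p θ α)).trans ?_
      apply mul_le_mul_of_nonneg_left _ Real.pi_pos.le
      have h1 := hDSC _ h0
      have h2 := gg_supp p θ α
      exact_mod_cast h1.trans h2
  have hpt : Continuous (fun r : ℝ => pt r θ) := by
    unfold pt
    fun_prop
  have hs : Continuous (fun r : ℝ => sph p (pt r θ)) := by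
    unfold sph
    refine Continuous.div (p.derivative.continuous.comp hpt).norm
      (continuous_const.add ((p.continuous.comp hpt).norm.pow 2)) ?_
    intro r
    positivity
  have hF := FF_cont p θ
  have hF' : Continuous (fun x : ℝ × ℝ => FF p θ x.2 x.1) := hF.comp continuous_swap
  have i1 : Continuous (fun r : ℝ => ∫ α in (0 : ℝ)..Real.pi, FF p θ r α) :=
    intervalIntegral.continuous_parametric_intervalIntegral_of_continuous' hF 0 Real.pi
  have i2 : Continuous (fun α : ℝ => ∫ r in (0 : ℝ)..1, FF p θ r α) :=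
    intervalIntegral.continuous_parametric_intervalIntegral_of_continuous' hF' 0 1
  have s1 : ∫ r in (0 : ℝ)..1, 2 * sph p (pt r θ)
      ≤ ∫ r in (0 : ℝ)..1, ∫ α in (0 : ℝ)..Real.pi, FF p θ r α :=
    intervalIntegral.integral_mono_on zero_le_one ((hs.const_mul 2).intervalIntegrable _ _)
      (i1.intervalIntegrable _ _) (fun r _ => FF_low p θ r)
  have s2 : ∫ r in (0 : ℝ)..1, ∫ α in (0 : ℝ)..Real.pi, FF p θ r α
      = ∫ α in (0 : ℝ)..Real.pi, ∫ r in (0 : ℝ)..1, FF p θ r α := by
    apply intervalIntegral_intervalIntegral_swap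
    have hcpt : IsCompact (Set.uIcc (0 : ℝ) 1 ×ˢ Set.uIcc (0 : ℝ) Real.pi) :=
      isCompact_uIcc.prod isCompact_uIcc
    have hco : Continuous (Function.uncurry fun r α => FF p θ r α) := hF
    exact (hco.continuousOn.integrableOn_compact hcpt).mono_set
      (Set.prod_mono Set.uIoc_subset_uIcc Set.uIoc_subset_uIcc)
  have s3 : ∫ α in (0 : ℝ)..Real.pi, ∫ r in (0 : ℝ)..1, FF p θ r α
      ≤ ∫ _ in (0 : ℝ)..Real.pi, Real.pi * p.support.card :=
    intervalIntegral.integral_mono_on Real.pi_pos.le (i2.intervalIntegrable _ _)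
      (continuous_const.intervalIntegrable _ _) (fun α _ => key α)
  rw [intervalIntegral.integral_const, smul_eq_mul, sub_zero] at s3
  rw [intervalIntegral.integral_const_mul] at s1
  nlinarith [s1, s2, s3]

end

end Pool.Agent.Lib.MP684ec1.NB
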