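import Pool.Agent.Lib.MP_684ec1_an.NB.SpecM

/-!
# Module SCA: scaling
-/

set_option autoImplicit false

namespace Pool.Agent.Lib.MP684ec1.NB

open Complex Polynomial MeasureTheory intervalIntegral
open Pool.Agent.Lib.MP684ec1.HP

namespace SCAM

/-- `p(r z)` -/
noncomputable def sc (p : ℂ[X]) (r : ℝ) : ℂ[X] := p.comp (C (r : ℂ) * X)

theorem sc_eval (p : ℂ[X]) (r : ℝ) (w : ℂ) : (sc p r).eval w = p.eval ((r : ℂ) * w) := by
  simp [sc, eval_comp]

theorem sc_deriv_eval (p : ℂ[X]) (r : ℝ) (w : ℂ) :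
    (sc p r).derivative.eval w = (r : ℂ) * p.derivative.eval ((r : ℂ) * w) := by
  simp [sc, derivative_comp, eval_comp]

theorem sc_natDegree (p : ℂ[X]) (r : ℝ) (hr : 0 < r) : (sc p r).natDegree = p.natDegree := by
  have h : (r : ℂ) ≠ 0 := by exact_mod_cast hr.ne'
  rw [sc, natDegree_comp, natDegree_C_mul_X _ h, mul_one]

theorem sph_sc (p : ℂ[X]) (r : ℝ) (hr : 0 < r) (w : ℂ) :
    sph (sc p r) w = r * sph p (r • w) := by
  unfold sph
  rw [sc_eval, sc_deriv_eval, norm_mul, Complex.norm_real, Real.norm_eq_abs, abs_of_pos hr,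
    Complex.real_smul]
  ring

theorem UU_sc (p : ℂ[X]) (x₁ : ℝ) : UU (sc p (Real.exp x₁)) 0 = UU p x₁ := by
  unfold UU
  apply intervalIntegral.integral_congr
  intro θ _
  simp only
  rw [sc_eval]
  have h : ((Real.exp x₁ : ℝ) : ℂ) * lp 0 θ = lp x₁ θ := by
    unfold lp
    rw [Complex.ofReal_exp, ← Complex.exp_add]
    congr 1
    push_cast
    ring
  rw [h]

theorem sph_nonneg (p : ℂ[X]) (z : ℂ) : 0 ≤ sph p z := by
  unfold sph
  positivity

end SCAM

theorem specSCA (hFNB : SpecFNB) : SpecSCA := by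
  intro p x₁ hp hx
  have hr : 0 < Real.exp x₁ := Real.exp_pos _
  have hr1 : Real.exp x₁ ≤ 1 := Real.exp_le_one_iff.2 hx
  set r : ℝ := Real.exp x₁ with hrdef
  have hdeg : (SCAM.sc p r).natDegree = p.natDegree := SCAM.sc_natDegree p r hr
  have hF := hFNB (SCAM.sc p r) (by rw [hdeg]; exact hp)
  rw [hdeg, hrdef, SCAM.UU_sc, ← hrdef] at hF
  have h1 := Measure.setIntegral_comp_smul_of_pos (volume : Measure ℂ) (fun z => sph p z)
    (Metric.closedBall (0 : ℂ) 1) hr
  rw [smul_unitClosedBall_of_nonneg hr.le, Complex.finrank_real_complex] at h1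
  have h2 : ∫ w in Metric.closedBall (0 : ℂ) 1, sph (SCAM.sc p r) w =
      r * ∫ w in Metric.closedBall (0 : ℂ) 1, sph p (r • w) := by
    rw [← MeasureTheory.integral_const_mul]
    apply setIntegral_congr_fun measurableSet_closedBall
    intro w _
    exact SCAM.sph_sc p r hr w
  have h3 : ∫ z in Metric.closedBall (0 : ℂ) r, sph p z =
      r * ∫ w in Metric.closedBall (0 : ℂ) 1, sph (SCAM.sc p r) w := by
    rw [h2, h1, smul_eq_mul]
    field_simp
  have h4 : 0 ≤ ∫ w in Metric.closedBall (0 : ℂ) 1, sph (SCAM.sc p r) w :=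
    integral_nonneg fun w => SCAM.sph_nonneg _ w
  rw [h3]
  calc r * ∫ w in Metric.closedBall (0 : ℂ) 1, sph (SCAM.sc p r) w
      ≤ 1 * ∫ w in Metric.closedBall (0 : ℂ) 1, sph (SCAM.sc p r) w :=
        mul_le_mul_of_nonneg_right hr1 h4
    _ = ∫ w in Metric.closedBall (0 : ℂ) 1, sph (SCAM.sc p r) w := one_mul _
    _ ≤ _ := hF

end Pool.Agent.Lib.MP684ec1.NB
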