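import Pool.Agent.Lib.MP_684ec1_an.NB.SpecM

/-!
# MP_684ec1, hive lnb: module SIM

The integral over one circle.
-/

set_option autoImplicit false

namespace Pool.Agent.Lib.MP684ec1.NB

open Complex Polynomial MeasureTheory intervalIntegral
open Pool.Agent.Lib.MP684ec1.HP

noncomputable section

namespace SIMM

theorem lp_cont (x : ℝ) : Continuous (fun θ : ℝ => lp x θ) := by
  unfold lp
  fun_prop

theorem ev_cont (q : ℂ[X]) (x : ℝ) : Continuous (fun θ : ℝ => ‖q.eval (lp x θ)‖) :=
  (q.continuous.comp (lp_cont x)).norm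

theorem sph_cont (p : ℂ[X]) (x : ℝ) : Continuous (fun θ : ℝ => sph p (lp x θ)) := by
  unfold sph
  exact (ev_cont _ x).div (continuous_const.add ((ev_cont p x).pow 2)) (fun θ => by positivity)

theorem sph_nn (p : ℂ[X]) (z : ℂ) : 0 ≤ sph p z := by
  unfold sph
  positivity

/-- off the exceptional set -/
theorem off {n L d e x : ℝ} (hn : 1 ≤ n) (hL : 1 + 2 * Real.log n ≤ L)
    (hd : d * Real.exp x ≤ n * Real.exp L) (h : Real.exp (3 / 4 * L) ≤ e) :
    d / (1 + e ^ 2) * Real.exp x ≤ 1 := by
  have h1 : n * Real.exp L ≤ Real.exp (3 / 4 * L) ^ 2 := by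
    have h3 : n * Real.exp L = Real.exp (Real.log n + L) := by
      rw [Real.exp_add, Real.exp_log (by linarith)]
    rw [h3, ← Real.exp_nat_mul]
    apply Real.exp_le_exp.2
    push_cast
    linarith
  have h4 : Real.exp (3 / 4 * L) ^ 2 ≤ e ^ 2 := pow_le_pow_left₀ (Real.exp_nonneg _) h 2
  rw [div_mul_eq_mul_div, div_le_one (by positivity)]
  linarith

/-- the quadratic bound -/
theorem quad {s v x : ℝ} (hs : 0 ≤ s) (hv : 0 < v) (hx : x ≤ 0) :
    s * Real.exp x ≤ v / 2 * s ^ 2 + 1 / (2 * v) := by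
  have h1 : Real.exp x ≤ 1 := Real.exp_le_one_iff.2 hx
  have h2 : s * Real.exp x ≤ s := mul_le_of_le_one_right hs h1
  have h3 : 0 ≤ (v * s - 1) ^ 2 / (2 * v) := by positivity
  have h4 : (v * s - 1) ^ 2 / (2 * v) = v / 2 * s ^ 2 + 1 / (2 * v) - s := by
    field_simp
    ring
  linarith

end SIMM

open SIMM in
theorem specSIM (hEXC : SpecEXC) (hLAM : SpecLAM) : SpecSIM := by
  intro p x v hn hx hL hv
  have hp0 : p ≠ 0 := by
    rintro rfl
    simp at hn
  have hn1 : (1 : ℝ) ≤ p.natDegree := by exact_mod_cast hn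
  have hlog : 0 ≤ Real.log p.natDegree := Real.log_nonneg hn1
  have hLp : 0 < Lam p x := by linarith
  obtain ⟨-, h2⟩ := hLAM p hp0
  obtain ⟨h3, -⟩ := h2 x
  have hvol := hEXC p x hp0 hLp
  generalize hE : {θ : ℝ | θ ∈ Set.Icc 0 (2 * Real.pi) ∧
    ‖p.eval (lp x θ)‖ < Real.exp (3 / 4 * Lam p x)} = E at hvol
  have hEm : MeasurableSet E := by
    rw [← hE]
    exact measurableSet_Icc.inter (measurableSet_lt (ev_cont p x).measurable measurable_const)
  have hEf : volume E ≠ ⊤ := ne_top_of_le_ne_top ENNReal.ofReal_ne_top hvol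
  have hEr : volume.real E ≤ 16 * Real.pi * p.support.card / Lam p x := by
    apply ENNReal.toReal_le_of_le_ofReal _ hvol
    positivity
  have hpi : (0 : ℝ) ≤ 2 * Real.pi := by positivity
  have hint : Integrable (E.indicator fun _ : ℝ => 1 / (2 * v)) volume :=
    (integrable_indicator_iff hEm).2 (integrableOn_const hEf)
  have hpt : ∀ θ ∈ Set.Icc 0 (2 * Real.pi), sph p (lp x θ) * Real.exp (2 * x) ≤
      (Real.exp x + v / 2 * (sph p (lp x θ) * Real.exp x) ^ 2) +
        E.indicator (fun _ : ℝ => 1 / (2 * v)) θ := by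
    intro θ hθ
    have hs : 0 ≤ sph p (lp x θ) * Real.exp x := mul_nonneg (sph_nn _ _) (Real.exp_nonneg _)
    have h4 : sph p (lp x θ) * Real.exp (2 * x) = sph p (lp x θ) * Real.exp x * Real.exp x := by
      rw [two_mul, Real.exp_add]
      ring
    rw [h4]
    by_cases hm : θ ∈ E
    · rw [Set.indicator_of_mem hm]
      have h5 := quad hs hv hx
      have h6 := Real.exp_nonneg x
      linarith
    · rw [Set.indicator_of_notMem hm]
      have h5 : Real.exp (3 / 4 * Lam p x) ≤ ‖p.eval (lp x θ)‖ := by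
        by_contra h6
        exact hm (hE ▸ ⟨hθ, not_le.1 h6⟩)
      have h6 : sph p (lp x θ) * Real.exp x ≤ 1 :=
        off hn1 hL (h3 θ).2 h5
      have h7 : sph p (lp x θ) * Real.exp x * Real.exp x ≤ Real.exp x :=
        mul_le_of_le_one_left (Real.exp_nonneg _) h6
      have h8 : 0 ≤ v / 2 * (sph p (lp x θ) * Real.exp x) ^ 2 := by positivity
      linarith
  have hc1 : Continuous (fun θ : ℝ => sph p (lp x θ) * Real.exp (2 * x)) :=
    (sph_cont p x).mul continuous_const
  have hc2 : Continuous (fun θ : ℝ => v / 2 * (sph p (lp x θ) * Real.exp x) ^ 2) :=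
    continuous_const.mul (((sph_cont p x).mul continuous_const).pow 2)
  have hc3 : Continuous (fun θ : ℝ => Real.exp x + v / 2 * (sph p (lp x θ) * Real.exp x) ^ 2) :=
    continuous_const.add hc2
  have h9 := intervalIntegral.integral_mono_on hpi (hc1.intervalIntegrable _ _)
    ((hc3.intervalIntegrable _ _).add hint.intervalIntegrable) hpt
  refine h9.trans ?_
  have h10 : (∫ θ in (0 : ℝ)..(2 * Real.pi),
      ((Real.exp x + v / 2 * (sph p (lp x θ) * Real.exp x) ^ 2) +
        E.indicator (fun _ : ℝ => 1 / (2 * v)) θ)) =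
      (2 * Real.pi * Real.exp x + v / 2 * aa p x) +
        ∫ θ in (0 : ℝ)..(2 * Real.pi), E.indicator (fun _ : ℝ => 1 / (2 * v)) θ := by
    rw [intervalIntegral.integral_add (hc3.intervalIntegrable _ _) hint.intervalIntegrable,
      intervalIntegral.integral_add (continuous_const.intervalIntegrable _ _)
        (hc2.intervalIntegrable _ _), intervalIntegral.integral_const,
      intervalIntegral.integral_const_mul]
    simp [aa]
  have h11 : (∫ θ in (0 : ℝ)..(2 * Real.pi), E.indicator (fun _ : ℝ => 1 / (2 * v)) θ) ≤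
      8 * Real.pi * p.support.card / (v * Lam p x) := by
    rw [intervalIntegral.integral_of_le hpi]
    have h12 : (∫ θ in Set.Ioc 0 (2 * Real.pi), E.indicator (fun _ : ℝ => 1 / (2 * v)) θ) ≤
        ∫ θ, E.indicator (fun _ : ℝ => 1 / (2 * v)) θ := by
      apply setIntegral_le_integral hint
      filter_upwards with θ
      exact Set.indicator_nonneg (fun _ _ => by positivity) θ
    refine h12.trans ?_
    rw [integral_indicator_const _ hEm, smul_eq_mul]
    calc volume.real E * (1 / (2 * v)) ≤ 16 * Real.pi * p.support.card / Lam p x * (1 / (2 * v)) :=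
          mul_le_mul_of_nonneg_right hEr (by positivity)
      _ = 8 * Real.pi * p.support.card / (v * Lam p x) := by
          field_simp
          ring
  refine (le_of_eq h10).trans ?_
  linarith

end

end Pool.Agent.Lib.MP684ec1.NB
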