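import Pool.Agent.Lib.MP_684ec1_an.NB.SpecM

/-!
# MP_684ec1: module SIN (the integral over an annulus)
-/

set_option autoImplicit false

namespace Pool.Agent.Lib.MP684ec1.NB

open Complex Polynomial MeasureTheory intervalIntegral
open Pool.Agent.Lib.MP684ec1.HP

namespace SINM

theorem cont_lp : Continuous (fun z : ℝ × ℝ => lp z.1 z.2) := by
  unfold lp
  fun_prop

theorem cont_sph (p : ℂ[X]) : Continuous (sph p) :=
  (p.derivative.continuous.norm).div (continuous_const.add (p.continuous.norm.pow 2))
    (fun z => by positivity)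

theorem cont_aa (p : ℂ[X]) : Continuous (aa p) := by
  have h : Continuous (Function.uncurry fun (x θ : ℝ) => (sph p (lp x θ) * Real.exp x) ^ 2) :=
    (((cont_sph p).comp cont_lp).mul (Real.continuous_exp.comp continuous_fst)).pow 2
  exact intervalIntegral.continuous_parametric_intervalIntegral_of_continuous' h 0 (2 * Real.pi)

theorem cont_F (p : ℂ[X]) : Continuous (fun x : ℝ => ∫ θ in (0 : ℝ)..(2 * Real.pi),
    sph p (lp x θ) * Real.exp (2 * x)) := by
  have h : Continuous (Function.uncurry fun (x θ : ℝ) => sph p (lp x θ) * Real.exp (2 * x)) :=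
    ((cont_sph p).comp cont_lp).mul (Real.continuous_exp.comp (continuous_const.mul continuous_fst))
  exact intervalIntegral.continuous_parametric_intervalIntegral_of_continuous' h 0 (2 * Real.pi)

end SINM

theorem specSIN (hSIM : SpecSIM) (hWOM : SpecWOM) (hLAM : SpecLAM) : SpecSIN := by
  intro p xs hn hxN hx0 hL
  have hp : p ≠ 0 := by
    rintro rfl
    simp at hn
  have hn1 : (1 : ℝ) ≤ p.natDegree := by exact_mod_cast hn
  have hlog : 0 ≤ Real.log p.natDegree := Real.log_nonneg hn1
  have hm : (1 : ℝ) ≤ p.support.card := by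
    have h0 : 0 < p.support.card := Finset.card_pos.mpr (Polynomial.nonempty_support_iff.mpr hp)
    exact_mod_cast h0
  obtain ⟨⟨d, -, hd⟩, -⟩ := hLAM p hp
  have hW := hWOM p xs hp hx0 (by linarith)
  have hS : ∀ x v : ℝ, x ≤ 0 → 1 + 2 * Real.log p.natDegree ≤ Lam p x → 0 < v →
      ∫ θ in (0 : ℝ)..(2 * Real.pi), sph p (lp x θ) * Real.exp (2 * x) ≤
        2 * Real.pi * Real.exp x + v / 2 * aa p x + 8 * Real.pi * p.support.card / (v * Lam p x) :=
    fun x v h1 h2 h3 => hSIM p x v hn h1 h2 h3
  generalize hndef : (p.natDegree : ℝ) = n at *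
  generalize hmdef : (p.support.card : ℝ) = m at *
  have hLd : ∀ x, HasDerivAt (Lam p) (d x) x := fun x => (hd x).1
  have hLc : Continuous (Lam p) := continuous_iff_continuousAt.mpr fun x => (hLd x).continuousAt
  have hmono : Monotone (Lam p) := monotone_of_deriv_nonneg (fun x => (hLd x).differentiableAt)
    (fun x => by rw [(hLd x).deriv]; exact (hd x).2.1)
  have hL1 : 1 ≤ Lam p xs := by linarith
  have hLpos : 0 < Lam p xs := by linarith
  have hslope : Lam p 1 - Lam p xs ≤ n * (1 - xs) := by
    have hm2 : Monotone (fun x => n * x - Lam p x) := by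
      have hd2 : ∀ x, HasDerivAt (fun x => n * x - Lam p x) (n * 1 - d x) x := fun x =>
        ((hasDerivAt_id x).const_mul n).sub (hLd x)
      refine monotone_of_deriv_nonneg (fun x => (hd2 x).differentiableAt) (fun x => ?_)
      rw [(hd2 x).deriv]
      have := (hd x).2.2
      simp only [mul_one]
      linarith
    have := hm2 (show xs ≤ 1 by linarith)
    simp only at this
    linarith
  -- the weight
  obtain ⟨g, hg⟩ : ∃ g : ℝ → ℝ, ∀ t, g t = (max (Lam p t) 1)⁻¹ := ⟨_, fun _ => rfl⟩
  have hgc : Continuous g := by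
    have : g = fun t => (max (Lam p t) 1)⁻¹ := funext hg
    rw [this]
    exact (hLc.max continuous_const).inv₀
      (fun t => (lt_of_lt_of_le one_pos (le_max_right _ _)).ne')
  have hgpos : ∀ t, 0 < g t := fun t => by
    rw [hg]
    exact inv_pos.mpr (lt_of_lt_of_le one_pos (le_max_right _ _))
  have hgeq : ∀ t, xs ≤ t → g t = 1 / Lam p t := fun t ht => by
    rw [hg, max_eq_left (hL1.trans (hmono ht)), one_div]
  obtain ⟨ω, hω⟩ : ∃ ω : ℝ → ℝ, ∀ x, ω x = ∫ t in x..1, g t := ⟨_, fun _ => rfl⟩
  have hωf : ω = fun x => ∫ t in x..1, g t := funext hω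
  have hωd : ∀ x, HasDerivAt ω (-(g x)) x := fun x => by
    rw [hωf]
    exact intervalIntegral.integral_hasDerivAt_left (hgc.intervalIntegrable _ _)
      (hgc.stronglyMeasurableAtFilter _ _) hgc.continuousAt
  have hωc : Continuous ω := continuous_iff_continuousAt.mpr fun x => (hωd x).continuousAt
  have hωpos : ∀ x, x ≤ 0 → 0 < ω x := fun x hx => by
    rw [hω]
    exact intervalIntegral.intervalIntegral_pos_of_pos (hgc.intervalIntegrable _ _) hgpos
      (by linarith)
  have hω1 : ω xs ≤ (1 - xs) / Lam p xs := by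
    rw [hω]
    have h1 : ∫ t in xs..1, g t ≤ ∫ _t in xs..1, (1 / Lam p xs) := by
      refine intervalIntegral.integral_mono_on (by linarith) (hgc.intervalIntegrable _ _)
        intervalIntegrable_const (fun t ht => ?_)
      rw [hgeq t ht.1]
      exact one_div_le_one_div_of_le hLpos (hmono ht.1)
    rw [intervalIntegral.integral_const, smul_eq_mul] at h1
    exact h1.trans (le_of_eq (by ring))
  have hω0 : 1 / Lam p 1 ≤ ω 0 := by
    rw [hω]
    have h1 : ∫ _t in (0 : ℝ)..1, (1 / Lam p 1) ≤ ∫ t in (0 : ℝ)..1, g t := by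
      refine intervalIntegral.integral_mono_on (by linarith) intervalIntegrable_const
        (hgc.intervalIntegrable _ _) (fun t ht => ?_)
      rw [hgeq t (by linarith [ht.1])]
      exact one_div_le_one_div_of_le (lt_of_lt_of_le hLpos (hmono (by linarith [ht.1])))
        (hmono ht.2)
    rw [intervalIntegral.integral_const, smul_eq_mul] at h1
    exact (le_of_eq (by ring)).trans h1
  have hLam1 : 0 < Lam p 1 := lt_of_lt_of_le hLpos (hmono (by linarith))
  -- the logarithm of the quotient
  have hq : Lam p 1 / Lam p xs ≤ 3 * n := by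
    rw [div_le_iff₀ hLpos]
    have h1 : 1 - xs ≤ 2 * Lam p xs := by linarith
    nlinarith
  have hq0 : 0 < Lam p 1 / Lam p xs := div_pos hLam1 hLpos
  have hlog3 : Real.log 3 ≤ 1.1 := by
    have h1 : Real.log 3 = Real.log (3 / 2) + Real.log 2 := by
      rw [← Real.log_mul (by norm_num) (by norm_num)]
      norm_num
    have h2 : Real.log (3 / 2) ≤ 0.4056 := by
      rw [Real.log_le_iff_le_exp (by norm_num)]
      have h4 : (3 / 2 : ℝ) ≤ 1 + 0.4056 + 0.4056 ^ 2 / 2 + 0.4056 ^ 3 / 6 + 0.4056 ^ 4 / 24 := by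
        norm_num
      have h3 := Real.sum_le_exp_of_nonneg (show (0 : ℝ) ≤ 0.4056 by norm_num) 5
      simp only [Finset.sum_range_succ, Finset.sum_range_zero, Nat.factorial] at h3
      norm_num at h3 h4 ⊢
      linarith
    have := Real.log_two_lt_d9
    linarith
  have hl : Real.log (Lam p 1 / Lam p xs) ≤ 1.1 + Real.log n := by
    have h1 : Real.log (Lam p 1 / Lam p xs) ≤ Real.log (3 * n) := Real.log_le_log hq0 hq
    rw [Real.log_mul (by norm_num) (by linarith)] at h1
    linarith
  have hlw : Real.log (ω xs) - Real.log (ω 0) ≤ 3 * (1 + Real.log n) := by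
    have h1 : Real.log (ω xs) ≤ Real.log ((1 - xs) / Lam p xs) := Real.log_le_log (hωpos xs hx0) hω1
    have h2 : Real.log (1 / Lam p 1) ≤ Real.log (ω 0) :=
      Real.log_le_log (by positivity) hω0
    have h3 : Real.log ((1 - xs) / Lam p xs) = Real.log (1 - xs) - Real.log (Lam p xs) :=
      Real.log_div (by linarith) hLpos.ne'
    have h4 : Real.log (1 / Lam p 1) = - Real.log (Lam p 1) := by
      rw [one_div, Real.log_inv]
    have h5 : Real.log (Lam p 1 / Lam p xs) = Real.log (Lam p 1) - Real.log (Lam p xs) :=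
      Real.log_div hLam1.ne' hLpos.ne'
    have h6 : Real.log (1 - xs) ≤ 1 - xs - 1 := Real.log_le_sub_one_of_pos (by linarith)
    linarith
  -- the pointwise bound and the integral
  have hs : 0 < Real.sqrt m := Real.sqrt_pos.mpr (by linarith)
  have hss : Real.sqrt m * Real.sqrt m = m := Real.mul_self_sqrt (by linarith)
  obtain ⟨τ, hτd⟩ : ∃ τ : ℝ, τ = 3 * Real.sqrt m := ⟨_, rfl⟩
  have hτ : 0 < τ := by rw [hτd]; positivity
  have hi1 : IntervalIntegrable (fun x => 2 * Real.pi * Real.exp x) volume xs 0 :=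
    (continuous_const.mul Real.continuous_exp).intervalIntegrable _ _
  have hi2 : IntervalIntegrable (fun x => τ / 2 * (ω x * aa p x)) volume xs 0 :=
    (continuous_const.mul (hωc.mul (SINM.cont_aa p))).intervalIntegrable _ _
  have hco : ContinuousOn (fun x => g x / ω x) (Set.uIcc xs 0) := by
    rw [Set.uIcc_of_le hx0]
    exact hgc.continuousOn.div hωc.continuousOn (fun x hx => (hωpos x hx.2).ne')
  have hi3' : IntervalIntegrable (fun x => g x / ω x) volume xs 0 := hco.intervalIntegrable
  have hi3 : IntervalIntegrable (fun x => 8 * Real.pi * m / τ * (g x / ω x)) volume xs 0 :=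
    hi3'.const_mul _
  have hmain : ∫ x in xs..0, ∫ θ in (0 : ℝ)..(2 * Real.pi), sph p (lp x θ) * Real.exp (2 * x) ≤
      ∫ x in xs..0, (2 * Real.pi * Real.exp x + τ / 2 * (ω x * aa p x) +
        8 * Real.pi * m / τ * (g x / ω x)) := by
    refine intervalIntegral.integral_mono_on hx0 ((SINM.cont_F p).intervalIntegrable _ _)
      ((hi1.add hi2).add hi3) (fun x hx => ?_)
    have hwx := hωpos x hx.2
    have hLx : 0 < Lam p x := lt_of_lt_of_le hLpos (hmono hx.1)
    have h1 := hS x (τ * ω x) hx.2 (hL.trans (hmono hx.1)) (mul_pos hτ hwx)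
    refine h1.trans (le_of_eq ?_)
    rw [hgeq x hx.1]
    field_simp
  have hI1 : ∫ x in xs..0, 2 * Real.pi * Real.exp x ≤ 7 := by
    rw [intervalIntegral.integral_const_mul, integral_exp, Real.exp_zero]
    have h1 := Real.exp_pos xs
    have h2 := Real.pi_lt_d2
    have h3 := Real.pi_pos
    nlinarith
  have hI2 : ∫ x in xs..0, ω x * aa p x ≤ 3 * Real.pi / 2 * (1 + Real.log (Lam p 1 / Lam p xs)) := by
    refine le_trans (le_of_eq ?_) hW
    refine intervalIntegral.integral_congr (fun x hx => ?_)
    rw [Set.uIcc_of_le hx0] at hx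
    rw [hω]
    refine congrArg (fun y => y * aa p x) ?_
    refine intervalIntegral.integral_congr (fun t ht => ?_)
    rw [Set.uIcc_of_le (by linarith [hx.2])] at ht
    exact hgeq t (hx.1.trans ht.1)
  have hI3 : ∫ x in xs..0, g x / ω x = Real.log (ω xs) - Real.log (ω 0) := by
    have h1 : ∀ x ∈ Set.uIcc xs 0, HasDerivAt (fun x => - Real.log (ω x)) (g x / ω x) x := by
      intro x hx
      rw [Set.uIcc_of_le hx0] at hx
      have h2 := ((hωd x).log (hωpos x hx.2).ne').neg
      have h3 : -(-(g x) / ω x) = g x / ω x := by ring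
      rw [h3] at h2
      exact h2
    rw [intervalIntegral.integral_eq_sub_of_hasDerivAt h1 hi3']
    ring
  rw [intervalIntegral.integral_add (hi1.add hi2) hi3, intervalIntegral.integral_add hi1 hi2,
    intervalIntegral.integral_const_mul, intervalIntegral.integral_const_mul (8 * Real.pi * m / τ),
    intervalIntegral.integral_const_mul (τ / 2), hI3] at hmain
  rw [intervalIntegral.integral_const_mul] at hI1
  have hτm : 8 * Real.pi * m / τ = 8 * Real.pi / 3 * Real.sqrt m := by
    rw [hτd, div_eq_iff (by positivity)]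
    linear_combination (-(8 * Real.pi)) * hss
  have hA : τ / 2 * ∫ x in xs..0, ω x * aa p x ≤
      τ / 2 * (3 * Real.pi / 2 * (3 * (1 + Real.log n))) := by
    refine mul_le_mul_of_nonneg_left (hI2.trans ?_) (by positivity)
    refine mul_le_mul_of_nonneg_left ?_ (by positivity)
    linarith
  have hB : 8 * Real.pi * m / τ * (Real.log (ω xs) - Real.log (ω 0)) ≤
      8 * Real.pi / 3 * Real.sqrt m * (3 * (1 + Real.log n)) := by
    rw [hτm]
    exact mul_le_mul_of_nonneg_left hlw (by positivity)
  have hC : τ / 2 * (3 * Real.pi / 2 * (3 * (1 + Real.log n))) +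
      8 * Real.pi / 3 * Real.sqrt m * (3 * (1 + Real.log n)) =
      59 / 4 * Real.pi * (Real.sqrt m * (1 + Real.log n)) := by
    rw [hτd]
    ring
  have hD : 59 / 4 * Real.pi * (Real.sqrt m * (1 + Real.log n)) ≤
      47 * (Real.sqrt m * (1 + Real.log n)) := by
    refine mul_le_mul_of_nonneg_right ?_ (by positivity)
    have := Real.pi_lt_d2
    linarith
  have hE : 47 * (Real.sqrt m * (1 + Real.log n)) = 47 * Real.sqrt m * (1 + Real.log n) := by ring
  linarith

end Pool.Agent.Lib.MP684ec1.NB

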