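import Pool.Agent.Lib.MP_684ec1_an.NB.SpecM

/-!
# MP_684ec1, NB, module TMC: Theorem C
-/

set_option autoImplicit false

namespace Pool.Agent.Lib.MP684ec1.NB

open Complex Polynomial MeasureTheory intervalIntegral
open Pool.Agent.Lib.MP684ec1.HP

noncomputable section

namespace TMCM

theorem cont_sph (p : ℂ[X]) : Continuous (sph p) := by
  unfold sph
  refine Continuous.div (p.derivative.continuous.norm) (continuous_const.add
    (p.continuous.norm.pow 2)) fun z => ?_
  have : 0 ≤ ‖p.eval z‖ ^ 2 := by positivity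
  linarith

theorem split {f : ℂ → ℝ} (hf : Continuous f) {xs : ℝ} (hxs : xs ≤ 0) :
    ∫ z in Metric.closedBall (0 : ℂ) 1, f z =
      (∫ z in Metric.closedBall (0 : ℂ) (Real.exp xs), f z) +
        ∫ z in {z : ℂ | Real.exp xs < ‖z‖ ∧ ‖z‖ ≤ Real.exp 0}, f z := by
  have hi : IntegrableOn f (Metric.closedBall (0 : ℂ) 1) :=
    hf.continuousOn.integrableOn_compact (isCompact_closedBall _ _)
  have he : Real.exp xs ≤ 1 := Real.exp_le_one_iff.2 hxs
  have hu : Metric.closedBall (0 : ℂ) 1 = Metric.closedBall (0 : ℂ) (Real.exp xs) ∪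
      {z : ℂ | Real.exp xs < ‖z‖ ∧ ‖z‖ ≤ Real.exp 0} := by
    ext z
    simp only [Metric.mem_closedBall, dist_zero_right, Set.mem_union, Set.mem_ofPred_eq,
      Real.exp_zero]
    constructor
    · intro h
      rcases le_or_gt ‖z‖ (Real.exp xs) with h1 | h1
      · exact Or.inl h1
      · exact Or.inr ⟨h1, h⟩
    · rintro (h | h)
      · exact h.trans he
      · exact h.2
  have h1 : Metric.closedBall (0 : ℂ) (Real.exp xs) ⊆ Metric.closedBall (0 : ℂ) 1 :=
    Metric.closedBall_subset_closedBall he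
  have h2 : {z : ℂ | Real.exp xs < ‖z‖ ∧ ‖z‖ ≤ Real.exp 0} ⊆ Metric.closedBall (0 : ℂ) 1 := by
    rw [hu]
    exact Set.subset_union_right
  have hm : MeasurableSet {z : ℂ | Real.exp xs < ‖z‖ ∧ ‖z‖ ≤ Real.exp 0} := by
    have a1 : MeasurableSet {z : ℂ | Real.exp xs < ‖z‖} :=
      measurableSet_lt measurable_const measurable_norm
    have a2 : MeasurableSet {z : ℂ | ‖z‖ ≤ Real.exp 0} :=
      measurableSet_le measurable_norm measurable_const
    exact a1.inter a2
  have hd : Disjoint (Metric.closedBall (0 : ℂ) (Real.exp xs))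
      {z : ℂ | Real.exp xs < ‖z‖ ∧ ‖z‖ ≤ Real.exp 0} := by
    rw [Set.disjoint_left]
    rintro z hz ⟨h3, _⟩
    rw [Metric.mem_closedBall, dist_zero_right] at hz
    linarith
  rw [hu, setIntegral_union hd hm (hi.mono_set h1) (hi.mono_set h2)]

/-- the size of the square root -/
theorem root {U N : ℝ} (hN : 1 ≤ N) (hU : U ≤ Real.pi * (5 * N)) :
    Real.sqrt (Real.pi * U * N) ≤ 8 * N := by
  refine Real.sqrt_le_iff.2 ⟨by linarith, ?_⟩
  have hpi : 0 < Real.pi := Real.pi_pos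
  have h1 : Real.pi < 3.15 := Real.pi_lt_d2
  have h2 : Real.pi * U * N ≤ Real.pi * (Real.pi * (5 * N)) * N :=
    mul_le_mul_of_nonneg_right (mul_le_mul_of_nonneg_left hU hpi.le) (by linarith)
  have h3 : Real.pi * Real.pi ≤ 10 := by nlinarith
  have h4 : 0 ≤ N * N := by positivity
  nlinarith

end TMCM

open TMCM in
theorem specTMC (hPLR : SpecPLR) (hFNB : SpecFNB) (hLAM : SpecLAM) (hSIN : SpecSIN)
    (hSCA : SpecSCA) (hINB : SpecINB) : SpecTMC := by
  intro p hp
  have hp0 : p ≠ 0 := by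
    rintro rfl
    simp at hp
  have hcard : 1 ≤ p.support.card := by
    rw [Nat.one_le_iff_ne_zero, Ne, Finset.card_eq_zero, Polynomial.support_eq_empty]
    exact hp0
  have hn1 : (1 : ℝ) ≤ (p.natDegree : ℝ) := by exact_mod_cast hp
  have hlog : 0 ≤ Real.log p.natDegree := Real.log_nonneg hn1
  obtain ⟨L, hL⟩ : ∃ L, L = Real.log p.natDegree := ⟨_, rfl⟩
  obtain ⟨r, hr⟩ : ∃ r, r = Real.sqrt p.support.card := ⟨_, rfl⟩
  have hr1 : 1 ≤ r := by
    rw [hr]
    exact Real.one_le_sqrt.2 (by exact_mod_cast hcard)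
  rw [← hL] at hlog
  have hN : (1 : ℝ) ≤ 1 + L := by linarith
  obtain ⟨⟨d, hd, hder⟩, hUU⟩ := hLAM p hp0
  have hcont : Continuous (Lam p) :=
    continuous_iff_continuousAt.2 fun x => (hder x).1.continuousAt
  have hrN : 1 + L ≤ r * (1 + L) := le_mul_of_one_le_left (by linarith) hr1
  have hUb : ∀ x, Lam p x ≤ 1 + 2 * L → UU p x ≤ Real.pi * (5 * (1 + L)) := by
    intro x hx
    refine ((hUU x).2).trans (mul_le_mul_of_nonneg_left ?_ Real.pi_pos.le)
    have : max (Lam p x) 0 ≤ 1 + 2 * L := max_le hx (by linarith)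
    linarith
  have hsin : ∀ xs : ℝ, -(1 + L) ≤ xs → xs ≤ 0 → 1 + 2 * L ≤ Lam p xs →
      ∫ z in {z : ℂ | Real.exp xs < ‖z‖ ∧ ‖z‖ ≤ Real.exp 0}, sph p z ≤ 7 + 47 * r * (1 + L) := by
    intro xs h1 h2 h3
    rw [hPLR (sph p) (cont_sph p) xs 0 h2, hr, hL]
    rw [hL] at h1 h3
    exact hSIN p xs hp h1 h2 h3
  rw [← hr, ← hL]
  by_cases c1 : Lam p 0 ≤ 1 + 2 * L
  · have h1 := hFNB p hp
    rw [← hL] at h1
    have h2 := root hN (hUb 0 c1)
    nlinarith
  · push Not at c1
    by_cases c2 : 1 + 2 * L ≤ Lam p (-(1 + L))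
    · rw [split (cont_sph p) (xs := -(1 + L)) (by linarith)]
      have h1 := hsin (-(1 + L)) le_rfl (by linarith) c2
      have h2 := hINB p hp
      rw [← hL] at h2
      nlinarith
    · push Not at c2
      obtain ⟨xs, hxs, hval⟩ := intermediate_value_Icc (show -(1 + L) ≤ (0 : ℝ) by linarith)
        hcont.continuousOn (show 1 + 2 * L ∈ Set.Icc (Lam p (-(1 + L))) (Lam p 0) from
          ⟨c2.le, c1.le⟩)
      rw [split (cont_sph p) (xs := xs) hxs.2]
      have h1 := hsin xs hxs.1 hxs.2 hval.ge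
      have h2 := hSCA p xs hp hxs.2
      rw [← hL] at h2
      have h3 := root hN (hUb xs hval.le)
      nlinarith

end

end Pool.Agent.Lib.MP684ec1.NB
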