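import Pool.Agent.Lib.MP_684ec1_an.NB.SpecM

/-!
# MP_684ec1 : module WOM, the weight
-/

set_option autoImplicit false

namespace Pool.Agent.Lib.MP684ec1.NB

open Complex Polynomial MeasureTheory intervalIntegral
open Pool.Agent.Lib.MP684ec1.HP

namespace WOMM

theorem lp_cont : Continuous fun x : ℝ × ℝ => lp x.1 x.2 := by
  unfold lp
  fun_prop

theorem sph_cont (p : ℂ[X]) : Continuous (sph p) := by
  unfold sph
  refine Continuous.div ?_ ?_ ?_
  · exact p.derivative.continuous.norm
  · exact continuous_const.add (p.continuous.norm.pow 2)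
  · intro z
    positivity

theorem aa_cont (p : ℂ[X]) : Continuous (aa p) := by
  have h1 : Continuous fun x : ℝ × ℝ => (sph p (lp x.1 x.2) * Real.exp x.1) ^ 2 :=
    (((sph_cont p).comp lp_cont).mul (Real.continuous_exp.comp continuous_fst)).pow 2
  exact intervalIntegral.continuous_parametric_intervalIntegral_of_continuous'
    (f := fun x θ => (sph p (lp x θ) * Real.exp x) ^ 2) h1 0 (2 * Real.pi)

theorem aa_nonneg (p : ℂ[X]) (x : ℝ) : 0 ≤ aa p x :=
  intervalIntegral.integral_nonneg (by positivity) fun _ _ => sq_nonneg _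

end WOMM

open WOMM in
theorem specWOM (hWEI : SpecWEI) (hLAM : SpecLAM) : SpecWOM := by
  intro p xs hp hxs hL
  obtain ⟨⟨d, hdc, hd⟩, hU⟩ := hLAM p hp
  have hmono : Monotone (Lam p) := monotone_of_deriv_nonneg
    (fun x => (hd x).1.differentiableAt) (fun x => by
      rw [(hd x).1.deriv]
      exact (hd x).2.1)
  have hLc : Continuous (Lam p) := continuous_iff_continuousAt.2 fun x => (hd x).1.continuousAt
  have hL1 : ∀ x, xs ≤ x → 1 ≤ Lam p x := fun x hx => hL.trans (hmono hx)
  have hac := aa_cont p
  have ha0 := aa_nonneg p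
  have hpi := Real.pi_pos
  have hxs1 : xs ≤ 1 := by linarith
  -- `A`, `F`
  set A : ℝ → ℝ := fun y => ∫ x in xs..y, aa p x with hAdef
  have hA : ∀ y, HasDerivAt A (aa p y) y := fun y => (hac.integral_hasStrictDerivAt xs y).hasDerivAt
  have hA0 : A xs = 0 := intervalIntegral.integral_same
  have hAc : Continuous A := continuous_iff_continuousAt.2 fun x => (hA x).continuousAt
  set F : ℝ → ℝ := fun y => ∫ x in xs..y, (y - x) * aa p x with hFdef
  have hxa : Continuous fun x : ℝ => x * aa p x := continuous_id.mul hac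
  have hFe : F = fun y => y * A y - ∫ x in xs..y, x * aa p x := by
    funext y
    have h1 : y * A y = ∫ x in xs..y, y * aa p x := by
      rw [intervalIntegral.integral_const_mul]
    have hya : Continuous fun x : ℝ => y * aa p x := continuous_const.mul hac
    rw [h1, ← intervalIntegral.integral_sub (hya.intervalIntegrable _ _)
      (hxa.intervalIntegrable _ _)]
    show ∫ x in xs..y, (y - x) * aa p x = _
    refine intervalIntegral.integral_congr fun x _ => ?_
    show (y - x) * aa p x = y * aa p x - x * aa p x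
    ring
  have hF : ∀ y, HasDerivAt F (A y) y := by
    intro y
    rw [hFe]
    have h1 := ((hasDerivAt_id y).mul (hA y)).sub (hxa.integral_hasStrictDerivAt xs y).hasDerivAt
    have e : 1 * A y + id y * aa p y - y * aa p y = A y := by
      simp only [id]
      ring
    rw [e] at h1
    exact h1
  have hF0 : F xs = 0 := intervalIntegral.integral_same
  have hFc : Continuous F := continuous_iff_continuousAt.2 fun x => (hF x).continuousAt
  have hFup : ∀ y, xs ≤ y → F y ≤ 3 * Real.pi / 2 * Lam p y := by
    intro y hy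
    have h1 := hWEI p xs y hy
    have h2 := (hU y).2
    have h3 := hL1 y hy
    rw [max_eq_left (by linarith)] at h2
    have h4 : Real.pi * (2 * Lam p y + 1) ≤ Real.pi * (3 * Lam p y) :=
      mul_le_mul_of_nonneg_left (by linarith) hpi.le
    have h5 : F y ≤ UU p y / 2 := h1
    linarith
  -- the weight
  set μ : ℝ → ℝ := fun t => 1 / max 1 (Lam p t) with hμ
  have hμc : Continuous μ := by
    refine continuous_const.div (continuous_const.max hLc) fun x => ?_
    have : (1 : ℝ) ≤ max 1 (Lam p x) := le_max_left _ _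
    positivity
  have hμe : ∀ t, xs ≤ t → μ t = 1 / Lam p t := by
    intro t ht
    show 1 / max 1 (Lam p t) = 1 / Lam p t
    rw [max_eq_right (hL1 t ht)]
  have hμ0 : ∀ t, 0 ≤ μ t := by
    intro t
    have : (1 : ℝ) ≤ max 1 (Lam p t) := le_max_left _ _
    show 0 ≤ 1 / max 1 (Lam p t)
    positivity
  set W : ℝ → ℝ := fun x => ∫ t in x..1, μ t with hW
  have hWd : ∀ x, HasDerivAt W (-(μ x)) x := by
    intro x
    have h1 := ((hμc.integral_hasStrictDerivAt 1 x).hasDerivAt).neg
    have h2 : W = fun x => -∫ t in (1 : ℝ)..x, μ t := by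
      funext y
      exact intervalIntegral.integral_symm _ _
    rw [h2]
    exact h1
  have hWc : Continuous W := continuous_iff_continuousAt.2 fun x => (hWd x).continuousAt
  have hW1 : W 1 = 0 := intervalIntegral.integral_same
  have hWe : ∀ x, xs ≤ x → ∫ t in x..1, 1 / Lam p t = W x := by
    intro x hx
    refine intervalIntegral.integral_congr fun t ht => ?_
    have h1 : xs ≤ t := by
      have h2 : min x 1 ≤ t := ht.1
      exact (le_min hx hxs1).trans h2
    exact (hμe t h1).symm
  have hW0 : ∀ x, x ≤ 1 → 0 ≤ W x := fun x hx =>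
    intervalIntegral.integral_nonneg hx fun t _ => hμ0 t
  have hWa : Continuous fun x => W x * aa p x := hWc.mul hac
  -- up to `1`
  have h1 : ∫ x in xs..0, (∫ t in x..1, 1 / Lam p t) * aa p x = ∫ x in xs..0, W x * aa p x := by
    refine intervalIntegral.integral_congr fun x hx => ?_
    rw [Set.uIcc_of_le hxs] at hx
    show (∫ t in x..1, 1 / Lam p t) * aa p x = W x * aa p x
    rw [hWe x hx.1]
  have h2 : ∫ x in xs..0, W x * aa p x ≤ ∫ x in xs..1, W x * aa p x := by
    rw [← intervalIntegral.integral_add_adjacent_intervals (hWa.intervalIntegrable xs 0)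
      (hWa.intervalIntegrable 0 1)]
    have h3 : 0 ≤ ∫ x in (0 : ℝ)..1, W x * aa p x :=
      intervalIntegral.integral_nonneg zero_le_one fun x hx => mul_nonneg (hW0 x hx.2) (ha0 x)
    linarith
  -- integration by parts
  have h3 : ∫ x in xs..1, W x * aa p x = ∫ x in xs..1, μ x * A x := by
    rw [intervalIntegral.integral_mul_deriv_eq_deriv_mul (fun x _ => hWd x) (fun x _ => hA x)
      (hμc.neg.intervalIntegrable _ _) (hac.intervalIntegrable _ _), hW1, hA0]
    have e : ∀ x, -(μ x) * A x = -(μ x * A x) := fun x => by ring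
    simp only [e]
    rw [intervalIntegral.integral_neg]
    ring
  have hne : ∀ x, xs ≤ x → Lam p x ≠ 0 := fun x hx => by
    have := hL1 x hx
    positivity
  have hI : Set.uIcc xs 1 = Set.Icc xs 1 := Set.uIcc_of_le hxs1
  have hcont : ContinuousOn (fun x => d x / Lam p x ^ 2) (Set.uIcc xs 1) := by
    rw [hI]
    exact hdc.continuousOn.div (hLc.pow 2).continuousOn fun x hx => pow_ne_zero 2 (hne x hx.1)
  have h4 : ∫ x in xs..1, μ x * A x =
      F 1 / Lam p 1 + ∫ x in xs..1, d x / Lam p x ^ 2 * F x := by
    have h5 : ∫ x in xs..1, μ x * A x = ∫ x in xs..1, (Lam p x)⁻¹ * A x := by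
      refine intervalIntegral.integral_congr fun x hx => ?_
      rw [hI] at hx
      show μ x * A x = (Lam p x)⁻¹ * A x
      rw [hμe x hx.1, one_div]
    rw [h5, intervalIntegral.integral_mul_deriv_eq_deriv_mul
      (u' := fun x => -(d x / Lam p x ^ 2)) (v := F) (fun x hx => by
        rw [hI] at hx
        have h6 := (hd x).1.inv (hne x hx.1)
        have e : -d x / Lam p x ^ 2 = -(d x / Lam p x ^ 2) := by ring
        rw [e] at h6
        exact h6) (fun x _ => hF x) hcont.neg.intervalIntegrable (hAc.intervalIntegrable _ _), hF0]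
    have e : ∀ x, -(d x / Lam p x ^ 2) * F x = -(d x / Lam p x ^ 2 * F x) := fun x => by ring
    simp only [e]
    rw [intervalIntegral.integral_neg]
    ring
  -- the bound
  have hdl : ContinuousOn (fun x => d x / Lam p x) (Set.uIcc xs 1) := by
    rw [hI]
    exact hdc.continuousOn.div hLc.continuousOn fun x hx => hne x hx.1
  have h5 : ∫ x in xs..1, d x / Lam p x ^ 2 * F x ≤
      ∫ x in xs..1, 3 * Real.pi / 2 * (d x / Lam p x) := by
    refine intervalIntegral.integral_mono_on hxs1
      (hcont.mul hFc.continuousOn).intervalIntegrable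
      (continuousOn_const.mul hdl).intervalIntegrable fun x hx => ?_
    have h6 := hFup x hx.1
    have h7 := hL1 x hx.1
    have h8 : 0 ≤ d x / Lam p x ^ 2 := div_nonneg (hd x).2.1 (sq_nonneg _)
    calc d x / Lam p x ^ 2 * F x ≤ d x / Lam p x ^ 2 * (3 * Real.pi / 2 * Lam p x) :=
          mul_le_mul_of_nonneg_left h6 h8
      _ = 3 * Real.pi / 2 * (d x / Lam p x) := by
          field_simp
  have h6 : ∫ x in xs..1, d x / Lam p x = Real.log (Lam p 1 / Lam p xs) := by
    rw [intervalIntegral.integral_eq_sub_of_hasDerivAt (f := fun x => Real.log (Lam p x))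
      (fun x hx => by
        rw [hI] at hx
        exact (hd x).1.log (hne x hx.1)) hdl.intervalIntegrable]
    rw [Real.log_div (hne 1 hxs1) (hne xs le_rfl)]
  rw [intervalIntegral.integral_const_mul, h6] at h5
  have h7 : F 1 / Lam p 1 ≤ 3 * Real.pi / 2 := by
    have := hL1 1 hxs1
    rw [div_le_iff₀ (by linarith)]
    exact hFup 1 hxs1
  rw [h1]
  linarith

end Pool.Agent.Lib.MP684ec1.NB
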