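import Pool.Agent.Lib.MP_684ec1_an.HP.POL
import Pool.Agent.Lib.MP_684ec1_an.NB.MainA
import Pool.Agent.Lib.MP_684ec1_an.NB.PIE
import Pool.Agent.Lib.MP_684ec1_an.NB.DSC
import Pool.Agent.Lib.MP_684ec1_an.NB.RAY
import Pool.Agent.Lib.MP_684ec1_an.NB.PLD
import Pool.Agent.Lib.MP_684ec1_an.NB.MON
import Pool.Agent.Lib.MP_684ec1_an.NB.MDQ
import Pool.Agent.Lib.MP_684ec1_an.NB.MDR
import Pool.Agent.Lib.MP_684ec1_an.NB.MTM
import Pool.Agent.Lib.MP_684ec1_an.NB.MLG
import Pool.Agent.Lib.MP_684ec1_an.NB.LAM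
import Pool.Agent.Lib.MP_684ec1_an.NB.EXC
import Pool.Agent.Lib.MP_684ec1_an.NB.WOM
import Pool.Agent.Lib.MP_684ec1_an.NB.SIM
import Pool.Agent.Lib.MP_684ec1_an.NB.SIN
import Pool.Agent.Lib.MP_684ec1_an.NB.SCA
import Pool.Agent.Lib.MP_684ec1_an.NB.INB
import Pool.Agent.Lib.MP_684ec1_an.NB.TMC

/-!
# MP_684ec1, NB: assembly of the bounds in terms of the number of the monomials
-/

set_option autoImplicit false

namespace Pool.Agent.Lib.MP684ec1.NB

theorem allMON : SpecMON := specMON (specRAY specPIE specDSC) (specPLD HP.specPOL)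

theorem allMLG : SpecMLG := specMLG (specMTM (specMDR specMDQ))

theorem allEXC : SpecEXC := specEXC allMLG specLAM

theorem allSIN : SpecSIN := specSIN (specSIM allEXC specLAM) (specWOM allWEI specLAM) specLAM

theorem allTMC : SpecTMC :=
  specTMC allPLR allFNB specLAM allSIN (specSCA allFNB) (specINB (MD.specCSA MD.specARE))

end Pool.Agent.Lib.MP684ec1.NB
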