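import Pool.Agent.Lib.MP_684ec1_an.NB.Spec

/-!
# MP_684ec1: Littlewood's integral and the number of the monomials, part 2. Definitions and exact statements

THEOREM C (third part of `Results/MP_684ec1_an/Monomials.lean`). If `p` has degree `n ≥ 1` and `m` monomials then `P(p) ≤ 70 √m (1 + log n)`.
(Part 1, `NB/Spec.lean`: some `p` with `m` monomials has `P(p) ≥ √m / 4`.)

Module `XXX` is the file `NB/XXX.lean` with `theorem specXXX (hYYY : SpecYYY) .. : SpecXXX` (the modules named after USES, in this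
order) in the namespace `Pool.Agent.Lib.MP684ec1.NB`, own lemmas in the namespace `XXXM`. Every module of part 2 imports only
`Pool.Agent.Lib.MP_684ec1_an.NB.SpecM`. All proofs below are complete.

IDEA. `Lam(x) = log ∑ |a_k| e^(kx)`; `M` is the Mahler measure. `M(p') ≤ n M(p)` gives `|a_k| ≤ 2^(m-1) M(p)`, so the mean of `log |p|` over `|z| = e^x` is at
least `Lam - 2m` and `|p| < e^(3 Lam/4)` only on a set `E_x` of angles of measure `≤ 16 π m / Lam`. Off `E_x` the spherical derivative is at most `1` as soon as `Lam ≥ 1 + 2 log n`;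
on `E_x` use Cauchy-Schwarz with the weight `ω(x) = ∫_x^1 dt/Lam(t)`, for which `∫ ω a ≤ (3π/2) (1 + log (Lam(1)/Lam(x_s)))` and `∫ 1/(Lam ω) = log (ω(x_s)/ω(0))`.
-/

set_option autoImplicit false

namespace Pool.Agent.Lib.MP684ec1.NB

open Complex Polynomial MeasureTheory intervalIntegral
open Pool.Agent.Lib.MP684ec1.HP

noncomputable section

/-- `Lam(x) = log ∑ |a_k| e^(kx)` -/
def Lam (p : ℂ[X]) (x : ℝ) : ℝ := Real.log (∑ k ∈ p.support, ‖p.coeff k‖ * Real.exp (k * x))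

/-! ## Mahler measure -/

/-- **MDQ** (150 lines). Reflection of the outer zeros.
PROOF. Over the roots `ζ` of `p` (multiset; induction over the multiset): `q = C lc(p) · ∏ g_ζ`, `g_ζ = X - C ζ` if `|ζ| ≤ 1`, `g_ζ = 1 - C (conj ζ) X` if `|ζ| > 1` (zero `1/conj ζ`,
leading coefficient `- conj ζ`). For `|ζ| > 1`, `|z| ≥ 1`: `|1 - conj ζ z|² - |z - ζ|² = (1 - |z|²)(1 - |ζ|²) ≥ 0`. `Polynomial.mahlerMeasure_eq_leadingCoeff_mul_prod_roots`. -/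
def SpecMDQ : Prop := ∀ p : ℂ[X], p ≠ 0 → ∃ q : ℂ[X], q.natDegree = p.natDegree ∧ (∀ z : ℂ, q.eval z = 0 → ‖z‖ ≤ 1) ∧
  ‖q.leadingCoeff‖ = p.mahlerMeasure ∧ ∀ z : ℂ, 1 ≤ ‖z‖ → ‖p.eval z‖ ≤ ‖q.eval z‖

/-- **MDR** (150 lines), USES MDQ. The Mahler measure of the derivative.
PROOF. `n = natDegree p = 0`: `p' = 0`. Let `n ≥ 1`, `|λ| > 1`, `h = C λ * q - p`: for `|z| > 1` `q(z) ≠ 0` and `|p(z)| ≤ |q(z)| < |λ q(z)|`, so all roots of `h` are in the closed unit disc; its coefficient of index `n` is not `0`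
(`Polynomial.leadingCoeff_le_mahlerMeasure`), so its degree is `n > 0`. Gauss-Lucas (`Polynomial.rootSet_derivative_subset_convexHull_rootSet`; the disc is convex): `λ q'(z) ≠ p'(z)` for `|z| > 1`, and `q'(z) ≠ 0`.
So `|p'(z)| ≤ |q'(z)|` for `|z| > 1`, by continuity for `|z| ≥ 1`. Hence `M(p') ≤ M(q')` (if `p' ≠ 0`: `log |p'| ≤ log |q'|` on the circle up to the finitely many zeros of `p'`, as in the proof of
`Polynomial.mahlerMeasure_le_sum_norm_coeff` in Mathlib), and `M(q') = |lc q'| = n |lc q| = n M(p)` (all roots in the closed disc, `mahlerMeasure_eq_leadingCoeff_mul_prod_roots`). -/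
def SpecMDR : Prop := ∀ p : ℂ[X], p.derivative.mahlerMeasure ≤ p.natDegree * p.mahlerMeasure

/-- **MTM** (150 lines), USES MDR.
PROOF. Induction on `m = p.support.card`. `m = 1`: `p` is a monomial, `M(p) = |a_k|`. `m ≥ 2`: `p = X^d r`, `r(0) ≠ 0` (`M(X) = 1`, `mahlerMeasure_mul`), so let `p(0) ≠ 0`; `N = natDegree p ≥ 1`; `a_j ≠ 0`. If `2 j ≥ N`: `p'` has `m - 1` monomials and the coefficient
`j a_j` at `j - 1`, so `j |a_j| ≤ 2^(m-2) M(p') ≤ 2^(m-2) N M(p)`. If `2 j < N`: `p.reverse` has the same number of monomials, `p.reverse(0) ≠ 0`, the degree `N`, the coefficient `a_j` at `N - j`, and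
`M(p.reverse) = M(p)` (`|p.reverse(e^(iθ))| = |p(e^(-iθ))|`). -/
def SpecMTM : Prop := ∀ p : ℂ[X], p ≠ 0 → ∀ k : ℕ, ‖p.coeff k‖ ≤ 2 ^ (p.support.card - 1) * p.mahlerMeasure

/-- **MLG** (120 lines), USES MTM.
PROOF. `q = p.comp (C e^x * X)` has the coefficients `a_k e^(kx)` and the same support, `q(e^(iθ)) = p(lp x θ)`; `Polynomial.intervalIntegrable_mahlerMeasure`, `Polynomial.mahlerMeasure_def_of_ne_zero`. By MTM
`∑ |a_k| e^(kx) ≤ m 2^(m-1) M(q)`, and `log m + (m - 1) log 2 ≤ 2 m`. -/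
def SpecMLG : Prop := ∀ (p : ℂ[X]) (x : ℝ), p ≠ 0 →
  IntervalIntegrable (fun θ => Real.log ‖p.eval (lp x θ)‖) volume 0 (2 * Real.pi) ∧
  2 * Real.pi * (Lam p x - 2 * p.support.card) ≤ ∫ θ in (0 : ℝ)..(2 * Real.pi), Real.log ‖p.eval (lp x θ)‖

/-! ## `Lam` -/

/-- **LAM** (120 lines).
PROOF. `S(x) = ∑ |a_k| e^(kx) > 0` on the (nonempty) support, `Lam' = (∑ k |a_k| e^(kx))/S ∈ [0, n]`; `|lp x θ| = e^x`; `|p| ≤ S`, `|z p'(z)| ≤ ∑ k |a_k| e^(kx) ≤ n S`;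
`log (1 + S²) ≤ 2 max (Lam, 0) + log 2` (`1 + S² ≤ 2 max(1, S)²`), `UU` is `(1/2)` of an integral over an interval of length `2π`. -/
def SpecLAM : Prop := ∀ p : ℂ[X], p ≠ 0 → (∃ d : ℝ → ℝ, Continuous d ∧ ∀ x : ℝ, HasDerivAt (Lam p) (d x) x ∧ 0 ≤ d x ∧ d x ≤ p.natDegree) ∧
  ∀ x : ℝ, (∀ θ : ℝ, ‖p.eval (lp x θ)‖ ≤ Real.exp (Lam p x) ∧
    ‖p.derivative.eval (lp x θ)‖ * Real.exp x ≤ p.natDegree * Real.exp (Lam p x)) ∧
    UU p x ≤ Real.pi * (2 * max (Lam p x) 0 + 1)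

/-- **EXC** (80 lines), USES MLG, LAM. The exceptional angles.
PROOF. `f(θ) = Lam - log |p(lp x θ)| ≥ 0` (also if `p = 0`, as `log 0 = 0` in Lean and `Lam > 0`), `f ≥ Lam/4` on the set, `∫_0^2π f ≤ 4 π m` (MLG); Markov's inequality. -/
def SpecEXC : Prop := ∀ (p : ℂ[X]) (x : ℝ), p ≠ 0 → 0 < Lam p x →
  volume {θ : ℝ | θ ∈ Set.Icc 0 (2 * Real.pi) ∧ ‖p.eval (lp x θ)‖ < Real.exp (3 / 4 * Lam p x)} ≤
    ENNReal.ofReal (16 * Real.pi * p.support.card / Lam p x)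

/-- **WOM** (150 lines), USES WEI, LAM. The weight `ω(x) = ∫_x^1 dt/Lam(t)`, `ω' = - 1/Lam`, `ω(1) = 0`.
PROOF. `Lam` is nondecreasing, so `Lam ≥ 1` on `[xs, 1]`. `a = aa p ≥ 0` is continuous. `A(y) = ∫_(xs)^y a`, `F(y) = ∫_(xs)^y (y - x) a(x) dx`, `F' = A`, `F(xs) = 0`, and by WEI and LAM
`F(y) ≤ U(y)/2 ≤ (π/2)(2 Lam(y) + 1) ≤ (3π/2) Lam(y)`. Integration by parts twice: `∫_(xs)^0 ω a ≤ ∫_(xs)^1 ω a = [ω A] + ∫_(xs)^1 A/Lam = F(1)/Lam(1) + ∫_(xs)^1 F Lam'/Lam² ≤ (3π/2)(1 + ∫ Lam'/Lam)`. -/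
def SpecWOM : Prop := ∀ (p : ℂ[X]) (xs : ℝ), p ≠ 0 → xs ≤ 0 → 1 ≤ Lam p xs →
  ∫ x in xs..0, (∫ t in x..1, 1 / Lam p t) * aa p x ≤ 3 * Real.pi / 2 * (1 + Real.log (Lam p 1 / Lam p xs))

/-! ## The integral over an annulus -/

/-- **SIM** (120 lines), USES EXC, LAM. One circle.
PROOF. `E` the set of EXC, `s = sph(lp x θ) e^x`. Off `E`: `s = |z p'|/(1+|p|²) ≤ n e^(Lam)/e^(3 Lam/2) = n e^(-Lam/2) ≤ n e^(-1/2 - log n) ≤ 1`, so `s e^x ≤ e^x`. On `E`: `s e^x ≤ s ≤ (v/2) s² + 1/(2v)`. So always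
`s e^x ≤ e^x + (v/2) s² + 1_E/(2v)`; integrate over `[0, 2π]`. -/
def SpecSIM : Prop := ∀ (p : ℂ[X]) (x v : ℝ), 0 < p.natDegree → x ≤ 0 → 1 + 2 * Real.log p.natDegree ≤ Lam p x → 0 < v →
  ∫ θ in (0 : ℝ)..(2 * Real.pi), sph p (lp x θ) * Real.exp (2 * x) ≤
    2 * Real.pi * Real.exp x + v / 2 * aa p x + 8 * Real.pi * p.support.card / (v * Lam p x)

/-- **SIN** (150 lines), USES SIM, WOM, LAM.
PROOF. `N = 1 + log n`, `m` the number of monomials, `ω` as in WOM, `v = τ ω(x)`, `τ = 3 √m` in SIM. `∫_(xs)^0 2π e^x ≤ 2π ≤ 7`. `Lam(1) ≤ Lam(xs) + n (1 - xs)` (slope `≤ n`), `1 - xs ≤ 1 + N = 2 + log n ≤ 2 Lam(xs)`, so `Lam(1)/Lam(xs) ≤ 1 + 2n ≤ 3n`,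
`ℓ = log (Lam(1)/Lam(xs)) ≤ log 3 + log n`, `1 + ℓ ≤ 3 N`: `(τ/2) ∫ ω a ≤ (τ/2)(3π/2)(3N) = (9π/4) τ N`. `∫_(xs)^0 dx/(Lam ω) = log (ω(xs)/ω(0))` (`ω' = - 1/Lam`), `ω(xs) ≤ (1 - xs)/Lam(xs)`, `ω(0) ≥ 1/Lam(1)` (`Lam` nondecreasing),
so it is `≤ log (1 + N) + ℓ ≤ 3 N`: `(8πm/τ) · 3N`. Sum `≤ 7 + (27π/4 + 8π) √m N ≤ 7 + 47 √m N`. (Everything is continuous on `[xs, 0]`.) -/
def SpecSIN : Prop := ∀ (p : ℂ[X]) (xs : ℝ), 0 < p.natDegree → -(1 + Real.log p.natDegree) ≤ xs → xs ≤ 0 →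
  1 + 2 * Real.log p.natDegree ≤ Lam p xs →
  ∫ x in xs..0, ∫ θ in (0 : ℝ)..(2 * Real.pi), sph p (lp x θ) * Real.exp (2 * x) ≤
    7 + 47 * Real.sqrt p.support.card * (1 + Real.log p.natDegree)

/-- **SCA** (100 lines), USES FNB.
PROOF. `q = p.comp (C e^(x₁) * X)`, `sph q w = e^(x₁) sph p (e^(x₁) w)`, `UU q 0 = UU p x₁`, same degree; `∫_(|z| ≤ e^(x₁)) sph p = e^(2x₁) ∫_(|w| ≤ 1) sph p (e^(x₁) w) = e^(x₁) ∫_(|w| ≤ 1) sph q` and `e^(x₁) ≤ 1`. -/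
def SpecSCA : Prop := ∀ (p : ℂ[X]) (x₁ : ℝ), 0 < p.natDegree → x₁ ≤ 0 →
  ∫ z in Metric.closedBall (0 : ℂ) (Real.exp x₁), sph p z ≤ 5 + Real.sqrt (Real.pi * UU p x₁ * (1 + Real.log p.natDegree))

/-- **INB** (50 lines), USES `MD.SpecCSA` (hypothesis `(hCSA : MD.SpecCSA)`).
PROOF. The area is `π e^(-2) / n²`; CSA: `√(n π · π e^(-2)/n²) ≤ π/e ≤ 2`. -/
def SpecINB : Prop := ∀ p : ℂ[X], 0 < p.natDegree →
  ∫ z in Metric.closedBall (0 : ℂ) (Real.exp (-(1 + Real.log p.natDegree))), sph p z ≤ 2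

/-- **TMC** (150 lines), USES PLR, FNB, LAM, SIN, SCA, INB. Theorem C.
PROOF. `N = 1 + log n ≥ 1`, `m ≥ 1`. (1) `Lam(0) ≤ 1 + 2 log n`: FNB and LAM: `UU p 0 ≤ π (2 · 2N + 1) ≤ 5 π N`, `P ≤ 5 + √(5 π² N²) ≤ 5 + 8 N`. (2) `Lam(-N) ≥ 1 + 2 log n`: `xs = -N`, the disc is the union of the ball of INB
and of the annulus (PLR, SIN): `≤ 2 + 7 + 47 √m N`. (3) Otherwise there is `xs ∈ [-N, 0]` with `Lam(xs) = 1 + 2 log n` (intermediate values): SCA with `x₁ = xs` (`≤ 5 + 8 N` as in (1)) and PLR, SIN: `≤ 5 + 8 N + 7 + 47 √m N`. -/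
def SpecTMC : Prop := ∀ p : ℂ[X], 0 < p.natDegree →
  ∫ z in Metric.closedBall (0 : ℂ) 1, sph p z ≤ 70 * Real.sqrt p.support.card * (1 + Real.log p.natDegree)

end

end Pool.Agent.Lib.MP684ec1.NB
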